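import Pool.Agent.H.MP_02294b_ag.Cov.Fan2

/-! The sphere of a cut, mapped to the Fermat surface, and its degree. -/

set_option autoImplicit false

open Metric Set Filter Topology Complex

namespace Pool.Agent.H.MP_02294b_ag.Cov

section

variable (n : ℕ)

/-- the primitive root `exp (π i / 2 n)` -/
noncomputable def kap : ℂ := Complex.exp (((Real.pi / (2 * n) : ℝ) : ℂ) * I)

theorem kap_ne : kap n ≠ 0 := Complex.exp_ne_zero _

theorem kap_four (hn : n ≠ 0) : kap n ^ 4 = om n := by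
  rw [kap, om, ← Complex.exp_nat_mul]
  congr 1
  have h : (n : ℂ) ≠ 0 := by exact_mod_cast hn
  push_cast
  field_simp
  norm_num

theorem kap_pow (hn : n ≠ 0) : kap n ^ n = I := by
  rw [kap, ← Complex.exp_nat_mul]
  have h : (n : ℂ) ≠ 0 := by exact_mod_cast hn
  have : (n : ℂ) * (((Real.pi / (2 * n) : ℝ) : ℂ) * I) = Real.pi / 2 * I := by
    push_cast
    field_simp
  rw [this, Complex.exp_pi_div_two_mul_I]

theorem pt_mul_I (hn : n ≠ 0) {ρ : ℝ} (hρ : 0 ≤ ρ) :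
    pt n ((ρ : ℂ) * I) = ((ρ ^ ((n : ℝ)⁻¹) : ℝ) : ℂ) * kap n := by
  have hnR : (n : ℝ) ≠ 0 := by exact_mod_cast hn
  have hnC : (n : ℂ) ≠ 0 := by exact_mod_cast hn
  rcases hρ.lt_or_eq with h | h
  · have hne : (ρ : ℂ) * I ≠ 0 := mul_ne_zero (ofReal_ne_zero.2 h.ne') I_ne_zero
    rw [pt, cpow_def_of_ne_zero hne, log_ofReal_mul h I_ne_zero, log_I, Real.rpow_def_of_pos h,
      ofReal_exp, kap, ← Complex.exp_add]
    congr 1
    push_cast
    field_simp
  · rw [← h, ofReal_zero, zero_mul, Real.zero_rpow (inv_ne_zero hnR), ofReal_zero, zero_mul, pt,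
      zero_cpow (inv_ne_zero hnC)]

theorem pt_mul_neg_I (hn : n ≠ 0) {ρ : ℝ} (hρ : 0 ≤ ρ) :
    pt n ((ρ : ℂ) * -I) = ((ρ ^ ((n : ℝ)⁻¹) : ℝ) : ℂ) * (kap n)⁻¹ := by
  have hnR : (n : ℝ) ≠ 0 := by exact_mod_cast hn
  have hnC : (n : ℂ) ≠ 0 := by exact_mod_cast hn
  rcases hρ.lt_or_eq with h | h
  · have hne : (ρ : ℂ) * -I ≠ 0 := mul_ne_zero (ofReal_ne_zero.2 h.ne') (neg_ne_zero.2 I_ne_zero)
    rw [pt, cpow_def_of_ne_zero hne, log_ofReal_mul h (neg_ne_zero.2 I_ne_zero), log_neg_I,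
      Real.rpow_def_of_pos h, ofReal_exp, kap, ← Complex.exp_neg, ← Complex.exp_add]
    congr 1
    push_cast
    field_simp
  · rw [← h, ofReal_zero, zero_mul, Real.zero_rpow (inv_ne_zero hnR), ofReal_zero, zero_mul, pt,
      zero_cpow (inv_ne_zero hnC)]

/-- the root of a function whose imaginary part has the sign of the height -/
noncomputable def hr (x2 : ℝ) (z : ℂ) : ℂ :=
  if 0 ≤ x2 then kap n * pt n (-I * z) else kap n ^ 3 * pt n (I * z)

theorem hr_pow (hn : n ≠ 0) (x2 : ℝ) (z : ℂ) : hr n x2 z ^ n = z := by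
  rw [hr]
  split_ifs
  · rw [mul_pow, kap_pow n hn, pt_pow n hn]
    linear_combination (-z) * I_mul_I
  · rw [mul_pow, ← pow_mul, mul_comm 3 n, pow_mul, kap_pow n hn, pt_pow n hn]
    have h : I ^ 3 = -I := by
      rw [pow_succ, I_sq]
      ring
    rw [h]
    linear_combination (-z) * I_mul_I

theorem hr_ne (hn : n ≠ 0) {x2 : ℝ} {z : ℂ} (hz : z ≠ 0) : hr n x2 z ≠ 0 := by
  intro h
  apply hz
  rw [← hr_pow n hn x2 z, h, zero_pow hn]

/-- agreement on the equator -/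
theorem hr_match (hn : n ≠ 0) {ρ : ℝ} (hρ : 0 ≤ ρ) :
    kap n * pt n (-I * (-(ρ : ℂ))) = kap n ^ 3 * pt n (I * (-(ρ : ℂ))) := by
  have e1 : -I * (-(ρ : ℂ)) = (ρ : ℂ) * I := by ring
  have e2 : I * (-(ρ : ℂ)) = (ρ : ℂ) * -I := by ring
  rw [e1, e2, pt_mul_I n hn hρ, pt_mul_neg_I n hn hρ]
  have := kap_ne n
  field_simp

/-- on nonnegative reals -/
theorem hr_real (hn : n ≠ 0) (x2 : ℝ) {s : ℝ} (hs : 0 ≤ s) :
    hr n x2 (s : ℂ) = (if 0 ≤ x2 then (1 : ℂ) else om n) * ((s ^ ((n : ℝ)⁻¹) : ℝ) : ℂ) := by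
  have hk := kap_ne n
  rw [hr]
  split_ifs
  · have e1 : -I * (s : ℂ) = (s : ℂ) * -I := by ring
    rw [e1, pt_mul_neg_I n hn hs]
    field_simp
  · have e1 : I * (s : ℂ) = (s : ℂ) * I := by ring
    rw [e1, pt_mul_I n hn hs, ← kap_four n hn]
    ring

/-- continuity of the root -/
theorem continuous_hr (hn : n ≠ 0) {Z : Type*} [TopologicalSpace Z] {x2 : Z → ℝ} {z : Z → ℂ}
    (hx : Continuous x2) (hz : Continuous z) (h1 : ∀ a, 0 ≤ x2 a → 0 ≤ (z a).im)
    (h2 : ∀ a, x2 a ≤ 0 → (z a).im ≤ 0)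
    (h3 : ∀ a, x2 a = 0 → ∃ ρ : ℝ, 0 ≤ ρ ∧ z a = -(ρ : ℂ)) :
    Continuous fun a => hr n (x2 a) (z a) := by
  unfold hr
  refine continuous_if_le continuous_const hx ?_ ?_ ?_
  · intro a ha
    refine ContinuousAt.continuousWithinAt (continuousAt_const.mul ?_)
    refine ContinuousAt.comp (g := pt n) (f := fun a => -I * z a) (continuousAt_pt' n hn ?_)
      (continuousAt_const.mul hz.continuousAt)
    have := h1 a ha
    simp
    exact this
  · intro a ha
    refine ContinuousAt.continuousWithinAt (continuousAt_const.mul ?_)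
    refine ContinuousAt.comp (g := pt n) (f := fun a => I * z a) (continuousAt_pt' n hn ?_)
      (continuousAt_const.mul hz.continuousAt)
    have := h2 a ha
    simp
    exact this
  · intro a ha
    obtain ⟨ρ, hρ, hz⟩ := h3 a ha.symm
    rw [hz]
    exact hr_match n hn hρ

/-- the complex height -/
noncomputable def Tc (ε : ℝ) (X : R3) : ℂ := (TT X : ℂ) * (1 - ((ε * X 2 : ℝ) : ℂ) * I)

theorem Tc_re (ε : ℝ) (X : R3) : (Tc ε X).re = TT X := by
  simp [Tc]

theorem Tc_im (ε : ℝ) (X : R3) : (Tc ε X).im = -(ε * X 2 * TT X) := by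
  simp [Tc]
  ring

theorem Tc_zero (X : R3) : Tc 0 X = (TT X : ℂ) := by
  simp [Tc]

theorem continuous_Tc {Z : Type*} [TopologicalSpace Z] {ε : Z → ℝ} {X : Z → S2}
    (hε : Continuous ε) (hX : Continuous X) : Continuous fun a => Tc (ε a) (X a : R3) := by
  have hXR : Continuous fun a => (X a : R3) := continuous_subtype_val.comp hX
  have h2 : Continuous fun a => (X a : R3) 2 := by fun_prop
  exact (continuous_ofReal.comp (continuous_TT.comp hXR)).mul
    (continuous_const.sub ((continuous_ofReal.comp (hε.mul h2)).mul continuous_const))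

/-- the factor `T^{1/n} conj v` -/
noncomputable def lamc (ε : ℝ) (X : R3) : ℂ := pt n (Tc ε X) * (starRingEnd ℂ) (vv X)

theorem lamc_pow (hn : n ≠ 0) (ε : ℝ) (X : R3) :
    lamc n ε X ^ n = Tc ε X * (starRingEnd ℂ) (vv X ^ n) := by
  rw [lamc, mul_pow, pt_pow n hn, map_pow]

theorem lamc_zero (X : R3) : lamc n 0 X = lam n X := by
  rw [lamc, Tc_zero, pt_ofReal n (TT_nonneg X), lam]

theorem continuous_lamc (hn : n ≠ 0) {Z : Type*} [TopologicalSpace Z] {ε : Z → ℝ} {X : Z → S2}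
    (hε : Continuous ε) (hX : Continuous X) : Continuous fun a => lamc n (ε a) (X a : R3) := by
  have hXR : Continuous fun a => (X a : R3) := continuous_subtype_val.comp hX
  refine Continuous.mul ?_ (continuous_conj.comp (continuous_vv.comp hXR))
  rw [continuous_iff_continuousAt]
  intro a
  refine ContinuousAt.comp (g := pt n) (f := fun a => Tc (ε a) (X a : R3))
    (continuousAt_pt' n hn ?_) (continuous_Tc hε hX).continuousAt
  rw [Tc_re]
  exact TT_nonneg _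

theorem Tc_eq_zero {X : R3} (ε : ℝ) (h : TT X = 0) : Tc ε X = 0 := by
  rw [Tc, h, ofReal_zero, zero_mul]

theorem lamc_pf_pow (hn : n ≠ 0) (b ε : ℝ) (X : R3) :
    (lamc n ε X * pf n b (vv X ^ n)) ^ n
      = 2 * Tc ε X * (((vv X ^ n).re : ℂ) - (Real.cos b : ℂ)) := by
  rw [mul_pow, lamc_pow n hn, pf_pow n hn]
  rcases (TT_nonneg X).lt_or_eq with h | h
  · have hw : ‖vv X ^ n‖ = 1 := by rw [norm_pow, norm_vv_of_pos h, one_pow]
    generalize vv X ^ n = w at hw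
    have h1 : (starRingEnd ℂ) w * w = 1 := by
      rw [mul_comm, mul_conj, normSq_eq_norm_sq, hw]
      simp
    have h2 : (starRingEnd ℂ) w + w = 2 * (w.re : ℂ) := by
      rw [add_comm, add_conj]
      push_cast
      ring
    linear_combination (Tc ε X * (w - 2 * (Real.cos b : ℂ))) * h1 + Tc ε X * h2
  · rw [Tc_eq_zero ε h.symm]
    ring

/-- the barycentric coordinates of the complex base point -/
noncomputable def baryc (ε : ℝ) (X : R3) : Fin 3 → ℂ :=
  ![1 - Tc ε X, Tc ε X * (1 + ((vv X ^ n).re : ℂ)) / 2, Tc ε X * (1 - ((vv X ^ n).re : ℂ)) / 2]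

theorem baryc_re (ε : ℝ) (X : R3) (a : Fin 3) : (baryc n ε X a).re = bary n X a := by
  have h1 : ∀ r : ℝ, (Tc ε X * ((r : ℝ) : ℂ)).re = TT X * r := by
    intro r
    rw [mul_comm, re_ofReal_mul, Tc_re, mul_comm]
  fin_cases a
  · show (1 - Tc ε X).re = 1 - TT X
    rw [sub_re, Tc_re, one_re]
  · show (Tc ε X * (1 + ((vv X ^ n).re : ℂ)) / 2).re = TT X * (1 + (vv X ^ n).re) / 2
    have e : Tc ε X * (1 + ((vv X ^ n).re : ℂ)) / 2
        = Tc ε X * (((1 + (vv X ^ n).re) / 2 : ℝ) : ℂ) := by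
      push_cast
      ring
    rw [e, h1]
    ring
  · show (Tc ε X * (1 - ((vv X ^ n).re : ℂ)) / 2).re = TT X * (1 - (vv X ^ n).re) / 2
    have e : Tc ε X * (1 - ((vv X ^ n).re : ℂ)) / 2
        = Tc ε X * (((1 - (vv X ^ n).re) / 2 : ℝ) : ℂ) := by
      push_cast
      ring
    rw [e, h1]
    ring

theorem continuous_baryc {Z : Type*} [TopologicalSpace Z] {ε : Z → ℝ} {X : Z → S2}
    (hε : Continuous ε) (hX : Continuous X) (i : Fin 3) :
    Continuous fun a => baryc n (ε a) (X a : R3) i := by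
  have hXR : Continuous fun a => (X a : R3) := continuous_subtype_val.comp hX
  have hT := continuous_Tc hε hX
  have h1 : Continuous fun a => (((vv (X a : R3) ^ n).re : ℝ) : ℂ) :=
    continuous_ofReal.comp (continuous_re.comp ((continuous_vv.comp hXR).pow n))
  fin_cases i
  · exact continuous_const.sub hT
  · exact (hT.mul (continuous_const.add h1)).div_const _
  · exact (hT.mul (continuous_const.sub h1)).div_const _

/-- the value of a crossing form -/
noncomputable def hv (ε r1 r2 : ℝ) (X : R3) : ℂ :=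
  baryc n ε X 0 - r1 * baryc n ε X 1 - r2 * baryc n ε X 2

/-- the real coefficient -/
noncomputable def rr (r1 r2 : ℝ) (X : R3) : ℝ :=
  r1 * (1 + (vv X ^ n).re) / 2 + r2 * (1 - (vv X ^ n).re) / 2

theorem hv_eq (ε r1 r2 : ℝ) (X : R3) : hv n ε r1 r2 X = 1 - Tc ε X * (1 + (rr n r1 r2 X : ℂ)) := by
  show (1 - Tc ε X) - r1 * (Tc ε X * (1 + ((vv X ^ n).re : ℂ)) / 2)
    - r2 * (Tc ε X * (1 - ((vv X ^ n).re : ℂ)) / 2) = _
  rw [rr]
  push_cast
  ring

theorem re_vv (X : R3) : -1 ≤ (vv X ^ n).re ∧ (vv X ^ n).re ≤ 1 :=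
  abs_le.1 ((abs_re_le_norm _).trans (norm_vpow n X))

theorem rr_nonneg {r1 r2 : ℝ} (h1 : 0 ≤ r1) (h2 : 0 ≤ r2) (X : R3) : 0 ≤ rr n r1 r2 X := by
  obtain ⟨h3, h4⟩ := re_vv n X
  rw [rr]
  have := mul_nonneg h1 (by linarith : (0 : ℝ) ≤ 1 + (vv X ^ n).re)
  have := mul_nonneg h2 (by linarith : (0 : ℝ) ≤ 1 - (vv X ^ n).re)
  linarith

theorem rr_pos {r1 r2 : ℝ} (h1 : 0 < r1) (h2 : 0 < r2) (X : R3) : 0 < rr n r1 r2 X := by
  obtain ⟨h3, h4⟩ := re_vv n X
  rw [rr]
  rcases le_or_gt (vv X ^ n).re 0 with h | h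
  · have := mul_nonneg h1.le (by linarith : (0 : ℝ) ≤ 1 + (vv X ^ n).re)
    have := mul_pos h2 (by linarith : (0 : ℝ) < 1 - (vv X ^ n).re)
    linarith
  · have := mul_pos h1 (by linarith : (0 : ℝ) < 1 + (vv X ^ n).re)
    have := mul_nonneg h2.le (by linarith : (0 : ℝ) ≤ 1 - (vv X ^ n).re)
    linarith

theorem hv_im (ε r1 r2 : ℝ) (X : R3) :
    (hv n ε r1 r2 X).im = ε * X 2 * TT X * (1 + rr n r1 r2 X) := by
  rw [hv_eq]
  have : (Tc ε X * (1 + (rr n r1 r2 X : ℂ))) = ((1 + rr n r1 r2 X : ℝ) : ℂ) * Tc ε X := by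
    push_cast
    ring
  rw [this, sub_im, im_ofReal_mul, Tc_im, one_im]
  ring

theorem hv_equator (ε r1 r2 : ℝ) {X : S2} (h : (X : R3) 2 = 0) :
    hv n ε r1 r2 X = -(rr n r1 r2 X : ℂ) := by
  rw [hv_eq, Tc, h, TT_eq_one h]
  push_cast
  ring

theorem hv_ne {ε r1 r2 : ℝ} (hε : 0 < ε) (h1 : 0 < r1) (h2 : 0 < r2) (X : S2) :
    hv n ε r1 r2 X ≠ 0 := by
  intro h
  have hr := rr_pos n h1 h2 X
  have him := hv_im n ε r1 r2 X
  rw [h, zero_im] at him
  have h3 : (X : R3) 2 * TT (X : R3) = 0 := by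
    have h5 : ε * ((X : R3) 2 * TT (X : R3)) * (1 + rr n r1 r2 X) = 0 := by linarith
    rcases mul_eq_zero.1 h5 with h6 | h6
    · exact (mul_eq_zero.1 h6).resolve_left hε.ne'
    · linarith
  rcases mul_eq_zero.1 h3 with h4 | h4
  · rw [hv_equator n ε r1 r2 h4, neg_eq_zero, ofReal_eq_zero] at h
    linarith
  · rw [hv_eq, Tc_eq_zero ε h4] at h
    simp at h

/-- the point of the cone -/
noncomputable def gv (θ : ℂ) (ε r1 r2 : ℝ) (m : Fin 3 → ℂ) (X : R3) : Fin 4 → ℂ :=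
  ![pt n (1 / 4 : ℝ) * pt n (m 1 + m 0 * r1) * (lamc n ε X * pf n Real.pi (vv X ^ n)),
    θ * pt n (1 / 4 : ℝ) * pt n (m 2 + m 0 * r2) * (lamc n ε X * pf n 0 (vv X ^ n)),
    pt n (m 0) * hr n (X 2) (hv n ε r1 r2 X),
    pt n (∑ a, m a * baryc n ε X a)]

theorem gv_mem (hn : n ≠ 0) {θ : ℂ} (hθ : θ ^ n = -1) {ε r1 r2 : ℝ} {m : Fin 3 → ℂ} {X : R3}
    (hpos : 0 < (∑ a, m a * baryc n ε X a).re) : gv n θ ε r1 r2 m X ∈ Cone n := by
  constructor
  · intro h
    have h3 := congrFun h 3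
    simp only [gv, Matrix.cons_val, Pi.zero_apply] at h3
    refine pt_ne n hn ?_ h3
    intro h0
    rw [h0] at hpos
    simp at hpos
  · have h1 : (lamc n ε X * pf n Real.pi (vv X ^ n)) ^ n
        = 2 * Tc ε X * (((vv X ^ n).re : ℂ) + 1) := by
      rw [lamc_pf_pow n hn, Real.cos_pi]
      push_cast
      ring
    have h2 : (lamc n ε X * pf n 0 (vv X ^ n)) ^ n
        = 2 * Tc ε X * (((vv X ^ n).re : ℂ) - 1) := by
      rw [lamc_pf_pow n hn, Real.cos_zero]
      push_cast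
      ring
    have e0 : baryc n ε X 0 = 1 - Tc ε X := rfl
    have e1 : baryc n ε X 1 = Tc ε X * (1 + ((vv X ^ n).re : ℂ)) / 2 := rfl
    have e2 : baryc n ε X 2 = Tc ε X * (1 - ((vv X ^ n).re : ℂ)) / 2 := rfl
    show (pt n (1 / 4 : ℝ) * pt n (m 1 + m 0 * r1) * (lamc n ε X * pf n Real.pi (vv X ^ n))) ^ n
      + (θ * pt n (1 / 4 : ℝ) * pt n (m 2 + m 0 * r2) * (lamc n ε X * pf n 0 (vv X ^ n))) ^ n
      + (pt n (m 0) * hr n (X 2) (hv n ε r1 r2 X)) ^ n = (pt n (∑ a, m a * baryc n ε X a)) ^ n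
    rw [mul_pow, mul_pow, mul_pow (θ * pt n (1 / 4 : ℝ) * pt n (m 2 + m 0 * r2)),
      mul_pow (θ * pt n (1 / 4 : ℝ)), mul_pow θ, mul_pow (pt n (m 0)),
      pt_pow n hn, pt_pow n hn, pt_pow n hn, pt_pow n hn, pt_pow n hn, h1, h2, hθ,
      hr_pow n hn, Fin.sum_univ_three, hv, e0, e1, e2]
    push_cast
    ring

theorem continuous_rr {Z : Type*} [TopologicalSpace Z] {r1 r2 : Z → ℝ} {X : Z → S2}
    (h1 : Continuous r1) (h2 : Continuous r2) (hX : Continuous X) :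
    Continuous fun a => rr n (r1 a) (r2 a) (X a : R3) := by
  have hXR : Continuous fun a => (X a : R3) := continuous_subtype_val.comp hX
  have h3 : Continuous fun a => (vv (X a : R3) ^ n).re :=
    continuous_re.comp ((continuous_vv.comp hXR).pow n)
  exact ((h1.mul (continuous_const.add h3)).div_const _).add
    ((h2.mul (continuous_const.sub h3)).div_const _)

theorem continuous_hv {Z : Type*} [TopologicalSpace Z] {ε r1 r2 : Z → ℝ} {X : Z → S2}
    (hε : Continuous ε) (h1 : Continuous r1) (h2 : Continuous r2) (hX : Continuous X) :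
    Continuous fun a => hv n (ε a) (r1 a) (r2 a) (X a : R3) := by
  simp only [hv_eq]
  exact continuous_const.sub ((continuous_Tc hε hX).mul
    (continuous_const.add (continuous_ofReal.comp (continuous_rr n h1 h2 hX))))

theorem continuous_hr_hv (hn : n ≠ 0) {Z : Type*} [TopologicalSpace Z] {ε r1 r2 : Z → ℝ}
    {X : Z → S2} (hε : Continuous ε) (h1 : Continuous r1) (h2 : Continuous r2) (hX : Continuous X)
    (pε : ∀ a, 0 ≤ ε a) (p1 : ∀ a, 0 ≤ r1 a) (p2 : ∀ a, 0 ≤ r2 a) :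
    Continuous fun a => hr n ((X a : R3) 2) (hv n (ε a) (r1 a) (r2 a) (X a : R3)) := by
  have hXR : Continuous fun a => (X a : R3) := continuous_subtype_val.comp hX
  refine continuous_hr n hn (x2 := fun a => (X a : R3) 2)
    (z := fun a => hv n (ε a) (r1 a) (r2 a) (X a : R3)) (by fun_prop)
    (continuous_hv n hε h1 h2 hX) ?_ ?_ ?_
  · intro a ha
    rw [hv_im]
    have := rr_nonneg n (p1 a) (p2 a) (X a : R3)
    have := TT_nonneg (X a : R3)
    have := pε a
    positivity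
  · intro a ha
    rw [hv_im]
    have h3 := rr_nonneg n (p1 a) (p2 a) (X a : R3)
    have h4 := TT_nonneg (X a : R3)
    have h5 := pε a
    have h6 : ε a * (X a : R3) 2 ≤ 0 := mul_nonpos_of_nonneg_of_nonpos h5 ha
    have h7 : ε a * (X a : R3) 2 * TT (X a : R3) ≤ 0 := mul_nonpos_of_nonpos_of_nonneg h6 h4
    exact mul_nonpos_of_nonpos_of_nonneg h7 (by linarith)
  · intro a ha
    exact ⟨rr n (r1 a) (r2 a) (X a), rr_nonneg n (p1 a) (p2 a) _, hv_equator n _ _ _ ha⟩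

theorem continuous_gv (hn : n ≠ 0) (θ : ℂ) {Z : Type*} [TopologicalSpace Z] {ε r1 r2 : Z → ℝ}
    {X : Z → S2} (m : Fin 3 → ℂ) (hm : ∀ i, 0 < (m i).re)
    (hε : Continuous ε) (h1 : Continuous r1) (h2 : Continuous r2) (hX : Continuous X)
    (pε : ∀ a, 0 ≤ ε a) (p1 : ∀ a, 0 ≤ r1 a) (p2 : ∀ a, 0 ≤ r2 a)
    (hpos : ∀ a, 0 < (∑ i, m i * baryc n (ε a) (X a : R3) i).re) :
    Continuous fun a => gv n θ (ε a) (r1 a) (r2 a) m (X a) := by
  have hXR : Continuous fun a => (X a : R3) := continuous_subtype_val.comp hX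
  have hl := continuous_lamc n hn hε hX
  have hp : ∀ b : ℝ, Continuous fun a => pf n b (vv (X a : R3) ^ n) := fun b =>
    continuous_pf n hn b ((continuous_vv.comp hXR).pow n) (fun a => norm_vpow n (X a))
  have hc : ∀ (c : ℂ) (r : Z → ℝ), 0 < c.re → Continuous r → (∀ a, 0 ≤ r a) →
      Continuous fun a => pt n (c + m 0 * r a) := by
    intro c r hc hr pr
    rw [continuous_iff_continuousAt]
    intro a
    refine ContinuousAt.comp (g := pt n) (f := fun a => c + m 0 * (r a : ℂ))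
      (continuousAt_pt n ?_) ?_
    · have h5 : (m 0 * (r a : ℂ)).re = r a * (m 0).re := by
        rw [mul_comm, re_ofReal_mul]
      rw [add_re, h5]
      have := mul_nonneg (pr a) (hm 0).le
      linarith
    · exact (continuous_const.add (continuous_const.mul
        (continuous_ofReal.comp hr))).continuousAt
  have h3 : Continuous fun a => pt n (∑ i, m i * baryc n (ε a) (X a : R3) i) := by
    have h4 : Continuous fun a => ∑ i, m i * baryc n (ε a) (X a : R3) i :=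
      continuous_finsetSum _ fun i _ => continuous_const.mul (continuous_baryc n hε hX i)
    rw [continuous_iff_continuousAt]
    intro a
    exact ContinuousAt.comp (g := pt n) (f := fun a => ∑ i, m i * baryc n (ε a) (X a : R3) i)
      (continuousAt_pt n (hpos a)) h4.continuousAt
  refine continuous_pi fun i => ?_
  fin_cases i
  · exact (continuous_const.mul (hc _ _ (hm 1) h1 p1)).mul (hl.mul (hp _))
  · exact (continuous_const.mul (hc _ _ (hm 2) h2 p2)).mul (hl.mul (hp _))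
  · exact continuous_const.mul (continuous_hr_hv n hn hε h1 h2 hX pε p1 p2)
  · exact h3

/-- the sphere of the cut as a map to the cone -/
noncomputable def gsph (hn : n ≠ 0) {θ : ℂ} (hθ : θ ^ n = -1) {ε r1 r2 : ℝ} (pε : 0 ≤ ε)
    (p1 : 0 ≤ r1) (p2 : 0 ≤ r2) (m : Fin 3 → ℂ) (hm : ∀ i, 0 < (m i).re)
    (hpos : ∀ X : S2, 0 < (∑ a, m a * baryc n ε X a).re) : C(S2, Cone n) where
  toFun X := ⟨gv n θ ε r1 r2 m X, gv_mem n hn hθ (hpos X)⟩
  continuous_toFun := Continuous.subtype_mk (continuous_gv n hn θ (ε := fun _ => ε)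
    (r1 := fun _ => r1) (r2 := fun _ => r2) (X := fun X => X) m hm continuous_const
    continuous_const continuous_const continuous_id (fun _ => pε) (fun _ => p1) (fun _ => p2)
    hpos) _

/-- at the end of the homotopy the sphere is the sphere of the fan -/
theorem gv_zero (hn : n ≠ 0) (θ : ℂ) (m : Fin 3 → ℂ) (X : S2) :
    gv n θ 0 0 0 m X = vf n (om n) θ m X := by
  have hb : ∀ a, baryc n 0 X a = ((bary n X a : ℝ) : ℂ) := by
    intro a
    fin_cases a
    · show 1 - Tc 0 X = ((1 - TT X : ℝ) : ℂ)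
      rw [Tc_zero]
      push_cast
      ring
    · show Tc 0 X * (1 + ((vv X ^ n).re : ℂ)) / 2 = ((TT X * (1 + (vv X ^ n).re) / 2 : ℝ) : ℂ)
      rw [Tc_zero]
      push_cast
      ring
    · show Tc 0 X * (1 - ((vv X ^ n).re : ℂ)) / 2 = ((TT X * (1 - (vv X ^ n).re) / 2 : ℝ) : ℂ)
      rw [Tc_zero]
      push_cast
      ring
  have hh : hr n ((X : R3) 2) (hv n 0 0 0 X) = er n (om n) X := by
    have : hv n 0 0 0 X = ((1 - TT X : ℝ) : ℂ) := by
      rw [hv_eq, Tc_zero, rr]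
      push_cast
      ring
    rw [this, hr_real n hn _ (by linarith [TT_le_one X]), er]
  rw [gv, vf, hh, lamc_zero]
  simp only [hb, ofReal_zero, mul_zero, add_zero]

theorem gsph_homotopic (hn : n ≠ 0) {θ : ℂ} (hθ : θ ^ n = -1) {ε r1 r2 : ℝ} (pε : 0 ≤ ε)
    (p1 : 0 ≤ r1) (p2 : 0 ≤ r2) (m : Fin 3 → ℂ) (hm : ∀ i, 0 < (m i).re)
    (hpos : ∀ X : S2, 0 < (∑ a, m a * baryc n ε X a).re) :
    (gsph n hn hθ pε p1 p2 m hm hpos).Homotopic (fsph n (om n) hn (om_pow n hn) hθ m hm) := by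
  -- positivity along the homotopy
  have hpos' : ∀ (t : unitInterval) (X : S2),
      0 < (∑ a, m a * baryc n ((1 - (t : ℝ)) * ε) X a).re := by
    intro t X
    have h0 := hpos X
    have h1 := re_bary_pos n hm X
    have key : (∑ a, m a * baryc n ((1 - (t : ℝ)) * ε) X a)
        = ((1 - (t : ℝ) : ℝ) : ℂ) * (∑ a, m a * baryc n ε X a)
          + ((t : ℝ) : ℂ) * (∑ a, m a * ((bary n X a : ℝ) : ℂ)) := by
      have hT : Tc ((1 - (t : ℝ)) * ε) X = ((1 - (t : ℝ) : ℝ) : ℂ) * Tc ε X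
          + ((t : ℝ) : ℂ) * (TT X : ℂ) := by
        rw [Tc, Tc]
        push_cast
        ring
      rw [Fin.sum_univ_three, Fin.sum_univ_three, Fin.sum_univ_three]
      show m 0 * (1 - Tc ((1 - (t : ℝ)) * ε) X)
        + m 1 * (Tc ((1 - (t : ℝ)) * ε) X * (1 + ((vv X ^ n).re : ℂ)) / 2)
        + m 2 * (Tc ((1 - (t : ℝ)) * ε) X * (1 - ((vv X ^ n).re : ℂ)) / 2)
        = ((1 - (t : ℝ) : ℝ) : ℂ) * (m 0 * (1 - Tc ε X)
          + m 1 * (Tc ε X * (1 + ((vv X ^ n).re : ℂ)) / 2)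
          + m 2 * (Tc ε X * (1 - ((vv X ^ n).re : ℂ)) / 2))
          + ((t : ℝ) : ℂ) * (m 0 * ((1 - TT X : ℝ) : ℂ)
          + m 1 * ((TT X * (1 + (vv X ^ n).re) / 2 : ℝ) : ℂ)
          + m 2 * ((TT X * (1 - (vv X ^ n).re) / 2 : ℝ) : ℂ))
      rw [hT]
      push_cast
      ring
    rw [key, add_re, re_ofReal_mul, re_ofReal_mul]
    have ht0 := t.2.1
    have ht1 := t.2.2
    rcases ht0.lt_or_eq with h | h
    · have := mul_pos h h1
      have := mul_nonneg (by linarith : (0 : ℝ) ≤ 1 - (t : ℝ)) h0.le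
      linarith
    · rw [← h]
      simpa using h0
  have ht1 : ∀ t : unitInterval, 0 ≤ 1 - (t : ℝ) := fun t => by linarith [t.2.2]
  refine ⟨⟨⟨fun p => ⟨gv n θ ((1 - (p.1 : ℝ)) * ε) ((1 - (p.1 : ℝ)) * r1) ((1 - (p.1 : ℝ)) * r2) m
    p.2, gv_mem n hn hθ (hpos' p.1 p.2)⟩, ?_⟩, ?_, ?_⟩⟩
  · refine Continuous.subtype_mk (continuous_gv n hn θ
      (ε := fun p : unitInterval × S2 => (1 - (p.1 : ℝ)) * ε)
      (r1 := fun p : unitInterval × S2 => (1 - (p.1 : ℝ)) * r1)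
      (r2 := fun p : unitInterval × S2 => (1 - (p.1 : ℝ)) * r2)
      (X := fun p : unitInterval × S2 => p.2) m hm (by fun_prop) (by fun_prop) (by fun_prop)
      continuous_snd (fun p => mul_nonneg (ht1 p.1) pε) (fun p => mul_nonneg (ht1 p.1) p1)
      (fun p => mul_nonneg (ht1 p.1) p2) (fun p => hpos' p.1 p.2)) _
  · intro X
    apply Subtype.ext
    show gv n θ ((1 - ((0 : unitInterval) : ℝ)) * ε) ((1 - ((0 : unitInterval) : ℝ)) * r1)
      ((1 - ((0 : unitInterval) : ℝ)) * r2) m X = gv n θ ε r1 r2 m X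
    simp
  · intro X
    apply Subtype.ext
    show gv n θ ((1 - ((1 : unitInterval) : ℝ)) * ε) ((1 - ((1 : unitInterval) : ℝ)) * r1)
      ((1 - ((1 : unitInterval) : ℝ)) * r2) m X = vf n (om n) θ m X
    rw [← gv_zero n hn]
    simp

/-- The projection restricted to the sphere of a cut is homotopic to the identity. -/
theorem pr_gsph (h2 : 2 ≤ n) (hn : n ≠ 0) (hn1 : 1 ≤ n) {θ η : ℂ} (hθ : θ ^ n = -1)
    (hη : η ^ n = -1) (hηθ : η * θ = om n) {ε r1 r2 : ℝ} (pε : 0 ≤ ε)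
    (p1 : 0 ≤ r1) (p2 : 0 ≤ r2) (m : Fin 3 → ℂ) (hm : ∀ i, 0 < (m i).re)
    (hpos : ∀ X : S2, 0 < (∑ a, m a * baryc n ε X a).re) :
    ((refl2.comp (⟨pr n η hn1 hη, continuous_pr n η hn1 hη⟩ : C(Cone n, S2))).comp
      (gsph n hn hθ pε p1 p2 m hm hpos)).Homotopic (ContinuousMap.id S2) :=
  ((ContinuousMap.Homotopic.refl _).comp (gsph_homotopic n hn hθ pε p1 p2 m hm hpos)).trans
    (pr_fsph n h2 hn hn1 hθ hη hηθ m hm)

/-- positivity for a small imaginary part -/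
theorem exists_eps (m : Fin 3 → ℂ) (hm : ∀ i, 0 < (m i).re) :
    ∃ ε0 : ℝ, 0 < ε0 ∧ ∀ ε : ℝ, 0 < ε → ε ≤ ε0 → ∀ X : S2,
      0 < (∑ a, m a * baryc n ε X a).re := by
  obtain ⟨δ, hδ, hδm⟩ : ∃ δ : ℝ, 0 < δ ∧ ∀ i, δ ≤ (m i).re := by
    refine ⟨min (m 0).re (min (m 1).re (m 2).re), lt_min (hm 0) (lt_min (hm 1) (hm 2)), fun i => ?_⟩
    fin_cases i
    · exact min_le_left _ _
    · exact (min_le_right _ _).trans (min_le_left _ _)
    · exact (min_le_right _ _).trans (min_le_right _ _)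
  set C : ℝ := |(m 0).im| + |(m 1).im| + |(m 2).im| with hC
  have hC0 : 0 ≤ C := by positivity
  refine ⟨δ / (2 * (C + 1)), by positivity, fun ε hε hε0 X => ?_⟩
  obtain ⟨hR1, hR2⟩ := re_vv n X
  set R := (vv (X : R3) ^ n).re with hR
  have hT0 := TT_nonneg (X : R3)
  have hT1 := TT_le_one X
  have hX2 : |(X : R3) 2| ≤ 1 := by
    have h := xi_sphere X
    have := norm_nonneg (xi X)
    rw [abs_le]
    constructor <;> nlinarith
  -- real part
  have key : (∑ a, m a * baryc n ε X a).re = (∑ a, (m a).re * bary n X a)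
      + (ε * (X : R3) 2 * TT X) * ((m 1).im * ((1 + R) / 2) + (m 2).im * ((1 - R) / 2)
        - (m 0).im) := by
    rw [re_sum, Fin.sum_univ_three, Fin.sum_univ_three]
    have e0 : baryc n ε X 0 = 1 - Tc ε X := rfl
    have e1 : baryc n ε X 1 = Tc ε X * (((1 + R) / 2 : ℝ) : ℂ) := by
      show Tc ε X * (1 + ((vv (X : R3) ^ n).re : ℂ)) / 2 = _
      rw [← hR]
      push_cast
      ring
    have e2 : baryc n ε X 2 = Tc ε X * (((1 - R) / 2 : ℝ) : ℂ) := by
      show Tc ε X * (1 - ((vv (X : R3) ^ n).re : ℂ)) / 2 = _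
      rw [← hR]
      push_cast
      ring
    have b0 : bary n X 0 = 1 - TT X := rfl
    have b1 : bary n X 1 = TT X * (1 + R) / 2 := rfl
    have b2 : bary n X 2 = TT X * (1 - R) / 2 := rfl
    have im0 : (baryc n ε X 0).im = ε * (X : R3) 2 * TT X := by
      rw [e0, sub_im, Tc_im, one_im]
      ring
    have im1 : (baryc n ε X 1).im = -(ε * (X : R3) 2 * TT X) * ((1 + R) / 2) := by
      rw [e1, mul_comm, im_ofReal_mul, Tc_im]
      ring
    have im2 : (baryc n ε X 2).im = -(ε * (X : R3) 2 * TT X) * ((1 - R) / 2) := by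
      rw [e2, mul_comm, im_ofReal_mul, Tc_im]
      ring
    rw [mul_re, mul_re, mul_re, baryc_re, baryc_re, baryc_re, im0, im1, im2]
    ring
  rw [key]
  have h1 : δ ≤ ∑ a, (m a).re * bary n X a := by
    have : δ = ∑ a, δ * bary n X a := by
      rw [← Finset.mul_sum, bary_sum, mul_one]
    rw [this]
    exact Finset.sum_le_sum fun a _ => mul_le_mul_of_nonneg_right (hδm a) (bary_nonneg n X a)
  have h2 : |(m 1).im * ((1 + R) / 2) + (m 2).im * ((1 - R) / 2) - (m 0).im| ≤ C := by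
    have a1 : |(m 1).im * ((1 + R) / 2)| ≤ |(m 1).im| := by
      rw [abs_mul]
      refine mul_le_of_le_one_right (abs_nonneg _) ?_
      rw [abs_le]
      constructor <;> linarith
    have a2 : |(m 2).im * ((1 - R) / 2)| ≤ |(m 2).im| := by
      rw [abs_mul]
      refine mul_le_of_le_one_right (abs_nonneg _) ?_
      rw [abs_le]
      constructor <;> linarith
    have a3 := abs_sub ((m 1).im * ((1 + R) / 2) + (m 2).im * ((1 - R) / 2)) (m 0).im
    have a4 := abs_add_le ((m 1).im * ((1 + R) / 2)) ((m 2).im * ((1 - R) / 2))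
    rw [hC]
    linarith
  have h3 : |ε * (X : R3) 2 * TT X| ≤ ε := by
    rw [abs_mul, abs_mul, abs_of_pos hε, abs_of_nonneg hT0]
    have : |(X : R3) 2| * TT (X : R3) ≤ 1 := by
      have := mul_le_mul hX2 hT1 hT0 zero_le_one
      linarith
    nlinarith
  have h4 : |(ε * (X : R3) 2 * TT X) * ((m 1).im * ((1 + R) / 2) + (m 2).im * ((1 - R) / 2)
      - (m 0).im)| ≤ δ / 2 := by
    rw [abs_mul]
    have h5 := mul_le_mul h3 h2 (abs_nonneg _) hε.le
    have h6 : ε * C ≤ δ / 2 := by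
      have h7 : ε * (C + 1) ≤ δ / (2 * (C + 1)) * (C + 1) :=
        mul_le_mul_of_nonneg_right hε0 (by linarith)
      have h8 : δ / (2 * (C + 1)) * (C + 1) = δ / 2 := by
        field_simp
      nlinarith
    linarith
  have h9 := (abs_le.1 h4).1
  linarith

end

end Pool.Agent.H.MP_02294b_ag.Cov
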