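import Pool.Agent.H.MP_02294b_ag.Cov.Side
import Pool.Agent.H.MP_02294b_ag.Cov.Cut

/-! A Hirzebruch-Kummer covering of a configuration with a cut is not aspherical. -/

set_option autoImplicit false

open Metric Set Filter Topology Complex
open scoped LinearAlgebra.Projectivization

namespace Pool.Agent.H.MP_02294b_ag.Cov

section

variable {ι : Type} [Fintype ι] (L : ι → Fin 3 → ℂ)

variable {L} in
theorem Avoids.ne_zero {P : Fin 3 → Fin 3 → ℂ} {i : ι} (h : Avoids L P i) :
    lin L i (P 0) ≠ 0 := by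
  have h3 := h (Pi.single 0 1) (fun a => by
    rcases eq_or_ne a 0 with rfl | ha
    · simp
    · simp [Pi.single_eq_of_ne ha]) (by
    intro h
    have := congrFun h 0
    simp at this)
  intro h0
  apply h3
  rw [lin_sum, Fin.sum_univ_three]
  simp [h0]

variable {L} in
theorem Avoids.not_crosses {P : Fin 3 → Fin 3 → ℂ} {i : ι} (h : Avoids L P i) :
    ¬ Crosses L P i := by
  rintro ⟨-, r1, r2, h1, -, h3, -⟩
  have h4 := h ![r1, 1, 0] (fun a => by
    fin_cases a
    · exact h1.le
    · exact zero_le_one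
    · exact le_refl _) (by
    intro h
    have := congrFun h 1
    simp at this)
  apply h4
  rw [lin_sum, Fin.sum_univ_three]
  show (r1 : ℂ) * lin L i (P 0) + ((1 : ℝ) : ℂ) * lin L i (P 1) + ((0 : ℝ) : ℂ) * lin L i (P 2) = 0
  rw [h3]
  push_cast
  ring

/-- the coordinates of the lines of the pencil -/
theorem pencil_root' (n : ℕ) (hn : n ≠ 0) (P : Fin 3 → Fin 3 → ℂ) (f g : ι)
    (hf1 : lin L f (P 1) ≠ 0) (hf2 : lin L f (P 2) = 0) (hg1 : lin L g (P 1) = 0)
    (hg2 : lin L g (P 2) ≠ 0) (i : ι)
    (hne : lin L i (P 1) ≠ 0 ∨ lin L i (P 2) ≠ 0)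
    (h : (∃ t : ℝ, 0 ≤ t ∧ t ≤ 1 ∧ lin L i (((1 - t : ℝ) : ℂ) • P 1 + (t : ℂ) • P 2) = 0) ∨
      lin L i (P 1) = lin L i (P 2)) :
    ∃ g' : S2 → ℂ, Continuous g' ∧ (∀ X, g' X ^ n = lin L i (Xh P (vv X ^ n))) ∧
      (∃ Z : Set ℂ, Z.Finite ∧ ∀ X, g' X = 0 → vv X ∈ Z) ∧
      (i = f → ∃ ρ : ℂ, ρ ^ n = lin L f (P 1) / 4 ∧
        ∀ X, g' X = ρ * pf n Real.pi (vv X ^ n)) ∧
      (i = g → ∃ ρ : ℂ, ρ ^ n = -(lin L g (P 2) / 4) ∧
        ∀ X, g' X = ρ * pf n 0 (vv X ^ n)) := by
  have hc : Continuous fun X : S2 => vv X := continuous_vv.comp continuous_subtype_val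
  have hroots : ∀ c : ℂ, {z : ℂ | z ^ n = c}.Finite := by
    intro c
    refine ((Polynomial.nthRoots n c).toFinset.finite_toSet).subset ?_
    intro z hz
    rw [Finset.mem_coe, Multiset.mem_toFinset, Polynomial.mem_nthRoots (Nat.pos_of_ne_zero hn)]
    exact hz
  rcases h with ⟨t, ht0, ht1, ht⟩ | h
  · rw [lin_add, lin_smul, lin_smul] at ht
    set c : ℂ := lin L i (P 2) - lin L i (P 1) with hcdef
    have h1 : lin L i (P 1) = -t * c := by
      push_cast at ht
      linear_combination ht
    have h2 : lin L i (P 2) = (1 - t) * c := by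
      push_cast at ht
      linear_combination ht
    have hc0 : c ≠ 0 := by
      intro h0
      rw [h0, mul_zero] at h1 h2
      rcases hne with h3 | h3
      · exact h3 h1
      · exact h3 h2
    obtain ⟨ρ, hρ⟩ := IsAlgClosed.exists_pow_nat_eq (-(c / 4)) (Nat.pos_of_ne_zero hn)
    have hρ0 : ρ ≠ 0 := by
      intro h0
      rw [h0, zero_pow hn] at hρ
      apply hc0
      linear_combination 4 * hρ
    set β : ℝ := Real.arccos (1 - 2 * t) with hβ
    have hcos : Real.cos β = 1 - 2 * t := Real.cos_arccos (by linarith) (by linarith)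
    refine ⟨fun X => ρ * pf n β (vv X ^ n), ?_, ?_, ?_, ?_, ?_⟩
    · exact continuous_const.mul (continuous_pf n hn β (hc.pow n) fun X => norm_vpow n X)
    · intro X
      show (ρ * pf n β (vv X ^ n)) ^ n = _
      rw [mul_pow, hρ, pf_pow n hn, hcos, lin_Xh, h1, h2]
      push_cast
      ring
    · refine ⟨{z : ℂ | z ^ n = Complex.exp (-(β * I))} ∪ {z : ℂ | z ^ n = Complex.exp (β * I)},
        (hroots _).union (hroots _), ?_⟩
      intro X hX
      have hX' : ρ * pf n β (vv X ^ n) = 0 := hX
      have hpf : pf n β (vv X ^ n) = 0 := (mul_eq_zero.1 hX').resolve_left hρ0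
      have he : Complex.exp (β * I) * Complex.exp (-(β * I)) = 1 := by
        rw [← Complex.exp_add]
        simp
      rw [pf] at hpf
      rcases mul_eq_zero.1 hpf with h4 | h4
      · left
        have h5 : 1 - vv X ^ n * Complex.exp (β * I) = 0 := by
          by_contra hcon
          exact pt_ne n hn hcon h4
        show vv X ^ n = Complex.exp (-(β * I))
        linear_combination (-Complex.exp (-(β * I))) * h5 - (vv (X : R3) ^ n) * he
      · right
        have h5 : 1 - vv X ^ n * Complex.exp (-(β * I)) = 0 := by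
          by_contra hcon
          exact pt_ne n hn hcon h4
        show vv X ^ n = Complex.exp (β * I)
        linear_combination (-Complex.exp (β * I)) * h5 - (vv (X : R3) ^ n) * he
    · intro hi
      rw [hi, hf2] at h2
      have h6 : (1 - t : ℂ) = 0 := (mul_eq_zero.1 h2.symm).resolve_right hc0
      have h7 : t = 1 := by
        have : (t : ℂ) = 1 := by linear_combination -h6
        exact_mod_cast this
      refine ⟨ρ, ?_, fun X => ?_⟩
      · rw [hρ, hcdef, hi, hf2]
        ring
      · have : β = Real.pi := by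
          rw [hβ, h7]
          norm_num
        show ρ * pf n β (vv X ^ n) = _
        rw [this]
    · intro hi
      rw [hi, hg1] at h1
      have h6 : (-t : ℂ) = 0 := (mul_eq_zero.1 h1.symm).resolve_right hc0
      have h7 : t = 0 := by
        have : (t : ℂ) = 0 := by linear_combination -h6
        exact_mod_cast this
      refine ⟨ρ, ?_, fun X => ?_⟩
      · rw [hρ, hcdef, hi, hg1]
        ring
      · have : β = 0 := by
          rw [hβ, h7]
          norm_num
        show ρ * pf n β (vv X ^ n) = _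
        rw [this]
  · obtain ⟨ρ, hρ⟩ := IsAlgClosed.exists_pow_nat_eq (lin L i (P 1)) (Nat.pos_of_ne_zero hn)
    have h1 : lin L i (P 1) ≠ 0 := by
      rcases hne with h3 | h3
      · exact h3
      · rwa [h]
    have hρ0 : ρ ≠ 0 := by
      intro h0
      rw [h0, zero_pow hn] at hρ
      exact h1 hρ.symm
    refine ⟨fun X => ρ * vv X, continuous_const.mul hc, ?_, ⟨{0}, finite_singleton _, ?_⟩, ?_, ?_⟩
    · intro X
      show (ρ * vv X) ^ n = _
      rw [mul_pow, hρ, lin_Xh, ← h]
      ring
    · intro X hX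
      exact (mul_eq_zero.1 hX).resolve_left hρ0
    · intro hi
      exfalso
      rw [hi, hf2] at h
      exact hf1 h
    · intro hi
      exfalso
      rw [hi, hg1] at h
      exact hg2 h.symm

theorem cut_aux (n : ℕ) (h2 : 2 ≤ n) (hL : IsConfig L) (hF : HasCut L) :
    ∃ f : C(S2, HK L n), ∃ g : C(HK L n, S2),
      (g.comp f).Homotopic (ContinuousMap.id S2) := by
  classical
  obtain ⟨P, f, g, ⟨hf0, hf1, hf2⟩, ⟨hg0, hg1, hg2⟩, ⟨h, hh⟩, ⟨j, hj⟩, hall⟩ := hF
  have hn : n ≠ 0 := by omega
  have hn1 : 1 ≤ n := by omega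
  have hfg : f ≠ g := by
    rintro rfl
    exact hf1 hg1
  -- roots of minus one
  obtain ⟨η, hη⟩ := IsAlgClosed.exists_pow_nat_eq (-1 : ℂ) (Nat.pos_of_ne_zero hn)
  have hη0 : η ≠ 0 := by
    rintro rfl
    rw [zero_pow hn] at hη
    norm_num at hη
  obtain ⟨θ, hθ, hηθ⟩ : ∃ θ : ℂ, θ ^ n = -1 ∧ η * θ = om n := by
    refine ⟨om n / η, ?_, ?_⟩
    · rw [div_pow, om_pow n hn, hη]
      norm_num
    · field_simp
  have hθ0 : θ ≠ 0 := by
    rintro rfl
    rw [zero_pow hn] at hθ
    norm_num at hθ
  have root : ∀ z : ℂ, ∃ w : ℂ, w ^ n = z := fun z => IsAlgClosed.exists_pow_nat_eq z (by omega)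
  choose rf hrf using root
  have hrf0 : ∀ z, z ≠ 0 → rf z ≠ 0 := by
    intro z hz h
    apply hz
    rw [← hrf z, h, zero_pow hn]
  -- the crossing lines
  have hr0 : ∀ i, ∃ r1 r2 : ℝ, Crosses L P i → 0 < r1 ∧ 0 < r2 ∧
      lin L i (P 1) = -(r1 : ℂ) * lin L i (P 0) ∧ lin L i (P 2) = -(r2 : ℂ) * lin L i (P 0) := by
    intro i
    by_cases hi : Crosses L P i
    · obtain ⟨-, r1, r2, h1⟩ := hi
      exact ⟨r1, r2, fun _ => h1⟩
    · exact ⟨0, 0, fun h => absurd h hi⟩
  choose r1 r2 hr0 using hr0
  have hP0 : P 0 ≠ 0 := by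
    intro h0
    apply hh.1
    rw [h0, lin_zero]
  -- the triangle of the four lines
  have hh3 := hr0 h hh
  have hside : ∀ a b, lin L ((![h, f, g] : Fin 3 → ι) a) ((![P 0, P 1 + (r1 h : ℂ) • P 0,
      P 2 + (r2 h : ℂ) • P 0] : Fin 3 → Fin 3 → ℂ) b) = 0 ↔ a ≠ b := by
    intro a b
    fin_cases a <;> fin_cases b
    · exact ⟨fun h0 => absurd h0 hh.1, fun h0 => absurd rfl h0⟩
    · refine ⟨fun _ => by decide, fun _ => ?_⟩
      show lin L h (P 1 + (r1 h : ℂ) • P 0) = 0
      rw [lin_add, lin_smul, hh3.2.2.1]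
      ring
    · refine ⟨fun _ => by decide, fun _ => ?_⟩
      show lin L h (P 2 + (r2 h : ℂ) • P 0) = 0
      rw [lin_add, lin_smul, hh3.2.2.2]
      ring
    · exact ⟨fun _ => by decide, fun _ => hf0⟩
    · refine ⟨fun h0 => absurd ?_ hf1, fun h0 => absurd rfl h0⟩
      have h1 : lin L f (P 1 + (r1 h : ℂ) • P 0) = 0 := h0
      rwa [lin_add, lin_smul, hf0, mul_zero, add_zero] at h1
    · refine ⟨fun _ => by decide, fun _ => ?_⟩
      show lin L f (P 2 + (r2 h : ℂ) • P 0) = 0
      rw [lin_add, lin_smul, hf0, hf2]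
      ring
    · exact ⟨fun _ => by decide, fun _ => hg0⟩
    · refine ⟨fun _ => by decide, fun _ => ?_⟩
      show lin L g (P 1 + (r1 h : ℂ) • P 0) = 0
      rw [lin_add, lin_smul, hg0, hg1]
      ring
    · refine ⟨fun h0 => absurd ?_ hg2, fun h0 => absurd rfl h0⟩
      have h1 : lin L g (P 2 + (r2 h : ℂ) • P 0) = 0 := h0
      rwa [lin_add, lin_smul, hg0, mul_zero, add_zero] at h1
  have hspan : ∀ x, ∃ c0 c1 c2 : ℂ, x = c0 • P 0 + c1 • P 1 + c2 • P 2 := by
    intro x
    obtain ⟨c, hc⟩ := basis_of_side L _ _ hside x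
    refine ⟨c 0 + c 1 * r1 h + c 2 * r2 h, c 1, c 2, ?_⟩
    rw [hc, Fin.sum_univ_three]
    show c 0 • P 0 + c 1 • (P 1 + (r1 h : ℂ) • P 0) + c 2 • (P 2 + (r2 h : ℂ) • P 0) = _
    rw [smul_add, smul_add, smul_smul, smul_smul, add_smul, add_smul]
    abel
  -- the lines of the pencil
  have hgg : ∀ i, ∃ g' : S2 → ℂ, lin L i (P 0) = 0 →
      (Continuous g' ∧ (∀ X, g' X ^ n = lin L i (Xh P (vv X ^ n))) ∧
      (∃ Z : Set ℂ, Z.Finite ∧ ∀ X, g' X = 0 → vv X ∈ Z) ∧
      (i = f → ∃ ρ : ℂ, ρ ^ n = lin L f (P 1) / 4 ∧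
        ∀ X, g' X = ρ * pf n Real.pi (vv X ^ n)) ∧
      (i = g → ∃ ρ : ℂ, ρ ^ n = -(lin L g (P 2) / 4) ∧
        ∀ X, g' X = ρ * pf n 0 (vv X ^ n))) := by
    intro i
    by_cases hi : lin L i (P 0) = 0
    · have hne : lin L i (P 1) ≠ 0 ∨ lin L i (P 2) ≠ 0 := by
        by_contra hcon
        push Not at hcon
        have hzero : ∀ x, lin L i x = 0 := by
          intro x
          obtain ⟨c0, c1, c2, rfl⟩ := hspan x
          rw [lin_add, lin_add, lin_smul, lin_smul, lin_smul, hi, hcon.1, hcon.2]
          ring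
        have hLi : L i = 0 := by
          funext b
          have := hzero (Pi.single b 1)
          simpa [lin, Pi.single_apply] using this
        rcases eq_or_ne i f with hif | hif
        · rw [hif] at hcon
          exact hf1 hcon.1
        · exact (hL.indep i f hif).ne_zero 0 hLi
      rcases hall i with hd | hd | hd
      · obtain ⟨g', hg'⟩ := pencil_root' L n hn P f g hf1 hf2 hg1 hg2 i hne hd.2
        exact ⟨g', fun _ => hg'⟩
      · exact absurd hi hd.1
      · exact absurd hi hd.ne_zero
    · exact ⟨fun _ => 0, fun h1 => absurd h1 hi⟩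
  choose g' hg' using hgg
  -- the avoiding lines
  have hd : ∀ i, ∃ d : ℂ, Avoids L P i → ∀ a, 0 < (d * lin L i (P a)).re := by
    intro i
    by_cases hi : Avoids L P i
    · obtain ⟨d, hd⟩ := exists_sep (fun a => lin L i (P a)) (by
        intro s hs hs0
        have := hi s hs hs0
        rwa [lin_sum] at this)
      exact ⟨d, fun _ => hd⟩
    · exact ⟨0, fun h1 => absurd h1 hi⟩
  choose d hd using hd
  have hdne : ∀ i, Avoids L P i → d i ≠ 0 := by
    intro i h1 h0
    have := hd i h1 0
    rw [h0] at this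
    simp at this
  -- a small imaginary part
  obtain ⟨ε, hε, hεpos⟩ : ∃ ε : ℝ, 0 < ε ∧ ∀ i, Avoids L P i → ∀ X : S2,
      0 < (∑ a, (d i * lin L i (P a)) * baryc n ε X a).re := by
    have h1 : ∀ i, ∃ ε0 : ℝ, 0 < ε0 ∧ (Avoids L P i → ∀ ε : ℝ, 0 < ε → ε ≤ ε0 → ∀ X : S2,
        0 < (∑ a, (d i * lin L i (P a)) * baryc n ε X a).re) := by
      intro i
      by_cases hi : Avoids L P i
      · obtain ⟨ε0, h3, h4⟩ := exists_eps n (fun a => d i * lin L i (P a)) (hd i hi)
        exact ⟨ε0, h3, fun _ => h4⟩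
      · exact ⟨1, one_pos, fun h => absurd h hi⟩
    choose ε0 hε0 hε1 using h1
    have hne : (Finset.univ : Finset ι).Nonempty := ⟨f, Finset.mem_univ _⟩
    refine ⟨Finset.univ.inf' hne ε0, ?_, fun i hi X => ?_⟩
    · rw [Finset.lt_inf'_iff]
      exact fun i _ => hε0 i
    · refine hε1 i hi _ ?_ (Finset.inf'_le _ (Finset.mem_univ i)) X
      rw [Finset.lt_inf'_iff]
      exact fun i _ => hε0 i
  -- the base point
  let x : S2 → Fin 3 → ℂ := fun X => ∑ a, baryc n ε X a • P a
  have hlinx : ∀ i X, lin L i (x X) = ∑ a, baryc n ε X a * lin L i (P a) := fun i X =>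
    lin_sum L i _ _ _
  have hlinx' : ∀ i X, d i * lin L i (x X) = ∑ a, (d i * lin L i (P a)) * baryc n ε X a := by
    intro i X
    rw [hlinx, Finset.mul_sum]
    exact Finset.sum_congr rfl fun a _ => by ring
  -- the coordinates
  let v : S2 → ι → ℂ := fun X i => if lin L i (P 0) = 0 then lamc n ε X * g' i X
    else if Crosses L P i then rf (lin L i (P 0)) * hr n ((X : R3) 2) (hv n ε (r1 i) (r2 i) X)
    else rf ((d i)⁻¹) * pt n (d i * lin L i (x X))
  have hv1 : ∀ X i, lin L i (P 0) = 0 → v X i = lamc n ε X * g' i X := by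
    intro X i hi
    simp only [v, hi, if_true]
  have hv2 : ∀ X i, Crosses L P i →
      v X i = rf (lin L i (P 0)) * hr n ((X : R3) 2) (hv n ε (r1 i) (r2 i) X) := by
    intro X i hi
    simp only [v, hi.1, hi, if_true, if_false]
  have hv3 : ∀ X i, Avoids L P i → v X i = rf ((d i)⁻¹) * pt n (d i * lin L i (x X)) := by
    intro X i hi
    simp only [v, hi.ne_zero, hi.not_crosses, if_false]
  have hpenc : ∀ i, lin L i (P 0) = 0 ∨ Crosses L P i ∨ Avoids L P i := by
    intro i
    rcases hall i with h1 | h1 | h1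
    · exact Or.inl h1.1
    · exact Or.inr (Or.inl h1)
    · exact Or.inr (Or.inr h1)
  have hvpow : ∀ X i, v X i ^ n = lin L i (x X) := by
    intro X i
    rcases hpenc i with hi | hi | hi
    · have e1 := lamc_pf_pow n hn Real.pi ε (X : R3)
      have e2 := lamc_pf_pow n hn 0 ε (X : R3)
      rw [mul_pow, pf_pow n hn, Real.cos_pi] at e1
      rw [mul_pow, pf_pow n hn, Real.cos_zero] at e2
      push_cast at e1 e2
      rw [hv1 X i hi, mul_pow, (hg' i hi).2.1, lin_Xh, hlinx, Fin.sum_univ_three, hi]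
      show _ = (1 - Tc ε X) * 0 + Tc ε X * (1 + ((vv (X : R3) ^ n).re : ℂ)) / 2 * lin L i (P 1)
        + Tc ε X * (1 - ((vv (X : R3) ^ n).re : ℂ)) / 2 * lin L i (P 2)
      linear_combination (lin L i (P 1) / 4) * e1 - (lin L i (P 2) / 4) * e2
    · obtain ⟨-, -, q1, q2⟩ := hr0 i hi
      rw [hv2 X i hi, mul_pow, hrf, hr_pow n hn, hlinx, Fin.sum_univ_three, q1, q2, hv]
      ring
    · rw [hv3 X i hi, mul_pow, hrf, pt_pow n hn]
      have := hdne i hi
      field_simp
  have hvP : ∀ X, v X ∈ Pow L n := fun X => ⟨x X, hvpow X⟩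
  have hvne3 : ∀ X i, Avoids L P i → v X i ≠ 0 := by
    intro X i hi
    rw [hv3 X i hi]
    refine mul_ne_zero (hrf0 _ (inv_ne_zero (hdne i hi))) (pt_ne n hn ?_)
    intro h0
    have := hεpos i hi X
    rw [← hlinx', h0] at this
    simp at this
  have hvne2 : ∀ X i, Crosses L P i → v X i ≠ 0 := by
    intro X i hi
    obtain ⟨q1, q2, -, -⟩ := hr0 i hi
    rw [hv2 X i hi]
    exact mul_ne_zero (hrf0 _ hi.1) (hr_ne n hn (hv_ne n hε q1 q2 X))
  have hvne' : ∀ X i, lin L i (P 0) ≠ 0 → v X i ≠ 0 := by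
    intro X i hi
    rcases hpenc i with h1 | h1 | h1
    · exact absurd h1 hi
    · exact hvne2 X i h1
    · exact hvne3 X i h1
  have hvne : ∀ X, v X ≠ 0 := fun X h0 => hvne3 X j hj (congrFun h0 j)
  -- the components over the multiple points
  let isP : MultPt L → Prop := fun p => lin L f p.1.rep = 0 ∧ lin L g p.1.rep = 0
  have hisP : ∀ p : MultPt L, isP p → ∀ i, lin L i p.1.rep = 0 → lin L i (P 0) = 0 := by
    intro p hp i hi
    obtain ⟨c, hc⟩ := common_zero L (hL.indep f g hfg) p.1.rep_nonzero hp.1 hp.2 hf0 hg0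
    rw [hc, lin_smul, hi, mul_zero]
  have hnotP : ∀ p : MultPt L, ¬ isP p → ∃ i, lin L i p.1.rep = 0 ∧ lin L i (P 0) ≠ 0 := by
    intro p hp
    by_contra hcon
    push Not at hcon
    have h3 : 3 ≤ {i | lin L i p.1.rep = 0}.ncard := p.2
    obtain ⟨a, ha, b, hb, hab⟩ := (one_lt_ncard (toFinite _)).1
      (show 1 < {i | lin L i p.1.rep = 0}.ncard by omega)
    obtain ⟨c, hc⟩ := common_zero L (hL.indep a b hab) hP0 (hcon a ha) (hcon b hb) ha hb
    apply hp
    constructor
    · rw [hc, lin_smul, hf0, mul_zero]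
    · rw [hc, lin_smul, hg0, mul_zero]
  -- the two sides do not vanish together
  have hsides : ∀ X, ¬ (g' f X = 0 ∧ g' g X = 0) := by
    rintro X ⟨h1, h2'⟩
    have h3 := (hg' f hf0).2.1 X
    have h4 := (hg' g hg0).2.1 X
    rw [h1, zero_pow hn, lin_Xh, hf2, mul_zero, sub_zero] at h3
    rw [h2', zero_pow hn, lin_Xh, hg1, mul_zero, zero_sub] at h4
    have h5 : (1 + vv (X : R3) ^ n) ^ 2 = 0 := by
      rcases mul_eq_zero.1 h3.symm with h | h
      · linear_combination 4 * h
      · exact absurd h hf1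
    have h6 : (1 - vv (X : R3) ^ n) ^ 2 = 0 := by
      rcases mul_eq_zero.1 (neg_eq_zero.1 h4.symm) with h | h
      · linear_combination 4 * h
      · exact absurd h hg2
    have h7 : 1 + vv (X : R3) ^ n = 0 := by simpa using h5
    have h8 : 1 - vv (X : R3) ^ n = 0 := by simpa using h6
    have : (2 : ℂ) = 0 := by linear_combination h7 + h8
    norm_num at this
  let w : S2 → (p : MultPt L) → Through L p.1 → ℂ := fun X p i =>
    if isP p then g' i.1 X else v X i.1
  have hwne : ∀ X p, w X p ≠ 0 := by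
    intro X p h0
    by_cases hp : isP p
    · apply hsides X
      constructor
      · have := congrFun h0 (⟨f, hp.1⟩ : Through L p.1)
        simp only [w, hp, if_true] at this
        exact this
      · have := congrFun h0 (⟨g, hp.2⟩ : Through L p.1)
        simp only [w, hp, if_true] at this
        exact this
    · obtain ⟨i, hi, hi1⟩ := hnotP p hp
      have := congrFun h0 (⟨i, hi⟩ : Through L p.1)
      simp only [w, hp, if_false] at this
      exact hvne' X i hi1 this
  -- continuity
  have hvc : ∀ i, Continuous fun X : S2 => v X i := by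
    intro i
    rcases hpenc i with hi | hi | hi
    · simp only [hv1 _ i hi]
      exact (continuous_lamc n hn (ε := fun _ => ε) (X := fun X => X) continuous_const
        continuous_id).mul (hg' i hi).1
    · obtain ⟨q1, q2, -, -⟩ := hr0 i hi
      simp only [hv2 _ i hi]
      exact continuous_const.mul (continuous_hr_hv n hn (ε := fun _ => ε) (r1 := fun _ => r1 i)
        (r2 := fun _ => r2 i) (X := fun X => X) continuous_const continuous_const continuous_const
        continuous_id (fun _ => hε.le) (fun _ => q1.le) (fun _ => q2.le))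
    · simp only [hv3 _ i hi, hlinx']
      refine continuous_const.mul ?_
      rw [continuous_iff_continuousAt]
      intro X
      refine ContinuousAt.comp (g := pt n)
        (f := fun X : S2 => ∑ a, (d i * lin L i (P a)) * baryc n ε X a)
        (continuousAt_pt n (hεpos i hi X)) ?_
      exact (continuous_finsetSum _ fun a _ => continuous_const.mul
        (continuous_baryc n (ε := fun _ => ε) (X := fun X => X) continuous_const
          continuous_id a)).continuousAt
  have hwc : ∀ p : MultPt L, Continuous fun X : S2 => w X p := by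
    intro p
    refine continuous_pi fun i => ?_
    by_cases hp : isP p
    · simp only [w, hp, if_true]
      exact (hg' i.1 (hisP p hp i.1 i.2)).1
    · simp only [w, hp, if_false]
      exact hvc i.1
  let Q : S2 → Ambient L := fun X => (Projectivization.mk ℂ (v X) (hvne X),
    fun p => Projectivization.mk ℂ (w X p) (hwne X p))
  have hQc : Continuous Q := by
    refine Continuous.prodMk ?_ (continuous_pi fun p => ?_)
    · exact continuous_mk'.comp (Continuous.subtype_mk (continuous_pi hvc) fun X => hvne X)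
    · exact continuous_mk'.comp (Continuous.subtype_mk (hwc p) fun X => hwne X p)
  -- the generic points
  have hZ : ∀ i, ∃ Z : Set ℂ, Z.Finite ∧ (lin L i (P 0) = 0 → ∀ X, g' i X = 0 → vv X ∈ Z) := by
    intro i
    by_cases hi : lin L i (P 0) = 0
    · obtain ⟨Z, hZ, hZ'⟩ := (hg' i hi).2.2.1
      exact ⟨Z, hZ, fun _ => hZ'⟩
    · exact ⟨∅, finite_empty, fun h => absurd h hi⟩
  choose Z hZf hZ using hZ
  let D : Set S2 := {X | (X : R3) 2 ≠ 0 ∧ vv X ∉ ⋃ i, Z i}
  have hD : Dense D := dense_generic _ (finite_iUnion hZf)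
  have hgD : ∀ X ∈ D, ∀ i, lin L i (P 0) = 0 → g' i X ≠ 0 := by
    rintro X ⟨-, hX⟩ i hi h0
    exact hX (mem_iUnion.2 ⟨i, hZ i hi X h0⟩)
  have hthr : ∀ (p : MultPt L) (u : ι → ℂ), (∀ i, u i ≠ 0) →
      (fun i : Through L p.1 => u i.1) ≠ 0 := by
    intro p u hu h0
    have h3 : 3 ≤ {i | lin L i p.1.rep = 0}.ncard := p.2
    obtain ⟨i, hi⟩ : {i | lin L i p.1.rep = 0}.Nonempty := by
      rw [← ncard_pos (toFinite _)]
      omega
    exact hu i (congrFun h0 (⟨i, hi⟩ : Through L p.1))
  have hQD : ∀ X ∈ D, Q X ∈ HK L n := by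
    intro X hX
    rcases (TT_nonneg (X : R3)).lt_or_eq with hT | hT
    · -- the annulus
      refine subset_closure ?_
      have hl : lamc n ε X ≠ 0 := by
        refine mul_ne_zero (pt_ne n hn ?_) ?_
        · intro h0
          have := Tc_re ε (X : R3)
          rw [h0, zero_re] at this
          linarith
        · intro h0
          have h1 := norm_vv_of_pos hT
          rw [map_eq_zero] at h0
          rw [h0, norm_zero] at h1
          norm_num at h1
      have h0 : ∀ i, v X i ≠ 0 := by
        intro i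
        by_cases hi : lin L i (P 0) = 0
        · rw [hv1 X i hi]
          exact mul_ne_zero hl (hgD X hX i hi)
        · exact hvne' X i hi
      refine ⟨v X, h0, ⟨x X, hvpow X⟩, ⟨hvne X, rfl⟩, fun p => ⟨hthr p _ h0, ?_⟩⟩
      show Projectivization.mk ℂ (w X p) (hwne X p) = _
      rw [Projectivization.mk_eq_mk_iff']
      by_cases hp : isP p
      · refine ⟨(lamc n ε X)⁻¹, ?_⟩
        funext i
        have h4 := hv1 X i.1 (hisP p hp i.1 i.2)
        simp only [w, hp, if_true, Pi.smul_apply, smul_eq_mul]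
        rw [h4]
        field_simp
      · refine ⟨1, ?_⟩
        funext i
        simp only [w, hp, if_false, one_smul]
    · -- the caps
      have hT0 : TT (X : R3) = 0 := hT.symm
      have hl0 : lamc n ε X = 0 := by
        have : lamc n ε X ^ n = 0 := by
          rw [lamc_pow n hn, Tc_eq_zero ε hT0, zero_mul]
        exact eq_zero_of_pow_eq_zero this
      set cX : ℂ := if 0 ≤ (X : R3) 2 then (1 : ℂ) else om n with hcX
      have hcXn : cX ^ n = 1 := by
        rw [hcX]
        split_ifs
        · exact one_pow n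
        · exact om_pow n hn
      have hcX0 : cX ≠ 0 := by
        intro h0
        rw [h0, zero_pow hn] at hcXn
        exact zero_ne_one hcXn
      let y : ℂ → Fin 3 → ℂ := fun μ => P 0 + μ ^ n • Xh P (vv X ^ n)
      have hy : ∀ i μ, lin L i (y μ) = lin L i (P 0) + μ ^ n * lin L i (Xh P (vv X ^ n)) := by
        intro i μ
        rw [lin_add, lin_smul]
      have hyc : ∀ i, Continuous fun μ => lin L i (y μ) := by
        intro i
        simp only [hy]
        exact continuous_const.add ((continuous_pow n).mul continuous_const)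
      let u : ℂ → ι → ℂ := fun μ i => if lin L i (P 0) = 0 then μ * g' i X
        else if Crosses L P i then
          rf (lin L i (P 0)) * (cX * pt n (lin L i (y μ) / lin L i (P 0)))
        else rf ((d i)⁻¹) * pt n (d i * lin L i (y μ))
      have hu1 : ∀ μ i, lin L i (P 0) = 0 → u μ i = μ * g' i X := by
        intro μ i hi
        simp only [u, hi, if_true]
      have hu2 : ∀ μ i, Crosses L P i →
          u μ i = rf (lin L i (P 0)) * (cX * pt n (lin L i (y μ) / lin L i (P 0))) := by
        intro μ i hi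
        simp only [u, hi.1, hi, if_true, if_false]
      have hu3 : ∀ μ i, Avoids L P i → u μ i = rf ((d i)⁻¹) * pt n (d i * lin L i (y μ)) := by
        intro μ i hi
        simp only [u, hi.ne_zero, hi.not_crosses, if_false]
      have hupow : ∀ μ i, u μ i ^ n = lin L i (y μ) := by
        intro μ i
        rcases hpenc i with hi | hi | hi
        · rw [hu1 μ i hi, mul_pow, (hg' i hi).2.1, hy, hi, zero_add]
        · rw [hu2 μ i hi, mul_pow, hrf, mul_pow, hcXn, pt_pow n hn]
          have := hi.1
          field_simp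
        · rw [hu3 μ i hi, mul_pow, hrf, pt_pow n hn]
          have := hdne i hi
          field_simp
      let U : Set ℂ := {μ | ∀ i, (Crosses L P i → 0 < (lin L i (y μ) / lin L i (P 0)).re) ∧
        (Avoids L P i → 0 < (d i * lin L i (y μ)).re)}
      have hUo : IsOpen U := by
        have h1 : U = ⋂ i, ({μ | Crosses L P i → 0 < (lin L i (y μ) / lin L i (P 0)).re} ∩
            {μ | Avoids L P i → 0 < (d i * lin L i (y μ)).re}) := by
          ext q
          rw [mem_iInter]
          exact Iff.rfl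
        rw [h1]
        refine isOpen_iInter_of_finite fun i => IsOpen.inter ?_ ?_
        · by_cases hi : Crosses L P i
          · have h3 : {μ | Crosses L P i → 0 < (lin L i (y μ) / lin L i (P 0)).re}
                = (fun μ => (lin L i (y μ) / lin L i (P 0)).re) ⁻¹' Ioi 0 := by
              ext q
              exact ⟨fun h => h hi, fun h _ => h⟩
            rw [h3]
            exact isOpen_Ioi.preimage (continuous_re.comp ((hyc i).div_const _))
          · have h3 : {μ | Crosses L P i → 0 < (lin L i (y μ) / lin L i (P 0)).re} = univ := by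
              ext q
              exact ⟨fun _ => mem_univ _, fun _ h => absurd h hi⟩
            rw [h3]
            exact isOpen_univ
        · by_cases hi : Avoids L P i
          · have h3 : {μ | Avoids L P i → 0 < (d i * lin L i (y μ)).re}
                = (fun μ => (d i * lin L i (y μ)).re) ⁻¹' Ioi 0 := by
              ext q
              exact ⟨fun h => h hi, fun h _ => h⟩
            rw [h3]
            exact isOpen_Ioi.preimage (continuous_re.comp (continuous_const.mul (hyc i)))
          · have h3 : {μ | Avoids L P i → 0 < (d i * lin L i (y μ)).re} = univ := by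
              ext q
              exact ⟨fun _ => mem_univ _, fun _ h => absurd h hi⟩
            rw [h3]
            exact isOpen_univ
      have hy0 : ∀ i, lin L i (y 0) = lin L i (P 0) := by
        intro i
        rw [hy, zero_pow hn, zero_mul, add_zero]
      have h0U : (0 : ℂ) ∈ U := by
        intro i
        constructor
        · intro hi
          rw [hy0, div_self hi.1]
          exact one_pos
        · intro hi
          rw [hy0]
          exact hd i hi 0
      have hune2 : ∀ μ ∈ U, ∀ i, lin L i (P 0) ≠ 0 → u μ i ≠ 0 := by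
        intro μ hμ i hi
        rcases hpenc i with h1 | h1 | h1
        · exact absurd h1 hi
        · rw [hu2 μ i h1]
          refine mul_ne_zero (hrf0 _ h1.1) (mul_ne_zero hcX0 (pt_ne n hn ?_))
          intro h0
          have := (hμ i).1 h1
          rw [h0] at this
          simp at this
        · rw [hu3 μ i h1]
          refine mul_ne_zero (hrf0 _ (inv_ne_zero (hdne i h1))) (pt_ne n hn ?_)
          intro h0
          have := (hμ i).2 h1
          rw [h0] at this
          simp at this
      have hune : ∀ μ ∈ U, u μ ≠ 0 := fun μ hμ h0 =>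
        hune2 μ hμ j hj.ne_zero (congrFun h0 j)
      let w' : ℂ → (p : MultPt L) → Through L p.1 → ℂ := fun μ p i =>
        if isP p then g' i.1 X else u μ i.1
      have hwne' : ∀ μ ∈ U, ∀ p, w' μ p ≠ 0 := by
        intro μ hμ p h0
        by_cases hp : isP p
        · apply hsides X
          constructor
          · have := congrFun h0 (⟨f, hp.1⟩ : Through L p.1)
            simp only [w', hp, if_true] at this
            exact this
          · have := congrFun h0 (⟨g, hp.2⟩ : Through L p.1)
            simp only [w', hp, if_true] at this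
            exact this
        · obtain ⟨i, hi, hi1⟩ := hnotP p hp
          have := congrFun h0 (⟨i, hi⟩ : Through L p.1)
          simp only [w', hp, if_false] at this
          exact hune2 μ hμ i hi1 this
      have huc : ∀ i, Continuous fun μ : U => u μ.1 i := by
        intro i
        rcases hpenc i with hi | hi | hi
        · simp only [hu1 _ i hi]
          exact continuous_subtype_val.mul continuous_const
        · simp only [hu2 _ i hi]
          refine continuous_const.mul (continuous_const.mul ?_)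
          rw [continuous_iff_continuousAt]
          intro μ
          refine ContinuousAt.comp (g := pt n)
            (f := fun μ : U => lin L i (y μ.1) / lin L i (P 0))
            (continuousAt_pt n ((μ.2 i).1 hi)) ?_
          exact (((hyc i).div_const _).comp continuous_subtype_val).continuousAt
        · simp only [hu3 _ i hi]
          refine continuous_const.mul ?_
          rw [continuous_iff_continuousAt]
          intro μ
          refine ContinuousAt.comp (g := pt n) (f := fun μ : U => d i * lin L i (y μ.1))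
            (continuousAt_pt n ((μ.2 i).2 hi)) ?_
          exact ((continuous_const.mul (hyc i)).comp continuous_subtype_val).continuousAt
      let R : U → Ambient L := fun μ => (Projectivization.mk ℂ (u μ.1) (hune μ.1 μ.2),
        fun p => Projectivization.mk ℂ (w' μ.1 p) (hwne' μ.1 μ.2 p))
      have hRc : Continuous R := by
        refine Continuous.prodMk ?_ (continuous_pi fun p => ?_)
        · exact continuous_mk'.comp (Continuous.subtype_mk (continuous_pi huc)
            fun μ => hune μ.1 μ.2)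
        · refine continuous_mk'.comp (Continuous.subtype_mk (continuous_pi fun i => ?_)
            fun μ => hwne' μ.1 μ.2 p)
          by_cases hp : isP p
          · simp only [w', hp, if_true]
            exact continuous_const
          · simp only [w', hp, if_false]
            exact huc i.1
      have hRopen : ∀ μ : U, μ.1 ≠ 0 → R μ ∈ HKopen L n := by
        intro μ hμ
        have h0 : ∀ i, u μ.1 i ≠ 0 := by
          intro i
          by_cases hi : lin L i (P 0) = 0
          · rw [hu1 _ i hi]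
            exact mul_ne_zero hμ (hgD X hX i hi)
          · exact hune2 μ.1 μ.2 i hi
        refine ⟨u μ.1, h0, ⟨y μ.1, hupow μ.1⟩, ⟨hune μ.1 μ.2, rfl⟩, fun p => ⟨hthr p _ h0, ?_⟩⟩
        show Projectivization.mk ℂ (w' μ.1 p) (hwne' μ.1 μ.2 p) = _
        rw [Projectivization.mk_eq_mk_iff']
        by_cases hp : isP p
        · refine ⟨μ.1⁻¹, ?_⟩
          funext i
          have h4 := hu1 μ.1 i.1 (hisP p hp i.1 i.2)
          simp only [w', hp, if_true, Pi.smul_apply, smul_eq_mul]
          rw [h4]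
          field_simp
        · refine ⟨1, ?_⟩
          funext i
          simp only [w', hp, if_false, one_smul]
      have hR0 : R ⟨0, h0U⟩ = Q X := by
        have huv : u 0 = v X := by
          funext i
          rcases hpenc i with hi | hi | hi
          · rw [hu1 0 i hi, hv1 X i hi, hl0]
          · have hone : hv n ε (r1 i) (r2 i) X = ((1 : ℝ) : ℂ) := by
              rw [hv_eq, Tc_eq_zero ε hT0]
              simp
            rw [hu2 0 i hi, hv2 X i hi, hone, hr_real n hn _ zero_le_one, hy0, div_self hi.1,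
              Real.one_rpow, ofReal_one]
            have : pt n 1 = 1 := by simp [pt]
            rw [this]
          · have hx0 : x X = P 0 := by
              show ∑ a, baryc n ε X a • P a = P 0
              rw [Fin.sum_univ_three]
              show (1 - Tc ε X) • P 0 + (Tc ε X * (1 + ((vv (X : R3) ^ n).re : ℂ)) / 2) • P 1
                + (Tc ε X * (1 - ((vv (X : R3) ^ n).re : ℂ)) / 2) • P 2 = P 0
              rw [Tc_eq_zero ε hT0]
              simp
            rw [hu3 0 i hi, hv3 X i hi, hy0, hx0]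
        have hww : ∀ p, w' 0 p = w X p := by
          intro p
          funext i
          by_cases hp : isP p
          · simp only [w', w, hp, if_true]
          · simp only [w', w, hp, if_false, huv]
        refine Prod.ext ?_ (funext fun p => ?_)
        · show Projectivization.mk ℂ (u 0) _ = Projectivization.mk ℂ (v X) _
          congr 1
        · show Projectivization.mk ℂ (w' 0 p) _ = Projectivization.mk ℂ (w X p) _
          congr 1
          exact hww p
      rw [← hR0]
      have h1 : (0 : ℂ) ∈ closure (U ∩ {(0 : ℂ)}ᶜ) :=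
        (dense_compl_singleton (0 : ℂ)).open_subset_closure_inter hUo h0U
      have h3 : (⟨0, h0U⟩ : U) ∈ closure {μ : U | μ.1 ≠ 0} := by
        rw [closure_subtype]
        convert h1 using 2
        ext z
        constructor
        · rintro ⟨z', hz', rfl⟩
          exact ⟨z'.2, hz'⟩
        · rintro ⟨hz1, hz2⟩
          exact ⟨⟨z, hz1⟩, hz2, rfl⟩
      have h4 := image_closure_subset_closure_image hRc (mem_image_of_mem R h3)
      refine closure_mono ?_ h4
      rintro _ ⟨μ, hμ, rfl⟩
      exact hRopen μ hμ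
  have hQmem : ∀ X, Q X ∈ HK L n := by
    intro X
    have h1 := hQc.range_subset_closure_image_dense hD (mem_range_self X)
    have h3 : closure (Q '' D) ⊆ HK L n := by
      refine closure_minimal ?_ isClosed_closure
      rintro _ ⟨Y, hY, rfl⟩
      exact hQD Y hY
    exact h3 h1
  let F : C(S2, HK L n) := ⟨fun X => ⟨Q X, hQmem X⟩, Continuous.subtype_mk hQc _⟩
  -- the projection
  obtain ⟨ρ1, hρ1, hgf⟩ := (hg' f hf0).2.2.2.1 rfl
  obtain ⟨ρ2, hρ2, hgg2⟩ := (hg' g hg0).2.2.2.2 rfl
  have hρ10 : ρ1 ≠ 0 := by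
    intro h0
    rw [h0, zero_pow hn] at hρ1
    exact hf1 (by linear_combination -4 * hρ1)
  have hρ20 : ρ2 ≠ 0 := by
    intro h0
    rw [h0, zero_pow hn] at hρ2
    exact hg2 (by linear_combination 4 * hρ2)
  let m : Fin 3 → ℂ := fun a => d j * lin L j (P a)
  have hm : ∀ a, 0 < (m a).re := hd j hj
  have hre : ∀ (c : ℂ) (r : ℝ), 0 < c.re → 0 < r → c + m 0 * r ≠ 0 := by
    intro c r hc hr h0
    have h5 : (m 0 * (r : ℂ)).re = r * (m 0).re := by
      rw [mul_comm, re_ofReal_mul]
    have h6 : (c + m 0 * r).re = 0 := by rw [h0, zero_re]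
    rw [add_re, h5] at h6
    have := mul_pos hr (hm 0)
    linarith
  have hm0 : m 0 ≠ 0 := by
    intro h0
    have := hm 0
    rw [h0] at this
    simp at this
  have h40 : ((1 / 4 : ℝ) : ℂ) ≠ 0 := by norm_num
  let μ : Fin 3 → ℂ := ![pt n (m 0) / rf (lin L h (P 0)),
    pt n (1 / 4 : ℝ) * pt n (m 1 + m 0 * r1 h) / ρ1,
    θ * pt n (1 / 4 : ℝ) * pt n (m 2 + m 0 * r2 h) / ρ2]
  have hμ0 : ∀ a, μ a ≠ 0 := by
    intro a
    fin_cases a
    · exact div_ne_zero (pt_ne n hn hm0) (hrf0 _ hh.1)
    · exact div_ne_zero (mul_ne_zero (pt_ne n hn h40)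
        (pt_ne n hn (hre _ _ (hm 1) hh3.1))) hρ10
    · exact div_ne_zero (mul_ne_zero (mul_ne_zero hθ0 (pt_ne n hn h40))
        (pt_ne n hn (hre _ _ (hm 2) hh3.2.1))) hρ20
  have hμ : ∀ a, μ a ^ n * lin L ((![h, f, g] : Fin 3 → ι) a) ((![P 0, P 1 + (r1 h : ℂ) • P 0,
      P 2 + (r2 h : ℂ) • P 0] : Fin 3 → Fin 3 → ℂ) a)
      = d j * lin L j ((![P 0, P 1 + (r1 h : ℂ) • P 0,
      P 2 + (r2 h : ℂ) • P 0] : Fin 3 → Fin 3 → ℂ) a) := by
    intro a
    fin_cases a
    · show (pt n (m 0) / rf (lin L h (P 0))) ^ n * lin L h (P 0) = d j * lin L j (P 0)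
      rw [div_pow, pt_pow n hn, hrf]
      have := hh.1
      field_simp
      rfl
    · show (pt n (1 / 4 : ℝ) * pt n (m 1 + m 0 * r1 h) / ρ1) ^ n
        * lin L f (P 1 + (r1 h : ℂ) • P 0) = d j * lin L j (P 1 + (r1 h : ℂ) • P 0)
      rw [div_pow, mul_pow, pt_pow n hn, pt_pow n hn, hρ1, lin_add, lin_smul, hf0, lin_add,
        lin_smul]
      show ((1 / 4 : ℝ) : ℂ) * (d j * lin L j (P 1) + d j * lin L j (P 0) * r1 h)
        / (lin L f (P 1) / 4) * (lin L f (P 1) + r1 h * 0)
        = d j * (lin L j (P 1) + r1 h * lin L j (P 0))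
      push_cast
      field_simp
      ring
    · show (θ * pt n (1 / 4 : ℝ) * pt n (m 2 + m 0 * r2 h) / ρ2) ^ n
        * lin L g (P 2 + (r2 h : ℂ) • P 0) = d j * lin L j (P 2 + (r2 h : ℂ) • P 0)
      rw [div_pow, mul_pow, mul_pow, pt_pow n hn, pt_pow n hn, hρ2, hθ, lin_add, lin_smul, hg0,
        lin_add, lin_smul]
      show -1 * ((1 / 4 : ℝ) : ℂ) * (d j * lin L j (P 2) + d j * lin L j (P 0) * r2 h)
        / -(lin L g (P 2) / 4) * (lin L g (P 2) + r2 h * 0)
        = d j * (lin L j (P 2) + r2 h * lin L j (P 0))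
      push_cast
      field_simp
      ring
  have hν : ((rf ((d j)⁻¹))⁻¹) ^ n = d j := by rw [inv_pow, hrf, inv_inv]
  obtain ⟨pg, hpg⟩ := exists_proj L n hn1 hη _ _ hside j (d j) μ ((rf ((d j)⁻¹))⁻¹) hμ0 hμ hν
  have hposj : ∀ X : S2, 0 < (∑ a, m a * baryc n ε X a).re := hεpos j hj
  refine ⟨F, refl2.comp pg, ?_⟩
  have hfg' : (refl2.comp pg).comp F
      = (refl2.comp (⟨pr n η hn1 hη, continuous_pr n η hn1 hη⟩ : C(Cone n, S2))).comp
      (gsph n hn hθ hε.le hh3.1.le hh3.2.1.le m hm hposj) := by
    apply ContinuousMap.ext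
    intro X
    show refl2 (pg (F X)) = refl2 (pr n η hn1 hη ⟨gv n θ ε (r1 h) (r2 h) m X,
      gv_mem n hn hθ (hposj X)⟩)
    congr 1
    have hvec : (![μ 1 * v X f, μ 2 * v X g,
        μ 0 * v X h, (rf ((d j)⁻¹))⁻¹ * v X j] : Fin 4 → ℂ)
        = gv n θ ε (r1 h) (r2 h) m X := by
      have hr' : rf ((d j)⁻¹) ≠ 0 := hrf0 _ (inv_ne_zero (hdne j hj))
      have hrh := hrf0 _ hh.1
      funext i
      fin_cases i
      · show μ 1 * v X f = pt n (1 / 4 : ℝ) * pt n (m 1 + m 0 * r1 h)
          * (lamc n ε X * pf n Real.pi (vv X ^ n))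
        rw [hv1 _ _ hf0, hgf]
        show pt n (1 / 4 : ℝ) * pt n (m 1 + m 0 * r1 h) / ρ1
          * (lamc n ε X * (ρ1 * pf n Real.pi (vv X ^ n))) = _
        field_simp
      · show μ 2 * v X g = θ * pt n (1 / 4 : ℝ) * pt n (m 2 + m 0 * r2 h)
          * (lamc n ε X * pf n 0 (vv X ^ n))
        rw [hv1 _ _ hg0, hgg2]
        show θ * pt n (1 / 4 : ℝ) * pt n (m 2 + m 0 * r2 h) / ρ2
          * (lamc n ε X * (ρ2 * pf n 0 (vv X ^ n))) = _
        field_simp
      · show μ 0 * v X h = pt n (m 0) * hr n ((X : R3) 2) (hv n ε (r1 h) (r2 h) X)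
        rw [hv2 _ _ hh]
        show pt n (m 0) / rf (lin L h (P 0)) * (rf (lin L h (P 0))
          * hr n ((X : R3) 2) (hv n ε (r1 h) (r2 h) X)) = _
        field_simp
      · show (rf ((d j)⁻¹))⁻¹ * v X j = pt n (∑ a, m a * baryc n ε X a)
        rw [hv3 _ j hj, hlinx', ← mul_assoc, inv_mul_cancel₀ hr', one_mul]
    have hc : (![μ 1 * v X ((![h, f, g] : Fin 3 → ι) 1), μ 2 * v X ((![h, f, g] : Fin 3 → ι) 2),
        μ 0 * v X ((![h, f, g] : Fin 3 → ι) 0), (rf ((d j)⁻¹))⁻¹ * v X j] : Fin 4 → ℂ)
        ∈ Cone n := by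
      show (![μ 1 * v X f, μ 2 * v X g,
        μ 0 * v X h, (rf ((d j)⁻¹))⁻¹ * v X j] : Fin 4 → ℂ) ∈ Cone n
      rw [hvec]
      exact gv_mem n hn hθ (hposj X)
    rw [hpg (F X) (v X) (hvne X) (hvP X) rfl hc]
    congr 1
    exact Subtype.ext hvec
  rw [hfg']
  exact pr_gsph n h2 hn hn1 hθ hη hηθ hε.le hh3.1.le hh3.2.1.le m hm hposj

/-- The Hirzebruch-Kummer covering of a configuration with a cut contains an essential
two-sphere and is not a `K(π, 1)`. -/
theorem cut_not_kPiOne (n : ℕ) (h2 : 2 ≤ n) (hL : IsConfig L) (hF : HasCut L) :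
    (∃ f : C(S2, HK L n), ¬ f.Nullhomotopic) ∧ ¬ IsKPiOne (HK L n) := by
  obtain ⟨f, g, hfg⟩ := cut_aux L n h2 hL hF
  have hf := not_null_of_retract f g hfg
  refine ⟨⟨f, hf⟩, ?_⟩
  rintro ⟨E, tE, q, hq, hs, hE⟩
  exact no_contractible_cover f hf q hq hs hE

end

end Pool.Agent.H.MP_02294b_ag.Cov
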