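import Mathlib

/-! Hirzebruch-Kummer coverings of configurations of lines in the complex projective plane. -/

set_option autoImplicit false

open scoped LinearAlgebra.Projectivization Topology

namespace Pool.Agent.H.MP_02294b_ag.Cov

/-- The quotient topology on a projective space. -/
instance projTop {V : Type*} [AddCommGroup V] [Module ℂ V] [TopologicalSpace V] :
    TopologicalSpace (ℙ ℂ V) :=
  inferInstanceAs (TopologicalSpace (Quotient (projectivizationSetoid ℂ V)))

section

variable {ι : Type} [Fintype ι]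

/-- The value at `x` of the linear form with coefficient vector `L i`. -/
def lin (L : ι → Fin 3 → ℂ) (i : ι) (x : Fin 3 → ℂ) : ℂ := ∑ j, L i j * x j

/-- A configuration of lines: at least three pairwise non-proportional linear forms on `ℂ³`
without a common zero, that is, distinct lines not all through one point. -/
structure IsConfig (L : ι → Fin 3 → ℂ) : Prop where
  three : 3 ≤ Fintype.card ι
  indep : ∀ i j, i ≠ j → LinearIndependent ℂ ![L i, L j]
  noCommon : ∀ x, (∀ i, lin L i x = 0) → x = 0

/-- The multiple points: the points of the plane lying on at least three of the lines. -/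
def MultPt (L : ι → Fin 3 → ℂ) : Set (ℙ ℂ (Fin 3 → ℂ)) :=
  {p | 3 ≤ {i | lin L i p.rep = 0}.ncard}

/-- The lines through a point. -/
def Through (L : ι → Fin 3 → ℂ) (p : ℙ ℂ (Fin 3 → ℂ)) : Type := {i : ι // lin L i p.rep = 0}

/-- The product of the projective space with coordinates `y i`, one for each line, and, for each
multiple point `p`, of the projective space with coordinates indexed by the lines through `p`. -/
abbrev Ambient (L : ι → Fin 3 → ℂ) : Type :=
  ℙ ℂ (ι → ℂ) × ((p : MultPt L) → ℙ ℂ (Through L p.1 → ℂ))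

/-- The part of the Hirzebruch-Kummer covering over the complement of the lines: the points
`([v], ([v restricted to the lines through p])_p)` for the `v` with all `v i ≠ 0` and
`v i ^ n = lin L i x` for all `i`, for some `x`. -/
def HKopen (L : ι → Fin 3 → ℂ) (n : ℕ) : Set (Ambient L) :=
  {q | ∃ v : ι → ℂ, (∀ i, v i ≠ 0) ∧ (∃ x, ∀ i, v i ^ n = lin L i x) ∧
    (∃ h : v ≠ 0, q.1 = Projectivization.mk ℂ v h) ∧
    ∀ p : MultPt L, ∃ h : (fun i : Through L p.1 => v i.1) ≠ 0,
      q.2 p = Projectivization.mk ℂ (fun i : Through L p.1 => v i.1) h}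

/-- The Hirzebruch-Kummer covering `HK_C(n)`: the closure of its open part, i.e. the blow-up of
the Kummer covering `{[v] : v ^ n ∈ image of the linear forms}` at its singular points (the points
over the multiple points of the configuration). -/
def HK (L : ι → Fin 3 → ℂ) (n : ℕ) : Set (Ambient L) := closure (HKopen L n)

/-- The line `i` passes through the vertex `P 0` of the triangle and meets the closed opposite side,
or it is the line through `P 0` and the point `P 1 - P 2` of the line carrying the opposite side. -/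
def Pencil (L : ι → Fin 3 → ℂ) (P : Fin 3 → Fin 3 → ℂ) (i : ι) : Prop :=
  lin L i (P 0) = 0 ∧
    ((∃ t : ℝ, 0 ≤ t ∧ t ≤ 1 ∧ lin L i (((1 - t : ℝ) : ℂ) • P 1 + (t : ℂ) • P 2) = 0) ∨
      lin L i (P 1) = lin L i (P 2))

/-- The line `i` crosses the triangle from the side `P 0 P 1` to the side `P 0 P 2`. -/
def Crosses (L : ι → Fin 3 → ℂ) (P : Fin 3 → Fin 3 → ℂ) (i : ι) : Prop :=
  lin L i (P 0) ≠ 0 ∧ ∃ r1 r2 : ℝ, 0 < r1 ∧ 0 < r2 ∧
    lin L i (P 1) = -(r1 : ℂ) * lin L i (P 0) ∧ lin L i (P 2) = -(r2 : ℂ) * lin L i (P 0)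

/-- The line `i` does not meet the closed triangle, the image of the nonzero combinations of the
`P a` with nonnegative coefficients. -/
def Avoids (L : ι → Fin 3 → ℂ) (P : Fin 3 → Fin 3 → ℂ) (i : ι) : Prop :=
  ∀ s : Fin 3 → ℝ, (∀ a, 0 ≤ s a) → s ≠ 0 → lin L i (∑ a, (s a : ℂ) • P a) ≠ 0

/-- A cut: a triangle with vertices `P 0`, `P 1`, `P 2`, whose sides `P 0 P 2` and `P 0 P 1` lie on
the lines `f` and `g`, such that each line belongs to the pencil, crosses or avoids the triangle,
and at least one line crosses it and at least one line avoids it. -/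
def HasCut (L : ι → Fin 3 → ℂ) : Prop :=
  ∃ (P : Fin 3 → Fin 3 → ℂ) (f g : ι),
    (lin L f (P 0) = 0 ∧ lin L f (P 1) ≠ 0 ∧ lin L f (P 2) = 0) ∧
    (lin L g (P 0) = 0 ∧ lin L g (P 1) = 0 ∧ lin L g (P 2) ≠ 0) ∧
    (∃ i, Crosses L P i) ∧ (∃ i, Avoids L P i) ∧
    ∀ i, Pencil L P i ∨ Crosses L P i ∨ Avoids L P i

/-- A space has a contractible universal covering: some covering space of it is contractible. -/
def IsKPiOne (X : Type) [TopologicalSpace X] : Prop :=
  ∃ (E : Type) (_ : TopologicalSpace E) (q : E → X),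
    IsCoveringMap q ∧ Function.Surjective q ∧ ContractibleSpace E

/-- The same sets of lines are concurrent. -/
def SameType (L L' : ι → Fin 3 → ℂ) : Prop :=
  ∀ S : Set ι, (∃ x, x ≠ 0 ∧ ∀ i ∈ S, lin L i x = 0) ↔ ∃ x, x ≠ 0 ∧ ∀ i ∈ S, lin L' i x = 0

/-- A projective transformation carries the lines of `L` to the lines of `L'`. -/
def ProjEquiv (L L' : ι → Fin 3 → ℂ) : Prop :=
  ∃ g : (Fin 3 → ℂ) ≃ₗ[ℂ] (Fin 3 → ℂ), ∀ i, ∃ c : ℂ, c ≠ 0 ∧ ∀ x, lin L' i (g x) = c * lin L i x

/-- Rigid: every configuration of the same type near `L` is projectively equivalent to `L`. -/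
def IsRigid (L : ι → Fin 3 → ℂ) : Prop :=
  ∃ U ∈ 𝓝 L, ∀ L' ∈ U, IsConfig L' → SameType L L' → ProjEquiv L L'

/-- Four of the lines are in general position: no three of them are concurrent. -/
def FourGeneral (L : ι → Fin 3 → ℂ) : Prop :=
  ∃ q : Fin 4 → ι, ∀ i j k : Fin 4, i ≠ j → i ≠ k → j ≠ k →
    ∀ x, lin L (q i) x = 0 → lin L (q j) x = 0 → lin L (q k) x = 0 → x = 0

/-- The value at `x` of the real linear form with coefficient vector `A i`. -/
def rlin (A : ι → Fin 3 → ℝ) (i : ι) (x : Fin 3 → ℝ) : ℝ := ∑ j, A i j * x j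

/-- The complexification of a family of real linear forms. -/
def cx (A : ι → Fin 3 → ℝ) : ι → Fin 3 → ℂ := fun i j => (A i j : ℂ)

/-- The line `i` is a wall of the chamber of the point `x`: there is a point `y` on the line `i`
which is not separated from `x` by any other line. -/
def IsWall (A : ι → Fin 3 → ℝ) (x : Fin 3 → ℝ) (i : ι) : Prop :=
  ∃ y, rlin A i y = 0 ∧ ∀ j, j ≠ i → 0 < rlin A j x * rlin A j y

end

end Pool.Agent.H.MP_02294b_ag.Cov
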