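import Pool.Agent.H.MP_02294b_ag.Cov.Top

/-! The map from the Fermat surface to the two-sphere given by the projection from a line, and its
restriction to the vanishing sphere. -/

set_option autoImplicit false

open Metric Set Filter Topology Complex

namespace Pool.Agent.H.MP_02294b_ag.Cov

open Pool.Agent.H.MP_5f9601_gt (nrm coe_nrm norm_coe homotopicRel_of_not_antipodal)

/-- Euclidean three-space -/
abbrev R3 : Type := EuclideanSpace ℝ (Fin 3)

/-- The Hopf-type quadratic map: the point `[A : B]` of the projective line as a vector. -/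
noncomputable def W (A B : ℂ) : R3 :=
  !₂[2 * (A * (starRingEnd ℂ) B).re, 2 * (A * (starRingEnd ℂ) B).im, normSq A - normSq B]

theorem inner_W (A B C D : ℂ) : inner ℝ (W A B) (W C D)
    + (normSq A + normSq B) * (normSq C + normSq D)
    = 2 * normSq (A * (starRingEnd ℂ) C + B * (starRingEnd ℂ) D) := by
  simp [W, PiLp.inner_apply, Fin.sum_univ_three, normSq_apply]
  ring

theorem norm_W (A B : ℂ) : ‖W A B‖ = normSq A + normSq B := by
  have h := inner_W A B A B
  rw [real_inner_self_eq_norm_sq] at h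
  have h0 : 0 ≤ normSq A := normSq_nonneg _
  have h1 : 0 ≤ normSq B := normSq_nonneg _
  have h2 : normSq (A * (starRingEnd ℂ) A + B * (starRingEnd ℂ) B) = (normSq A + normSq B) ^ 2 := by
    rw [mul_conj, mul_conj, ← ofReal_add, normSq_ofReal]
    ring
  rw [h2] at h
  have h3 : ‖W A B‖ ^ 2 = (normSq A + normSq B) ^ 2 := by nlinarith
  exact (sq_eq_sq₀ (norm_nonneg _) (by positivity)).1 h3

theorem W_ne {A B : ℂ} (h : A ≠ 0 ∨ B ≠ 0) : W A B ≠ 0 := by
  intro h0
  have h1 := norm_W A B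
  rw [h0, norm_zero] at h1
  have h2 : 0 ≤ normSq A := normSq_nonneg _
  have h3 : 0 ≤ normSq B := normSq_nonneg _
  rcases h with h | h
  · have := normSq_pos.2 h
    linarith
  · have := normSq_pos.2 h
    linarith

theorem continuous_W : Continuous fun p : ℂ × ℂ => W p.1 p.2 := by
  unfold W
  have hn : Continuous (normSq : ℂ → ℝ) := continuous_normSq
  have hc : Continuous (starRingEnd ℂ) := continuous_conj
  refine (PiLp.continuous_toLp 2 (fun _ : Fin 3 => ℝ)).comp (continuous_pi fun i => ?_)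
  fin_cases i
  · show Continuous fun p : ℂ × ℂ => 2 * (p.1 * (starRingEnd ℂ) p.2).re
    exact continuous_const.mul (continuous_re.comp (continuous_fst.mul (hc.comp continuous_snd)))
  · show Continuous fun p : ℂ × ℂ => 2 * (p.1 * (starRingEnd ℂ) p.2).im
    exact continuous_const.mul (continuous_im.comp (continuous_fst.mul (hc.comp continuous_snd)))
  · show Continuous fun p : ℂ × ℂ => normSq p.1 - normSq p.2
    exact (hn.comp continuous_fst).sub (hn.comp continuous_snd)

theorem W_smul (l A B : ℂ) : W (l * A) (l * B) = normSq l • W A B := by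
  ext i
  fin_cases i <;> simp [W, normSq_apply] <;> ring

theorem nrm_congr {v w : R3} (hv : v ≠ 0) (hw : w ≠ 0) (h : v = w) : nrm v hv = nrm w hw := by
  subst h
  rfl

theorem nrm_smul {v : R3} (hv : v ≠ 0) {r : ℝ} (hr : 0 < r) (hw : r • v ≠ 0) :
    nrm (r • v) hw = nrm v hv := by
  apply Subtype.ext
  simp only [coe_nrm]
  rw [norm_smul, Real.norm_of_nonneg hr.le, mul_inv, smul_smul]
  congr 1
  field_simp

theorem nrm_W_eq {A B C D : ℂ} (h1 : A ≠ 0 ∨ B ≠ 0) (h2 : C ≠ 0 ∨ D ≠ 0) (h : A * D = B * C) :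
    nrm (W A B) (W_ne h1) = nrm (W C D) (W_ne h2) := by
  obtain ⟨l, hl, hC, hD⟩ : ∃ l : ℂ, l ≠ 0 ∧ C = l * A ∧ D = l * B := by
    rcases h1 with h1 | h1
    · refine ⟨C / A, ?_, ?_, ?_⟩
      · intro h0
        have hC : C = 0 := by
          rcases div_eq_zero_iff.1 h0 with h0 | h0
          · exact h0
          · exact absurd h0 h1
        subst hC
        have hD : D = 0 := by
          have : A * D = 0 := by rw [h]; ring
          rcases mul_eq_zero.1 this with h | h
          · exact absurd h h1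
          · exact h
        rcases h2 with h2 | h2
        · exact h2 rfl
        · exact h2 hD
      · field_simp
      · field_simp
        linear_combination h
    · refine ⟨D / B, ?_, ?_, ?_⟩
      · intro h0
        have hD : D = 0 := by
          rcases div_eq_zero_iff.1 h0 with h0 | h0
          · exact h0
          · exact absurd h0 h1
        subst hD
        have hC : C = 0 := by
          have : B * C = 0 := by rw [← h]; ring
          rcases mul_eq_zero.1 this with h | h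
          · exact absurd h h1
          · exact h
        rcases h2 with h2 | h2
        · exact h2 hC
        · exact h2 rfl
      · field_simp
        linear_combination -h
      · field_simp
  subst hC hD
  rw [nrm_congr (W_ne h2) (by rw [← W_smul]; exact W_ne h2) (W_smul l A B)]
  exact (nrm_smul (W_ne h1) (normSq_pos.2 hl) _).symm

theorem antipodal {A B C D : ℂ} (h1 : A ≠ 0 ∨ B ≠ 0) (h2 : C ≠ 0 ∨ D ≠ 0)
    (h : (nrm (W A B) (W_ne h1) : R3) = -(nrm (W C D) (W_ne h2) : R3)) :
    A * (starRingEnd ℂ) C + B * (starRingEnd ℂ) D = 0 := by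
  have hN1 : 0 < ‖W A B‖ := norm_pos_iff.2 (W_ne h1)
  have hN2 : 0 < ‖W C D‖ := norm_pos_iff.2 (W_ne h2)
  simp only [coe_nrm] at h
  have h3 : W A B = -((‖W A B‖ * ‖W C D‖⁻¹) • W C D) := by
    have := congrArg (fun v => ‖W A B‖ • v) h
    simp only [smul_smul, smul_neg] at this
    rw [mul_inv_cancel₀ hN1.ne', one_smul] at this
    exact this
  have h4 : inner ℝ (W A B) (W C D) = -(‖W A B‖ * ‖W C D‖) := by
    rw [h3, inner_neg_left, inner_smul_left, real_inner_self_eq_norm_sq, ← h3]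
    simp
    field_simp
  have h5 := inner_W A B C D
  rw [h4, norm_W, norm_W] at h5
  have h6 : normSq (A * (starRingEnd ℂ) C + B * (starRingEnd ℂ) D) = 0 := by linarith
  exact normSq_eq_zero.1 h6

/-- The affine cone over the Fermat surface, without its vertex. -/
def Cone (n : ℕ) : Set (Fin 4 → ℂ) := {Y | Y ≠ 0 ∧ Y 0 ^ n + Y 1 ^ n + Y 2 ^ n = Y 3 ^ n}

section Proj

variable (n : ℕ) (η : ℂ)

def fA (Y : Fin 4 → ℂ) : ℂ := Y 0 - η * Y 1

def fB (Y : Fin 4 → ℂ) : ℂ := Y 3 - Y 2

def fA' (Y : Fin 4 → ℂ) : ℂ := ∑ j ∈ Finset.range n, Y 0 ^ j * (η * Y 1) ^ (n - 1 - j)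

def fB' (Y : Fin 4 → ℂ) : ℂ := ∑ j ∈ Finset.range n, Y 3 ^ j * Y 2 ^ (n - 1 - j)

theorem fA_mul (hη : η ^ n = -1) {Y : Fin 4 → ℂ} (hY : Y ∈ Cone n) :
    fA η Y * fA' n η Y = fB Y * fB' n Y := by
  have h1 := (Commute.all (Y 0) (η * Y 1)).geom_sum₂_mul n
  have h2 := (Commute.all (Y 3) (Y 2)).geom_sum₂_mul n
  have h3 : fA η Y * fA' n η Y = Y 0 ^ n - (η * Y 1) ^ n := by
    rw [← h1, fA, fA']
    ring
  have h4 : fB Y * fB' n Y = Y 3 ^ n - Y 2 ^ n := by
    rw [← h2, fB, fB']
    ring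
  rw [h3, h4, mul_pow, hη]
  linear_combination hY.2

theorem fAB'_ne (hn : 1 ≤ n) (hη : η ^ n = -1) {Y : Fin 4 → ℂ} (hY : Y ∈ Cone n)
    (h : ¬ (fA η Y ≠ 0 ∨ fB Y ≠ 0)) : fB' n Y ≠ 0 ∨ fA' n η Y ≠ 0 := by
  push Not at h
  obtain ⟨hA, hB⟩ := h
  have hA1 : η * Y 1 = Y 0 := by
    have : Y 0 - η * Y 1 = 0 := hA
    linear_combination -this
  have hB1 : Y 2 = Y 3 := by
    have : Y 3 - Y 2 = 0 := hB
    linear_combination -this
  have hη0 : η ≠ 0 := by
    rintro rfl
    rw [zero_pow (by omega)] at hη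
    norm_num at hη
  have hn0 : (n : ℂ) ≠ 0 := by exact_mod_cast (by omega : n ≠ 0)
  have key : ∀ z : ℂ, ∑ j ∈ Finset.range n, z ^ j * z ^ (n - 1 - j) = n * z ^ (n - 1) := by
    intro z
    rw [Finset.sum_congr rfl (g := fun _ => z ^ (n - 1))]
    · simp
    · intro j hj
      rw [← pow_add]
      congr 1
      have := Finset.mem_range.1 hj
      omega
  by_cases h0 : Y 0 = 0
  · left
    have h1 : Y 1 = 0 := by
      rw [h0] at hA1
      rcases mul_eq_zero.1 hA1 with h | h
      · exact absurd h hη0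
      · exact h
    have h3 : Y 3 ≠ 0 := by
      intro h3
      apply hY.1
      funext i
      fin_cases i
      · exact h0
      · exact h1
      · show Y 2 = 0
        rw [hB1, h3]
      · exact h3
    rw [fB', hB1, key]
    exact mul_ne_zero hn0 (pow_ne_zero _ h3)
  · right
    rw [fA', hA1, key]
    exact mul_ne_zero hn0 (pow_ne_zero _ h0)

open Classical in
/-- The projection of the Fermat surface from a line, as a map to the two-sphere. -/
noncomputable def pr (hn : 1 ≤ n) (hη : η ^ n = -1) (Y : Cone n) : S2 :=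
  if h : fA η Y ≠ 0 ∨ fB (Y : Fin 4 → ℂ) ≠ 0 then nrm (W (fA η Y) (fB Y)) (W_ne h)
  else nrm (W (fB' n Y) (fA' n η Y)) (W_ne (fAB'_ne n η hn hη Y.2 h))

theorem pr_eq₁ (hn : 1 ≤ n) (hη : η ^ n = -1) (Y : Cone n)
    (h : fA η Y ≠ 0 ∨ fB (Y : Fin 4 → ℂ) ≠ 0) :
    pr n η hn hη Y = nrm (W (fA η Y) (fB Y)) (W_ne h) := by
  rw [pr, dif_pos h]

theorem pr_eq₂ (hn : 1 ≤ n) (hη : η ^ n = -1) (Y : Cone n)
    (h : fB' n (Y : Fin 4 → ℂ) ≠ 0 ∨ fA' n η Y ≠ 0) :
    pr n η hn hη Y = nrm (W (fB' n Y) (fA' n η Y)) (W_ne h) := by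
  rw [pr]
  split_ifs with h1
  · exact nrm_W_eq h1 h (fA_mul n η hη Y.2)
  · rfl

theorem continuous_fA : Continuous (fA η) := by unfold fA; fun_prop
theorem continuous_fB : Continuous fB := by unfold fB; fun_prop
theorem continuous_fA' : Continuous (fA' n η) := by unfold fA'; fun_prop
theorem continuous_fB' : Continuous (fB' n) := by unfold fB'; fun_prop

theorem continuousOn_nrm {X : Type*} [TopologicalSpace X] (f : X → R3) (hf : Continuous f)
    (F : X → S2) (U : Set X) (h : ∀ x ∈ U, ∃ h0 : f x ≠ 0, F x = nrm (f x) h0) :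
    ContinuousOn F U := by
  rw [continuousOn_iff_continuous_domRestrict]
  have h1 : Continuous fun x : U => nrm (f x) (h x x.2).1 := by
    have hc : Continuous fun x : U => f x := hf.comp continuous_subtype_val
    exact Continuous.subtype_mk ((hc.norm.inv₀ fun y =>
      norm_ne_zero_iff.2 (h (y : X) y.2).1).smul hc) _
  convert h1 using 1
  funext x
  exact (h x x.2).2

theorem continuous_pr (hn : 1 ≤ n) (hη : η ^ n = -1) : Continuous (pr n η hn hη) := by
  have cA : Continuous fun Y : Cone n => fA η (Y : Fin 4 → ℂ) :=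
    (continuous_fA η).comp continuous_subtype_val
  have cB : Continuous fun Y : Cone n => fB (Y : Fin 4 → ℂ) :=
    continuous_fB.comp continuous_subtype_val
  have cA' : Continuous fun Y : Cone n => fA' n η (Y : Fin 4 → ℂ) :=
    (continuous_fA' n η).comp continuous_subtype_val
  have cB' : Continuous fun Y : Cone n => fB' n (Y : Fin 4 → ℂ) :=
    (continuous_fB' n).comp continuous_subtype_val
  rw [continuous_iff_continuousAt]
  intro Y
  by_cases h : fA η Y ≠ 0 ∨ fB (Y : Fin 4 → ℂ) ≠ 0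
  · have ho : IsOpen {Y : Cone n | fA η Y ≠ 0 ∨ fB (Y : Fin 4 → ℂ) ≠ 0} :=
      (isOpen_ne_fun cA continuous_const).union (isOpen_ne_fun cB continuous_const)
    refine ContinuousOn.continuousAt ?_ (ho.mem_nhds h)
    refine continuousOn_nrm (fun Y : Cone n => W (fA η Y) (fB Y))
      (continuous_W.comp (cA.prodMk cB)) _ _ ?_
    intro Z hZ
    exact ⟨W_ne hZ, pr_eq₁ n η hn hη Z hZ⟩
  · have h' := fAB'_ne n η hn hη Y.2 h
    have ho : IsOpen {Y : Cone n | fB' n (Y : Fin 4 → ℂ) ≠ 0 ∨ fA' n η Y ≠ 0} :=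
      (isOpen_ne_fun cB' continuous_const).union (isOpen_ne_fun cA' continuous_const)
    refine ContinuousOn.continuousAt ?_ (ho.mem_nhds h')
    refine continuousOn_nrm (fun Y : Cone n => W (fB' n Y) (fA' n η Y))
      (continuous_W.comp (cB'.prodMk cA')) _ _ ?_
    intro Z hZ
    exact ⟨W_ne hZ, pr_eq₂ n η hn hη Z hZ⟩

/-- The projection is invariant under scalars. -/
theorem pr_smul (hn : 1 ≤ n) (hη : η ^ n = -1) (Y Z : Cone n) (l : ℂ) (hl : l ≠ 0)
    (h : (Z : Fin 4 → ℂ) = l • (Y : Fin 4 → ℂ)) : pr n η hn hη Z = pr n η hn hη Y := by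
  have hA : fA η Z = l * fA η Y := by
    rw [h]
    simp [fA]
    ring
  have hB : fB (Z : Fin 4 → ℂ) = l * fB Y := by
    rw [h]
    simp [fB]
    ring
  have hA' : fA' n η Z = l ^ (n - 1) * fA' n η Y := by
    rw [h]
    simp only [fA', Pi.smul_apply, smul_eq_mul, Finset.mul_sum]
    refine Finset.sum_congr rfl fun j hj => ?_
    have hj' : n - 1 = j + (n - 1 - j) := by
      have := Finset.mem_range.1 hj
      omega
    have e : l ^ (n - 1) = l ^ j * l ^ (n - 1 - j) := by
      rw [← pow_add, ← hj']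
    rw [e]
    ring
  have hB' : fB' n (Z : Fin 4 → ℂ) = l ^ (n - 1) * fB' n Y := by
    rw [h]
    simp only [fB', Pi.smul_apply, smul_eq_mul, Finset.mul_sum]
    refine Finset.sum_congr rfl fun j hj => ?_
    have hj' : n - 1 = j + (n - 1 - j) := by
      have := Finset.mem_range.1 hj
      omega
    have e : l ^ (n - 1) = l ^ j * l ^ (n - 1 - j) := by
      rw [← pow_add, ← hj']
    rw [e]
    ring
  by_cases h1 : fA η Y ≠ 0 ∨ fB (Y : Fin 4 → ℂ) ≠ 0
  · have h2 : fA η Z ≠ 0 ∨ fB (Z : Fin 4 → ℂ) ≠ 0 := by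
      rw [hA, hB]
      rcases h1 with h1 | h1
      · exact Or.inl (mul_ne_zero hl h1)
      · exact Or.inr (mul_ne_zero hl h1)
    rw [pr_eq₁ n η hn hη Y h1, pr_eq₁ n η hn hη Z h2]
    refine nrm_W_eq h2 h1 ?_
    rw [hA, hB]
    ring
  · have h1' := fAB'_ne n η hn hη Y.2 h1
    have hl' : l ^ (n - 1) ≠ 0 := pow_ne_zero _ hl
    have h2 : fB' n (Z : Fin 4 → ℂ) ≠ 0 ∨ fA' n η Z ≠ 0 := by
      rw [hA', hB']
      rcases h1' with h1 | h1
      · exact Or.inl (mul_ne_zero hl' h1)
      · exact Or.inr (mul_ne_zero hl' h1)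
    rw [pr_eq₂ n η hn hη Y h1', pr_eq₂ n η hn hη Z h2]
    refine nrm_W_eq h2 h1' ?_
    rw [hA', hB']
    ring

end Proj

end Pool.Agent.H.MP_02294b_ag.Cov
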