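import Pool.Agent.H.MP_02294b_ag.Cov.Rigid

/-! Every rigid configuration with four lines in general position can be enlarged to a rigid
configuration with a cut. -/

set_option autoImplicit false

open Set Filter Topology Complex
open scoped LinearAlgebra.Projectivization

namespace Pool.Agent.H.MP_02294b_ag.Cov

section

variable {ι : Type} [Fintype ι]

theorem exists_common (L : ι → Fin 3 → ℂ) (i j : ι) :
    ∃ x : Fin 3 → ℂ, x ≠ 0 ∧ lin L i x = 0 ∧ lin L j x = 0 := by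
  set M : Matrix (Fin 2) (Fin 3) ℂ := Matrix.of ![L i, L j] with hM
  have h1 : LinearMap.ker M.mulVecLin ≠ ⊥ := by
    apply LinearMap.ker_ne_bot_of_finrank_lt
    simp
  obtain ⟨x, hx, hx0⟩ := (Submodule.ne_bot_iff _).1 h1
  rw [LinearMap.mem_ker] at hx
  exact ⟨x, hx0, congrFun hx 0, congrFun hx 1⟩

/-- value of a form -/
def ev (u x : Fin 3 → ℂ) : ℂ := ∑ j, u j * x j

theorem lin_eq_ev (L : ι → Fin 3 → ℂ) (i : ι) (x : Fin 3 → ℂ) : lin L i x = ev (L i) x := rfl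

theorem ev_add_left (u w x : Fin 3 → ℂ) : ev (u + w) x = ev u x + ev w x := by
  simp only [ev, Pi.add_apply, add_mul, Finset.sum_add_distrib]

theorem ev_smul_left (c : ℂ) (u x : Fin 3 → ℂ) : ev (c • u) x = c * ev u x := by
  simp only [ev, Pi.smul_apply, smul_eq_mul, Finset.mul_sum, mul_assoc]

theorem ev_add_right (u x y : Fin 3 → ℂ) : ev u (x + y) = ev u x + ev u y := by
  simp only [ev, Pi.add_apply, mul_add, Finset.sum_add_distrib]

theorem ev_smul_right (c : ℂ) (u x : Fin 3 → ℂ) : ev u (c • x) = c * ev u x := by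
  simp only [ev, Pi.smul_apply, smul_eq_mul, Finset.mul_sum]
  exact Finset.sum_congr rfl fun j _ => by ring

/-- coordinates adapted to four lines in general position -/
theorem exists_coords {L : ι → Fin 3 → ℂ} {q : Fin 4 → ι}
    (hq : ∀ i j k : Fin 4, i ≠ j → i ≠ k → j ≠ k →
      ∀ x, lin L (q i) x = 0 → lin L (q j) x = 0 → lin L (q k) x = 0 → x = 0) :
    ∃ E Φ : Fin 3 → Fin 3 → ℂ, (∀ a b, ev (Φ a) (E b) = if a = b then 1 else 0) ∧
      (∃ c : ℂ, c ≠ 0 ∧ L (q 0) = c • Φ 0) ∧ (∃ c : ℂ, c ≠ 0 ∧ L (q 1) = c • Φ 1) ∧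
      (∃ c : ℂ, c ≠ 0 ∧ L (q 2) = c • Φ 2) ∧
      L (q 3) = (1 : ℂ) • Φ 0 + (-1 : ℂ) • Φ 1 + (-1 : ℂ) • Φ 2 := by
  obtain ⟨x0, h0, h01, h02⟩ := exists_common L (q 1) (q 2)
  obtain ⟨x1, h1, h10, h12⟩ := exists_common L (q 0) (q 2)
  obtain ⟨x2, h2, h20, h21⟩ := exists_common L (q 0) (q 1)
  have a0 : lin L (q 0) x0 ≠ 0 := fun h => h0 (hq 0 1 2 (by decide) (by decide) (by decide) _ h h01 h02)
  have a1 : lin L (q 1) x1 ≠ 0 := fun h => h1 (hq 1 0 2 (by decide) (by decide) (by decide) _ h h10 h12)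
  have a2 : lin L (q 2) x2 ≠ 0 := fun h => h2 (hq 2 0 1 (by decide) (by decide) (by decide) _ h h20 h21)
  have d0 : lin L (q 3) x0 ≠ 0 := fun h => h0 (hq 3 1 2 (by decide) (by decide) (by decide) _ h h01 h02)
  have d1 : lin L (q 3) x1 ≠ 0 := fun h => h1 (hq 3 0 2 (by decide) (by decide) (by decide) _ h h10 h12)
  have d2 : lin L (q 3) x2 ≠ 0 := fun h => h2 (hq 3 0 1 (by decide) (by decide) (by decide) _ h h20 h21)
  set y0 := (lin L (q 3) x0)⁻¹ • x0 with hy0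
  set y1 := (-(lin L (q 3) x1)⁻¹) • x1 with hy1
  set y2 := (-(lin L (q 3) x2)⁻¹) • x2 with hy2
  have b0 : lin L (q 0) y0 ≠ 0 := by
    rw [hy0, lin_smul]
    exact mul_ne_zero (inv_ne_zero d0) a0
  have b1 : lin L (q 1) y1 ≠ 0 := by
    rw [hy1, lin_smul]
    exact mul_ne_zero (neg_ne_zero.2 (inv_ne_zero d1)) a1
  have b2 : lin L (q 2) y2 ≠ 0 := by
    rw [hy2, lin_smul]
    exact mul_ne_zero (neg_ne_zero.2 (inv_ne_zero d2)) a2
  have c01 : lin L (q 0) y1 = 0 := by rw [hy1, lin_smul, h10, mul_zero]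
  have c02 : lin L (q 0) y2 = 0 := by rw [hy2, lin_smul, h20, mul_zero]
  have c10 : lin L (q 1) y0 = 0 := by rw [hy0, lin_smul, h01, mul_zero]
  have c12 : lin L (q 1) y2 = 0 := by rw [hy2, lin_smul, h21, mul_zero]
  have c20 : lin L (q 2) y0 = 0 := by rw [hy0, lin_smul, h02, mul_zero]
  have c21 : lin L (q 2) y1 = 0 := by rw [hy1, lin_smul, h12, mul_zero]
  have e0 : lin L (q 3) y0 = 1 := by rw [hy0, lin_smul, inv_mul_cancel₀ d0]
  have e1 : lin L (q 3) y1 = -1 := by rw [hy1, lin_smul, neg_mul, inv_mul_cancel₀ d1]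
  have e2 : lin L (q 3) y2 = -1 := by rw [hy2, lin_smul, neg_mul, inv_mul_cancel₀ d2]
  have hdual : ∀ a b : Fin 3, ev ((![(lin L (q 0) y0)⁻¹ • L (q 0), (lin L (q 1) y1)⁻¹ • L (q 1),
      (lin L (q 2) y2)⁻¹ • L (q 2)] : Fin 3 → Fin 3 → ℂ) a)
      ((![y0, y1, y2] : Fin 3 → Fin 3 → ℂ) b) = if a = b then 1 else 0 := by
    intro a b
    fin_cases a <;> fin_cases b
    · show ev ((lin L (q 0) y0)⁻¹ • L (q 0)) y0 = 1
      rw [ev_smul_left, ← lin_eq_ev, inv_mul_cancel₀ b0]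
    · show ev ((lin L (q 0) y0)⁻¹ • L (q 0)) y1 = 0
      rw [ev_smul_left, ← lin_eq_ev, c01, mul_zero]
    · show ev ((lin L (q 0) y0)⁻¹ • L (q 0)) y2 = 0
      rw [ev_smul_left, ← lin_eq_ev, c02, mul_zero]
    · show ev ((lin L (q 1) y1)⁻¹ • L (q 1)) y0 = 0
      rw [ev_smul_left, ← lin_eq_ev, c10, mul_zero]
    · show ev ((lin L (q 1) y1)⁻¹ • L (q 1)) y1 = 1
      rw [ev_smul_left, ← lin_eq_ev, inv_mul_cancel₀ b1]
    · show ev ((lin L (q 1) y1)⁻¹ • L (q 1)) y2 = 0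
      rw [ev_smul_left, ← lin_eq_ev, c12, mul_zero]
    · show ev ((lin L (q 2) y2)⁻¹ • L (q 2)) y0 = 0
      rw [ev_smul_left, ← lin_eq_ev, c20, mul_zero]
    · show ev ((lin L (q 2) y2)⁻¹ • L (q 2)) y1 = 0
      rw [ev_smul_left, ← lin_eq_ev, c21, mul_zero]
    · show ev ((lin L (q 2) y2)⁻¹ • L (q 2)) y2 = 1
      rw [ev_smul_left, ← lin_eq_ev, inv_mul_cancel₀ b2]
  refine ⟨![y0, y1, y2], ![(lin L (q 0) y0)⁻¹ • L (q 0), (lin L (q 1) y1)⁻¹ • L (q 1),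
    (lin L (q 2) y2)⁻¹ • L (q 2)], hdual, ⟨_, b0, ?_⟩, ⟨_, b1, ?_⟩, ⟨_, b2, ?_⟩, ?_⟩
  · show L (q 0) = lin L (q 0) y0 • ((lin L (q 0) y0)⁻¹ • L (q 0))
    rw [smul_smul, mul_inv_cancel₀ b0, one_smul]
  · show L (q 1) = lin L (q 1) y1 • ((lin L (q 1) y1)⁻¹ • L (q 1))
    rw [smul_smul, mul_inv_cancel₀ b1, one_smul]
  · show L (q 2) = lin L (q 2) y2 • ((lin L (q 2) y2)⁻¹ • L (q 2))
    rw [smul_smul, mul_inv_cancel₀ b2, one_smul]
  · show L (q 3) = (1 : ℂ) • ((lin L (q 0) y0)⁻¹ • L (q 0)) + (-1 : ℂ) • ((lin L (q 1) y1)⁻¹ • L (q 1))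
      + (-1 : ℂ) • ((lin L (q 2) y2)⁻¹ • L (q 2))
    rw [← sub_eq_zero]
    refine form_eq_zero fun x => ?_
    have hside : ∀ a b : Fin 3, lin L ((![q 0, q 1, q 2] : Fin 3 → ι) a)
        ((![y0, y1, y2] : Fin 3 → Fin 3 → ℂ) b) = 0 ↔ a ≠ b := by
      intro a b
      fin_cases a <;> fin_cases b
      · exact ⟨fun h => absurd h b0, fun h => absurd rfl h⟩
      · exact ⟨fun _ => by decide, fun _ => c01⟩
      · exact ⟨fun _ => by decide, fun _ => c02⟩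
      · exact ⟨fun _ => by decide, fun _ => c10⟩
      · exact ⟨fun h => absurd h b1, fun h => absurd rfl h⟩
      · exact ⟨fun _ => by decide, fun _ => c12⟩
      · exact ⟨fun _ => by decide, fun _ => c20⟩
      · exact ⟨fun _ => by decide, fun _ => c21⟩
      · exact ⟨fun h => absurd h b2, fun h => absurd rfl h⟩
    obtain ⟨c, hc⟩ := basis_of_side L _ _ hside x
    have hx : x = c 0 • y0 + c 1 • y1 + c 2 • y2 := by
      rw [hc, Fin.sum_univ_three]
      rfl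
    show ev _ x = 0
    have hsub : ∀ u w : Fin 3 → ℂ, ev (u - w) x = ev u x - ev w x := by
      intro u w
      simp only [ev, Pi.sub_apply, sub_mul, Finset.sum_sub_distrib]
    rw [hsub, hx]
    have c01' : ev (L (q 0)) y1 = 0 := c01
    have c02' : ev (L (q 0)) y2 = 0 := c02
    have c10' : ev (L (q 1)) y0 = 0 := c10
    have c12' : ev (L (q 1)) y2 = 0 := c12
    have c20' : ev (L (q 2)) y0 = 0 := c20
    have c21' : ev (L (q 2)) y1 = 0 := c21
    have e0' : ev (L (q 3)) y0 = 1 := e0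
    have e1' : ev (L (q 3)) y1 = -1 := e1
    have e2' : ev (L (q 3)) y2 = -1 := e2
    have i0 : (lin L (q 0) y0)⁻¹ * ev (L (q 0)) y0 = 1 := inv_mul_cancel₀ b0
    have i1 : (lin L (q 1) y1)⁻¹ * ev (L (q 1)) y1 = 1 := inv_mul_cancel₀ b1
    have i2 : (lin L (q 2) y2)⁻¹ * ev (L (q 2)) y2 = 1 := inv_mul_cancel₀ b2
    simp only [ev_add_left, ev_smul_left, ev_add_right, ev_smul_right, c01', c02', c10',
      c12', c20', c21', e0', e1', e2']
    linear_combination (-c 0) * i0 + c 1 * i1 + c 2 * i2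

/-- the form with given coordinates -/
def fm (Φ : Fin 3 → Fin 3 → ℂ) (p q r : ℂ) : Fin 3 → ℂ := p • Φ 0 + q • Φ 1 + r • Φ 2

theorem ev_fm {E Φ : Fin 3 → Fin 3 → ℂ} (h : ∀ a b, ev (Φ a) (E b) = if a = b then 1 else 0)
    (p q r x y z : ℂ) : ev (fm Φ p q r) (fm E x y z) = p * x + q * y + r * z := by
  simp only [fm, ev_add_left, ev_smul_left, ev_add_right, ev_smul_right, h]
  simp
  ring

theorem indep_fm {E Φ : Fin 3 → Fin 3 → ℂ} (h : ∀ a b, ev (Φ a) (E b) = if a = b then 1 else 0)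
    {x y z x' y' z' : ℂ} (hi : ∀ s t : ℂ, s * x + t * x' = 0 → s * y + t * y' = 0 →
      s * z + t * z' = 0 → s = 0 ∧ t = 0) :
    LinearIndependent ℂ ![fm E x y z, fm E x' y' z'] := by
  rw [LinearIndependent.pair_iff]
  intro s t hst
  have key : ∀ p q r : ℂ, s * (p * x + q * y + r * z) + t * (p * x' + q * y' + r * z') = 0 := by
    intro p q r
    have := congrArg (ev (fm Φ p q r)) hst
    rw [ev_add_right, ev_smul_right, ev_smul_right, ev_fm h, ev_fm h] at this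
    rw [this]
    simp [ev]
  refine hi s t ?_ ?_ ?_
  · linear_combination key 1 0 0
  · linear_combination key 0 1 0
  · linear_combination key 0 0 1

/-- a criterion for avoiding the triangle -/
theorem avoid_of_pos (L : ι → Fin 3 → ℂ) (i : ι) (P : Fin 3 → Fin 3 → ℂ) (D : ℂ)
    (h : ∀ a, 0 < (D * lin L i (P a)).re) (s : Fin 3 → ℝ) (hs : ∀ a, 0 ≤ s a) (hs0 : s ≠ 0) :
    lin L i (∑ a, (s a : ℂ) • P a) ≠ 0 := by
  intro h0
  rw [lin_sum] at h0
  have h1 : (D * ∑ a, (s a : ℂ) * lin L i (P a)).re = ∑ a, s a * (D * lin L i (P a)).re := by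
    rw [Finset.mul_sum, re_sum]
    refine Finset.sum_congr rfl fun a _ => ?_
    rw [← re_ofReal_mul]
    congr 1
    ring
  rw [h0, mul_zero, zero_re] at h1
  obtain ⟨a, ha⟩ : ∃ a, s a ≠ 0 := by
    by_contra hcon
    push Not at hcon
    exact hs0 (funext hcon)
  have h2 : 0 < ∑ a, s a * (D * lin L i (P a)).re :=
    Finset.sum_pos' (fun b _ => mul_nonneg (hs b) (h b).le)
      ⟨a, Finset.mem_univ _, mul_pos (lt_of_le_of_ne (hs a) (Ne.symm ha)) (h a)⟩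
  linarith

end

end Pool.Agent.H.MP_02294b_ag.Cov
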