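import Pool.Agent.H.MP_02294b_ag.Cov.Ext

/-! Every rigid configuration with four lines in general position can be enlarged to a rigid
configuration with a cut. -/

set_option autoImplicit false

open Set Filter Topology Complex
open scoped LinearAlgebra.Projectivization

namespace Pool.Agent.H.MP_02294b_ag.Cov

section

variable {ι : Type} [Fintype ι]

/-- the added lines: `x = i z`, `x - y = c z`, `y = z`, `2 (x - a z) = 5 (y - b z)` -/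
noncomputable def Fam (Φ : Fin 3 → Fin 3 → ℂ) (m a b : ℕ) : Fin m ⊕ Fin m ⊕ Bool → Fin 3 → ℂ
  | Sum.inl i => fm Φ 1 0 (-(i.1 : ℂ))
  | Sum.inr (Sum.inl c) => fm Φ 1 (-1) (-(c.1 : ℂ))
  | Sum.inr (Sum.inr false) => fm Φ 0 1 (-1)
  | Sum.inr (Sum.inr true) => fm Φ 2 (-5) (5 * b - 2 * a)

theorem index_unique {M : ι → Fin 3 → ℂ} (hM : IsConfig M) {k k' : ι} {f : Fin 3 → ℂ}
    (h : ∃ c : ℂ, c ≠ 0 ∧ M k = c • f) (h' : ∃ c : ℂ, c ≠ 0 ∧ M k' = c • f) : k = k' := by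
  by_contra hne
  obtain ⟨c, hc, h⟩ := h
  obtain ⟨c', hc', h'⟩ := h'
  have := LinearIndependent.pair_iff.1 (hM.indep k k' hne) c' (-c) (by
    rw [h, h', smul_smul, smul_smul, ← add_smul]
    have : c' * c + -c * c' = 0 := by ring
    rw [this, zero_smul])
  exact hc' this.1

theorem rigid_ext {κ : Type} [Fintype κ] {L : ι → Fin 3 → ℂ} (hL : IsConfig L) (hR : IsRigid L)
    {q : Fin 4 → ι} {E Φ : Fin 3 → Fin 3 → ℂ}
    (hd : ∀ a b, ev (Φ a) (E b) = if a = b then 1 else 0)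
    (h0 : ∃ c : ℂ, c ≠ 0 ∧ L (q 0) = c • Φ 0) (h1 : ∃ c : ℂ, c ≠ 0 ∧ L (q 1) = c • Φ 1)
    (h2 : ∃ c : ℂ, c ≠ 0 ∧ L (q 2) = c • Φ 2)
    (h3 : L (q 3) = (1 : ℂ) • Φ 0 + (-1 : ℂ) • Φ 1 + (-1 : ℂ) • Φ 2)
    {M : ι ⊕ κ → Fin 3 → ℂ} (hM0 : ∀ i, M (Sum.inl i) = L i) (hM : IsConfig M) {m a b : ℕ}
    (hba : b ≤ a) (hm : a + 6 ≤ m)
    (hidx : ∀ n, ∃ k, ∃ c : ℂ, c ≠ 0 ∧ M k = c • Fam Φ m a b n)
    (hrep : ∀ k, ∃ n, ∃ c : ℂ, c ≠ 0 ∧ M (Sum.inr k) = c • Fam Φ m a b n) : IsRigid M := by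
  obtain ⟨U, hU, hUr⟩ := hR
  have hcont : Continuous fun (L' : ι ⊕ κ → Fin 3 → ℂ) => fun i : ι => L' (Sum.inl i) :=
    continuous_pi fun i => continuous_apply _
  refine ⟨(fun (L' : ι ⊕ κ → Fin 3 → ℂ) => fun i : ι => L' (Sum.inl i)) ⁻¹' U,
    hcont.continuousAt.preimage_mem_nhds (by
      have : (fun i : ι => M (Sum.inl i)) = L := funext hM0
      rw [this]
      exact hU), fun L' hL' hc hT => ?_⟩
  have hlin0 : ∀ i x, lin M (Sum.inl i) x = lin L i x := by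
    intro i x
    simp only [lin, hM0]
  have hc' : IsConfig (fun i => L' (Sum.inl i)) := by
    refine ⟨hL.three, fun i j hij => hc.indep (Sum.inl i) (Sum.inl j) fun h => hij (Sum.inl.inj h),
      fun x hx => ?_⟩
    by_contra hx0
    obtain ⟨y, hy0, hy⟩ := (hT (range Sum.inl)).2 ⟨x, hx0, by
      rintro _ ⟨i, rfl⟩
      exact hx i⟩
    apply hy0
    refine hL.noCommon y fun i => ?_
    rw [← hlin0]
    exact hy _ ⟨i, rfl⟩
  have hT' : SameType L (fun i => L' (Sum.inl i)) := by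
    intro S
    have := hT (Sum.inl '' S)
    constructor
    · rintro ⟨x, hx0, hx⟩
      obtain ⟨y, hy0, hy⟩ := this.1 ⟨x, hx0, by
        rintro _ ⟨i, hi, rfl⟩
        rw [hlin0]
        exact hx i hi⟩
      exact ⟨y, hy0, fun i hi => hy _ ⟨i, hi, rfl⟩⟩
    · rintro ⟨x, hx0, hx⟩
      obtain ⟨y, hy0, hy⟩ := this.2 ⟨x, hx0, by
        rintro _ ⟨i, hi, rfl⟩
        exact hx i hi⟩
      refine ⟨y, hy0, fun i hi => ?_⟩
      rw [← hlin0]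
      exact hy _ ⟨i, hi, rfl⟩
  obtain ⟨g, hg⟩ := hUr _ hL' hc' hT'
  refine ⟨g, ?_⟩
  let Good : ι ⊕ κ → Prop := fun k => ∃ c : ℂ, c ≠ 0 ∧ ∀ x, lin L' k (g x) = c * lin M k x
  have good0 : ∀ i, Good (Sum.inl i) := by
    intro i
    obtain ⟨c, hc, h⟩ := hg i
    refine ⟨c, hc, fun x => ?_⟩
    rw [hlin0]
    exact h x
  -- a form which is represented and all of whose representatives are good
  let HG : (Fin 3 → ℂ) → Prop := fun f => (∃ k, ∃ c : ℂ, c ≠ 0 ∧ M k = c • f) ∧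
    ∀ k, (∃ c : ℂ, c ≠ 0 ∧ M k = c • f) → Good k
  have base : ∀ i f, (∃ c : ℂ, c ≠ 0 ∧ L i = c • f) → HG f := by
    intro i f h
    have h' : ∃ c : ℂ, c ≠ 0 ∧ M (Sum.inl i) = c • f := by rwa [hM0]
    refine ⟨⟨_, h'⟩, fun k hk => ?_⟩
    rw [index_unique hM hk h']
    exact good0 i
  have hlinf : ∀ k c f x, M k = c • f → lin M k x = c * ev f x := by
    intro k c f x h
    rw [lin_eq_ev, h, ev_smul_left]
  have step : ∀ f f1 f2 f3 f4 p p' w w', (∃ k, ∃ c : ℂ, c ≠ 0 ∧ M k = c • f) → HG f1 → HG f2 →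
      HG f3 → HG f4 → ev f1 w = 0 → ev f2 w ≠ 0 → ev f3 w' = 0 → ev f4 w' ≠ 0 →
      LinearIndependent ℂ ![p, p'] → ev f p = 0 → ev f1 p = 0 → ev f2 p = 0 →
      ev f p' = 0 → ev f3 p' = 0 → ev f4 p' = 0 → HG f := by
    intro f f1 f2 f3 f4 p p' w w' hf ⟨⟨k1, c1, hc1, hk1⟩, g1⟩ ⟨⟨k2, c2, hc2, hk2⟩, g2⟩
      ⟨⟨k3, c3, hc3, hk3⟩, g3⟩ ⟨⟨k4, c4, hc4, hk4⟩, g4⟩ w1 w2 w3 w4 hi p0 p1 p2 p0' p3 p4
    refine ⟨hf, ?_⟩
    rintro k ⟨c, hck, hk⟩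
    refine good_step hM hc hT g (g1 k1 ⟨c1, hc1, hk1⟩) (g2 k2 ⟨c2, hc2, hk2⟩)
      (g3 k3 ⟨c3, hc3, hk3⟩) (g4 k4 ⟨c4, hc4, hk4⟩) ?_ ?_ hi ?_ ?_ ?_ ?_ ?_ ?_
    · rintro rfl
      have e1 := hlinf k1 c1 f1 w hk1
      rw [hlinf k1 c2 f2 w hk2, w1, mul_zero] at e1
      exact (mul_ne_zero hc2 w2) e1
    · rintro rfl
      have e1 := hlinf k3 c3 f3 w' hk3
      rw [hlinf k3 c4 f4 w' hk4, w3, mul_zero] at e1
      exact (mul_ne_zero hc4 w4) e1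
    · rw [hlinf k c f p hk, p0, mul_zero]
    · rw [hlinf k1 c1 f1 p hk1, p1, mul_zero]
    · rw [hlinf k2 c2 f2 p hk2, p2, mul_zero]
    · rw [hlinf k c f p' hk, p0', mul_zero]
    · rw [hlinf k3 c3 f3 p' hk3, p3, mul_zero]
    · rw [hlinf k4 c4 f4 p' hk4, p4, mul_zero]
  -- the frame
  have gV0 : HG (fm Φ 1 0 (-((0 : ℕ) : ℂ))) := by
    have : fm Φ 1 0 (-((0 : ℕ) : ℂ)) = Φ 0 := by simp [fm]
    rw [this]
    exact base _ _ h0
  have gH0 : HG (fm Φ 0 1 0) := by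
    have : fm Φ 0 1 0 = Φ 1 := by simp [fm]
    rw [this]
    exact base _ _ h1
  have gZ : HG (fm Φ 0 0 1) := by
    have : fm Φ 0 0 1 = Φ 2 := by simp [fm]
    rw [this]
    exact base _ _ h2
  have gD1 : HG (fm Φ 1 (-1) (-((1 : ℕ) : ℂ))) := by
    refine base (q 3) _ ⟨1, one_ne_zero, ?_⟩
    rw [h3]
    simp [fm]
  have iV : ∀ c, c < m → ∃ k, ∃ c' : ℂ, c' ≠ 0 ∧ M k = c' • fm Φ 1 0 (-(c : ℂ)) := fun c hc =>
    hidx (Sum.inl ⟨c, hc⟩)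
  have iD : ∀ c, c < m → ∃ k, ∃ c' : ℂ, c' ≠ 0 ∧ M k = c' • fm Φ 1 (-1) (-(c : ℂ)) := fun c hc =>
    hidx (Sum.inr (Sum.inl ⟨c, hc⟩))
  have gD0 : HG (fm Φ 1 (-1) (-((0 : ℕ) : ℂ))) := by
    refine step _ _ _ _ _ (fm E 0 0 1) (fm E 1 1 0) (fm E 0 1 0) (fm E 1 0 1) (iD 0 (by omega))
      gV0 gH0 gD1 gZ ?_ ?_ ?_ ?_ (indep_fm hd ?_) ?_ ?_ ?_ ?_ ?_ ?_
    case refine_5 =>
      intro s t e1 e2 e3
      exact ⟨by linear_combination e3, by linear_combination e1⟩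
    all_goals rw [ev_fm hd]; push_cast; norm_num
  have gV1 : HG (fm Φ 1 0 (-((1 : ℕ) : ℂ))) := by
    refine step _ _ _ _ _ (fm E 1 0 1) (fm E 0 1 0) (fm E 1 1 0) (fm E 0 0 1) (iV 1 (by omega))
      gD1 gH0 gV0 gZ ?_ ?_ ?_ ?_ (indep_fm hd ?_) ?_ ?_ ?_ ?_ ?_ ?_
    case refine_5 =>
      intro s t e1 e2 e3
      exact ⟨by linear_combination e3, by linear_combination e2⟩
    all_goals rw [ev_fm hd]; push_cast; norm_num
  have gH1 : HG (fm Φ 0 1 (-1)) := by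
    refine step _ _ _ _ _ (fm E 1 1 1) (fm E 1 0 0) (fm E 0 1 0) (fm E 0 0 1)
      (hidx (Sum.inr (Sum.inr false)))
      gV1 gD0 gH0 gZ ?_ ?_ ?_ ?_ (indep_fm hd ?_) ?_ ?_ ?_ ?_ ?_ ?_
    case refine_5 =>
      intro s t e1 e2 e3
      exact ⟨by linear_combination e3, by linear_combination e1 - e3⟩
    all_goals rw [ev_fm hd]; push_cast; norm_num
  have gAll : ∀ c : ℕ, c < m → HG (fm Φ 1 0 (-(c : ℂ))) ∧ HG (fm Φ 1 (-1) (-(c : ℂ))) := by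
    intro c
    induction c with
    | zero => exact fun _ => ⟨gV0, gD0⟩
    | succ c ih =>
      intro hcm
      obtain ⟨ihV, ihD⟩ := ih (by omega)
      have gV : HG (fm Φ 1 0 (-((c + 1 : ℕ) : ℂ))) := by
        refine step _ _ _ _ _ (fm E (c + 1) 1 1) (fm E 0 1 0) (fm E 1 1 0) (fm E 0 0 1)
          (iV (c + 1) hcm)
          ihD gH1 gV0 gZ ?_ ?_ ?_ ?_ (indep_fm hd ?_) ?_ ?_ ?_ ?_ ?_ ?_
        case refine_5 =>
          intro s t e1 e2 e3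
          exact ⟨by linear_combination e3, by linear_combination e2 - e3⟩
        all_goals rw [ev_fm hd]; push_cast; try norm_num
        all_goals ring
      refine ⟨gV, ?_⟩
      refine step _ _ _ _ _ (fm E (c + 1) 0 1) (fm E 1 1 0) (fm E 0 1 0) (fm E 1 0 1)
        (iD (c + 1) hcm)
        gV gH0 gD1 gZ ?_ ?_ ?_ ?_ (indep_fm hd ?_) ?_ ?_ ?_ ?_ ?_ ?_
      case refine_5 =>
        intro s t e1 e2 e3
        exact ⟨by linear_combination e3, by linear_combination e2⟩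
      all_goals rw [ev_fm hd]; push_cast; try norm_num
      all_goals ring
  have gL : HG (fm Φ 2 (-5) (5 * b - 2 * a)) := by
    refine step _ _ _ _ _ (fm E a b 1) (fm E (a + 5) (b + 2) 1) (fm E 0 1 0) (fm E 0 1 0)
      (hidx (Sum.inr (Sum.inr true)))
      (gAll a (by omega)).1 (gAll (a - b) (by omega)).2 (gAll (a + 5) (by omega)).1
      (gAll (a + 3 - b) (by omega)).2 ?_ ?_ ?_ ?_ (indep_fm hd ?_) ?_ ?_ ?_ ?_ ?_ ?_
    case refine_5 =>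
      intro s t e1 e2 e3
      have ht : t = 0 := by linear_combination (1 / 5 : ℂ) * e1 - (a / 5 : ℂ) * e3
      exact ⟨by linear_combination e3 - ht, ht⟩
    all_goals rw [ev_fm hd]
    all_goals try rw [Nat.cast_sub hba]
    all_goals try rw [Nat.cast_sub (show b ≤ a + 3 by omega)]
    all_goals push_cast
    all_goals try norm_num
    all_goals ring
  rintro (i | k)
  · exact good0 i
  · obtain ⟨n, hn⟩ := hrep k
    rcases n with i | c | b'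
    · exact (gAll i.1 i.2).1.2 _ hn
    · exact (gAll c.1 c.2).2.2 _ hn
    · cases b' with
      | false => exact gH1.2 _ hn
      | true => exact gL.2 _ hn

end

end Pool.Agent.H.MP_02294b_ag.Cov
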