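import Pool.Agent.H.MP_02294b_ag.Cov.Ext

/-! A fan gives a cut. -/

set_option autoImplicit false

open Set Filter Topology Complex
open scoped LinearAlgebra.Projectivization

namespace Pool.Agent.H.MP_02294b_ag.Cov

section

variable {ι : Type} [Fintype ι]

/-- A fan: a triangle with vertices `P 0`, `P 1`, `P 2` whose sides lie on three of the lines, such
that every line other than the side opposite to `P 0` either does not meet the closed triangle,
or passes through `P 0` and meets the closed side `P 1 P 2`, or passes through `P 0` and through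
the point `P 1 - P 2` of the opposite side. -/
def HasFan (L : ι → Fin 3 → ℂ) : Prop :=
  ∃ (P : Fin 3 → Fin 3 → ℂ) (e : Fin 3 → ι), (∀ a b, lin L (e a) (P b) = 0 ↔ a ≠ b) ∧
    (∃ j, j ≠ e 0 ∧ lin L j (P 0) ≠ 0) ∧
    ∀ i, i ≠ e 0 →
      (lin L i (P 0) = 0 ∧
        ((∃ t : ℝ, 0 ≤ t ∧ t ≤ 1 ∧ lin L i (((1 - t : ℝ) : ℂ) • P 1 + (t : ℂ) • P 2) = 0) ∨
          lin L i (P 1) = lin L i (P 2))) ∨
      ∀ s : Fin 3 → ℝ, (∀ a, 0 ≤ s a) → s ≠ 0 → lin L i (∑ a, (s a : ℂ) • P a) ≠ 0

theorem hasCut_of_fan {L : ι → Fin 3 → ℂ} (h : HasFan L) : HasCut L := by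
  classical
  obtain ⟨P, e, hside, ⟨j, hj0, hjP⟩, hdich⟩ := h
  let Q : ℝ → Fin 3 → Fin 3 → ℂ := fun δ =>
    ![P 0, P 1 + (-(δ : ℂ)) • P 0, P 2 + (-(δ : ℂ)) • P 0]
  have hQ0 : ∀ δ i, lin L i (Q δ 0) = lin L i (P 0) := fun δ i => rfl
  have hQ1 : ∀ δ i, lin L i (Q δ 1) = lin L i (P 1) - δ * lin L i (P 0) := by
    intro δ i
    show lin L i (P 1 + (-(δ : ℂ)) • P 0) = _
    rw [lin_add, lin_smul]
    ring
  have hQ2 : ∀ δ i, lin L i (Q δ 2) = lin L i (P 2) - δ * lin L i (P 0) := by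
    intro δ i
    show lin L i (P 2 + (-(δ : ℂ)) • P 0) = _
    rw [lin_add, lin_smul]
    ring
  have key : ∀ i, ∃ δ0 : ℝ, 0 < δ0 ∧ (i ≠ e 0 → lin L i (P 0) ≠ 0 → ∀ δ : ℝ, 0 < δ → δ ≤ δ0 →
      Avoids L (Q δ) i) := by
    intro i
    by_cases hi : i ≠ e 0 ∧ lin L i (P 0) ≠ 0
    · have hav := (hdich i hi.1).resolve_left fun h => hi.2 h.1
      obtain ⟨d, hd⟩ := exists_sep (fun a => lin L i (P a)) (by
        intro s hs hs0
        have := hav s hs hs0
        rwa [lin_sum] at this)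
      have a0 := hd 0
      have a1 := hd 1
      have a2 := hd 2
      refine ⟨min (d * lin L i (P 1)).re (d * lin L i (P 2)).re / (2 * (d * lin L i (P 0)).re),
        div_pos (lt_min a1 a2) (by linarith), fun _ _ δ hδ hδ0 => ?_⟩
      rw [le_div_iff₀ (by linarith)] at hδ0
      have b1 := hδ0.trans (min_le_left _ _)
      have b2 := hδ0.trans (min_le_right _ _)
      have hre : ∀ z : ℂ, (d * (z - δ * lin L i (P 0))).re
          = (d * z).re - δ * (d * lin L i (P 0)).re := by
        intro z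
        have : d * (z - δ * lin L i (P 0)) = d * z - (δ : ℂ) * (d * lin L i (P 0)) := by ring
        rw [this, sub_re, re_ofReal_mul]
      refine avoid_of_pos L i (Q δ) d fun a => ?_
      fin_cases a
      · exact a0
      · show 0 < (d * lin L i (Q δ 1)).re
        rw [hQ1, hre]
        nlinarith
      · show 0 < (d * lin L i (Q δ 2)).re
        rw [hQ2, hre]
        nlinarith
    · exact ⟨1, one_pos, fun h1 h2 => absurd ⟨h1, h2⟩ hi⟩
  choose δ0 hδ0 hδ1 using key
  have hne : (Finset.univ : Finset ι).Nonempty := ⟨j, Finset.mem_univ _⟩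
  set δ := Finset.univ.inf' hne δ0 with hδ
  have hδpos : 0 < δ := by
    rw [hδ, Finset.lt_inf'_iff]
    exact fun i _ => hδ0 i
  have havoid : ∀ i, i ≠ e 0 → lin L i (P 0) ≠ 0 → Avoids L (Q δ) i := fun i h1 h2 =>
    hδ1 i h1 h2 δ hδpos (Finset.inf'_le _ (Finset.mem_univ i))
  have hdiag : ∀ a, lin L (e a) (P a) ≠ 0 := fun a h => (hside a a).1 h rfl
  have hoff : ∀ a b, a ≠ b → lin L (e a) (P b) = 0 := fun a b h => (hside a b).2 h
  refine ⟨Q δ, e 1, e 2, ⟨?_, ?_, ?_⟩, ⟨?_, ?_, ?_⟩, ⟨e 0, ?_, δ, δ, hδpos, hδpos, ?_, ?_⟩,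
    ⟨j, havoid j hj0 hjP⟩, fun i => ?_⟩
  · rw [hQ0]
    exact hoff 1 0 (by decide)
  · rw [hQ1, hoff 1 0 (by decide), mul_zero, sub_zero]
    exact hdiag 1
  · rw [hQ2, hoff 1 0 (by decide), hoff 1 2 (by decide), mul_zero, sub_zero]
  · rw [hQ0]
    exact hoff 2 0 (by decide)
  · rw [hQ1, hoff 2 0 (by decide), hoff 2 1 (by decide), mul_zero, sub_zero]
  · rw [hQ2, hoff 2 0 (by decide), mul_zero, sub_zero]
    exact hdiag 2
  · rw [hQ0]
    exact hdiag 0
  · rw [hQ1, hQ0, hoff 0 1 (by decide)]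
    ring
  · rw [hQ2, hQ0, hoff 0 2 (by decide)]
    ring
  · by_cases hi0 : i = e 0
    · subst hi0
      right
      left
      refine ⟨?_, δ, δ, hδpos, hδpos, ?_, ?_⟩
      · rw [hQ0]
        exact hdiag 0
      · rw [hQ1, hQ0, hoff 0 1 (by decide)]
        ring
      · rw [hQ2, hQ0, hoff 0 2 (by decide)]
        ring
    · by_cases hi : lin L i (P 0) = 0
      · left
        rcases hdich i hi0 with h1 | h1
        · refine ⟨by rw [hQ0, hi], ?_⟩
          rcases h1.2 with ⟨t, ht0, ht1, ht⟩ | h2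
          · left
            refine ⟨t, ht0, ht1, ?_⟩
            rw [lin_add, lin_smul, lin_smul] at ht
            rw [lin_add, lin_smul, lin_smul, hQ1, hQ2, hi, mul_zero, sub_zero, sub_zero]
            exact ht
          · right
            rw [hQ1, hQ2, hi, h2]
        · exfalso
          have h3 := h1 (Pi.single 0 1) (fun a => by
            rcases eq_or_ne a 0 with rfl | ha
            · simp
            · simp [Pi.single_eq_of_ne ha]) (by
            intro h
            have := congrFun h 0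
            simp at this)
          apply h3
          rw [lin_sum, Fin.sum_univ_three, hi]
          simp
      · right
        right
        exact havoid i hi0 hi

end

end Pool.Agent.H.MP_02294b_ag.Cov
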