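import Pool.Agent.H.MP_02294b_ag.Cov.Ext2
import Pool.Agent.H.MP_02294b_ag.Cov.FanCut

/-! Every rigid configuration with four lines in general position can be enlarged to a rigid
configuration with a cut. -/

set_option autoImplicit false

open Set Filter Topology Complex
open scoped LinearAlgebra.Projectivization

namespace Pool.Agent.H.MP_02294b_ag.Cov

section

variable {ι : Type} [Fintype ι]

/-- the vertices of the small triangle -/
noncomputable def Vx (E : Fin 3 → Fin 3 → ℂ) (a b : ℕ) : Fin 3 → Fin 3 → ℂ :=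
  ![fm E (a + 7) (b + 3) 1, fm E (5 * a + 35) (5 * b + 14) 5, fm E (3 * a + 20) (3 * b + 8) 3]

theorem fan_ext {κ : Type} [Fintype κ] {L : ι → Fin 3 → ℂ}
    {E Φ : Fin 3 → Fin 3 → ℂ}
    (hd : ∀ a b, ev (Φ a) (E b) = if a = b then 1 else 0) {z : ι}
    (h2 : ∃ c : ℂ, c ≠ 0 ∧ L z = c • Φ 2)
    {M : ι ⊕ κ → Fin 3 → ℂ} (hM0 : ∀ i, M (Sum.inl i) = L i) (hM : IsConfig M) {m a b : ℕ}
    (hba : b ≤ a) (hm : a + 8 ≤ m)
    (hidx : ∀ n, ∃ k, ∃ c : ℂ, c ≠ 0 ∧ M k = c • Fam Φ m a b n)
    (hrep : ∀ k, ∃ n, ∃ c : ℂ, c ≠ 0 ∧ M (Sum.inr k) = c • Fam Φ m a b n)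
    (hpos : ∀ i, ∃ D : ℂ, ∀ j, 0 < (D * lin L i (Vx E a b j)).re) :
    HasFan M ∧ Nonempty κ := by
  obtain ⟨kL, cL, hcL, hkL⟩ := hidx (Sum.inr (Sum.inr true))
  obtain ⟨kD, cD, hcD, hkD⟩ := hidx (Sum.inr (Sum.inl ⟨a + 4 - b, by omega⟩))
  obtain ⟨kV, cV, hcV, hkV⟩ := hidx (Sum.inl ⟨a + 7, by omega⟩)
  have hlinf : ∀ k c f x, M k = c • f → lin M k x = c * ev f x := by
    intro k c f x h
    rw [lin_eq_ev, h, ev_smul_left]
  have hlin0 : ∀ i x, lin M (Sum.inl i) x = lin L i x := by
    intro i x
    simp only [lin, hM0]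
  have castD : ((a + 4 - b : ℕ) : ℂ) = a + 4 - b := by
    rw [Nat.cast_sub (by omega)]
    push_cast
    ring
  -- values of the sides
  have eL : ∀ x y w : ℂ, lin M kL (fm E x y w) = cL * (2 * x - 5 * y + (5 * b - 2 * a) * w) := by
    intro x y w
    rw [hlinf kL cL _ _ hkL]
    show cL * ev (fm Φ 2 (-5) (5 * b - 2 * a)) (fm E x y w) = _
    rw [ev_fm hd]
    ring
  have eD : ∀ x y w : ℂ, lin M kD (fm E x y w) = cD * (x - y - (a + 4 - b) * w) := by
    intro x y w
    rw [hlinf kD cD _ _ hkD]
    show cD * ev (fm Φ 1 (-1) (-((a + 4 - b : ℕ) : ℂ))) (fm E x y w) = _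
    rw [ev_fm hd, castD]
    ring
  have eV : ∀ x y w : ℂ, lin M kV (fm E x y w) = cV * (x - (a + 7) * w) := by
    intro x y w
    rw [hlinf kV cV _ _ hkV]
    show cV * ev (fm Φ 1 0 (-((a + 7 : ℕ) : ℂ))) (fm E x y w) = _
    rw [ev_fm hd]
    push_cast
    ring
  have v0 : Vx E a b 0 = fm E (a + 7) (b + 3) 1 := rfl
  have v1 : Vx E a b 1 = fm E (5 * a + 35) (5 * b + 14) 5 := rfl
  have v2 : Vx E a b 2 = fm E (3 * a + 20) (3 * b + 8) 3 := rfl
  have hside : ∀ x y, lin M ((![kL, kD, kV] : Fin 3 → ι ⊕ κ) x) (Vx E a b y) = 0 ↔ x ≠ y := by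
    have f00 : lin M kL (Vx E a b 0) ≠ 0 := by
      rw [v0, eL]
      refine mul_ne_zero hcL ?_
      have : (2 * (a + 7) - 5 * (b + 3) + (5 * b - 2 * a) * 1 : ℂ) = -1 := by ring
      rw [this]
      norm_num
    have f01 : lin M kL (Vx E a b 1) = 0 := by
      rw [v1, eL]
      ring
    have f02 : lin M kL (Vx E a b 2) = 0 := by
      rw [v2, eL]
      ring
    have f10 : lin M kD (Vx E a b 0) = 0 := by
      rw [v0, eD]
      ring
    have f11 : lin M kD (Vx E a b 1) ≠ 0 := by
      rw [v1, eD]
      refine mul_ne_zero hcD ?_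
      have : (5 * a + 35 - (5 * b + 14) - (a + 4 - b) * 5 : ℂ) = 1 := by ring
      rw [this]
      norm_num
    have f12 : lin M kD (Vx E a b 2) = 0 := by
      rw [v2, eD]
      ring
    have f20 : lin M kV (Vx E a b 0) = 0 := by
      rw [v0, eV]
      ring
    have f21 : lin M kV (Vx E a b 1) = 0 := by
      rw [v1, eV]
      ring
    have f22 : lin M kV (Vx E a b 2) ≠ 0 := by
      rw [v2, eV]
      refine mul_ne_zero hcV ?_
      have : (3 * a + 20 - (a + 7) * 3 : ℂ) = -1 := by ring
      rw [this]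
      norm_num
    intro x y
    fin_cases x <;> fin_cases y
    · exact ⟨fun h => absurd h f00, fun h => absurd rfl h⟩
    · exact ⟨fun _ => by decide, fun _ => f01⟩
    · exact ⟨fun _ => by decide, fun _ => f02⟩
    · exact ⟨fun _ => by decide, fun _ => f10⟩
    · exact ⟨fun h => absurd h f11, fun h => absurd rfl h⟩
    · exact ⟨fun _ => by decide, fun _ => f12⟩
    · exact ⟨fun _ => by decide, fun _ => f20⟩
    · exact ⟨fun _ => by decide, fun _ => f21⟩
    · exact ⟨fun h => absurd h f22, fun h => absurd rfl h⟩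
  have hzP : ∀ y, lin M (Sum.inl z) (Vx E a b y) ≠ 0 := by
    intro y h
    obtain ⟨D, hD⟩ := hpos z
    have := hD y
    rw [← hlin0, h, mul_zero] at this
    simp at this
  -- the reals
  have hreal : ∀ (k : ι ⊕ κ) (c : ℂ) (f : Fin 3 → ℂ) (r : Fin 3 → ℝ), c ≠ 0 → M k = c • f →
      (∀ y, ev f (Vx E a b y) = (r y : ℂ)) → ((∀ y, 0 < r y) ∨ ∀ y, r y < 0) →
      ∀ s : Fin 3 → ℝ, (∀ a, 0 ≤ s a) → s ≠ 0 →
        lin M k (∑ y, (s y : ℂ) • Vx E a b y) ≠ 0 := by
    intro k c f r hc hk hr hs
    rcases hs with hs | hs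
    · refine avoid_of_pos M k _ c⁻¹ fun y => ?_
      rw [hlinf k c f _ hk, hr, ← mul_assoc, inv_mul_cancel₀ hc, one_mul, ofReal_re]
      exact hs y
    · refine avoid_of_pos M k _ (-c⁻¹) fun y => ?_
      rw [hlinf k c f _ hk, hr, ← mul_assoc, neg_mul, inv_mul_cancel₀ hc, neg_one_mul, neg_re,
        ofReal_re]
      have := hs y
      linarith
  refine ⟨⟨Vx E a b, ![kL, kD, kV], hside, ⟨Sum.inl z, ?_, hzP 0⟩, ?_⟩, ?_⟩
  · intro h
    have h' : Sum.inl z = kL := h
    apply hzP 1
    rw [h']
    exact (hside 0 1).2 (by decide)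
  · intro i hi
    have hiL : i ≠ kL := hi
    rcases i with i | k
    · right
      obtain ⟨D, hD⟩ := hpos i
      refine avoid_of_pos M (Sum.inl i) _ D fun y => ?_
      rw [hlin0]
      exact hD y
    · obtain ⟨n, c, hc, hn⟩ := hrep k
      rcases n with i | i | b'
      · rcases lt_trichotomy i.1 (a + 7) with hlt | heq | hgt
        · right
          have hr : (i.1 : ℝ) + 1 ≤ a + 7 := by exact_mod_cast hlt
          refine hreal _ c _ ![(a + 7 - i.1 : ℝ), (5 * (a + 7 - i.1) : ℝ),
            (3 * (a + 7 - i.1) - 1 : ℝ)] hc hn ?_ (Or.inl ?_)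
          · intro y
            show ev (fm Φ 1 0 (-(i.1 : ℂ))) _ = _
            fin_cases y
            · show ev _ (Vx E a b 0) = ((a + 7 - i.1 : ℝ) : ℂ)
              rw [v0, ev_fm hd]
              push_cast
              ring
            · show ev _ (Vx E a b 1) = ((5 * (a + 7 - i.1) : ℝ) : ℂ)
              rw [v1, ev_fm hd]
              push_cast
              ring
            · show ev _ (Vx E a b 2) = ((3 * (a + 7 - i.1) - 1 : ℝ) : ℂ)
              rw [v2, ev_fm hd]
              push_cast
              ring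
          · intro y
            fin_cases y
            · show (0 : ℝ) < a + 7 - i.1
              linarith
            · show (0 : ℝ) < 5 * (a + 7 - i.1)
              linarith
            · show (0 : ℝ) < 3 * (a + 7 - i.1) - 1
              linarith
        · left
          have hk : Sum.inr k = kV := by
            refine index_unique hM (f := fm Φ 1 0 (-((a + 7 : ℕ) : ℂ))) ⟨c, hc, ?_⟩ ⟨cV, hcV, hkV⟩
            rw [hn]
            show c • fm Φ 1 0 (-(i.1 : ℂ)) = _
            rw [heq]
          rw [hk]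
          refine ⟨(hside 2 0).2 (by decide), Or.inl ⟨0, le_refl _, zero_le_one, ?_⟩⟩
          rw [lin_add, lin_smul, lin_smul]
          have : lin M kV (Vx E a b 1) = 0 := (hside 2 1).2 (by decide)
          rw [this]
          simp
        · right
          have hr : (a : ℝ) + 7 + 1 ≤ i.1 := by exact_mod_cast hgt
          refine hreal _ c _ ![(a + 7 - i.1 : ℝ), (5 * (a + 7 - i.1) : ℝ),
            (3 * (a + 7 - i.1) - 1 : ℝ)] hc hn ?_ (Or.inr ?_)
          · intro y
            show ev (fm Φ 1 0 (-(i.1 : ℂ))) _ = _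
            fin_cases y
            · show ev _ (Vx E a b 0) = ((a + 7 - i.1 : ℝ) : ℂ)
              rw [v0, ev_fm hd]
              push_cast
              ring
            · show ev _ (Vx E a b 1) = ((5 * (a + 7 - i.1) : ℝ) : ℂ)
              rw [v1, ev_fm hd]
              push_cast
              ring
            · show ev _ (Vx E a b 2) = ((3 * (a + 7 - i.1) - 1 : ℝ) : ℂ)
              rw [v2, ev_fm hd]
              push_cast
              ring
          · intro y
            fin_cases y
            · show (a + 7 - i.1 : ℝ) < 0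
              linarith
            · show (5 * (a + 7 - i.1) : ℝ) < 0
              linarith
            · show (3 * (a + 7 - i.1) - 1 : ℝ) < 0
              linarith
      · rcases lt_trichotomy i.1 (a + 4 - b) with hlt | heq | hgt
        · right
          have hr : (i.1 : ℝ) + 1 + b ≤ a + 4 := by
            have : i.1 + 1 + b ≤ a + 4 := by omega
            exact_mod_cast this
          refine hreal _ c _ ![(a + 4 - b - i.1 : ℝ), (5 * (a + 4 - b - i.1) + 1 : ℝ),
            (3 * (a + 4 - b - i.1) : ℝ)] hc hn ?_ (Or.inl ?_)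
          · intro y
            show ev (fm Φ 1 (-1) (-(i.1 : ℂ))) _ = _
            fin_cases y
            · show ev _ (Vx E a b 0) = ((a + 4 - b - i.1 : ℝ) : ℂ)
              rw [v0, ev_fm hd]
              push_cast
              ring
            · show ev _ (Vx E a b 1) = ((5 * (a + 4 - b - i.1) + 1 : ℝ) : ℂ)
              rw [v1, ev_fm hd]
              push_cast
              ring
            · show ev _ (Vx E a b 2) = ((3 * (a + 4 - b - i.1) : ℝ) : ℂ)
              rw [v2, ev_fm hd]
              push_cast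
              ring
          · intro y
            fin_cases y
            · show (0 : ℝ) < a + 4 - b - i.1
              linarith
            · show (0 : ℝ) < 5 * (a + 4 - b - i.1) + 1
              linarith
            · show (0 : ℝ) < 3 * (a + 4 - b - i.1)
              linarith
        · left
          have hk : Sum.inr k = kD := by
            refine index_unique hM (f := fm Φ 1 (-1) (-((a + 4 - b : ℕ) : ℂ))) ⟨c, hc, ?_⟩
              ⟨cD, hcD, hkD⟩
            rw [hn]
            show c • fm Φ 1 (-1) (-(i.1 : ℂ)) = _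
            rw [heq]
          rw [hk]
          refine ⟨(hside 1 0).2 (by decide), Or.inl ⟨1, zero_le_one, le_refl _, ?_⟩⟩
          rw [lin_add, lin_smul, lin_smul]
          have : lin M kD (Vx E a b 2) = 0 := (hside 1 2).2 (by decide)
          rw [this]
          simp
        · right
          have hr : (a : ℝ) + 4 + 1 ≤ i.1 + b := by
            have : a + 4 + 1 ≤ i.1 + b := by omega
            exact_mod_cast this
          refine hreal _ c _ ![(a + 4 - b - i.1 : ℝ), (5 * (a + 4 - b - i.1) + 1 : ℝ),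
            (3 * (a + 4 - b - i.1) : ℝ)] hc hn ?_ (Or.inr ?_)
          · intro y
            show ev (fm Φ 1 (-1) (-(i.1 : ℂ))) _ = _
            fin_cases y
            · show ev _ (Vx E a b 0) = ((a + 4 - b - i.1 : ℝ) : ℂ)
              rw [v0, ev_fm hd]
              push_cast
              ring
            · show ev _ (Vx E a b 1) = ((5 * (a + 4 - b - i.1) + 1 : ℝ) : ℂ)
              rw [v1, ev_fm hd]
              push_cast
              ring
            · show ev _ (Vx E a b 2) = ((3 * (a + 4 - b - i.1) : ℝ) : ℂ)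
              rw [v2, ev_fm hd]
              push_cast
              ring
          · intro y
            fin_cases y
            · show (a + 4 - b - i.1 : ℝ) < 0
              linarith
            · show (5 * (a + 4 - b - i.1) + 1 : ℝ) < 0
              linarith
            · show (3 * (a + 4 - b - i.1) : ℝ) < 0
              linarith
      · cases b' with
        | false =>
          right
          refine hreal _ c _ ![(b + 2 : ℝ), (5 * b + 9 : ℝ), (3 * b + 5 : ℝ)] hc hn ?_ (Or.inl ?_)
          · intro y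
            show ev (fm Φ 0 1 (-1)) _ = _
            fin_cases y
            · show ev _ (Vx E a b 0) = ((b + 2 : ℝ) : ℂ)
              rw [v0, ev_fm hd]
              push_cast
              ring
            · show ev _ (Vx E a b 1) = ((5 * b + 9 : ℝ) : ℂ)
              rw [v1, ev_fm hd]
              push_cast
              ring
            · show ev _ (Vx E a b 2) = ((3 * b + 5 : ℝ) : ℂ)
              rw [v2, ev_fm hd]
              push_cast
              ring
          · intro y
            have hb : (0 : ℝ) ≤ b := Nat.cast_nonneg b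
            fin_cases y
            · show (0 : ℝ) < b + 2
              linarith
            · show (0 : ℝ) < 5 * b + 9
              linarith
            · show (0 : ℝ) < 3 * b + 5
              linarith
        | true =>
          exfalso
          exact hiL (index_unique hM ⟨c, hc, hn⟩ ⟨cL, hcL, hkL⟩)
  · rcases kL with i | k
    · exfalso
      obtain ⟨D, hD⟩ := hpos i
      have h1 := hD 1
      have h3 : lin M (Sum.inl i) (Vx E a b 1) = 0 := (hside 0 1).2 (by decide)
      rw [← hlin0, h3, mul_zero] at h1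
      simp at h1
    · exact ⟨k⟩

theorem form_zero_of_basis {E Φ : Fin 3 → Fin 3 → ℂ}
    (hd : ∀ a b, ev (Φ a) (E b) = if a = b then 1 else 0) {u : Fin 3 → ℂ}
    (hu : ∀ b, ev u (E b) = 0) : u = 0 := by
  refine form_eq_zero fun x => ?_
  obtain ⟨c, rfl⟩ := basis_of_side Φ E id (fun a b => by
    show ev (Φ a) (E b) = 0 ↔ a ≠ b
    rw [hd]
    split_ifs with h
    · simp [h]
    · simp [h]) x
  show ev u _ = 0
  rw [Fin.sum_univ_three]
  simp only [ev_add_right, ev_smul_right, hu, mul_zero, add_zero]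

theorem exists_position {L : ι → Fin 3 → ℂ} (hL0 : ∀ i, L i ≠ 0) {E Φ : Fin 3 → Fin 3 → ℂ}
    (hd : ∀ a b, ev (Φ a) (E b) = if a = b then 1 else 0) :
    ∃ a b : ℕ, b ≤ a ∧ ∀ i, ∃ D : ℂ, ∀ j, 0 < (D * lin L i (Vx E a b j)).re := by
  classical
  have hval : ∀ i x y z, lin L i (fm E x y z)
      = x * lin L i (E 0) + y * lin L i (E 1) + z * lin L i (E 2) := by
    intro i x y z
    rw [fm, lin_add, lin_add, lin_smul, lin_smul, lin_smul]
  -- the direction
  let B : Set ℕ := ⋃ i, {s : ℕ | s * lin L i (E 0) + lin L i (E 1) = 0 ∧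
    ¬ (lin L i (E 0) = 0 ∧ lin L i (E 1) = 0)}
  have hB : B.Finite := by
    refine finite_iUnion fun i => Set.Subsingleton.finite ?_
    rintro s ⟨hs, hs'⟩ t ⟨ht, -⟩
    have h1 : ((s : ℂ) - t) * lin L i (E 0) = 0 := by linear_combination hs - ht
    rcases mul_eq_zero.1 h1 with h2 | h2
    · have : (s : ℂ) = t := by linear_combination h2
      exact_mod_cast this
    · exfalso
      apply hs'
      rw [h2, mul_zero, zero_add] at hs
      exact ⟨h2, hs⟩
  obtain ⟨s, hs⟩ : ∃ s, s ∉ B ∪ {0} := (hB.union (finite_singleton 0)).exists_notMem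
  rw [mem_union, not_or, mem_singleton_iff] at hs
  obtain ⟨hsB, hs0⟩ := hs
  have hlarge : ∀ (r : ℝ) (w : ℂ), 0 < r → ∀ᶠ t : ℕ in atTop, 0 < ((r * t : ℝ) + w : ℂ).re := by
    intro r w hr
    have h1 : Tendsto (fun t : ℕ => r * (t : ℝ)) atTop atTop :=
      tendsto_natCast_atTop_atTop.const_mul_atTop hr
    filter_upwards [h1.eventually_gt_atTop (-w.re)] with t ht
    rw [add_re, ofReal_re]
    linarith
  have hev : ∀ i, ∀ᶠ t : ℕ in atTop, ∃ D : ℂ, ∀ j, 0 < (D * lin L i (Vx E (s * t) t j)).re := by
    intro i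
    by_cases h0 : (s : ℂ) * lin L i (E 0) + lin L i (E 1) = 0
    · have h1 : lin L i (E 0) = 0 ∧ lin L i (E 1) = 0 := by
        by_contra hcon
        exact hsB (mem_iUnion.2 ⟨i, h0, hcon⟩)
      have h2 : lin L i (E 2) ≠ 0 := by
        intro h2
        apply hL0 i
        refine form_zero_of_basis hd fun b => ?_
        fin_cases b
        · exact h1.1
        · exact h1.2
        · exact h2
      refine Eventually.of_forall fun t => ⟨(lin L i (E 2))⁻¹, fun j => ?_⟩
      fin_cases j
      · show 0 < ((lin L i (E 2))⁻¹ * lin L i (fm E _ _ 1)).re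
        rw [hval, h1.1, h1.2]
        have : (lin L i (E 2))⁻¹ * ((((s * t : ℕ) : ℂ) + 7) * 0 + ((t : ℂ) + 3) * 0
            + 1 * lin L i (E 2)) = 1 := by field_simp; ring
        rw [this]
        norm_num
      · show 0 < ((lin L i (E 2))⁻¹ * lin L i (fm E _ _ 5)).re
        rw [hval, h1.1, h1.2]
        have : (lin L i (E 2))⁻¹ * ((5 * ((s * t : ℕ) : ℂ) + 35) * 0 + (5 * (t : ℂ) + 14) * 0
            + 5 * lin L i (E 2)) = 5 := by field_simp; ring
        rw [this]
        norm_num
      · show 0 < ((lin L i (E 2))⁻¹ * lin L i (fm E _ _ 3)).re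
        rw [hval, h1.1, h1.2]
        have : (lin L i (E 2))⁻¹ * ((3 * ((s * t : ℕ) : ℂ) + 20) * 0 + (3 * (t : ℂ) + 8) * 0
            + 3 * lin L i (E 2)) = 3 := by field_simp; ring
        rw [this]
        norm_num
    · set A := (s : ℂ) * lin L i (E 0) + lin L i (E 1) with hA
      filter_upwards [hlarge 1 ((7 * lin L i (E 0) + 3 * lin L i (E 1) + lin L i (E 2)) / A)
          zero_lt_one,
        hlarge 5 ((35 * lin L i (E 0) + 14 * lin L i (E 1) + 5 * lin L i (E 2)) / A) (by norm_num),
        hlarge 3 ((20 * lin L i (E 0) + 8 * lin L i (E 1) + 3 * lin L i (E 2)) / A) (by norm_num)]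
        with t t1 t2 t3
      refine ⟨A⁻¹, fun j => ?_⟩
      fin_cases j
      · show 0 < (A⁻¹ * lin L i (fm E (((s * t : ℕ) : ℂ) + 7) ((t : ℂ) + 3) 1)).re
        rw [hval]
        have : A⁻¹ * ((((s * t : ℕ) : ℂ) + 7) * lin L i (E 0) + ((t : ℂ) + 3) * lin L i (E 1)
            + 1 * lin L i (E 2)) = ((1 * t : ℝ) : ℂ)
              + (7 * lin L i (E 0) + 3 * lin L i (E 1) + lin L i (E 2)) / A := by
          push_cast
          field_simp
          rw [hA]
          ring
        rw [this]
        exact t1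
      · show 0 < (A⁻¹ * lin L i (fm E (5 * ((s * t : ℕ) : ℂ) + 35) (5 * (t : ℂ) + 14) 5)).re
        rw [hval]
        have : A⁻¹ * ((5 * ((s * t : ℕ) : ℂ) + 35) * lin L i (E 0)
            + (5 * (t : ℂ) + 14) * lin L i (E 1)
            + 5 * lin L i (E 2)) = ((5 * t : ℝ) : ℂ)
              + (35 * lin L i (E 0) + 14 * lin L i (E 1) + 5 * lin L i (E 2)) / A := by
          push_cast
          field_simp
          rw [hA]
          ring
        rw [this]
        exact t2
      · show 0 < (A⁻¹ * lin L i (fm E (3 * ((s * t : ℕ) : ℂ) + 20) (3 * (t : ℂ) + 8) 3)).re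
        rw [hval]
        have : A⁻¹ * ((3 * ((s * t : ℕ) : ℂ) + 20) * lin L i (E 0)
            + (3 * (t : ℂ) + 8) * lin L i (E 1)
            + 3 * lin L i (E 2)) = ((3 * t : ℝ) : ℂ)
              + (20 * lin L i (E 0) + 8 * lin L i (E 1) + 3 * lin L i (E 2)) / A := by
          push_cast
          field_simp
          rw [hA]
          ring
        rw [this]
        exact t3
  obtain ⟨t, ht⟩ := (eventually_all.2 hev).exists
  exact ⟨s * t, t, Nat.le_mul_of_pos_left t (Nat.pos_of_ne_zero hs0), ht⟩

/-- Every rigid configuration with four lines in general position is contained in a strictly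
larger rigid configuration with a cut. -/
theorem exists_rigid_cut {L : ι → Fin 3 → ℂ} (hL : IsConfig L) (hR : IsRigid L)
    (hG : FourGeneral L) :
    ∃ (κ : Type) (_ : Fintype κ) (M : ι ⊕ κ → Fin 3 → ℂ), Nonempty κ ∧
      (∀ i, M (Sum.inl i) = L i) ∧ IsConfig M ∧ IsRigid M ∧ HasCut M := by
  obtain ⟨q, hq⟩ := hG
  obtain ⟨E, Φ, hd, h0, h1, h2, h3⟩ := exists_coords hq
  have hL0 : ∀ i, L i ≠ 0 := by
    intro i
    obtain ⟨j, hj⟩ : ∃ j, j ≠ i := by
      have : Nontrivial ι := Fintype.one_lt_card_iff_nontrivial.1 (by have := hL.three; omega)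
      exact exists_ne i
    exact (hL.indep i j (Ne.symm hj)).ne_zero 0
  obtain ⟨a, b, hba, hpos⟩ := exists_position hL0 hd
  have hF : ∀ n, Fam Φ (a + 8) a b n ≠ 0 := by
    intro n h
    have hz : ∀ x, ev (Fam Φ (a + 8) a b n) x = 0 := by
      intro x
      rw [h]
      simp [ev]
    rcases n with i | c | b'
    · have := hz (fm E 1 0 0)
      rw [show Fam Φ (a + 8) a b (Sum.inl i) = fm Φ 1 0 (-(i.1 : ℂ)) from rfl, ev_fm hd] at this
      norm_num at this
    · have := hz (fm E 1 0 0)
      rw [show Fam Φ (a + 8) a b (Sum.inr (Sum.inl c)) = fm Φ 1 (-1) (-(c.1 : ℂ)) from rfl,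
        ev_fm hd] at this
      norm_num at this
    · cases b' with
      | false =>
        have := hz (fm E 0 1 0)
        rw [show Fam Φ (a + 8) a b (Sum.inr (Sum.inr false)) = fm Φ 0 1 (-1) from rfl,
          ev_fm hd] at this
        norm_num at this
      | true =>
        have := hz (fm E 1 0 0)
        rw [show Fam Φ (a + 8) a b (Sum.inr (Sum.inr true))
          = fm Φ 2 (-5) (5 * b - 2 * a) from rfl, ev_fm hd] at this
        norm_num at this
  obtain ⟨κ, _, M, hM0, hM, hidx, hrep⟩ := exists_extension hL (Fam Φ (a + 8) a b) hF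
  obtain ⟨hfan, hκ⟩ := fan_ext hd h2 hM0 hM hba (le_refl _) hidx hrep hpos
  exact ⟨κ, inferInstance, M, hκ, hM0, hM,
    rigid_ext hL hR hd h0 h1 h2 h3 hM0 hM hba (by omega) hidx hrep, hasCut_of_fan hfan⟩

end

end Pool.Agent.H.MP_02294b_ag.Cov
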