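import Pool.Agent.H.MP_02294b_ag.Cov.Sph

/-! The sphere of a fan, mapped to the Fermat surface, and its degree. -/

set_option autoImplicit false

open Metric Set Filter Topology Complex

namespace Pool.Agent.H.MP_02294b_ag.Cov

open Pool.Agent.H.MP_5f9601_gt (nrm coe_nrm norm_coe homotopicRel_of_not_antipodal)

/-- the horizontal complex coordinate -/
def xi (X : R3) : ℂ := (X 0 : ℂ) + (X 1 : ℂ) * I

theorem continuous_xi : Continuous xi := by
  unfold xi
  exact (continuous_ofReal.comp (by fun_prop)).add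
    ((continuous_ofReal.comp (by fun_prop)).mul continuous_const)

theorem normSq_xi (X : R3) : ‖xi X‖ ^ 2 = X 0 ^ 2 + X 1 ^ 2 := by
  rw [← normSq_eq_norm_sq, xi, normSq_add_mul_I]

theorem xi_sphere (X : S2) : ‖xi X‖ ^ 2 + (X : R3) 2 ^ 2 = 1 := by
  rw [normSq_xi]
  exact normSq_coord X

/-- the point of the closed disc -/
noncomputable def vv (X : R3) : ℂ := xi X / ((max ‖xi X‖ (1 / 2) : ℝ) : ℂ)

/-- the height parameter -/
noncomputable def TT (X : R3) : ℝ := max 0 (2 * ‖xi X‖ - 1)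

theorem TT_nonneg (X : R3) : 0 ≤ TT X := le_max_left _ _

theorem TT_le_one (X : S2) : TT X ≤ 1 := by
  have h := xi_sphere X
  have h0 := norm_nonneg (xi X)
  have h1 : ‖xi X‖ ≤ 1 := by nlinarith [sq_nonneg ((X : R3) 2)]
  exact max_le zero_le_one (by linarith)

theorem continuous_TT : Continuous TT :=
  continuous_const.max ((continuous_const.mul continuous_xi.norm).sub continuous_const)

theorem max_pos' (X : R3) : 0 < max ‖xi X‖ (1 / 2) := lt_max_of_lt_right (by norm_num)

theorem continuous_vv : Continuous vv := by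
  refine continuous_xi.div (continuous_ofReal.comp (continuous_xi.norm.max continuous_const)) ?_
  intro X
  rw [Ne, ofReal_eq_zero]
  exact (max_pos' X).ne'

theorem norm_vv_le (X : R3) : ‖vv X‖ ≤ 1 := by
  rw [vv, norm_div, norm_real, Real.norm_of_nonneg (max_pos' X).le, div_le_one (max_pos' X)]
  exact le_max_left _ _

theorem norm_vv_of_pos {X : R3} (h : 0 < TT X) : ‖vv X‖ = 1 := by
  have h1 : 1 / 2 < ‖xi X‖ := by
    rw [TT, lt_max_iff] at h
    rcases h with h | h
    · exact absurd h (lt_irrefl _)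
    · linarith
  rw [vv, norm_div, norm_real, Real.norm_of_nonneg (max_pos' X).le, max_eq_left h1.le,
    div_self (by linarith)]

theorem TT_eq_one {X : S2} (h : (X : R3) 2 = 0) : TT X = 1 := by
  have h1 := xi_sphere X
  rw [h] at h1
  have h0 := norm_nonneg (xi X)
  have h2 : ‖xi X‖ = 1 := by nlinarith
  rw [TT, h2]
  norm_num

theorem TT_ne_one {X : S2} (h : (X : R3) 2 ≠ 0) : TT X < 1 := by
  have h1 := xi_sphere X
  have h0 := norm_nonneg (xi X)
  have h2 : ‖xi X‖ < 1 := by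
    have : 0 < (X : R3) 2 ^ 2 := by positivity
    nlinarith
  exact max_lt zero_lt_one (by linarith)

section

variable (n : ℕ) (ϖ : ℂ)

/-- the coordinate belonging to the opposite side -/
noncomputable def er (X : R3) : ℂ :=
  (if 0 ≤ X 2 then (1 : ℂ) else ϖ) * (((1 - TT X) ^ ((n : ℝ)⁻¹) : ℝ) : ℂ)

theorem er_pow (hn : n ≠ 0) (hϖ : ϖ ^ n = 1) (X : S2) : er n ϖ X ^ n = ((1 - TT X : ℝ) : ℂ) := by
  have h1 : 0 ≤ 1 - TT X := by linarith [TT_le_one X]
  rw [er, mul_pow, ← ofReal_pow, Real.rpow_inv_natCast_pow h1 hn]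
  split_ifs
  · simp
  · rw [hϖ, one_mul]

theorem continuous_er (hn : n ≠ 0) : Continuous fun X : S2 => er n ϖ X := by
  have hpos : (0 : ℝ) ≤ (n : ℝ)⁻¹ := by positivity
  have hT : Continuous fun X : S2 => TT X := continuous_TT.comp continuous_subtype_val
  have h1 : Continuous fun X : S2 => (((1 - TT X) ^ ((n : ℝ)⁻¹) : ℝ) : ℂ) :=
    continuous_ofReal.comp ((Real.continuous_rpow_const hpos).comp (continuous_const.sub hT))
  have h2 : (fun X : S2 => er n ϖ X) = fun X : S2 => if 0 ≤ (X : R3) 2 then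
      (((1 - TT X) ^ ((n : ℝ)⁻¹) : ℝ) : ℂ) else ϖ * (((1 - TT X) ^ ((n : ℝ)⁻¹) : ℝ) : ℂ) := by
    funext X
    rw [er]
    split_ifs <;> simp
  rw [h2]
  refine Continuous.if_le h1 (continuous_const.mul h1) continuous_const (by fun_prop) ?_
  intro X hX
  have hninv : (n : ℝ)⁻¹ ≠ 0 := inv_ne_zero (by exact_mod_cast hn)
  have hT1 : TT X = 1 := TT_eq_one hX.symm
  rw [hT1, sub_self, Real.zero_rpow hninv]
  simp

/-- the function `(1 - w e^{ib})^{1/n} (1 - w e^{-ib})^{1/n}` on the disc -/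
noncomputable def pf (b : ℝ) (w : ℂ) : ℂ :=
  pt n (1 - w * Complex.exp (b * I)) * pt n (1 - w * Complex.exp (-(b * I)))

theorem pf_pow (hn : n ≠ 0) (b : ℝ) (w : ℂ) :
    pf n b w ^ n = 1 - 2 * w * (Real.cos b : ℂ) + w ^ 2 := by
  rw [pf, mul_pow, pt_pow n hn, pt_pow n hn]
  have h1 : Complex.exp (b * I) + Complex.exp (-(b * I)) = 2 * (Real.cos b : ℂ) := by
    rw [ofReal_cos, Complex.cos, neg_mul]
    ring
  have h2 : Complex.exp (b * I) * Complex.exp (-(b * I)) = 1 := by
    rw [← Complex.exp_add]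
    simp
  linear_combination (-w) * h1 + w ^ 2 * h2

theorem re_one_sub_nonneg {z : ℂ} (hz : ‖z‖ ≤ 1) : 0 ≤ (1 - z).re := by
  have := (abs_le.1 ((abs_re_le_norm z).trans hz)).2
  simp
  exact this

theorem continuousAt_pt' (hn : n ≠ 0) {z : ℂ} (hz : 0 ≤ z.re) : ContinuousAt (pt n) z := by
  have h : 0 < ((n : ℂ)⁻¹).re := by
    rw [← ofReal_natCast, ← ofReal_inv, ofReal_re]
    positivity
  exact continuousAt_cpow_const_of_re_pos (Or.inl hz) h

theorem norm_exp_I (b : ℝ) : ‖Complex.exp (b * I)‖ = 1 := norm_exp_ofReal_mul_I b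

theorem norm_exp_neg_I (b : ℝ) : ‖Complex.exp (-(b * I))‖ = 1 := by
  have := norm_exp_ofReal_mul_I (-b)
  simpa using this

theorem continuous_pf (hn : n ≠ 0) (b : ℝ) {X : Type*} [TopologicalSpace X] {w : X → ℂ}
    (hw : Continuous w) (hle : ∀ x, ‖w x‖ ≤ 1) : Continuous fun x => pf n b (w x) := by
  have h1 : Continuous fun x => pt n (1 - w x * Complex.exp (b * I)) := by
    rw [continuous_iff_continuousAt]
    intro x
    refine ContinuousAt.comp (g := pt n) (f := fun x => 1 - w x * Complex.exp (b * I))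
      (continuousAt_pt' n hn (re_one_sub_nonneg ?_)) (by fun_prop)
    rw [norm_mul, norm_exp_I, mul_one]
    exact hle x
  have h2 : Continuous fun x => pt n (1 - w x * Complex.exp (-(b * I))) := by
    rw [continuous_iff_continuousAt]
    intro x
    refine ContinuousAt.comp (g := pt n) (f := fun x => 1 - w x * Complex.exp (-(b * I)))
      (continuousAt_pt' n hn (re_one_sub_nonneg ?_)) (by fun_prop)
    rw [norm_mul, norm_exp_neg_I, mul_one]
    exact hle x
  exact h1.mul h2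

/-- the factor `T^{1/n} conj v` -/
noncomputable def lam (X : R3) : ℂ := ((TT X ^ ((n : ℝ)⁻¹) : ℝ) : ℂ) * (starRingEnd ℂ) (vv X)

theorem lam_pow (hn : n ≠ 0) (X : R3) :
    lam n X ^ n = ((TT X : ℝ) : ℂ) * (starRingEnd ℂ) (vv X ^ n) := by
  rw [lam, mul_pow, ← ofReal_pow, Real.rpow_inv_natCast_pow (TT_nonneg X) hn, map_pow]

theorem continuous_lam : Continuous (lam n) := by
  have hpos : (0 : ℝ) ≤ (n : ℝ)⁻¹ := by positivity
  exact (continuous_ofReal.comp ((Real.continuous_rpow_const hpos).comp continuous_TT)).mul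
    (continuous_conj.comp continuous_vv)

/-- the barycentric coordinates of the base point -/
noncomputable def bary (X : R3) : Fin 3 → ℝ :=
  ![1 - TT X, TT X * (1 + (vv X ^ n).re) / 2, TT X * (1 - (vv X ^ n).re) / 2]

theorem norm_vpow (X : R3) : ‖vv X ^ n‖ ≤ 1 := by
  rw [norm_pow]
  exact pow_le_one₀ (norm_nonneg _) (norm_vv_le X)

theorem bary_nonneg (X : S2) (a : Fin 3) : 0 ≤ bary n X a := by
  have h1 := TT_le_one X
  have h2 := TT_nonneg X
  have h3 := abs_le.1 ((abs_re_le_norm _).trans (norm_vpow n X))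
  fin_cases a
  · show 0 ≤ 1 - TT X
    linarith
  · show 0 ≤ TT X * (1 + (vv X ^ n).re) / 2
    have : 0 ≤ TT X * (1 + (vv X ^ n).re) := mul_nonneg h2 (by linarith [h3.1])
    linarith
  · show 0 ≤ TT X * (1 - (vv X ^ n).re) / 2
    have : 0 ≤ TT X * (1 - (vv X ^ n).re) := mul_nonneg h2 (by linarith [h3.2])
    linarith

theorem bary_sum (X : R3) : ∑ a, bary n X a = 1 := by
  rw [Fin.sum_univ_three]
  show 1 - TT X + TT X * (1 + (vv X ^ n).re) / 2 + TT X * (1 - (vv X ^ n).re) / 2 = 1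
  ring

theorem bary_ne (X : R3) : bary n X ≠ 0 := by
  intro h
  have := bary_sum n X
  rw [h] at this
  simp at this

theorem continuous_bary : Continuous (bary n) := by
  have h1 : Continuous fun X : R3 => (vv X ^ n).re := continuous_re.comp (continuous_vv.pow n)
  refine continuous_pi fun a => ?_
  fin_cases a
  · exact continuous_const.sub continuous_TT
  · exact (continuous_TT.mul (continuous_const.add h1)).div_const _
  · exact (continuous_TT.mul (continuous_const.sub h1)).div_const _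

/-- on the support of `T`, `conj w (1 - 2 w cos b + w ^ 2) = 2 Re w - 2 cos b` -/
theorem lam_pf_pow (hn : n ≠ 0) (b : ℝ) (X : R3) :
    (lam n X * pf n b (vv X ^ n)) ^ n
      = ((2 * TT X * ((vv X ^ n).re - Real.cos b) : ℝ) : ℂ) := by
  rw [mul_pow, lam_pow n hn, pf_pow n hn]
  rcases (TT_nonneg X).lt_or_eq with h | h
  · have hw : ‖vv X ^ n‖ = 1 := by rw [norm_pow, norm_vv_of_pos h, one_pow]
    generalize vv X ^ n = w at hw
    have h1 : (starRingEnd ℂ) w * w = 1 := by
      rw [mul_comm, mul_conj, normSq_eq_norm_sq, hw]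
      simp
    have h2 : (starRingEnd ℂ) w + w = 2 * (w.re : ℂ) := by
      rw [add_comm, add_conj]
      push_cast
      ring
    rw [ofReal_mul, ofReal_mul, ofReal_sub, ofReal_ofNat]
    linear_combination ((TT X : ℂ) * (w - 2 * (Real.cos b : ℂ))) * h1 + (TT X : ℂ) * h2
  · rw [← h]
    simp

/-- the sphere of the fan in the cone -/
noncomputable def vf (θ : ℂ) (m : Fin 3 → ℂ) (X : R3) : Fin 4 → ℂ :=
  ![pt n (1 / 4 : ℝ) * pt n (m 1) * (lam n X * pf n Real.pi (vv X ^ n)),
    θ * pt n (1 / 4 : ℝ) * pt n (m 2) * (lam n X * pf n 0 (vv X ^ n)),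
    pt n (m 0) * er n ϖ X,
    pt n (∑ a, m a * ((bary n X a : ℝ) : ℂ))]

theorem re_bary_pos {m : Fin 3 → ℂ} (hm : ∀ i, 0 < (m i).re) (X : S2) :
    0 < (∑ a, m a * ((bary n X a : ℝ) : ℂ)).re := by
  rw [re_sum]
  have h1 : ∀ i, (m i * ((bary n X i : ℝ) : ℂ)).re = (m i).re * bary n X i := by
    intro i
    simp
  simp only [h1]
  obtain ⟨i, hi⟩ : ∃ i, bary n X i ≠ 0 := by
    by_contra hcon
    push Not at hcon
    exact bary_ne n X (funext hcon)
  refine Finset.sum_pos' (fun j _ => mul_nonneg (hm j).le (bary_nonneg n X j))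
    ⟨i, Finset.mem_univ _, ?_⟩
  exact mul_pos (hm i) (lt_of_le_of_ne (bary_nonneg n X i) (Ne.symm hi))

theorem vf_mem (hn : n ≠ 0) (hϖ : ϖ ^ n = 1) {θ : ℂ} (hθ : θ ^ n = -1) {m : Fin 3 → ℂ}
    (hm : ∀ i, 0 < (m i).re) (X : S2) : vf n ϖ θ m X ∈ Cone n := by
  constructor
  · intro h
    have h3 := congrFun h 3
    have hre := re_bary_pos n hm X
    simp only [vf, Matrix.cons_val, Pi.zero_apply] at h3
    refine pt_ne n hn ?_ h3
    intro h0
    rw [h0] at hre
    simp at hre
  · have h1 : (lam n (X : R3) * pf n Real.pi (vv X ^ n)) ^ n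
        = ((2 * TT X * ((vv (X : R3) ^ n).re + 1) : ℝ) : ℂ) := by
      rw [lam_pf_pow n hn, Real.cos_pi, sub_neg_eq_add]
    have h2 : (lam n (X : R3) * pf n 0 (vv X ^ n)) ^ n
        = ((2 * TT X * ((vv (X : R3) ^ n).re - 1) : ℝ) : ℂ) := by
      rw [lam_pf_pow n hn, Real.cos_zero]
    have e0 : bary n X 0 = 1 - TT X := rfl
    have e1 : bary n X 1 = TT X * (1 + (vv (X : R3) ^ n).re) / 2 := rfl
    have e2 : bary n X 2 = TT X * (1 - (vv (X : R3) ^ n).re) / 2 := rfl
    show (pt n (1 / 4 : ℝ) * pt n (m 1) * (lam n X * pf n Real.pi (vv X ^ n))) ^ n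
      + (θ * pt n (1 / 4 : ℝ) * pt n (m 2) * (lam n X * pf n 0 (vv X ^ n))) ^ n
      + (pt n (m 0) * er n ϖ X) ^ n = (pt n (∑ a, m a * ((bary n X a : ℝ) : ℂ))) ^ n
    rw [mul_pow, mul_pow, mul_pow (θ * pt n (1 / 4 : ℝ) * pt n (m 2)),
      mul_pow (θ * pt n (1 / 4 : ℝ)), mul_pow θ, mul_pow (pt n (m 0)),
      pt_pow n hn, pt_pow n hn, pt_pow n hn, pt_pow n hn, pt_pow n hn, h1, h2, hθ,
      er_pow n ϖ hn hϖ, Fin.sum_univ_three, e0, e1, e2]
    push_cast
    ring

theorem continuous_vf (hn : n ≠ 0) (θ : ℂ) {Z : Type*} [TopologicalSpace Z] (m : Z → Fin 3 → ℂ)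
    (X : Z → S2) (hm : Continuous m) (hX : Continuous X) (hpos : ∀ a i, 0 < (m a i).re) :
    Continuous fun a => vf n ϖ θ (m a) (X a) := by
  have hXR : Continuous fun a => (X a : R3) := continuous_subtype_val.comp hX
  have hmi : ∀ i, Continuous fun a => m a i := fun i => (continuous_apply i).comp hm
  have h1 : ∀ i, Continuous fun a => pt n (m a i) := fun i => by
    rw [continuous_iff_continuousAt]
    intro a
    exact ContinuousAt.comp (g := pt n) (f := fun a => m a i) (continuousAt_pt n (hpos a i))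
      (hmi i).continuousAt
  have hl : Continuous fun a => lam n (X a : R3) := (continuous_lam n).comp hXR
  have hp : ∀ b : ℝ, Continuous fun a => pf n b (vv (X a : R3) ^ n) := fun b =>
    continuous_pf n hn b ((continuous_vv.comp hXR).pow n) (fun a => norm_vpow n (X a))
  have he : Continuous fun a => er n ϖ (X a : R3) := (continuous_er n ϖ hn).comp hX
  have h3 : Continuous fun a => pt n (∑ i, m a i * ((bary n (X a : R3) i : ℝ) : ℂ)) := by
    have h4 : Continuous fun a => ∑ i, m a i * ((bary n (X a : R3) i : ℝ) : ℂ) :=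
      continuous_finsetSum _ fun i _ => (hmi i).mul (continuous_ofReal.comp
        ((continuous_apply i).comp ((continuous_bary n).comp hXR)))
    rw [continuous_iff_continuousAt]
    intro a
    exact ContinuousAt.comp (g := pt n) (f := fun a => ∑ i, m a i * ((bary n (X a : R3) i : ℝ) : ℂ))
      (continuousAt_pt n (re_bary_pos n (hpos a) (X a))) h4.continuousAt
  refine continuous_pi fun i => ?_
  fin_cases i
  · exact (continuous_const.mul (h1 1)).mul (hl.mul (hp _))
  · exact ((continuous_const.mul continuous_const).mul (h1 2)).mul (hl.mul (hp _))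
  · exact (h1 0).mul he
  · exact h3

/-- the sphere of the fan as a map to the cone -/
noncomputable def fsph (hn : n ≠ 0) (hϖ : ϖ ^ n = 1) {θ : ℂ} (hθ : θ ^ n = -1) (m : Fin 3 → ℂ)
    (hm : ∀ i, 0 < (m i).re) : C(S2, Cone n) where
  toFun X := ⟨vf n ϖ θ m X, vf_mem n ϖ hn hϖ hθ hm X⟩
  continuous_toFun := Continuous.subtype_mk (continuous_vf n ϖ hn θ (fun _ => m) (fun X => X)
    continuous_const continuous_id (fun _ => hm)) _

theorem fsph_homotopic (hn : n ≠ 0) (hϖ : ϖ ^ n = 1) {θ : ℂ} (hθ : θ ^ n = -1) (m : Fin 3 → ℂ)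
    (hm : ∀ i, 0 < (m i).re) :
    (fsph n ϖ hn hϖ hθ m hm).Homotopic (fsph n ϖ hn hϖ hθ (fun _ => 1) (fun _ => by simp)) := by
  have hpos : ∀ (t : unitInterval) (i : Fin 3),
      0 < (((1 - (t : ℝ) : ℝ) : ℂ) * m i + ((t : ℝ) : ℂ)).re := by
    intro t i
    simp only [add_re, ofReal_re, re_ofReal_mul]
    have h0 := t.2.1
    have h1 := t.2.2
    have h2 := hm i
    rcases h0.lt_or_eq with h | h
    · have : 0 ≤ (1 - (t : ℝ)) * (m i).re := mul_nonneg (by linarith) h2.le
      linarith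
    · rw [← h]
      simpa using h2
  refine ⟨⟨⟨fun p => ⟨vf n ϖ θ (fun i => ((1 - (p.1 : ℝ) : ℝ) : ℂ) * m i + ((p.1 : ℝ) : ℂ)) p.2,
    vf_mem n ϖ hn hϖ hθ (hpos p.1) p.2⟩, ?_⟩, ?_, ?_⟩⟩
  · refine Continuous.subtype_mk (continuous_vf n ϖ hn θ _ _ ?_ ?_ ?_) _
    · fun_prop
    · exact continuous_snd
    · exact fun a i => hpos a.1 i
  · intro x
    apply Subtype.ext
    simp [fsph]
  · intro x
    apply Subtype.ext
    simp [fsph]

end

end Pool.Agent.H.MP_02294b_ag.Cov
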