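import Pool.Agent.H.MP_02294b_ag.Cov.Fan

/-! The degree of the projection on the sphere of a fan. -/

set_option autoImplicit false

open Metric Set Filter Topology Complex

namespace Pool.Agent.H.MP_02294b_ag.Cov

open Pool.Agent.H.MP_5f9601_gt (nrm coe_nrm norm_coe homotopicRel_of_not_antipodal)

section

variable (n : ℕ)

/-- the rotation by `-π / n` -/
noncomputable def En : ℂ := Complex.exp (((-(Real.pi / n) : ℝ) : ℂ) * I)

/-- the basic root of unity -/
noncomputable def om : ℂ := Complex.exp (((2 * (Real.pi / n) : ℝ) : ℂ) * I)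

theorem om_pow (hn : n ≠ 0) : om n ^ n = 1 := by
  rw [om, ← Complex.exp_nat_mul]
  have h : (n : ℂ) ≠ 0 := by exact_mod_cast hn
  have : (n : ℂ) * (((2 * (Real.pi / n) : ℝ) : ℂ) * I) = 2 * Real.pi * I := by
    push_cast
    field_simp
  rw [this, Complex.exp_two_pi_mul_I]

theorem pt_sq_form {z : ℂ} (hz : z ≠ 0) (c : ℝ) :
    (Complex.exp ((c : ℂ) * I) * pt n z ^ 2).im
      = Real.exp (2 * (Real.log ‖z‖ / n)) * Real.sin (c + 2 * (arg z / n)) := by
  rw [pt, cpow_def_of_ne_zero hz, ← Complex.exp_nat_mul, ← Complex.exp_add, Complex.exp_im]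
  have h1 : ((c : ℂ) * I + ((2 : ℕ) : ℂ) * (Complex.log z * (n : ℂ)⁻¹))
      = ((2 * (Real.log ‖z‖ / n) : ℝ) : ℂ) + ((c + 2 * (arg z / n) : ℝ) : ℂ) * I := by
    rw [Complex.log]
    push_cast
    ring
  rw [h1]
  simp only [add_re, ofReal_re, re_ofReal_mul, I_re, mul_zero, add_zero, add_im, ofReal_im,
    im_ofReal_mul, I_im, mul_one, zero_add]

theorem im_neg (h2 : 2 ≤ n) {z : ℂ} (hz : 0 < z.re) : (En n * pt n z ^ 2).im < 0 := by
  have hz0 : z ≠ 0 := by
    rintro rfl
    simp at hz
  have hnR : (2 : ℝ) ≤ n := by exact_mod_cast h2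
  have hpi := Real.pi_pos
  have harg := abs_lt.1 (abs_arg_lt_pi_div_two_iff.2 (Or.inl hz))
  rw [En, pt_sq_form n hz0]
  refine mul_neg_of_pos_of_neg (Real.exp_pos _) ?_
  refine Real.sin_neg_of_neg_of_neg_pi_lt ?_ ?_
  · have h : -(Real.pi / n) + 2 * (arg z / n) = (2 * arg z - Real.pi) / n := by ring
    rw [h]
    exact div_neg_of_neg_of_pos (by linarith [harg.2]) (by linarith)
  · have h : -(Real.pi / n) + 2 * (arg z / n) = (2 * arg z - Real.pi) / n := by ring
    rw [h, lt_div_iff₀ (by linarith)]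
    nlinarith [harg.1]

theorem im_pos (h2 : 2 ≤ n) {z : ℂ} (hz : 0 < z.re) : 0 < (En n * (om n * pt n z ^ 2)).im := by
  have hz0 : z ≠ 0 := by
    rintro rfl
    simp at hz
  have hnR : (2 : ℝ) ≤ n := by exact_mod_cast h2
  have hpi := Real.pi_pos
  have harg := abs_lt.1 (abs_arg_lt_pi_div_two_iff.2 (Or.inl hz))
  have he : En n * om n = Complex.exp (((Real.pi / n : ℝ) : ℂ) * I) := by
    rw [En, om, ← Complex.exp_add]
    congr 1
    push_cast
    ring
  rw [← mul_assoc, he, pt_sq_form n hz0]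
  refine mul_pos (Real.exp_pos _) ?_
  refine Real.sin_pos_of_pos_of_lt_pi ?_ ?_
  · have h : Real.pi / n + 2 * (arg z / n) = (2 * arg z + Real.pi) / n := by ring
    rw [h]
    exact div_pos (by linarith [harg.1]) (by linarith)
  · have h : Real.pi / n + 2 * (arg z / n) = (2 * arg z + Real.pi) / n := by ring
    rw [h, div_lt_iff₀ (by linarith)]
    nlinarith [harg.2]

theorem pf_pi (w : ℂ) : pf n Real.pi w = pt n (1 + w) ^ 2 := by
  rw [pf, Complex.exp_neg, Complex.exp_pi_mul_I]
  norm_num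
  rw [sq]

theorem pf_zero (w : ℂ) : pf n 0 w = pt n (1 - w) ^ 2 := by
  rw [pf]
  simp
  rw [sq]

theorem im_a_neg (h2 : 2 ≤ n) {w : ℂ} (hw : ‖w‖ ≤ 1) :
    (En n * (pf n Real.pi w - om n * pf n 0 w)).im < 0 := by
  have hn : n ≠ 0 := by omega
  rw [pf_pi, pf_zero, mul_sub, sub_im]
  have h1 : 1 + w ≠ 0 → 0 < (1 + w).re := by
    intro h
    have hre : 0 ≤ (1 - -w).re := re_one_sub_nonneg (by rwa [norm_neg])
    rw [sub_neg_eq_add] at hre
    refine lt_of_le_of_ne hre ?_
    intro h0
    have hr : w.re = -1 := by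
      simp at h0
      linarith
    have hsq : w.re ^ 2 + w.im ^ 2 ≤ 1 := by
      have h3 : normSq w ≤ 1 := by
        rw [normSq_eq_norm_sq]
        exact pow_le_one₀ (norm_nonneg _) hw
      rw [normSq_apply] at h3
      nlinarith
    have hi : w.im = 0 := by
      rw [hr] at hsq
      nlinarith [sq_nonneg w.im]
    apply h
    apply Complex.ext
    · simp [hr]
    · simp [hi]
  have h1' : 1 - w ≠ 0 → 0 < (1 - w).re := by
    intro h
    have hre : 0 ≤ (1 - w).re := re_one_sub_nonneg hw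
    refine lt_of_le_of_ne hre ?_
    intro h0
    have hr : w.re = 1 := by
      simp at h0
      linarith
    have hsq : w.re ^ 2 + w.im ^ 2 ≤ 1 := by
      have h3 : normSq w ≤ 1 := by
        rw [normSq_eq_norm_sq]
        exact pow_le_one₀ (norm_nonneg _) hw
      rw [normSq_apply] at h3
      nlinarith
    have hi : w.im = 0 := by
      rw [hr] at hsq
      nlinarith [sq_nonneg w.im]
    apply h
    apply Complex.ext
    · simp [hr]
    · simp [hi]
  have hp0 : pt n 0 = 0 := by
    have h := pt_pow n hn 0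
    exact eq_zero_of_pow_eq_zero h
  by_cases ha : 1 + w = 0
  · have hb : 1 - w ≠ 0 := by
      intro hb
      have : (2 : ℂ) = 0 := by linear_combination ha + hb
      norm_num at this
    have := im_pos n h2 (h1' hb)
    rw [ha, hp0]
    simp only [ne_eq, OfNat.ofNat_ne_zero, not_false_eq_true, zero_pow, mul_zero, zero_im, zero_sub,
      Left.neg_neg_iff]
    exact this
  · have h3 := im_neg n h2 (h1 ha)
    by_cases hb : 1 - w = 0
    · rw [hb, hp0]
      simp only [ne_eq, OfNat.ofNat_ne_zero, not_false_eq_true, zero_pow, mul_zero, zero_im,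
        sub_zero]
      exact h3
    · have h4 := im_pos n h2 (h1' hb)
      linarith

theorem En_im (h2 : 2 ≤ n) : (En n).im < 0 := by
  have hnR : (2 : ℝ) ≤ n := by exact_mod_cast h2
  have hpi := Real.pi_pos
  rw [En, Complex.exp_ofReal_mul_I_im]
  refine Real.sin_neg_of_neg_of_neg_pi_lt (neg_neg_of_pos (by positivity)) ?_
  rw [neg_lt_neg_iff, div_lt_iff₀ (by linarith)]
  nlinarith

theorem En_om_im (h2 : 2 ≤ n) : 0 < (En n * om n).im := by
  have hnR : (2 : ℝ) ≤ n := by exact_mod_cast h2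
  have hpi := Real.pi_pos
  have he : En n * om n = Complex.exp (((Real.pi / n : ℝ) : ℂ) * I) := by
    rw [En, om, ← Complex.exp_add]
    congr 1
    push_cast
    ring
  rw [he, Complex.exp_ofReal_mul_I_im]
  refine Real.sin_pos_of_pos_of_lt_pi (by positivity) ?_
  rw [div_lt_iff₀ (by linarith)]
  nlinarith

/-- `1 - er` -/
theorem im_B (h2 : 2 ≤ n) (X : S2) : (En n * (1 - er n (om n) X)).im ≤ 0 ∧
    ((X : R3) 2 < 0 → (En n * (1 - er n (om n) X)).im < 0) := by
  have hT := TT_le_one X
  have hT0 := TT_nonneg X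
  have hninv : 0 ≤ (n : ℝ)⁻¹ := by positivity
  have hr0 : 0 ≤ (1 - TT X) ^ ((n : ℝ)⁻¹) := Real.rpow_nonneg (by linarith) _
  have hr1 : (1 - TT X) ^ ((n : ℝ)⁻¹) ≤ 1 := Real.rpow_le_one (by linarith) (by linarith) hninv
  have hE := En_im n h2
  have hEo := En_om_im n h2
  rw [er]
  generalize (1 - TT X) ^ ((n : ℝ)⁻¹) = r at hr0 hr1
  by_cases hX : 0 ≤ (X : R3) 2
  · rw [if_pos hX]
    have h1 : (En n * (1 - 1 * (r : ℂ))).im = (1 - r) * (En n).im := by
      have : En n * (1 - 1 * (r : ℂ)) = ((1 - r : ℝ) : ℂ) * En n := by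
        push_cast
        ring
      rw [this, im_ofReal_mul]
    rw [h1]
    refine ⟨by nlinarith, fun h => absurd hX (not_le.2 h)⟩
  · rw [if_neg hX]
    have h1 : (En n * (1 - om n * (r : ℂ))).im = (En n).im - r * (En n * om n).im := by
      have : En n * (1 - om n * (r : ℂ)) = En n - (r : ℂ) * (En n * om n) := by ring
      rw [this, sub_im, im_ofReal_mul]
    rw [h1]
    have h3 : (En n).im - r * (En n * om n).im < 0 := by nlinarith
    exact ⟨h3.le, fun _ => h3⟩

/-- the reflection -/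
noncomputable def refl2 : C(S2, S2) where
  toFun X := ⟨!₂[(X : R3) 0, -(X : R3) 1, (X : R3) 2], by
    have h := normSq_coord X
    rw [mem_sphere_zero_iff_norm, EuclideanSpace.norm_eq, Fin.sum_univ_three]
    simp
    linarith⟩
  continuous_toFun := by
    refine Continuous.subtype_mk ?_ _
    refine (PiLp.continuous_toLp 2 (fun _ : Fin 3 => ℝ)).comp (continuous_pi fun i => ?_)
    fin_cases i
    · show Continuous fun X : S2 => (X : R3) 0
      fun_prop
    · show Continuous fun X : S2 => -(X : R3) 1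
      fun_prop
    · show Continuous fun X : S2 => (X : R3) 2
      fun_prop

theorem refl2_refl2 : refl2.comp refl2 = ContinuousMap.id S2 := by
  apply ContinuousMap.ext
  intro X
  apply Subtype.ext
  ext i
  fin_cases i <;> simp [refl2]

/-- The projection restricted to the sphere of the fan is homotopic to a reflection. -/
theorem pr_fsph_one (h2 : 2 ≤ n) (hn : n ≠ 0) (hn1 : 1 ≤ n) {θ η : ℂ} (hθ : θ ^ n = -1)
    (hη : η ^ n = -1) (hηθ : η * θ = om n) :
    ((⟨pr n η hn1 hη, continuous_pr n η hn1 hη⟩ : C(Cone n, S2)).comp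
      (fsph n (om n) hn (om_pow n hn) hθ (fun _ => 1) (fun _ => by simp))).Homotopic refl2 := by
  have h := homotopicRel_of_not_antipodal
    ((⟨pr n η hn1 hη, continuous_pr n η hn1 hη⟩ : C(Cone n, S2)).comp
      (fsph n (om n) hn (om_pow n hn) hθ (fun _ => 1) (fun _ => by simp))) refl2 ?_ ∅ (by simp)
  · obtain ⟨H⟩ := h
    exact ⟨H.toHomotopy⟩
  · intro X
    simp only [ContinuousMap.comp_apply, ContinuousMap.coe_mk]
    set Y : Cone n := fsph n (om n) hn (om_pow n hn) hθ (fun _ => 1) (fun _ => by simp) X with hY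
    have hp1 : pt n 1 = 1 := by simp [pt]
    have hp4 : pt n ((1 / 4 : ℝ) : ℂ) = (((1 / 4 : ℝ) ^ ((n : ℝ)⁻¹) : ℝ) : ℂ) :=
      pt_ofReal n (by norm_num)
    have hsum : (∑ a, (1 : ℂ) * ((bary n X a : ℝ) : ℂ)) = 1 := by
      have h := bary_sum n X
      simp only [one_mul]
      rw [← ofReal_sum, h, ofReal_one]
    set k : ℝ := (1 / 4 : ℝ) ^ ((n : ℝ)⁻¹) with hk
    have hk0 : 0 < k := by positivity
    have hYv : (Y : Fin 4 → ℂ) = ![(k : ℂ) * (lam n X * pf n Real.pi (vv X ^ n)),
        θ * (k : ℂ) * (lam n X * pf n 0 (vv X ^ n)), er n (om n) X, 1] := by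
      show vf n (om n) θ (fun _ => 1) X = _
      rw [vf, hsum, hp1, hp4]
      simp
    have hA : fA η Y = (k : ℂ) * (lam n X * (pf n Real.pi (vv X ^ n) - om n * pf n 0 (vv X ^ n))) := by
      rw [hYv, fA]
      simp only [Matrix.cons_val]
      linear_combination (-(k : ℂ) * lam n X * pf n 0 (vv (X : R3) ^ n)) * hηθ
    have hB : fB (Y : Fin 4 → ℂ) = 1 - er n (om n) X := by
      rw [hYv, fB]
      simp only [Matrix.cons_val]
    have hsq := normSq_coord X
    by_cases hcap : TT X = 0 ∧ 0 ≤ (X : R3) 2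
    · -- the north cap
      obtain ⟨hT, hX2⟩ := hcap
      have hninv : (n : ℝ)⁻¹ ≠ 0 := inv_ne_zero (by exact_mod_cast hn)
      have hl : lam n X = 0 := by
        rw [lam, hT, Real.zero_rpow hninv]
        simp
      have he : er n (om n) X = 1 := by
        rw [er, hT, if_pos hX2]
        simp
      have hv : (Y : Fin 4 → ℂ) = ![0, 0, 1, 1] := by
        rw [hYv, hl, he]
        simp
      have hA' : fA' n η Y = 0 := by
        rw [hv, fA']
        refine Finset.sum_eq_zero fun j hj => ?_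
        simp only [Matrix.cons_val, mul_zero]
        rcases Nat.eq_zero_or_pos j with h0 | h0
        · subst h0
          rw [zero_pow (by omega : n - 1 - 0 ≠ 0), mul_zero]
        · rw [zero_pow (by omega : j ≠ 0), zero_mul]
      have hB' : fB' n (Y : Fin 4 → ℂ) ≠ 0 := by
        rw [hv, fB']
        simp
        exact hn
      rw [pr_eq₂ n η hn1 hη Y (Or.inl hB')]
      intro h
      have h2 := congrArg (fun v : R3 => v 2) h
      simp only [coe_nrm] at h2
      have h3 : (W (fB' n Y) (fA' n η Y)) 2 = normSq (fB' n (Y : Fin 4 → ℂ)) := by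
        rw [hA']
        simp [W]
      have h4 : 0 < normSq (fB' n (Y : Fin 4 → ℂ)) := normSq_pos.2 hB'
      have hNpos : 0 < ‖W (fB' n Y) (fA' n η Y)‖ := norm_pos_iff.2 (W_ne (Or.inl hB'))
      have h5 : (‖W (fB' n Y) (fA' n η Y)‖⁻¹ • W (fB' n Y) (fA' n η Y)) 2
          = ‖W (fB' n Y) (fA' n η Y)‖⁻¹ * normSq (fB' n (Y : Fin 4 → ℂ)) := by
        rw [PiLp.smul_apply, h3, smul_eq_mul]
      have h6 : (-(refl2 X : R3)) 2 = -(X : R3) 2 := by
        rw [PiLp.neg_apply]
        simp [refl2]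
      rw [h5, h6] at h2
      have h7 : 0 < ‖W (fB' n Y) (fA' n η Y)‖⁻¹ * normSq (fB' n (Y : Fin 4 → ℂ)) :=
        mul_pos (inv_pos.2 hNpos) h4
      linarith
    · -- the other points
      have hx2 : (X : R3) 2 < 1 := by
        by_contra hcon
        push Not at hcon
        apply hcap
        have h0 : ‖xi X‖ ^ 2 ≤ 0 := by
          have := xi_sphere X
          nlinarith
        have h1 : ‖xi X‖ = 0 := by
          have := norm_nonneg (xi X)
          nlinarith
        refine ⟨?_, by linarith⟩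
        rw [TT, h1]
        norm_num
      have hneg : (En n * (fA η Y * xi X + fB (Y : Fin 4 → ℂ) * ((1 - (X : R3) 2 : ℝ) : ℂ))).im < 0 := by
        rw [hA, hB]
        set a := pf n Real.pi (vv (X : R3) ^ n) - om n * pf n 0 (vv (X : R3) ^ n) with ha
        have hane : (En n * a).im < 0 := im_a_neg n h2 (norm_vpow n X)
        obtain ⟨hB1, hB2⟩ := im_B n h2 X
        -- `conj v * xi` is a nonnegative real
        have hvxi : (starRingEnd ℂ) (vv X) * xi X
            = ((‖xi X‖ ^ 2 / max ‖xi X‖ (1 / 2) : ℝ) : ℂ) := by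
          rw [vv, map_div₀, conj_ofReal, div_mul_eq_mul_div, mul_comm ((starRingEnd ℂ) (xi X)),
            mul_conj, normSq_eq_norm_sq]
          push_cast
          rfl
        set T1 : ℝ := TT X ^ ((n : ℝ)⁻¹) with hT1
        have e1 : En n * ((k : ℂ) * (lam n X * a) * xi X
            + (1 - er n (om n) X) * ((1 - (X : R3) 2 : ℝ) : ℂ))
            = ((k * T1 * (‖xi X‖ ^ 2 / max ‖xi X‖ (1 / 2)) : ℝ) : ℂ) * (En n * a)
              + ((1 - (X : R3) 2 : ℝ) : ℂ) * (En n * (1 - er n (om n) X)) := by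
          rw [lam, ofReal_mul, ofReal_mul, ← hvxi]
          ring
        rw [e1, add_im, im_ofReal_mul, im_ofReal_mul]
        have hT1' : 0 ≤ T1 := Real.rpow_nonneg (TT_nonneg X) _
        have hmp := max_pos' (X : R3)
        have hc1 : 0 ≤ k * T1 * (‖xi X‖ ^ 2 / max ‖xi X‖ (1 / 2)) := by positivity
        have hb : 0 < 1 - (X : R3) 2 := by linarith
        rcases (TT_nonneg (X : R3)).lt_or_eq with hTp | hTz
        · have hxi : 0 < ‖xi X‖ := by
            have h5 := norm_vv_of_pos hTp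
            rcases (norm_nonneg (xi X)).lt_or_eq with h6 | h6
            · exact h6
            · rw [vv, norm_div, ← h6, zero_div] at h5
              norm_num at h5
          have hc2 : 0 < k * T1 * (‖xi X‖ ^ 2 / max ‖xi X‖ (1 / 2)) := by
            have : 0 < T1 := Real.rpow_pos_of_pos hTp _
            positivity
          have := mul_neg_of_pos_of_neg hc2 hane
          have := mul_nonpos_of_nonneg_of_nonpos hb.le hB1
          linarith
        · have hX2 : (X : R3) 2 < 0 := by
            by_contra hcon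
            push Not at hcon
            exact hcap ⟨hTz.symm, hcon⟩
          have := mul_nonpos_of_nonneg_of_nonpos hc1 hane.le
          have := mul_neg_of_pos_of_neg hb (hB2 hX2)
          linarith
      have hAB : fA η Y ≠ 0 ∨ fB (Y : Fin 4 → ℂ) ≠ 0 := by
        by_contra hcon
        push Not at hcon
        rw [hcon.1, hcon.2] at hneg
        simp at hneg
      have hb : (((1 - (refl2 X : R3) 2 : ℝ)) : ℂ) ≠ 0 := by
        rw [ofReal_ne_zero]
        show 1 - (X : R3) 2 ≠ 0
        linarith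
      have hbase := base_coord (refl2 X)
      have hpos : 0 < 2 * (1 - (refl2 X : R3) 2) := by
        show 0 < 2 * (1 - (X : R3) 2)
        linarith
      have hxn : nrm (W ((refl2 X : R3) 0 + (refl2 X : R3) 1 * I) ((1 - (refl2 X : R3) 2 : ℝ)))
          (W_ne (Or.inr hb)) = refl2 X := by
        apply Subtype.ext
        rw [coe_nrm, hbase, norm_smul, norm_coe, Real.norm_of_nonneg hpos.le, mul_one, smul_smul,
          inv_mul_cancel₀ hpos.ne', one_smul]
      rw [pr_eq₁ n η hn1 hη Y hAB]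
      intro h
      rw [← hxn] at h
      have h8 := antipodal hAB (Or.inr hb) (by simpa using h)
      have h9 : (starRingEnd ℂ) (((refl2 X : R3) 0 : ℂ) + ((refl2 X : R3) 1 : ℂ) * I) = xi X := by
        show (starRingEnd ℂ) (((X : R3) 0 : ℂ) + ((-(X : R3) 1 : ℝ) : ℂ) * I) = xi X
        simp [xi]
      rw [h9, conj_ofReal] at h8
      have h10 : ((1 - (refl2 X : R3) 2 : ℝ) : ℂ) = ((1 - (X : R3) 2 : ℝ) : ℂ) := rfl
      rw [h10] at h8
      rw [h8] at hneg
      simp at hneg

/-- The projection restricted to any sphere of a fan is homotopic to a reflection. -/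
theorem pr_fsph (h2 : 2 ≤ n) (hn : n ≠ 0) (hn1 : 1 ≤ n) {θ η : ℂ} (hθ : θ ^ n = -1)
    (hη : η ^ n = -1) (hηθ : η * θ = om n) (m : Fin 3 → ℂ) (hm : ∀ i, 0 < (m i).re) :
    ((refl2.comp (⟨pr n η hn1 hη, continuous_pr n η hn1 hη⟩ : C(Cone n, S2))).comp
      (fsph n (om n) hn (om_pow n hn) hθ m hm)).Homotopic (ContinuousMap.id S2) := by
  have h1 := ((ContinuousMap.Homotopic.refl
    (⟨pr n η hn1 hη, continuous_pr n η hn1 hη⟩ : C(Cone n, S2))).comp
    (fsph_homotopic n (om n) hn (om_pow n hn) hθ m hm)).trans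
    (pr_fsph_one n h2 hn hn1 hθ hη hηθ)
  have h3 := (ContinuousMap.Homotopic.refl refl2).comp h1
  rw [refl2_refl2] at h3
  exact h3

end

end Pool.Agent.H.MP_02294b_ag.Cov
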