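import Pool.Agent.H.MP_02294b_ag.Cov.One11

/-! Real configurations of three or four lines. -/

set_option autoImplicit false
set_option linter.unusedSectionVars false

open Set Filter Topology Matrix
open scoped LinearAlgebra.Projectivization

namespace Pool.Agent.H.MP_02294b_ag.Cov

section

variable {ι : Type} [Fintype ι]

theorem real_noCommon {A : ι → Fin 3 → ℝ} (hA : IsConfig (cx A)) {p : Fin 3 → ℝ} (hp : p ≠ 0) :
    ∃ j, rlin A j p ≠ 0 := by
  by_contra hcon
  push Not at hcon
  apply hp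
  have h2 := hA.noCommon (fun b => (p b : ℂ)) fun i => (rlin_lin_cx A i p).2 (hcon i)
  funext b
  have h3 : (p b : ℂ) = 0 := congrFun h2 b
  exact_mod_cast h3

/-- Four lines, no three of them through a point. -/
theorem four_cut {A : ι → Fin 3 → ℝ} {f g h j : ι} (hfg : f ≠ g) (hall : ∀ m, m = f ∨ m = g ∨ m = h ∨ m = j)
    (hF : rlin A f (cr A g h) ≠ 0) (hJa : rlin A j (cr A g h) ≠ 0) (hJb : rlin A j (cr A f h) ≠ 0)
    (hJc : rlin A j (cr A f g) ≠ 0) : HasCut (cx A) := by
  have hG : rlin A g (cr A f h) ≠ 0 := by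
    rw [rlin_cr_swap]
    exact neg_ne_zero.2 hF
  have hH : rlin A h (cr A f g) ≠ 0 := by
    rw [rlin_cr_swap]
    intro h0
    apply hF
    have h1 : rlin A f (cr A h g) = 0 := neg_eq_zero.1 h0
    have h2 : cr A g h = -cr A h g := by rw [cr, cr, cross_anticomm]
    rw [h2]
    have h3 := rlin_smul A f (-1) (cr A h g)
    rw [h1, mul_zero, neg_smul, one_smul] at h3
    exact h3
  -- the values of the forms at a combination of the three intersection points
  have hv : ∀ a b c : ℝ, ∀ m, rlin A m ((a / rlin A j (cr A g h)) • cr A g h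
      + (b / rlin A j (cr A f h)) • cr A f h + (c / rlin A j (cr A f g)) • cr A f g)
      = a / rlin A j (cr A g h) * rlin A m (cr A g h)
        + b / rlin A j (cr A f h) * rlin A m (cr A f h)
        + c / rlin A j (cr A f g) * rlin A m (cr A f g) := by
    intro a b c m
    rw [rlin_add, rlin_add, rlin_smul, rlin_smul, rlin_smul]
  have hvf : ∀ a b c : ℝ, rlin A f ((a / rlin A j (cr A g h)) • cr A g h
      + (b / rlin A j (cr A f h)) • cr A f h + (c / rlin A j (cr A f g)) • cr A f g)
      = a * (rlin A f (cr A g h) / rlin A j (cr A g h)) := by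
    intro a b c
    rw [hv, rlin_cr_left, rlin_cr_left]
    ring
  have hvg : ∀ a b c : ℝ, rlin A g ((a / rlin A j (cr A g h)) • cr A g h
      + (b / rlin A j (cr A f h)) • cr A f h + (c / rlin A j (cr A f g)) • cr A f g)
      = b * (rlin A g (cr A f h) / rlin A j (cr A f h)) := by
    intro a b c
    rw [hv, rlin_cr_left, rlin_cr_right]
    ring
  have hvh : ∀ a b c : ℝ, rlin A h ((a / rlin A j (cr A g h)) • cr A g h
      + (b / rlin A j (cr A f h)) • cr A f h + (c / rlin A j (cr A f g)) • cr A f g)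
      = c * (rlin A h (cr A f g) / rlin A j (cr A f g)) := by
    intro a b c
    rw [hv, rlin_cr_right, rlin_cr_right]
    ring
  have hvj : ∀ a b c : ℝ, rlin A j ((a / rlin A j (cr A g h)) • cr A g h
      + (b / rlin A j (cr A f h)) • cr A f h + (c / rlin A j (cr A f g)) • cr A f g)
      = a + b + c := by
    intro a b c
    rw [hv]
    field_simp
  have sqF : 0 < (rlin A f (cr A g h) / rlin A j (cr A g h)) ^ 2 := by positivity
  have sqG : 0 < (rlin A g (cr A f h) / rlin A j (cr A f h)) ^ 2 := by positivity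
  have sqH : 0 < (rlin A h (cr A f g) / rlin A j (cr A f g)) ^ 2 := by positivity
  refine hasCut_of_walls A (x := (1 / rlin A j (cr A g h)) • cr A g h
      + (1 / rlin A j (cr A f h)) • cr A f h + (-1 / rlin A j (cr A f g)) • cr A f g)
    (p := (0 / rlin A j (cr A g h)) • cr A g h
      + (0 / rlin A j (cr A f h)) • cr A f h + (1 / rlin A j (cr A f g)) • cr A f g)
    (h := h) (j := j) hfg
    ⟨(0 / rlin A j (cr A g h)) • cr A g h
      + (2 / rlin A j (cr A f h)) • cr A f h + (-1 / rlin A j (cr A f g)) • cr A f g, ?_,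
      fun m hm => ?_⟩
    ⟨(2 / rlin A j (cr A g h)) • cr A g h
      + (0 / rlin A j (cr A f h)) • cr A f h + (-1 / rlin A j (cr A f g)) • cr A f g, ?_,
      fun m hm => ?_⟩ ?_ ?_ ?_ ?_ ?_
  · rw [hvf, zero_mul]
  · rcases hall m with rfl | rfl | rfl | rfl
    · exact absurd rfl hm
    · rw [hvg, hvg]
      nlinarith
    · rw [hvh, hvh]
      nlinarith
    · rw [hvj, hvj]
      norm_num
  · rw [hvg, zero_mul]
  · rcases hall m with rfl | rfl | rfl | rfl
    · rw [hvf, hvf]
      nlinarith
    · exact absurd rfl hm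
    · rw [hvh, hvh]
      nlinarith
    · rw [hvj, hvj]
      norm_num
  · rw [hvf, zero_mul]
  · rw [hvg, zero_mul]
  · have hsub : {i | rlin A i ((0 / rlin A j (cr A g h)) • cr A g h
      + (0 / rlin A j (cr A f h)) • cr A f h + (1 / rlin A j (cr A f g)) • cr A f g) = 0}
        ⊆ ({f, g, j} : Set ι) := by
      intro m hm
      rcases hall m with rfl | rfl | rfl | rfl
      · simp
      · simp
      · exfalso
        have hm' : rlin A m ((0 / rlin A j (cr A g m)) • cr A g m
          + (0 / rlin A j (cr A f m)) • cr A f m + (1 / rlin A j (cr A f g)) • cr A f g) = 0 := hm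
        rw [hvh, one_mul] at hm'
        rw [hm'] at sqH
        norm_num at sqH
      · simp
    refine (Set.ncard_le_ncard hsub (Set.toFinite _)).trans ?_
    exact (Set.ncard_insert_le _ _).trans (Nat.succ_le_succ ((Set.ncard_insert_le _ _).trans
      (Nat.succ_le_succ (by rw [Set.ncard_singleton]))))
  · rw [hvh, hvh]
    nlinarith
  · rw [hvj, hvj]
    norm_num

theorem few_lines (A : ι → Fin 3 → ℝ) (hA : IsConfig (cx A)) (h4 : Fintype.card ι ≤ 4) :
    HasCut (cx A) ∨ ∃ (o : Fin 3 → ℝ) (j : ι), rlin A j o ≠ 0 ∧ ∀ i, i ≠ j → rlin A i o = 0 := by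
  classical
  have h3 := hA.three
  rcases (by omega : Fintype.card ι = 3 ∨ Fintype.card ι = 4) with hc | hc
  · right
    obtain ⟨e⟩ : Nonempty (Fin 3 ≃ ι) := ⟨(Fintype.equivFinOfCardEq hc).symm⟩
    have h01 : e 0 ≠ e 1 := e.injective.ne (by decide)
    obtain ⟨j, hj⟩ := real_noCommon hA (cr_ne_zero hA h01)
    refine ⟨cr A (e 0) (e 1), j, hj, fun i hi => ?_⟩
    obtain ⟨a, rfl⟩ := e.surjective i
    obtain ⟨b, rfl⟩ := e.surjective j
    have hb : b = 2 := by
      fin_cases b
      · exact absurd (rlin_cr_left A (e 0) (e 1)) hj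
      · exact absurd (rlin_cr_right A (e 0) (e 1)) hj
      · rfl
    fin_cases a
    · exact rlin_cr_left A (e 0) (e 1)
    · exact rlin_cr_right A (e 0) (e 1)
    · exact absurd (by rw [hb]; rfl) hi
  · obtain ⟨e⟩ : Nonempty (Fin 4 ≃ ι) := ⟨(Fintype.equivFinOfCardEq hc).symm⟩
    -- three concurrent lines
    have key : ∀ a b c d : Fin 4, a ≠ b → (∀ x : Fin 4, x = a ∨ x = b ∨ x = c ∨ x = d) →
        rlin A (e c) (cr A (e a) (e b)) = 0 →
        ∃ (o : Fin 3 → ℝ) (j : ι), rlin A j o ≠ 0 ∧ ∀ i, i ≠ j → rlin A i o = 0 := by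
      intro a b c d hab hall h0
      have hab' : e a ≠ e b := e.injective.ne hab
      obtain ⟨j, hj⟩ := real_noCommon hA (cr_ne_zero hA hab')
      refine ⟨cr A (e a) (e b), j, hj, fun i hi => ?_⟩
      obtain ⟨x, rfl⟩ := e.surjective i
      obtain ⟨y, rfl⟩ := e.surjective j
      rcases hall y with rfl | rfl | rfl | rfl
      · exact absurd (rlin_cr_left A _ _) hj
      · exact absurd (rlin_cr_right A _ _) hj
      · exact absurd h0 hj
      · rcases hall x with rfl | rfl | rfl | rfl
        · exact rlin_cr_left A _ _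
        · exact rlin_cr_right A _ _
        · exact h0
        · exact absurd rfl hi
    by_cases k1 : rlin A (e 0) (cr A (e 1) (e 2)) = 0
    · exact Or.inr (key 1 2 0 3 (by decide) (by decide) k1)
    by_cases k2 : rlin A (e 3) (cr A (e 1) (e 2)) = 0
    · exact Or.inr (key 1 2 3 0 (by decide) (by decide) k2)
    by_cases k3 : rlin A (e 3) (cr A (e 0) (e 2)) = 0
    · exact Or.inr (key 0 2 3 1 (by decide) (by decide) k3)
    by_cases k4 : rlin A (e 3) (cr A (e 0) (e 1)) = 0
    · exact Or.inr (key 0 1 3 2 (by decide) (by decide) k4)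
    left
    refine four_cut (f := e 0) (g := e 1) (h := e 2) (j := e 3) (e.injective.ne (by decide))
      (fun m => ?_) k1 k2 k3 k4
    obtain ⟨x, rfl⟩ := e.surjective m
    fin_cases x <;> simp

/-- Real configurations with at most one point on more than three lines. -/
theorem real_one_final (A : ι → Fin 3 → ℝ) (hA : IsConfig (cx A))
    (h4 : ∀ p q : Fin 3 → ℝ, p ≠ 0 → q ≠ 0 → 4 ≤ {i | rlin A i p = 0}.ncard →
      4 ≤ {i | rlin A i q = 0}.ncard → ∃ c : ℝ, q = c • p) :
    RealEquiv A quad7 ∨ (∃ r, 3 ≤ r ∧ RealEquiv A (polygon r)) ∨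
      ∀ n, 2 ≤ n → HasEssentialSphere (HKSpace (cx A) n) ∧ ¬ IsKPiOne (HKSpace (cx A) n) := by
  by_cases hcut : HasCut (cx A)
  · exact Or.inr (Or.inr fun n hn => cut_space (cx A) n hn hA hcut)
  have hnear : (∃ (o : Fin 3 → ℝ) (j : ι), rlin A j o ≠ 0 ∧ ∀ i, i ≠ j → rlin A i o = 0) →
      ∀ n, 2 ≤ n → HasEssentialSphere (HKSpace (cx A) n) ∧ ¬ IsKPiOne (HKSpace (cx A) n) := by
    rintro ⟨o, j, hj, hij⟩ n hn
    refine near_pencil_space (L := cx A) (n := n) (o := fun b => (o b : ℂ)) (j := j) (by omega)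
      hA ?_ fun i hi => ?_
    · rw [Ne, rlin_lin_cx]
      exact hj
    · rw [rlin_lin_cx]
      exact hij i hi
  by_cases h5 : 5 ≤ Fintype.card ι
  · rcases real_one A hA h5 h4 hcut with h | h | h
    · exact Or.inl h
    · exact Or.inr (Or.inl h)
    · exact Or.inr (Or.inr (hnear h))
  · rcases few_lines A hA (by omega) with h | h
    · exact absurd h hcut
    · exact Or.inr (Or.inr (hnear h))

end

end Pool.Agent.H.MP_02294b_ag.Cov
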