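import Pool.Agent.H.MP_02294b_ag.Cov.Model

/-! Linear algebra of a triangle. -/

set_option autoImplicit false

open Metric Set Filter Topology Complex
open scoped LinearAlgebra.Projectivization

namespace Pool.Agent.H.MP_02294b_ag.Cov

open Pool.Agent.H.MP_5f9601_gt (nrm coe_nrm norm_coe)

/-- separation of a triangle in the plane from the origin -/
theorem exists_sep (w : Fin 3 → ℂ)
    (h : ∀ s : Fin 3 → ℝ, (∀ a, 0 ≤ s a) → s ≠ 0 → ∑ a, (s a : ℂ) * w a ≠ 0) :
    ∃ d : ℂ, ∀ a, 0 < (d * w a).re := by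
  let T : (Fin 3 → ℝ) →ₗ[ℝ] ℂ :=
    { toFun := fun s => ∑ a, (s a : ℂ) * w a
      map_add' := fun x y => by
        simp only [Pi.add_apply, ofReal_add, add_mul, Finset.sum_add_distrib]
      map_smul' := fun c x => by
        simp only [Pi.smul_apply, smul_eq_mul, ofReal_mul, RingHom.id_apply, Finset.smul_sum,
          real_smul, mul_assoc] }
  have hT : Continuous T := LinearMap.continuous_of_finiteDimensional T
  have hK : Convex ℝ (T '' stdSimplex ℝ (Fin 3)) := (convex_stdSimplex ℝ (Fin 3)).linear_image T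
  have hKc : IsClosed (T '' stdSimplex ℝ (Fin 3)) :=
    ((isCompact_stdSimplex ℝ (Fin 3)).image hT).isClosed
  have h0 : (0 : ℂ) ∉ T '' stdSimplex ℝ (Fin 3) := by
    rintro ⟨s, hs, hs0⟩
    refine h s hs.1 ?_ hs0
    rintro rfl
    have := hs.2
    simp at this
  obtain ⟨f, u, hu, hf⟩ := geometric_hahn_banach_point_closed hK hKc h0
  rw [map_zero] at hu
  refine ⟨(f 1 : ℂ) - (f I : ℂ) * I, fun a => ?_⟩
  have h1 : T (Pi.single a 1) = w a := by
    show ∑ b, ((Pi.single a (1 : ℝ) : Fin 3 → ℝ) b : ℂ) * w b = w a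
    rw [Finset.sum_eq_single a]
    · simp
    · intro b _ hb
      simp [Pi.single_eq_of_ne hb]
    · simp
  have h2 : u < f (w a) := by
    rw [← h1]
    exact hf _ ⟨_, single_mem_stdSimplex ℝ a, rfl⟩
  have h3 : f (w a) = (w a).re * f 1 + (w a).im * f I := by
    have e : w a = (w a).re • (1 : ℂ) + (w a).im • I := by
      rw [real_smul, real_smul, mul_one, re_add_im]
    conv_lhs => rw [e]
    rw [map_add, map_smul, map_smul, smul_eq_mul, smul_eq_mul]
  have h4 : (((f 1 : ℂ) - (f I : ℂ) * I) * w a).re = (w a).re * f 1 + (w a).im * f I := by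
    simp [mul_re]
    ring
  rw [h4, ← h3]
  linarith

section

variable {ι : Type} [Fintype ι] (L : ι → Fin 3 → ℂ)

/-- the vertices of a triangle are a basis -/
theorem basis_of_side (P : Fin 3 → Fin 3 → ℂ) (e : Fin 3 → ι)
    (hside : ∀ a b, lin L (e a) (P b) = 0 ↔ a ≠ b) (x : Fin 3 → ℂ) :
    ∃ c : Fin 3 → ℂ, x = ∑ a, c a • P a := by
  have hli : LinearIndependent ℂ P := by
    rw [Fintype.linearIndependent_iff]
    intro g hg a
    have h1 : lin L (e a) (∑ b, g b • P b) = 0 := by
      rw [hg]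
      have := lin_smul L (e a) 0 0
      simpa using this
    rw [lin_sum, Finset.sum_eq_single a] at h1
    · rcases mul_eq_zero.1 h1 with h | h
      · exact h
      · exact absurd rfl ((hside a a).1 h)
    · intro b _ hb
      rw [(hside a b).2 (Ne.symm hb), mul_zero]
    · simp
  have hspan : ⊤ ≤ Submodule.span ℂ (range P) := by
    rw [hli.span_eq_top_of_card_eq_finrank' (by simp)]
  have hx : x ∈ Submodule.span ℂ (range P) := hspan (Submodule.mem_top)
  obtain ⟨c, hc⟩ := (Submodule.mem_span_range_iff_exists_fun ℂ).1 hx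
  exact ⟨c, hc.symm⟩

theorem eq_zero_of_sides (P : Fin 3 → Fin 3 → ℂ) (e : Fin 3 → ι)
    (hside : ∀ a b, lin L (e a) (P b) = 0 ↔ a ≠ b) (x : Fin 3 → ℂ)
    (hx : ∀ a, lin L (e a) x = 0) : x = 0 := by
  obtain ⟨c, rfl⟩ := basis_of_side L P e hside x
  have hc : ∀ a, c a = 0 := by
    intro a
    have h1 := hx a
    rw [lin_sum, Finset.sum_eq_single a] at h1
    · rcases mul_eq_zero.1 h1 with h | h
      · exact h
      · exact absurd rfl ((hside a a).1 h)
    · intro b _ hb
      rw [(hside a b).2 (Ne.symm hb), mul_zero]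
    · simp
  simp [hc]

theorem side_inj (P : Fin 3 → Fin 3 → ℂ) (e : Fin 3 → ι)
    (hside : ∀ a b, lin L (e a) (P b) = 0 ↔ a ≠ b) : Function.Injective e := by
  intro a b hab
  by_contra hne
  have h1 : lin L (e a) (P b) = 0 := (hside a b).2 hne
  rw [hab] at h1
  exact (hside b b).1 h1 rfl

end

end Pool.Agent.H.MP_02294b_ag.Cov
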