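import Pool.Agent.H.MP_02294b_ag.Cov.Model

/-! A complex line of a projective space is an essential two-sphere: nonvanishing sections along a
homotopy. -/

set_option autoImplicit false

open Metric Set Filter Topology Complex
open scoped LinearAlgebra.Projectivization unitInterval

namespace Pool.Agent.H.MP_02294b_ag.Cov

open Pool.Agent.H.MP_5f9601_gt (nrm coe_nrm norm_coe)

section

variable {ι : Type} [Fintype ι]

/-- The matrix of the orthogonal projection to the line spanned by a vector. -/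
noncomputable def prj (v : ι → ℂ) (i j : ι) : ℂ :=
  v i * (starRingEnd ℂ) (v j) / ((∑ k, normSq (v k) : ℝ) : ℂ)

theorem sum_normSq_pos {v : ι → ℂ} (hv : v ≠ 0) : 0 < ∑ k, normSq (v k) := by
  obtain ⟨i, hi⟩ := Function.ne_iff.1 hv
  exact Finset.sum_pos' (fun k _ => normSq_nonneg _) ⟨i, Finset.mem_univ _, normSq_pos.2 hi⟩

theorem prj_smul {c : ℂ} (hc : c ≠ 0) (v : ι → ℂ) : prj (c • v) = prj v := by
  funext i j
  by_cases hv : v = 0
  · simp [prj, hv]
  have h1 := sum_normSq_pos hv
  have h2 : ((∑ k, normSq (v k) : ℝ) : ℂ) ≠ 0 := ofReal_ne_zero.2 h1.ne'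
  have h3 : (∑ k, normSq ((c • v) k)) = normSq c * ∑ k, normSq (v k) := by
    rw [Finset.mul_sum]
    exact Finset.sum_congr rfl fun k _ => by rw [Pi.smul_apply, smul_eq_mul, map_mul]
  have h4 : ((normSq c : ℝ) : ℂ) ≠ 0 := ofReal_ne_zero.2 (normSq_pos.2 hc).ne'
  rw [prj, prj, h3, Pi.smul_apply, Pi.smul_apply, smul_eq_mul, smul_eq_mul, map_mul, ofReal_mul]
  have h5 : c * v i * ((starRingEnd ℂ) c * (starRingEnd ℂ) (v j))
      = ((normSq c : ℝ) : ℂ) * (v i * (starRingEnd ℂ) (v j)) := by
    rw [← mul_conj]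
    ring
  rw [h5, mul_div_mul_left _ _ h4]

/-- The projection matrix of a point of the projective space. -/
noncomputable def prjP (x : ℙ ℂ (ι → ℂ)) : ι → ι → ℂ := prj x.rep

theorem prjP_mk {v : ι → ℂ} (hv : v ≠ 0) : prjP (Projectivization.mk ℂ v hv) = prj v := by
  obtain ⟨a, ha⟩ := Projectivization.exists_smul_eq_mk_rep ℂ v hv
  rw [prjP, ← ha]
  exact prj_smul a.ne_zero v

theorem continuous_prjP : Continuous (prjP : ℙ ℂ (ι → ℂ) → ι → ι → ℂ) := by
  have hq : IsQuotientMap (Projectivization.mk' ℂ : {v : ι → ℂ // v ≠ 0} → ℙ ℂ (ι → ℂ)) :=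
    isQuotientMap_quotient_mk'
  rw [hq.continuous_iff]
  have : (prjP ∘ (Projectivization.mk' ℂ : {v : ι → ℂ // v ≠ 0} → ℙ ℂ (ι → ℂ)))
      = fun v => prj v.1 := by
    funext v
    exact prjP_mk v.2
  rw [this]
  refine continuous_pi fun i => continuous_pi fun j => ?_
  unfold prj
  refine Continuous.div ?_ ?_ fun v => ofReal_ne_zero.2 (sum_normSq_pos v.2).ne'
  · exact ((continuous_apply i).comp continuous_subtype_val).mul
      (continuous_conj.comp ((continuous_apply j).comp continuous_subtype_val))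
  · exact continuous_ofReal.comp (continuous_finsetSum _ fun k _ =>
      continuous_normSq.comp ((continuous_apply k).comp continuous_subtype_val))

/-- A nonvanishing section of the tautological bundle along a map. -/
def HasSec {X : Type*} [TopologicalSpace X] (F : X → ℙ ℂ (ι → ℂ)) : Prop :=
  ∃ s : X → ι → ℂ, Continuous s ∧ ∀ x, s x ≠ 0 ∧ ∃ c : ℂ, s x = c • (F x).rep

theorem prj_apply {v : ι → ℂ} (hv : v ≠ 0) (c : ℂ) :
    (fun i => ∑ j, prj v i j * (c • v) j) = c • v := by
  funext i
  have h2 : ((∑ k, normSq (v k) : ℝ) : ℂ) ≠ 0 := ofReal_ne_zero.2 (sum_normSq_pos hv).ne'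
  have h3 : ∀ j, prj v i j * (c • v) j
      = c * v i / ((∑ k, normSq (v k) : ℝ) : ℂ) * ((normSq (v j) : ℝ) : ℂ) := by
    intro j
    rw [prj, Pi.smul_apply, smul_eq_mul, ← mul_conj]
    ring
  simp only [h3]
  rw [← Finset.mul_sum, ← ofReal_sum, div_mul_cancel₀ _ h2]
  rfl

theorem prj_range (v s : ι → ℂ) : ∃ c : ℂ, (fun i => ∑ j, prj v i j * s j) = c • v := by
  refine ⟨∑ j, (starRingEnd ℂ) (v j) / ((∑ k, normSq (v k) : ℝ) : ℂ) * s j, ?_⟩
  funext i
  rw [Pi.smul_apply, smul_eq_mul, Finset.sum_mul]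
  refine Finset.sum_congr rfl fun j _ => ?_
  rw [prj]
  ring

theorem hasSec_step {X : Type*} [TopologicalSpace X] {F G : X → ℙ ℂ (ι → ℂ)} (hF : Continuous F)
    (h : ∀ x, dist (prjP (F x)) (prjP (G x)) < 1 / ((Fintype.card ι : ℝ) + 1)) (hG : HasSec G) :
    HasSec F := by
  obtain ⟨s, hs, hsG⟩ := hG
  refine ⟨fun x i => ∑ j, prjP (F x) i j * s x j, ?_, fun x => ⟨fun h0 => ?_, ?_⟩⟩
  · have hP := continuous_prjP.comp hF
    refine continuous_pi fun i => continuous_finsetSum _ fun j _ => ?_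
    exact ((continuous_apply j).comp ((continuous_apply i).comp hP)).mul
      ((continuous_apply j).comp hs)
  · obtain ⟨hs0, c, hc⟩ := hsG x
    have h1 : ∀ i, s x i = ∑ j, (prjP (G x) i j - prjP (F x) i j) * s x j := by
      intro i
      have h2 : (fun i => ∑ j, prjP (G x) i j * s x j) = s x := by
        rw [hc]
        exact prj_apply (G x).rep_nonzero c
      have h3 := congrFun h2 i
      have h4 := congrFun h0 i
      simp only [Pi.zero_apply] at h4
      simp only [sub_mul, Finset.sum_sub_distrib]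
      rw [h4, sub_zero, h3]
    have hpos : 0 < ‖s x‖ := norm_pos_iff.2 hs0
    have hle : ‖s x‖ ≤ (Fintype.card ι : ℝ) * (1 / ((Fintype.card ι : ℝ) + 1) * ‖s x‖) := by
      rw [pi_norm_le_iff_of_nonneg (by positivity)]
      intro i
      rw [h1 i]
      refine (norm_sum_le _ _).trans ?_
      have : ∀ j ∈ (Finset.univ : Finset ι), ‖(prjP (G x) i j - prjP (F x) i j) * s x j‖
          ≤ 1 / ((Fintype.card ι : ℝ) + 1) * ‖s x‖ := by
        intro j _
        rw [norm_mul]
        refine mul_le_mul ?_ (norm_le_pi_norm _ _) (norm_nonneg _) (by positivity)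
        rw [← dist_eq_norm, dist_comm]
        exact ((dist_le_pi_dist (prjP (F x) i) (prjP (G x) i) j).trans
          (dist_le_pi_dist (prjP (F x)) (prjP (G x)) i)).trans (h x).le
      refine (Finset.sum_le_sum this).trans (le_of_eq ?_)
      rw [Finset.sum_const, nsmul_eq_mul, Finset.card_univ]
    have hlt : (Fintype.card ι : ℝ) * (1 / ((Fintype.card ι : ℝ) + 1) * ‖s x‖) < ‖s x‖ := by
      have h5 : (Fintype.card ι : ℝ) * (1 / ((Fintype.card ι : ℝ) + 1) * ‖s x‖)
          = (Fintype.card ι : ℝ) / ((Fintype.card ι : ℝ) + 1) * ‖s x‖ := by ring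
      rw [h5]
      have h6 : (Fintype.card ι : ℝ) / ((Fintype.card ι : ℝ) + 1) < 1 := by
        rw [div_lt_one (by positivity)]
        linarith
      nlinarith
    linarith
  · exact prj_range _ _

theorem hasSec_const {X : Type*} [TopologicalSpace X] (c : ℙ ℂ (ι → ℂ)) :
    HasSec (fun _ : X => c) :=
  ⟨fun _ => c.rep, continuous_const, fun _ => ⟨c.rep_nonzero, 1, (one_smul _ _).symm⟩⟩

theorem hasSec_of_homotopic {X : Type*} [PseudoMetricSpace X] [CompactSpace X]
    {F G : C(X, ℙ ℂ (ι → ℂ))} (h : F.Homotopic G) (hG : HasSec G) : HasSec F := by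
  obtain ⟨H⟩ := h
  have hc : Continuous fun z : I × X => prjP (H z) := continuous_prjP.comp H.continuous
  have hu := CompactSpace.uniformContinuous_of_continuous hc
  obtain ⟨δ, hδ, hH⟩ := Metric.uniformContinuous_iff.1 hu (1 / ((Fintype.card ι : ℝ) + 1))
    (by positivity)
  have hstep : ∀ t t' : I, dist t t' < δ → HasSec (fun x => H (t', x)) →
      HasSec (fun x => H (t, x)) := by
    intro t t' htt h
    refine hasSec_step (H.continuous.comp (by fun_prop)) (fun x => ?_) h
    apply hH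
    rw [Prod.dist_eq, dist_self, max_eq_left dist_nonneg]
    exact htt
  have hclopen : IsClopen {t : I | HasSec (fun x => H (t, x))} := by
    constructor
    · rw [← isOpen_compl_iff, Metric.isOpen_iff]
      intro t ht
      refine ⟨δ, hδ, fun t' ht' hcon => ht ?_⟩
      rw [Metric.mem_ball, dist_comm] at ht'
      exact hstep t t' ht' hcon
    · rw [Metric.isOpen_iff]
      intro t ht
      refine ⟨δ, hδ, fun t' ht' => ?_⟩
      rw [Metric.mem_ball] at ht'
      exact hstep t' t ht' ht
  have h1 : (1 : I) ∈ {t : I | HasSec (fun x => H (t, x))} := by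
    show HasSec (fun x => H (1, x))
    simp only [H.apply_one]
    exact hG
  have h2 : {t : I | HasSec (fun x => H (t, x))} = univ := hclopen.eq_univ ⟨1, h1⟩
  have h3 : (0 : I) ∈ {t : I | HasSec (fun x => H (t, x))} := by
    rw [h2]
    exact mem_univ _
  have h4 : HasSec (fun x => H (0, x)) := h3
  simp only [H.apply_zero] at h4
  exact h4

end

end Pool.Agent.H.MP_02294b_ag.Cov
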