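import Pool.Agent.H.MP_02294b_ag.Cov.Line1

/-! A complex line of a projective space is an essential two-sphere. -/

set_option autoImplicit false
set_option linter.unusedSectionVars false

open Metric Set Filter Topology Complex
open scoped LinearAlgebra.Projectivization

namespace Pool.Agent.H.MP_02294b_ag.Cov

open Pool.Agent.H.MP_5f9601_gt (nrm coe_nrm norm_coe)

section

variable {ι : Type} [Fintype ι]

theorem continuous_nrmW {A B : ℂ → ℂ} (hA : Continuous A) (hB : Continuous B)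
    (h : ∀ z, A z ≠ 0 ∨ B z ≠ 0) : Continuous fun z => nrm (W (A z) (B z)) (W_ne (h z)) := by
  apply Continuous.subtype_mk
  have hW : Continuous fun z => W (A z) (B z) := continuous_W.comp (hA.prodMk hB)
  exact (hW.norm.inv₀ fun z => norm_ne_zero_iff.2 (W_ne (h z))).smul hW

/-- There is no nonvanishing section of the tautological bundle over a line. -/
theorem line_no_sec {p q : ι → ℂ} {i j : ι} (hp : p j ≠ 0) (hq : q j = 0) (hpi : p i = 0)
    (hqi : q i ≠ 0) {φ : S2 → ℙ ℂ (ι → ℂ)}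
    (hφ : ∀ (A B : ℂ) (h : A ≠ 0 ∨ B ≠ 0), ∃ hne : A • p + B • q ≠ 0,
      φ (nrm (W A B) (W_ne h)) = Projectivization.mk ℂ (A • p + B • q) hne) : ¬ HasSec φ := by
  rintro ⟨s, hs, hsφ⟩
  have hval : ∀ (A B : ℂ) (h : A ≠ 0 ∨ B ≠ 0), ∃ c : ℂ, c ≠ 0 ∧
      s (nrm (W A B) (W_ne h)) = c • (A • p + B • q) := by
    intro A B h
    obtain ⟨hne, h1⟩ := hφ A B h
    obtain ⟨hs0, c, hc⟩ := hsφ (nrm (W A B) (W_ne h))
    obtain ⟨a, ha⟩ := Projectivization.exists_smul_eq_mk_rep ℂ (A • p + B • q) hne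
    rw [h1, ← ha] at hc
    refine ⟨c * (a : ℂ), ?_, ?_⟩
    · refine mul_ne_zero ?_ a.ne_zero
      rintro rfl
      exact hs0 (by rw [hc, zero_smul])
    · rw [hc, mul_smul]
      rfl
  have h1 : ∀ z : ℂ, z ≠ 0 ∨ (1 : ℂ) ≠ 0 := fun z => Or.inr one_ne_zero
  have h2 : ∀ z : ℂ, (1 : ℂ) ≠ 0 ∨ (starRingEnd ℂ) z ≠ 0 := fun z => Or.inl one_ne_zero
  obtain ⟨a, ha⟩ : ∃ a : ℂ → ℂ, ∀ z, a z = s (nrm (W z 1) (W_ne (h1 z))) i / q i :=
    ⟨_, fun _ => rfl⟩
  obtain ⟨b, hb⟩ : ∃ b : ℂ → ℂ, ∀ z, b z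
      = s (nrm (W 1 ((starRingEnd ℂ) z)) (W_ne (h2 z))) j / p j := ⟨_, fun _ => rfl⟩
  have hca : Continuous a := by
    have : a = fun z => s (nrm (W z 1) (W_ne (h1 z))) i / q i := funext ha
    rw [this]
    exact ((continuous_apply i).comp (hs.comp (continuous_nrmW continuous_id continuous_const
      h1))).div_const _
  have hcb : Continuous b := by
    have : b = fun z => s (nrm (W 1 ((starRingEnd ℂ) z)) (W_ne (h2 z))) j / p j := funext hb
    rw [this]
    exact ((continuous_apply j).comp (hs.comp (continuous_nrmW continuous_const continuous_conj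
      h2))).div_const _
  have ha0 : ∀ z, a z ≠ 0 ∧ s (nrm (W z 1) (W_ne (h1 z))) = a z • (z • p + (1 : ℂ) • q) := by
    intro z
    obtain ⟨c, hc, h⟩ := hval z 1 (h1 z)
    have h3 : a z = c := by
      rw [ha, h]
      simp only [Pi.smul_apply, Pi.add_apply, smul_eq_mul, hpi]
      field_simp
      ring
    rw [h3]
    exact ⟨hc, h⟩
  have hb0 : ∀ z, b z ≠ 0 ∧ s (nrm (W 1 ((starRingEnd ℂ) z)) (W_ne (h2 z)))
      = b z • ((1 : ℂ) • p + (starRingEnd ℂ) z • q) := by
    intro z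
    obtain ⟨c, hc, h⟩ := hval 1 ((starRingEnd ℂ) z) (h2 z)
    have h3 : b z = c := by
      rw [hb, h]
      simp only [Pi.smul_apply, Pi.add_apply, smul_eq_mul, hq]
      field_simp
      ring
    rw [h3]
    exact ⟨hc, h⟩
  have hcirc : ∀ z : ℂ, ‖z‖ = 1 → b z / a z = z := by
    intro z hz
    have h3 : nrm (W z 1) (W_ne (h1 z)) = nrm (W 1 ((starRingEnd ℂ) z)) (W_ne (h2 z)) := by
      apply nrm_W_eq (h1 z) (h2 z)
      rw [mul_conj, normSq_eq_norm_sq, hz]
      norm_num
    have h4 := (ha0 z).2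
    rw [h3, (hb0 z).2] at h4
    have h5 := congrFun h4 j
    simp only [Pi.smul_apply, Pi.add_apply, smul_eq_mul, hq, mul_zero, add_zero, one_mul] at h5
    have h6 : b z = a z * z := by
      apply mul_right_cancel₀ hp
      rw [h5]
      ring
    rw [h6]
    field_simp [(ha0 z).1]
  obtain ⟨x, hx⟩ := Pool.Schoen.exists_zero (V := ℂ) (fun z => if ‖z‖ ≤ 1 then b z / a z else z)
    (Continuous.if_le (hcb.div hca fun z => (ha0 z).1) continuous_id continuous_norm
      continuous_const fun z hz => hcirc z hz) (by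
    intro z hz
    by_cases h : ‖z‖ ≤ 1
    · simp only [h, if_true]
      exact hcirc z (le_antisymm h hz)
    · simp only [h, if_false])
  by_cases h : ‖x‖ ≤ 1
  · simp only [h, if_true] at hx
    exact div_ne_zero (hb0 x).1 (ha0 x).1 hx
  · simp only [h, if_false] at hx
    rw [hx, norm_zero] at h
    exact h zero_le_one

/-- Homogeneous coordinates of a point of the sphere. -/
theorem sphere_coord (x : S2) : ∃ (A B : ℂ) (h : A ≠ 0 ∨ B ≠ 0), nrm (W A B) (W_ne h) = x := by
  by_cases h2 : (x : R3) 2 = 1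
  · refine ⟨1, 0, Or.inl one_ne_zero, Subtype.ext ?_⟩
    rw [coe_nrm, norm_W]
    have h := normSq_coord x
    rw [h2] at h
    have h0 : (x : R3) 0 = 0 := by nlinarith [sq_nonneg ((x : R3) 0), sq_nonneg ((x : R3) 1)]
    have h1 : (x : R3) 1 = 0 := by nlinarith [sq_nonneg ((x : R3) 0), sq_nonneg ((x : R3) 1)]
    ext i
    fin_cases i
    · simp [W, h0]
    · simp [W, h1]
    · simp [W, h2]
  · have h3 : (x : R3) 2 < 1 := by
      have h := normSq_coord x
      have h4 : (x : R3) 2 ≤ 1 := by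
        nlinarith [sq_nonneg ((x : R3) 0), sq_nonneg ((x : R3) 1), sq_nonneg ((x : R3) 2 - 1)]
      exact lt_of_le_of_ne h4 h2
    have hB : (((1 - (x : R3) 2 : ℝ) : ℂ)) ≠ 0 := ofReal_ne_zero.2 (by linarith)
    refine ⟨(x : R3) 0 + (x : R3) 1 * I, ((1 - (x : R3) 2 : ℝ) : ℂ), Or.inr hB, ?_⟩
    have h5 := base_coord x
    have h6 : (0 : ℝ) < 2 * (1 - (x : R3) 2) := by linarith
    rw [nrm_congr (W_ne (Or.inr hB)) (smul_ne_zero h6.ne' (s2_ne x)) h5,
      nrm_smul (s2_ne x) h6]
    apply Subtype.ext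
    rw [coe_nrm, norm_coe, inv_one, one_smul]

theorem comb_ne {p q : ι → ℂ} {i j : ι} (hp : p j ≠ 0) (hq : q j = 0) (hpi : p i = 0)
    (hqi : q i ≠ 0) {A B : ℂ} (h : A ≠ 0 ∨ B ≠ 0) : A • p + B • q ≠ 0 := by
  intro h0
  rcases h with h | h
  · have := congrFun h0 j
    simp only [Pi.add_apply, Pi.smul_apply, smul_eq_mul, hq, mul_zero, add_zero,
      Pi.zero_apply] at this
    exact mul_ne_zero h hp this
  · have := congrFun h0 i
    simp only [Pi.add_apply, Pi.smul_apply, smul_eq_mul, hpi, mul_zero, zero_add,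
      Pi.zero_apply] at this
    exact mul_ne_zero h hqi this

theorem cross_of_nrm {A B C D : ℂ} (h : A ≠ 0 ∨ B ≠ 0) (h' : C ≠ 0 ∨ D ≠ 0)
    (he : nrm (W A B) (W_ne h) = nrm (W C D) (W_ne h')) : A * D = B * C := by
  have hN1 : 0 < ‖W A B‖ := norm_pos_iff.2 (W_ne h)
  have hN2 : 0 < ‖W C D‖ := norm_pos_iff.2 (W_ne h')
  have h1 : ‖W A B‖⁻¹ • W A B = ‖W C D‖⁻¹ • W C D := congrArg Subtype.val he
  have h3 : W A B = (‖W A B‖ * ‖W C D‖⁻¹) • W C D := by
    have := congrArg (fun v => ‖W A B‖ • v) h1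
    simp only [smul_smul] at this
    rw [mul_inv_cancel₀ hN1.ne', one_smul] at this
    exact this
  have h4 : inner ℝ (W A B) (W C D) = ‖W A B‖ * ‖W C D‖ := by
    rw [h3, inner_smul_left, real_inner_self_eq_norm_sq, ← h3]
    simp
    field_simp
  have h5 := inner_W A B C D
  rw [h4, norm_W, norm_W] at h5
  have h6 : normSq (A * (starRingEnd ℂ) C + B * (starRingEnd ℂ) D) + normSq (A * D - B * C)
      = (normSq A + normSq B) * (normSq C + normSq D) := by
    simp only [normSq_apply, add_re, add_im, sub_re, sub_im, mul_re, mul_im, conj_re, conj_im]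
    ring
  have h7 : normSq (A * D - B * C) = 0 := by linarith
  exact sub_eq_zero.1 (normSq_eq_zero.1 h7)

theorem mk_eq_of_cross {p q : ι → ℂ} {A B C D : ℂ} (h : A ≠ 0 ∨ B ≠ 0) (h' : C ≠ 0 ∨ D ≠ 0)
    (he : A * D = B * C) (h1 : A • p + B • q ≠ 0) (h2 : C • p + D • q ≠ 0) :
    Projectivization.mk ℂ (A • p + B • q) h1 = Projectivization.mk ℂ (C • p + D • q) h2 := by
  rw [Projectivization.mk_eq_mk_iff']
  by_cases hA : A = 0
  · have hB : B ≠ 0 := h.resolve_left (fun h0 => h0 hA)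
    have hC : C = 0 := by
      have : B * C = 0 := by rw [← he, hA, zero_mul]
      exact (mul_eq_zero.1 this).resolve_left hB
    have hD : D ≠ 0 := h'.resolve_left (fun h0 => h0 hC)
    refine ⟨B / D, ?_⟩
    simp only [hA, hC, zero_smul, zero_add, smul_smul, div_mul_cancel₀ _ hD]
  · have hC : C ≠ 0 := by
      intro h0
      rw [h0, mul_zero] at he
      have hD : D = 0 := (mul_eq_zero.1 he).resolve_left hA
      rcases h' with h' | h'
      · exact h' h0
      · exact h' hD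
    refine ⟨A / C, ?_⟩
    rw [smul_add, smul_smul, smul_smul, div_mul_cancel₀ _ hC]
    congr 2
    field_simp
    linear_combination he

theorem continuousOn_mk {X : Type*} [TopologicalSpace X] {F : X → ℙ ℂ (ι → ℂ)} {v : X → ι → ℂ}
    (hv : Continuous v) {U : Set X}
    (h : ∀ x ∈ U, ∃ hne : v x ≠ 0, F x = Projectivization.mk ℂ (v x) hne) : ContinuousOn F U := by
  rw [continuousOn_iff_continuous_domRestrict]
  have hne : ∀ x : U, v x ≠ 0 := fun x => (h x x.2).1
  have : U.domRestrict F = (Projectivization.mk' ℂ : {v : ι → ℂ // v ≠ 0} → ℙ ℂ (ι → ℂ)) ∘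
      fun x : U => ⟨v x, hne x⟩ := by
    funext x
    exact (h x x.2).2
  rw [this]
  exact continuous_mk'.comp (Continuous.subtype_mk (hv.comp continuous_subtype_val) _)

theorem north_coord (x : S2) :
    W ((1 + (x : R3) 2 : ℝ)) ((x : R3) 0 - (x : R3) 1 * I) = (2 * (1 + (x : R3) 2)) • (x : R3) := by
  have h := normSq_coord x
  ext i
  fin_cases i
  · simp [W]
    ring
  · simp [W]
    ring
  · simp [W, normSq_apply]
    nlinarith

theorem continuous_coord (i : Fin 3) : Continuous fun x : S2 => ((x : R3) i : ℝ) :=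
  (EuclideanSpace.proj (𝕜 := ℝ) i).continuous.comp continuous_subtype_val

/-- The inclusion of a line of a projective space, as a map from the two-sphere. -/
theorem exists_line {p q : ι → ℂ} {i j : ι} (hp : p j ≠ 0) (hq : q j = 0) (hpi : p i = 0)
    (hqi : q i ≠ 0) : ∃ φ : C(S2, ℙ ℂ (ι → ℂ)), ¬ φ.Nullhomotopic ∧
      ∀ (A B : ℂ) (h : A ≠ 0 ∨ B ≠ 0), φ (nrm (W A B) (W_ne h))
        = Projectivization.mk ℂ (A • p + B • q) (comb_ne hp hq hpi hqi h) := by
  choose A B hAB hx using sphere_coord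
  obtain ⟨φ, hφ⟩ : ∃ φ : S2 → ℙ ℂ (ι → ℂ), ∀ x, φ x
      = Projectivization.mk ℂ (A x • p + B x • q) (comb_ne hp hq hpi hqi (hAB x)) :=
    ⟨_, fun _ => rfl⟩
  have hval : ∀ (C D : ℂ) (h : C ≠ 0 ∨ D ≠ 0), φ (nrm (W C D) (W_ne h))
      = Projectivization.mk ℂ (C • p + D • q) (comb_ne hp hq hpi hqi h) := by
    intro C D h
    rw [hφ]
    exact mk_eq_of_cross (hAB _) h (cross_of_nrm (hAB _) h (hx _)) _ _
  have hval' : ∀ (x : S2) (C D : ℂ) (r : ℝ), 0 < r → (C ≠ 0 ∨ D ≠ 0) → W C D = r • (x : R3) →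
      ∃ hne : C • p + D • q ≠ 0, φ x = Projectivization.mk ℂ (C • p + D • q) hne := by
    intro x C D r hr h hW
    refine ⟨comb_ne hp hq hpi hqi h, ?_⟩
    rw [← hval C D h]
    congr 1
    rw [nrm_congr (W_ne h) (smul_ne_zero hr.ne' (s2_ne x)) hW, nrm_smul (s2_ne x) hr]
    apply Subtype.ext
    rw [coe_nrm, norm_coe, inv_one, one_smul]
  have hle : ∀ x : S2, -1 ≤ (x : R3) 2 ∧ (x : R3) 2 ≤ 1 := by
    intro x
    have h := normSq_coord x
    constructor
    · nlinarith [sq_nonneg ((x : R3) 0), sq_nonneg ((x : R3) 1), sq_nonneg ((x : R3) 2 + 1)]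
    · nlinarith [sq_nonneg ((x : R3) 0), sq_nonneg ((x : R3) 1), sq_nonneg ((x : R3) 2 - 1)]
  have hc0 := continuous_coord 0
  have hc1 := continuous_coord 1
  have hc2 := continuous_coord 2
  have hcont : Continuous φ := by
    rw [continuous_iff_continuousAt]
    intro x
    by_cases h2 : (x : R3) 2 = 1
    · have hopen : IsOpen {y : S2 | ((y : R3) 2 : ℝ) ≠ -1} := isOpen_ne.preimage hc2
      have hon : ContinuousOn φ {y : S2 | ((y : R3) 2 : ℝ) ≠ -1} := by
        refine continuousOn_mk (v := fun y : S2 => (((1 + (y : R3) 2 : ℝ) : ℂ)) • p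
          + (((y : R3) 0 : ℂ) - ((y : R3) 1 : ℂ) * I) • q) ?_ fun y hy => ?_
        · exact ((continuous_ofReal.comp (continuous_const.add hc2)).smul continuous_const).add
            (((continuous_ofReal.comp hc0).sub
              ((continuous_ofReal.comp hc1).mul continuous_const)).smul continuous_const)
        · have h3 : 0 < 2 * (1 + (y : R3) 2) := by
            have h4 := (hle y).1
            have h5 : (y : R3) 2 ≠ -1 := hy
            have h6 := lt_of_le_of_ne h4 (Ne.symm h5)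
            linarith
          exact hval' y _ _ _ h3 (Or.inl (ofReal_ne_zero.2 (by linarith))) (north_coord y)
      exact hon.continuousAt (hopen.mem_nhds (by
        show (x : R3) 2 ≠ -1
        rw [h2]
        norm_num))
    · have hopen : IsOpen {y : S2 | ((y : R3) 2 : ℝ) ≠ 1} := isOpen_ne.preimage hc2
      have hon : ContinuousOn φ {y : S2 | ((y : R3) 2 : ℝ) ≠ 1} := by
        refine continuousOn_mk (v := fun y : S2 => (((y : R3) 0 : ℂ) + ((y : R3) 1 : ℂ) * I) • p
          + (((1 - (y : R3) 2 : ℝ) : ℂ)) • q) ?_ fun y hy => ?_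
        · exact (((continuous_ofReal.comp hc0).add
            ((continuous_ofReal.comp hc1).mul continuous_const)).smul continuous_const).add
            ((continuous_ofReal.comp (continuous_const.sub hc2)).smul continuous_const)
        · have h3 : 0 < 2 * (1 - (y : R3) 2) := by
            have h4 := (hle y).2
            have h5 : (y : R3) 2 ≠ 1 := hy
            have h6 := lt_of_le_of_ne h4 h5
            linarith
          exact hval' y _ _ _ h3 (Or.inr (ofReal_ne_zero.2 (by linarith))) (base_coord y)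
      exact hon.continuousAt (hopen.mem_nhds h2)
  refine ⟨⟨φ, hcont⟩, ?_, hval⟩
  rintro ⟨c, hc⟩
  refine line_no_sec (φ := φ) hp hq hpi hqi (fun C D h => ⟨_, hval C D h⟩) ?_
  exact hasSec_of_homotopic (F := ⟨φ, hcont⟩) hc (hasSec_const c)

end

end Pool.Agent.H.MP_02294b_ag.Cov
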