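import Pool.Agent.H.MP_02294b_ag.Cov.CutThm

/-! The Hirzebruch-Kummer covering as a topological space; spaces with an essential two-sphere. -/

set_option autoImplicit false

namespace Pool.Agent.H.MP_02294b_ag.Cov

/-- The Hirzebruch-Kummer covering `HK_C(n)` as a topological space (with the subspace topology). -/
def HKSpace {ι : Type} [Fintype ι] (L : ι → Fin 3 → ℂ) (n : ℕ) : Type := HK L n

instance {ι : Type} [Fintype ι] (L : ι → Fin 3 → ℂ) (n : ℕ) : TopologicalSpace (HKSpace L n) :=
  inferInstanceAs (TopologicalSpace (HK L n))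

/-- Some continuous map of the two-sphere to the space is not null-homotopic. -/
def HasEssentialSphere (X : Type) [TopologicalSpace X] : Prop :=
  ∃ f : C(Metric.sphere (0 : EuclideanSpace ℝ (Fin 3)) 1, X), ¬ f.Nullhomotopic

theorem cut_space {ι : Type} [Fintype ι] (L : ι → Fin 3 → ℂ) (n : ℕ) (h2 : 2 ≤ n)
    (hL : IsConfig L) (hF : HasCut L) :
    HasEssentialSphere (HKSpace L n) ∧ ¬ IsKPiOne (HKSpace L n) :=
  cut_not_kPiOne L n h2 hL hF

end Pool.Agent.H.MP_02294b_ag.Cov
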