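import Pool.Agent.H.MP_02294b_ag.Cov.Line2
import Pool.Agent.H.MP_02294b_ag.Cov.Space

/-! The Hirzebruch-Kummer coverings of near-pencils. -/

set_option autoImplicit false
set_option linter.unusedSectionVars false

open Metric Set Filter Topology Complex
open scoped LinearAlgebra.Projectivization

namespace Pool.Agent.H.MP_02294b_ag.Cov

open Pool.Agent.H.MP_5f9601_gt (nrm coe_nrm norm_coe)

section

variable {ι : Type} [Fintype ι]

theorem exists_generic_vec {L : ι → Fin 3 → ℂ} (hL : IsConfig L) :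
    ∃ x : Fin 3 → ℂ, ∀ i, lin L i x ≠ 0 := by
  classical
  have h := Module.Dual.exists_forall_ne_zero_of_forall_exists (K := ℂ) (M := Fin 3 → ℂ)
    (fun i : ι => (LinearMap.proj i).comp (linMap L)) (fun i => ?_)
  · obtain ⟨x, hx⟩ := h
    exact ⟨x, fun i => hx i⟩
  · by_contra hcon
    push Not at hcon
    have hLi : L i = 0 := by
      funext b
      have h1 : lin L i (Pi.single b 1) = 0 := hcon (Pi.single b 1)
      simpa [lin, Pi.single_apply] using h1
    obtain ⟨j, hj⟩ : ∃ j, j ≠ i :=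
      Fintype.exists_ne_of_one_lt_card (by have := hL.three; omega) i
    have h2 := hL.indep i j hj.symm
    rw [hLi] at h2
    have h3 := h2.ne_zero 0
    exact h3 (by simp)

theorem near_pencil_sphere {L : ι → Fin 3 → ℂ} {n : ℕ} (hn : 1 ≤ n) (hL : IsConfig L)
    {o : Fin 3 → ℂ} {j : ι} (hjo : lin L j o ≠ 0) (hio : ∀ i, i ≠ j → lin L i o = 0) :
    ∃ f : C(S2, HK L n), ¬ f.Nullhomotopic := by
  classical
  have hn0 : n ≠ 0 := by omega
  have ho : o ≠ 0 := by
    rintro rfl
    exact hjo (lin_zero L j)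
  obtain ⟨x, hx⟩ := exists_generic_vec hL
  obtain ⟨x0, hx0⟩ : ∃ x0, x0 = x + (-(lin L j x / lin L j o)) • o := ⟨_, rfl⟩
  have hjx : lin L j x0 = 0 := by
    rw [hx0, lin_add, lin_smul]
    field_simp
    ring
  have hix : ∀ i, i ≠ j → lin L i x0 ≠ 0 := by
    intro i hij
    rw [hx0, lin_add, lin_smul, hio i hij, mul_zero, add_zero]
    exact hx i
  obtain ⟨i0, hi0⟩ : ∃ i0, i0 ≠ j :=
    Fintype.exists_ne_of_one_lt_card (by have := hL.three; omega) j
  obtain ⟨p, hp⟩ : ∃ p : ι → ℂ, ∀ i, p i = if i = j then pt n (lin L j o) else 0 :=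
    ⟨_, fun _ => rfl⟩
  obtain ⟨q, hq⟩ : ∃ q : ι → ℂ, ∀ i, q i = if i = j then 0 else pt n (lin L i x0) :=
    ⟨_, fun _ => rfl⟩
  have hpj : p j = pt n (lin L j o) := by simp [hp]
  have hpi : ∀ i, i ≠ j → p i = 0 := fun i h => by simp [hp, h]
  have hqj : q j = 0 := by simp [hq]
  have hqi : ∀ i, i ≠ j → q i = pt n (lin L i x0) := fun i h => by simp [hq, h]
  have hpj0 : p j ≠ 0 := by
    rw [hpj]
    exact pt_ne n hn0 hjo
  have hqi0 : ∀ i, i ≠ j → q i ≠ 0 := fun i h => by
    rw [hqi i h]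
    exact pt_ne n hn0 (hix i h)
  obtain ⟨φ, hφn, hφ⟩ := exists_line hpj0 hqj (hpi i0 hi0) (hqi0 i0 hi0)
  -- the lines through a multiple point
  have hmult : ∀ P : MultPt L, (∀ i : Through L P.1, i.1 ≠ j) ∧
      ((fun i : Through L P.1 => q i.1) ≠ 0) := by
    intro P
    have h3 : 3 ≤ {i | lin L i P.1.rep = 0}.ncard := P.2
    obtain ⟨a, b, c, ha, hb, hc, hab, hac, hbc⟩ := (Set.two_lt_ncard_iff (Set.toFinite _)).1 h3
    have hPo : ∃ r : ℂ, P.1.rep = r • o := by
      have key : ∀ a b : ι, a ≠ b → a ≠ j → b ≠ j → lin L a P.1.rep = 0 →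
          lin L b P.1.rep = 0 → ∃ r : ℂ, P.1.rep = r • o := fun a b hab haj hbj ha hb =>
        common_zero L (hL.indep a b hab) ho (hio a haj) (hio b hbj) ha hb
      by_cases h1 : a = j
      · subst h1
        exact key b c hbc (Ne.symm hab) (Ne.symm hac) hb hc
      · by_cases h2 : b = j
        · subst h2
          exact key a c hac h1 (Ne.symm hbc) ha hc
        · exact key a b hab h1 h2 ha hb
    obtain ⟨r, hr⟩ := hPo
    have hr0 : r ≠ 0 := by
      rintro rfl
      exact P.1.rep_nonzero (by rw [hr, zero_smul])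
    have hne : ∀ i : Through L P.1, i.1 ≠ j := by
      rintro ⟨i, hi⟩ h
      have h' : i = j := h
      subst h'
      rw [hr, lin_smul] at hi
      exact mul_ne_zero hr0 hjo hi
    refine ⟨hne, fun h0 => ?_⟩
    have h1 := congrFun h0 ⟨a, ha⟩
    exact hqi0 a (hne ⟨a, ha⟩) h1
  obtain ⟨f0, hf0⟩ : ∃ f0 : S2 → Ambient L, ∀ y, f0 y
      = (φ y, fun P => Projectivization.mk ℂ (fun i : Through L P.1 => q i.1) (hmult P).2) :=
    ⟨_, fun _ => rfl⟩
  have hf0c : Continuous f0 := by
    have : f0 = fun y => (φ y, fun P => Projectivization.mk ℂ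
      (fun i : Through L P.1 => q i.1) (hmult P).2) := funext hf0
    rw [this]
    exact φ.continuous.prodMk continuous_const
  have hopen : ∀ (A B : ℂ) (hA : A ≠ 0) (hB : B ≠ 0),
      f0 (nrm (W A B) (W_ne (Or.inl hA))) ∈ HKopen L n := by
    intro A B hA hB
    have hvj : (A • p + B • q) j = A * pt n (lin L j o) := by
      simp [hpj, hqj]
    have hvi : ∀ i, i ≠ j → (A • p + B • q) i = B * q i := fun i h => by
      simp [hpi i h]
    refine ⟨A • p + B • q, fun i => ?_, ⟨A ^ n • o + B ^ n • x0, fun i => ?_⟩, ?_, fun P => ?_⟩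
    · by_cases h : i = j
      · rw [h, hvj]
        exact mul_ne_zero hA (pt_ne n hn0 hjo)
      · rw [hvi i h]
        exact mul_ne_zero hB (hqi0 i h)
    · rw [lin_add, lin_smul, lin_smul]
      by_cases h : i = j
      · rw [h, hvj, hjx, mul_zero, add_zero, mul_pow, pt_pow n hn0]
      · rw [hvi i h, hio i h, mul_zero, zero_add, mul_pow, hqi i h, pt_pow n hn0]
    · refine ⟨comb_ne hpj0 hqj (hpi i0 hi0) (hqi0 i0 hi0) (Or.inl hA), ?_⟩
      rw [hf0]
      exact hφ A B (Or.inl hA)
    · have hres : (fun i : Through L P.1 => (A • p + B • q) i.1)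
          = B • fun i : Through L P.1 => q i.1 := by
        funext i
        exact hvi i.1 ((hmult P).1 i)
      have hne : (fun i : Through L P.1 => (A • p + B • q) i.1) ≠ 0 := by
        rw [hres]
        exact smul_ne_zero hB (hmult P).2
      refine ⟨hne, ?_⟩
      rw [hf0]
      show Projectivization.mk ℂ (fun i : Through L P.1 => q i.1) (hmult P).2 = _
      rw [Projectivization.mk_eq_mk_iff']
      exact ⟨B⁻¹, by rw [hres, smul_smul, inv_mul_cancel₀ hB, one_smul]⟩
  have hmem : ∀ y, f0 y ∈ HK L n := by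
    have hclosed : IsClosed (f0 ⁻¹' HK L n) := isClosed_closure.preimage hf0c
    have hdense : Dense {y : S2 | inner ℝ (EuclideanSpace.single (0 : Fin 3) (1 : ℝ))
        (y : R3) ≠ 0} := dense_inner _ (by simp)
    have hsub : {y : S2 | inner ℝ (EuclideanSpace.single (0 : Fin 3) (1 : ℝ)) (y : R3) ≠ 0}
        ⊆ f0 ⁻¹' HK L n := by
      intro y hy
      have hy0 : (y : R3) 0 ≠ 0 := by
        simpa [EuclideanSpace.inner_single_left] using hy
      have hA : ((y : R3) 0 : ℂ) + ((y : R3) 1 : ℂ) * I ≠ 0 := by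
        intro h0
        have := congrArg Complex.re h0
        simp at this
        exact hy0 this
      have hlt : (y : R3) 2 < 1 := by
        have h := normSq_coord y
        have h4 : 0 < (y : R3) 0 ^ 2 := by positivity
        by_contra hcon
        push Not at hcon
        nlinarith [sq_nonneg ((y : R3) 1)]
      have hB : (((1 - (y : R3) 2 : ℝ) : ℂ)) ≠ 0 := ofReal_ne_zero.2 (by linarith)
      have h6 : (0 : ℝ) < 2 * (1 - (y : R3) 2) := by linarith
      have hyW : nrm (W (((y : R3) 0 : ℂ) + ((y : R3) 1 : ℂ) * I) (((1 - (y : R3) 2 : ℝ) : ℂ)))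
          (W_ne (Or.inl hA)) = y := by
        rw [nrm_congr (W_ne (Or.inl hA)) (smul_ne_zero h6.ne' (s2_ne y)) (base_coord y),
          nrm_smul (s2_ne y) h6]
        apply Subtype.ext
        rw [coe_nrm, norm_coe, inv_one, one_smul]
      show f0 y ∈ HK L n
      rw [← hyW]
      exact subset_closure (hopen _ _ hA hB)
    have huniv : f0 ⁻¹' HK L n = univ := by
      rw [eq_univ_iff_forall]
      intro y
      have h1 : y ∈ closure {y : S2 | inner ℝ (EuclideanSpace.single (0 : Fin 3) (1 : ℝ))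
        (y : R3) ≠ 0} := hdense y
      exact (closure_minimal hsub hclosed) h1
    intro y
    have : y ∈ f0 ⁻¹' HK L n := by
      rw [huniv]
      exact mem_univ _
    exact this
  refine ⟨⟨fun y => ⟨f0 y, hmem y⟩, Continuous.subtype_mk hf0c _⟩, fun hnull => hφn ?_⟩
  have h2 := hnull.comp_right (⟨fun z : HK L n => z.1.1,
    continuous_fst.comp continuous_subtype_val⟩ : C(HK L n, ℙ ℂ (ι → ℂ)))
  convert h2 using 1
  ext y
  show φ y = (f0 y).1
  rw [hf0]

/-- The Hirzebruch-Kummer coverings of a near-pencil are not `K(π, 1)`. -/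
theorem near_pencil_space {L : ι → Fin 3 → ℂ} {n : ℕ} (hn : 1 ≤ n) (hL : IsConfig L)
    {o : Fin 3 → ℂ} {j : ι} (hjo : lin L j o ≠ 0) (hio : ∀ i, i ≠ j → lin L i o = 0) :
    HasEssentialSphere (HKSpace L n) ∧ ¬ IsKPiOne (HKSpace L n) := by
  obtain ⟨f, hf⟩ := near_pencil_sphere hn hL hjo hio
  refine ⟨⟨f, hf⟩, ?_⟩
  rintro ⟨E, tE, q, hq, hs, hE⟩
  exact no_contractible_cover (X := HK L n) f hf q hq hs hE

end

end Pool.Agent.H.MP_02294b_ag.Cov
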