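import Pool.Agent.H.MP_02294b_ag.Cov.Deg

/-! Roots and points of the sphere. -/

set_option autoImplicit false

open Metric Set Filter Topology Complex

namespace Pool.Agent.H.MP_02294b_ag.Cov

open Pool.Agent.H.MP_5f9601_gt (nrm coe_nrm norm_coe homotopicRel_of_not_antipodal)

section Roots

variable (n : ℕ)

/-- the principal `n`-th root -/
noncomputable def pt (z : ℂ) : ℂ := z ^ ((n : ℂ)⁻¹)

theorem pt_pow (hn : n ≠ 0) (z : ℂ) : pt n z ^ n = z := cpow_nat_inv_pow z hn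

theorem pt_ofReal {t : ℝ} (ht : 0 ≤ t) : pt n (t : ℂ) = ((t ^ ((n : ℝ)⁻¹) : ℝ) : ℂ) := by
  rw [pt, ofReal_cpow ht]
  push_cast
  rfl

theorem pt_ne {z : ℂ} (hn : n ≠ 0) (hz : z ≠ 0) : pt n z ≠ 0 := by
  intro h
  apply hz
  rw [← pt_pow n hn z, h, zero_pow hn]

theorem continuousAt_pt {z : ℂ} (hz : 0 < z.re) : ContinuousAt (pt n) z := by
  have : z ∈ slitPlane := Or.inl hz
  exact continuousAt_cpow_const this

end Roots

theorem s2_ne (x : S2) : (x : R3) ≠ 0 := by
  intro h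
  have := norm_coe x
  rw [h, norm_zero] at this
  exact zero_ne_one this

theorem normSq_coord (x : S2) : (x : R3) 0 ^ 2 + (x : R3) 1 ^ 2 + (x : R3) 2 ^ 2 = 1 := by
  have h := norm_coe x
  rw [EuclideanSpace.norm_eq, Fin.sum_univ_three] at h
  have h1 := (Real.sqrt_eq_one).1 h
  simpa using h1

theorem base_coord (x : S2) :
    W ((x : R3) 0 + (x : R3) 1 * I) ((1 - (x : R3) 2 : ℝ)) = (2 * (1 - (x : R3) 2)) • (x : R3) := by
  have h := normSq_coord x
  ext i
  fin_cases i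
  · simp [W]
    ring
  · simp [W]
    ring
  · simp [W, normSq_apply]
    nlinarith

end Pool.Agent.H.MP_02294b_ag.Cov
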