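import Pool.Agent.H.MP_02294b_ag.Cov.Defs
import Pool.Agent.H.MP_02294b_ag.Cov.Sph

/-! The vanishing sphere in the Hirzebruch-Kummer covering. -/

set_option autoImplicit false

open Metric Set Filter Topology Complex
open scoped LinearAlgebra.Projectivization

namespace Pool.Agent.H.MP_02294b_ag.Cov

open Pool.Agent.H.MP_5f9601_gt (nrm coe_nrm norm_coe)

section Proj

variable {V : Type*} [AddCommGroup V] [Module ℂ V] [TopologicalSpace V]

theorem continuous_mk' : Continuous (Projectivization.mk' ℂ : {v : V // v ≠ 0} → ℙ ℂ V) :=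
  continuous_quotient_mk'

theorem isOpenQuotientMap_mk' [ContinuousConstSMul ℂ V] :
    IsOpenQuotientMap (Projectivization.mk' ℂ : {v : V // v ≠ 0} → ℙ ℂ V) where
  surjective := fun p => ⟨⟨p.rep, p.rep_nonzero⟩, p.mk_rep⟩
  continuous := continuous_mk'
  isOpenMap := by
    intro U hU
    have hq : IsQuotientMap (Projectivization.mk' ℂ : {v : V // v ≠ 0} → ℙ ℂ V) :=
      isQuotientMap_quotient_mk'
    rw [← hq.isOpen_preimage]
    have : (Projectivization.mk' ℂ : {v : V // v ≠ 0} → ℙ ℂ V) ⁻¹'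
        ((Projectivization.mk' ℂ : {v : V // v ≠ 0} → ℙ ℂ V) '' U)
        = ⋃ a : ℂˣ, (fun v : {v : V // v ≠ 0} =>
            (⟨(a : ℂ) • v.1, smul_ne_zero a.ne_zero v.2⟩ : {v : V // v ≠ 0})) ⁻¹' U := by
      ext v
      simp only [mem_preimage, mem_image, mem_iUnion, Projectivization.mk'_eq_mk]
      constructor
      · rintro ⟨w, hw, h⟩
        obtain ⟨a, ha⟩ := (Projectivization.mk_eq_mk_iff ℂ w.1 v.1 w.2 v.2).1 h
        refine ⟨a, ?_⟩
        convert hw using 1
        exact Subtype.ext ha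
      · rintro ⟨a, ha⟩
        refine ⟨_, ha, ?_⟩
        exact (Projectivization.mk_eq_mk_iff ℂ _ _ _ _).2 ⟨a, rfl⟩
    rw [this]
    refine isOpen_iUnion fun a => hU.preimage ?_
    exact Continuous.subtype_mk (continuous_subtype_val.const_smul _) _

end Proj

section

variable {ι : Type} [Fintype ι] (L : ι → Fin 3 → ℂ)

/-- the linear map given by all the forms -/
noncomputable def linMap : (Fin 3 → ℂ) →ₗ[ℂ] (ι → ℂ) where
  toFun x i := lin L i x
  map_add' x y := by
    funext i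
    simp only [lin, Pi.add_apply, mul_add, Finset.sum_add_distrib]
  map_smul' c x := by
    funext i
    simp only [lin, Pi.smul_apply, smul_eq_mul, RingHom.id_apply, Finset.mul_sum]
    exact Finset.sum_congr rfl fun j _ => by ring

theorem lin_add (i : ι) (x y : Fin 3 → ℂ) : lin L i (x + y) = lin L i x + lin L i y :=
  congrFun ((linMap L).map_add x y) i

theorem lin_smul (i : ι) (c : ℂ) (x : Fin 3 → ℂ) : lin L i (c • x) = c * lin L i x :=
  congrFun ((linMap L).map_smul c x) i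

theorem lin_sum (i : ι) {κ : Type*} (s : Finset κ) (c : κ → ℂ) (P : κ → Fin 3 → ℂ) :
    lin L i (∑ a ∈ s, c a • P a) = ∑ a ∈ s, c a * lin L i (P a) := by
  have h := congrFun (map_sum (linMap L) (fun a => c a • P a) s) i
  rw [Finset.sum_apply] at h
  calc lin L i (∑ a ∈ s, c a • P a) = (linMap L (∑ a ∈ s, c a • P a)) i := rfl
    _ = _ := h
    _ = _ := Finset.sum_congr rfl fun a _ => lin_smul L i (c a) (P a)

/-- vectors whose powers lie in the image of the forms -/
def Pow (n : ℕ) : Set (ι → ℂ) := {v | ∃ x, ∀ i, v i ^ n = lin L i x}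

theorem isClosed_Pow (n : ℕ) : IsClosed (Pow L n) := by
  have h1 : IsClosed ((LinearMap.range (linMap L) : Submodule ℂ (ι → ℂ)) : Set (ι → ℂ)) :=
    Submodule.closed_of_finiteDimensional _
  have h2 : Pow L n = (fun v : ι → ℂ => fun i => v i ^ n) ⁻¹'
      ((LinearMap.range (linMap L) : Submodule ℂ (ι → ℂ)) : Set (ι → ℂ)) := by
    ext v
    constructor
    · rintro ⟨x, hx⟩
      exact ⟨x, by
        funext i
        exact (hx i).symm⟩
    · rintro ⟨x, hx⟩
      exact ⟨x, fun i => (congrFun hx i).symm⟩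
  rw [h2]
  exact h1.preimage (by fun_prop)

theorem smul_mem_Pow {n : ℕ} {v : ι → ℂ} (hv : v ∈ Pow L n) (c : ℂ) : c • v ∈ Pow L n := by
  obtain ⟨x, hx⟩ := hv
  refine ⟨c ^ n • x, fun i => ?_⟩
  rw [lin_smul, ← hx i, Pi.smul_apply, smul_eq_mul, mul_pow]

/-- the Kummer covering itself -/
def XP (n : ℕ) : Set (ℙ ℂ (ι → ℂ)) := {y | y.rep ∈ Pow L n}

theorem mk_mem_XP {n : ℕ} {v : ι → ℂ} (h : v ≠ 0) :
    Projectivization.mk ℂ v h ∈ XP L n ↔ v ∈ Pow L n := by
  obtain ⟨a, ha⟩ := Projectivization.exists_smul_eq_mk_rep ℂ v h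
  constructor
  · intro h1
    have h2 : (Projectivization.mk ℂ v h).rep ∈ Pow L n := h1
    rw [← ha] at h2
    have h3 := smul_mem_Pow L h2 ((a : ℂ)⁻¹)
    have h4 : ((a : ℂ)⁻¹) • (a • v) = v := by
      rw [Units.smul_def, smul_smul, inv_mul_cancel₀ a.ne_zero, one_smul]
    rwa [h4] at h3
  · intro h1
    show (Projectivization.mk ℂ v h).rep ∈ Pow L n
    rw [← ha]
    exact smul_mem_Pow L h1 (a : ℂ)

theorem isClosed_XP (n : ℕ) : IsClosed (XP L n) := by
  have hq : IsQuotientMap (Projectivization.mk' ℂ : {v : ι → ℂ // v ≠ 0} → ℙ ℂ (ι → ℂ)) :=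
    isQuotientMap_quotient_mk'
  rw [← hq.isClosed_preimage]
  have : (Projectivization.mk' ℂ : {v : ι → ℂ // v ≠ 0} → ℙ ℂ (ι → ℂ)) ⁻¹' (XP L n)
      = Subtype.val ⁻¹' (Pow L n) := by
    ext v
    simp only [mem_preimage, Projectivization.mk'_eq_mk]
    exact mk_mem_XP L v.2
  rw [this]
  exact (isClosed_Pow L n).preimage continuous_subtype_val

theorem HK_subset (n : ℕ) : HK L n ⊆ {q | q.1 ∈ XP L n} := by
  refine closure_minimal ?_ ((isClosed_XP L n).preimage continuous_fst)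
  rintro q ⟨v, -, hx, ⟨h, hq⟩, -⟩
  show q.1 ∈ XP L n
  rw [hq, mk_mem_XP]
  exact hx

end

end Pool.Agent.H.MP_02294b_ag.Cov
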