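import Pool.Agent.H.MP_02294b_ag.Cov.Seven

/-! Real configurations with one point of high multiplicity: the chambers are triangles. -/

set_option autoImplicit false
set_option linter.unusedSectionVars false

open Set Filter Topology Matrix
open scoped LinearAlgebra.Projectivization

namespace Pool.Agent.H.MP_02294b_ag.Cov

section

variable {ι : Type} [Fintype ι]

/-- A wall of a chamber does not meet three other walls in points of the closed chamber. -/
theorem not_three_adjacent (A : ι → Fin 3 → ℝ) (hA : IsConfig (cx A)) {x : Fin 3 → ℝ}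
    (hx : ∀ i, rlin A i x ≠ 0) {w : Fin 4 → ι} (hw : Function.Injective w)
    (hwall : ∀ a, IsWall A x (w a))
    (hP : ∀ b : Fin 3, ∃ p, p ≠ 0 ∧ rlin A (w 3) p = 0 ∧ rlin A (w b.castSucc) p = 0 ∧
      ∀ i, 0 ≤ rlin A i x * rlin A i p) : False := by
  classical
  have hnoc : ∀ y : Fin 3 → ℝ, (∀ i, rlin A i y = 0) → y = 0 := by
    intro y hy
    by_contra hcon
    obtain ⟨i, hi⟩ := exists_not_through hA hcon
    exact hi (hy i)
  choose P hP0 hP3 hPb hPpos using hP
  have hA3 : A (w 3) ≠ 0 := by
    intro h0
    apply hx (w 3)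
    simp [rlin, h0]
  obtain ⟨c, hc, hrel⟩ := exists_rel P hA3 (fun a => by
    have := hP3 a
    rw [rlin] at this
    rw [← this]
    exact Finset.sum_congr rfl fun j _ => mul_comm _ _)
  let φ : (Fin 3 → ℝ) →ₗ[ℝ] ℝ :=
    { toFun := fun v => ∑ i, rlin A i x * rlin A i v
      map_add' := fun v v' => by
        simp only [rlin_add, mul_add, Finset.sum_add_distrib]
      map_smul' := fun r v => by
        simp only [rlin_smul, RingHom.id_apply, smul_eq_mul, Finset.mul_sum]
        exact Finset.sum_congr rfl fun j _ => by ring }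
  have hφ : ∀ a, 0 < φ (P a) := by
    intro a
    obtain ⟨i, hi⟩ : ∃ i, rlin A i (P a) ≠ 0 := by
      by_contra hcon
      push Not at hcon
      exact hP0 a (hnoc _ hcon)
    exact Finset.sum_pos' (fun i _ => hPpos a i)
      ⟨i, Finset.mem_univ _, lt_of_le_of_ne (hPpos a i) (Ne.symm (mul_ne_zero (hx i) hi))⟩
  obtain ⟨i, j, k, hij, hik, -, α, β, hα, hβ, hcomb⟩ := exists_comb P c hc hrel φ hφ
  have hval : α * rlin A (w i.castSucc) (P j) + β * rlin A (w i.castSucc) (P k) = 0 := by
    rw [← rlin_smul, ← rlin_smul, ← rlin_add, ← hcomb]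
    exact hPb i
  have hval' : α * (rlin A (w i.castSucc) x * rlin A (w i.castSucc) (P j))
      + β * (rlin A (w i.castSucc) x * rlin A (w i.castSucc) (P k)) = 0 := by
    linear_combination (rlin A (w i.castSucc) x) * hval
  have m1 := mul_nonneg hα (hPpos j (w i.castSucc))
  have m2 := mul_nonneg hβ (hPpos k (w i.castSucc))
  have e1 : α * (rlin A (w i.castSucc) x * rlin A (w i.castSucc) (P j)) = 0 := by linarith
  have e2 : β * (rlin A (w i.castSucc) x * rlin A (w i.castSucc) (P k)) = 0 := by linarith
  -- three concurrent walls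
  have hfin : ∀ l : Fin 3, i ≠ l → rlin A (w i.castSucc) (P l) = 0 → False := by
    intro l hil hl
    refine walls_not_concurrent A hx (w := ![w 3, w l.castSucc, w i.castSucc]) ?_ ?_ (hP0 l) ?_
    · have n1 : w 3 ≠ w l.castSucc := by
        intro h0
        have h2 := congrArg Fin.val (hw h0)
        simp at h2
        omega
      have n2 : w 3 ≠ w i.castSucc := by
        intro h0
        have h2 := congrArg Fin.val (hw h0)
        simp at h2
        omega
      have n3 : w l.castSucc ≠ w i.castSucc := by
        intro h0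
        exact hil (Fin.castSucc_injective _ (hw h0)).symm
      intro a b hab
      fin_cases a <;> fin_cases b
      · rfl
      · exact absurd hab n1
      · exact absurd hab n2
      · exact absurd hab.symm n1
      · rfl
      · exact absurd hab n3
      · exact absurd hab.symm n2
      · exact absurd hab.symm n3
      · rfl
    · intro a
      fin_cases a
      · exact hwall _
      · exact hwall _
      · exact hwall _
    · intro a
      fin_cases a
      · exact hP3 l
      · exact hPb l
      · exact hl
  rcases mul_eq_zero.1 e1 with h1 | h1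
  · rcases mul_eq_zero.1 e2 with h2 | h2
    · apply hP0 i
      rw [hcomb, h1, h2]
      simp
    · exact hfin k hik ((mul_eq_zero.1 h2).resolve_left (hx _))
  · exact hfin j hij ((mul_eq_zero.1 h1).resolve_left (hx _))

/-- In a real configuration without a cut, in which at most one point lies on more than three lines,
every chamber has at most three walls. -/
theorem walls_le_three_one (A : ι → Fin 3 → ℝ) (hA : IsConfig (cx A)) (hcut : ¬ HasCut (cx A))
    {o : Fin 3 → ℝ} (ho : o ≠ 0)
    (h4 : ∀ p : Fin 3 → ℝ, p ≠ 0 → 4 ≤ {i | rlin A i p = 0}.ncard → ∃ c : ℝ, p = c • o)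
    {x : Fin 3 → ℝ} (hx : ∀ i, rlin A i x ≠ 0) : {i | IsWall A x i}.ncard ≤ 3 := by
  classical
  by_contra hcon
  push Not at hcon
  obtain ⟨s, hs, hs4⟩ := Set.exists_subset_card_eq (show 4 ≤ {i | IsWall A x i}.ncard by omega)
  have hcard : Fintype.card s = 4 := by
    rw [← hs4, ← Nat.card_eq_fintype_card]
    rfl
  obtain ⟨e⟩ : Nonempty (Fin 4 ≃ s) := ⟨(Fintype.equivFinOfCardEq hcard).symm⟩
  let w : Fin 4 → ι := fun a => (e a).1
  have hw : Function.Injective w := fun a b h => e.injective (Subtype.ext h)
  have hwall : ∀ a, IsWall A x (w a) := fun a => hs (e a).2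
  -- every one of the four walls passes through the point `o`
  have hthr : ∀ a : Fin 4, rlin A (w a) o = 0 := by
    intro a
    by_contra hao
    refine not_three_adjacent A hA hx (w := w ∘ Equiv.swap a 3)
      (hw.comp (Equiv.injective _)) (fun b => hwall _) fun b => ?_
    have hne : Equiv.swap a 3 b.castSucc ≠ a := by
      intro h0
      have h1 : b.castSucc = Equiv.swap a 3 a := by
        have h2 := congrArg (Equiv.swap a 3) h0
        rwa [Equiv.swap_apply_self] at h2
      rw [Equiv.swap_apply_left] at h1
      have h2 := congrArg Fin.val h1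
      simp at h2
      omega
    show ∃ p, p ≠ 0 ∧ rlin A (w (Equiv.swap a 3 3)) p = 0 ∧
      rlin A (w (Equiv.swap a 3 b.castSucc)) p = 0 ∧ ∀ i, 0 ≤ rlin A i x * rlin A i p
    rw [Equiv.swap_apply_right]
    refine walls_adjacent A hcut (fun h0 => hne (hw h0).symm) (hwall _) (hwall _)
      fun p hp hpa _ => ?_
    by_contra hcon2
    push Not at hcon2
    obtain ⟨c, hc⟩ := h4 p hp (by omega)
    rw [hc, rlin_smul] at hpa
    rcases mul_eq_zero.1 hpa with h0 | h0
    · exact hp (by rw [hc, h0, zero_smul])
    · exact hao h0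
  exact walls_not_concurrent A hx (w := fun a : Fin 3 => w a.castSucc)
    (fun a b h => Fin.castSucc_injective _ (hw h)) (fun a => hwall _) ho fun a => hthr _

end

end Pool.Agent.H.MP_02294b_ag.Cov
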