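import Pool.Agent.H.MP_02294b_ag.Cov.Quad

/-! The sides and the axes of symmetry of a regular polygon. -/

set_option autoImplicit false

namespace Pool.Agent.H.MP_02294b_ag.Cov

/-- The `n` sides and the `n` axes of symmetry of the regular `n`-gon circumscribed about the unit
circle of the plane `z = 1` with a side touching the circle at the point `(1, 0, 1)`: the side
`Sum.inl k` touches the circle at the angle `2 π k / n`, the axis `Sum.inr k` is the line through
the centre in the direction of the angle `π k / n`. -/
noncomputable def polygon (n : ℕ) : Fin n ⊕ Fin n → Fin 3 → ℝ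
  | Sum.inl k => ![Real.cos ((k : ℕ) * (2 * Real.pi / n)), Real.sin ((k : ℕ) * (2 * Real.pi / n)),
      -1]
  | Sum.inr k => ![Real.sin ((k : ℕ) * (Real.pi / n)), -Real.cos ((k : ℕ) * (Real.pi / n)), 0]

end Pool.Agent.H.MP_02294b_ag.Cov
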