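import Pool.Agent.H.MP_02294b_ag.Cov.One9
import Pool.Agent.H.MP_02294b_ag.Cov.Polygon

/-! Real configurations with one point of high multiplicity: regular polygons. -/

set_option autoImplicit false
set_option linter.unusedSectionVars false

open Set Filter Topology Matrix
open scoped LinearAlgebra.Projectivization

namespace Pool.Agent.H.MP_02294b_ag.Cov

section

variable {ι : Type} [Fintype ι]

theorem polygon_inl (n : ℕ) (k : Fin n) (X : Fin 3 → ℝ) :
    rlin (polygon n) (Sum.inl k) X = Real.cos ((k : ℕ) * (2 * Real.pi / n)) * X 0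
      + Real.sin ((k : ℕ) * (2 * Real.pi / n)) * X 1 - X 2 := by
  simp only [rlin, polygon, Fin.sum_univ_three, Matrix.cons_val_zero, Matrix.cons_val_one,
    Matrix.cons_val]
  ring

theorem polygon_inr (n : ℕ) (k : Fin n) (X : Fin 3 → ℝ) :
    rlin (polygon n) (Sum.inr k) X = Real.sin ((k : ℕ) * (Real.pi / n)) * X 0
      - Real.cos ((k : ℕ) * (Real.pi / n)) * X 1 := by
  simp only [rlin, polygon, Fin.sum_univ_three, Matrix.cons_val_zero, Matrix.cons_val_one,
    Matrix.cons_val]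
  ring

/-- The linear map in adapted coordinates which makes the polygon regular. -/
theorem polygon_map {A : ι → Fin 3 → ℝ} {o u1 u2 : Fin 3 → ℝ} (hu : Adapted A o u1 u2)
    {c1 c2 p1 p2 q1 q2 : ℝ} (hpq : p1 * q2 - p2 * q1 ≠ 0) :
    ∃ g : (Fin 3 → ℝ) ≃ₗ[ℝ] (Fin 3 → ℝ), ∀ X, g X
      = ((q2 * X 0 - p2 * X 1) / (p1 * q2 - p2 * q1)) • u1
        + ((-q1 * X 0 + p1 * X 1) / (p1 * q2 - p2 * q1)) • u2
        + (-X 2 - (q2 * X 0 - p2 * X 1) / (p1 * q2 - p2 * q1) * c1
          - (-q1 * X 0 + p1 * X 1) / (p1 * q2 - p2 * q1) * c2) • o := by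
  obtain ⟨g0, hg0⟩ : ∃ g : (Fin 3 → ℝ) →ₗ[ℝ] (Fin 3 → ℝ), ∀ X, g X
      = ((q2 * X 0 - p2 * X 1) / (p1 * q2 - p2 * q1)) • u1
        + ((-q1 * X 0 + p1 * X 1) / (p1 * q2 - p2 * q1)) • u2
        + (-X 2 - (q2 * X 0 - p2 * X 1) / (p1 * q2 - p2 * q1) * c1
          - (-q1 * X 0 + p1 * X 1) / (p1 * q2 - p2 * q1) * c2) • o := by
    refine ⟨{
      toFun := fun X => ((q2 * X 0 - p2 * X 1) / (p1 * q2 - p2 * q1)) • u1
        + ((-q1 * X 0 + p1 * X 1) / (p1 * q2 - p2 * q1)) • u2
        + (-X 2 - (q2 * X 0 - p2 * X 1) / (p1 * q2 - p2 * q1) * c1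
          - (-q1 * X 0 + p1 * X 1) / (p1 * q2 - p2 * q1) * c2) • o
      map_add' := ?_
      map_smul' := ?_ }, fun X => rfl⟩
    · intro X Y
      funext b
      simp only [Pi.add_apply, Pi.smul_apply, smul_eq_mul]
      ring
    · intro r X
      funext b
      simp only [Pi.add_apply, Pi.smul_apply, smul_eq_mul, RingHom.id_apply]
      ring
  have hinj : Function.Injective g0 := by
    rw [← LinearMap.ker_eq_bot, LinearMap.ker_eq_bot']
    intro X hX
    rw [hg0] at hX
    obtain ⟨h1, h2, h3⟩ := hu.inj _ _ _ hX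
    rw [h1, h2] at h3
    rw [div_eq_zero_iff] at h1 h2
    have h1' := h1.resolve_right hpq
    have h2' := h2.resolve_right hpq
    have k1 : (p1 * q2 - p2 * q1) * X 0 = 0 := by linear_combination p1 * h1' + p2 * h2'
    have k2 : (p1 * q2 - p2 * q1) * X 1 = 0 := by linear_combination q1 * h1' + q2 * h2'
    funext b
    fin_cases b
    · exact (mul_eq_zero.1 k1).resolve_left hpq
    · exact (mul_eq_zero.1 k2).resolve_left hpq
    · show X 2 = 0
      linarith
  exact ⟨LinearEquiv.ofInjectiveEndo g0 hinj, fun X => hg0 X⟩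

theorem nv_polygon {A : ι → Fin 3 → ℝ} {o u1 u2 : Fin 3 → ℝ} {c1 c2 p1 p2 q1 q2 : ℝ}
    (hpq : p1 * q2 - p2 * q1 ≠ 0) (m : Off A o) {C S : ℝ}
    (h1 : nv A o u1 m = c1 + C * p1 + S * q1) (h2 : nv A o u2 m = c2 + C * p2 + S * q2)
    (X : Fin 3 → ℝ) :
    rlin A m.1 (((q2 * X 0 - p2 * X 1) / (p1 * q2 - p2 * q1)) • u1
        + ((-q1 * X 0 + p1 * X 1) / (p1 * q2 - p2 * q1)) • u2
        + (-X 2 - (q2 * X 0 - p2 * X 1) / (p1 * q2 - p2 * q1) * c1
          - (-q1 * X 0 + p1 * X 1) / (p1 * q2 - p2 * q1) * c2) • o)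
      = rlin A m.1 o * (C * X 0 + S * X 1 - X 2) := by
  obtain ⟨δ, hδ⟩ : ∃ δ, δ = p1 * q2 - p2 * q1 := ⟨_, rfl⟩
  rw [nv_eval, h1, h2, ← hδ]
  rw [← hδ] at hpq
  field_simp
  rw [hδ]
  ring

theorem on_polygon {A : ι → Fin 3 → ℝ} {o u1 u2 : Fin 3 → ℝ} {c1 c2 p1 p2 q1 q2 : ℝ}
    (hpq : p1 * q2 - p2 * q1 ≠ 0) {a : ι} (hao : rlin A a o = 0) {s P Q : ℝ}
    (h1 : rlin A a u1 = s * (P * p1 + Q * q1)) (h2 : rlin A a u2 = s * (P * p2 + Q * q2))
    (X : Fin 3 → ℝ) :
    rlin A a (((q2 * X 0 - p2 * X 1) / (p1 * q2 - p2 * q1)) • u1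
        + ((-q1 * X 0 + p1 * X 1) / (p1 * q2 - p2 * q1)) • u2
        + (-X 2 - (q2 * X 0 - p2 * X 1) / (p1 * q2 - p2 * q1) * c1
          - (-q1 * X 0 + p1 * X 1) / (p1 * q2 - p2 * q1) * c2) • o)
      = s * (P * X 0 + Q * X 1) := by
  obtain ⟨δ, hδ⟩ : ∃ δ, δ = p1 * q2 - p2 * q1 := ⟨_, rfl⟩
  rw [on_eval hao, h1, h2, ← hδ]
  rw [← hδ] at hpq
  field_simp
  rw [hδ]
  ring

theorem form_ne_zero {A : ι → Fin 3 → ℝ} {o u1 u2 : Fin 3 → ℝ} (hA : IsConfig (cx A))
    (hu : Adapted A o u1 u2) {a : ι} (hao : rlin A a o = 0) (h1 : rlin A a u1 = 0)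
    (h2 : rlin A a u2 = 0) : False := by
  obtain ⟨α, β, z, hv⟩ := hu.span (A a)
  have h3 : rlin A a (A a) = 0 := by
    rw [hv, on_eval hao, h1, h2]
    ring
  have h4 : A a = 0 := dotProduct_self_eq_zero.1 (by rw [← rlin_dot]; exact h3)
  obtain ⟨j, hj⟩ : ∃ j, j ≠ a := by
    classical
    exact Fintype.exists_ne_of_one_lt_card (by have := hA.three; omega) a
  exact cr_ne_zero hA hj (by rw [cr, h4, map_zero])

theorem polygon_of_poly {A : ι → Fin 3 → ℝ} {o : Fin 3 → ℝ} (H : PolyType A o)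
    (h4 : 4 ≤ {i | rlin A i o = 0}.ncard) : ∃ n, 4 ≤ n ∧ RealEquiv A (polygon n) := by
  classical
  -- coordinates
  obtain ⟨a, a', haa, hao, ha'o⟩ : ∃ a a', a ≠ a' ∧ rlin A a o = 0 ∧ rlin A a' o = 0 := by
    have h2 : 1 < {i | rlin A i o = 0}.ncard := by omega
    obtain ⟨a, ha, a', ha', hne⟩ := (Set.one_lt_ncard (Set.toFinite _)).1 h2
    exact ⟨a, a', hne, ha, ha'⟩
  have hcardκ : Fintype.card (Off A o) = {m | rlin A m o ≠ 0}.ncard := by
    rw [← Nat.card_eq_fintype_card]
    exact Nat.card_coe_set_eq {m | rlin A m o ≠ 0}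
  have hcardι : Fintype.card ι = 2 * Fintype.card (Off A o) := by
    have h1 : Fintype.card ι = {m | rlin A m o = 0}.ncard + {m | rlin A m o ≠ 0}.ncard := by
      rw [← Nat.card_eq_fintype_card, ← Set.ncard_univ,
        ← Set.ncard_union_eq ?_ (Set.toFinite _) (Set.toFinite _)]
      · congr 1
        ext m
        simp [em]
      · rw [Set.disjoint_left]
        intro m h1 h2
        exact h2 h1
    rw [h1, hcardκ, H.card_eq]
    ring
  have h4κ : 4 ≤ Fintype.card (Off A o) := by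
    rw [hcardκ, ← H.card_eq]
    exact h4
  obtain ⟨e⟩ : Nonempty (Off A o) := Fintype.card_pos_iff.1 (by omega)
  obtain ⟨u1, u2, hu⟩ := exists_adapted H.config haa hao ha'o e.2
  obtain ⟨t1, t2, b, hS, hb⟩ := slopes_of_poly H hu
  obtain ⟨n, w, c1, c2, p1, p2, q1, q2, hpq, hw⟩ := regular_of_slopes hS h4κ
  have hn : n = Fintype.card (Off A o) := by
    have := Fintype.card_congr w
    rwa [Fintype.card_fin] at this
  have hn4 : 4 ≤ n := by omega
  have hn0 : (0 : ℝ) < n := by
    have : 0 < n := by omega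
    exact_mod_cast this
  have hnR : (4 : ℝ) ≤ n := by exact_mod_cast hn4
  have hπ := Real.pi_pos
  obtain ⟨e0, he0⟩ : ∃ e0, e0 = w ⟨0, by omega⟩ := ⟨_, rfl⟩
  have hx0 : nv A o u1 e0 = c1 + p1 := by
    rw [he0, (hw _).1]
    simp
  have hy0 : nv A o u2 e0 = c2 + p2 := by
    rw [he0, (hw _).2]
    simp
  have hhalf : ∀ k : Fin n, ((k : ℕ) : ℝ) * (2 * Real.pi / n)
      = 2 * (((k : ℕ) : ℝ) * (Real.pi / n)) := fun k => by ring
  have hsink : ∀ k : Fin n, (k : ℕ) ≠ 0 → 0 < Real.sin (((k : ℕ) : ℝ) * (Real.pi / n)) := by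
    intro k hk
    have hk0 : (0 : ℝ) < (k : ℕ) := by
      have : 0 < (k : ℕ) := Nat.pos_of_ne_zero hk
      exact_mod_cast this
    have hkn : ((k : ℕ) : ℝ) < n := by exact_mod_cast k.2
    apply Real.sin_pos_of_pos_of_lt_pi
    · positivity
    · rw [← mul_div_assoc, div_lt_iff₀ hn0]
      nlinarith
  -- the form of the axis `k`
  have hform : ∀ (k : Fin n) (c : ι), (k : ℕ) ≠ 0 → rlin A c o = 0 →
      rlin A c (cr A e0.1 (w k).1) = 0 → ∃ s : ℝ, s ≠ 0 ∧
        rlin A c u1 = s * (Real.sin (((k : ℕ) : ℝ) * (Real.pi / n)) * p1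
          + (-Real.cos (((k : ℕ) : ℝ) * (Real.pi / n))) * q1) ∧
        rlin A c u2 = s * (Real.sin (((k : ℕ) : ℝ) * (Real.pi / n)) * p2
          + (-Real.cos (((k : ℕ) : ℝ) * (Real.pi / n))) * q2) := by
    intro k c hk hco hc
    have hne : e0 ≠ w k := by
      rw [he0]
      intro h
      exact hk (congrArg Fin.val (w.injective h)).symm
    obtain ⟨s, hs, h1, h2⟩ := pencil_slope H.config hne hco hc u1 u2
    refine ⟨s * (2 * Real.sin (((k : ℕ) : ℝ) * (Real.pi / n))),
      mul_ne_zero hs (mul_ne_zero two_ne_zero (hsink k hk).ne'), ?_, ?_⟩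
    · rw [h1, hx0, (hw k).1, hhalf k, Real.cos_two_mul, Real.sin_two_mul]
      have h5 := Real.sin_sq_add_cos_sq (((k : ℕ) : ℝ) * (Real.pi / n))
      linear_combination (-2 * s * p1) * h5
    · rw [h2, hy0, (hw k).2, hhalf k, Real.cos_two_mul, Real.sin_two_mul]
      have h5 := Real.sin_sq_add_cos_sq (((k : ℕ) : ℝ) * (Real.pi / n))
      linear_combination (-2 * s * p2) * h5
  -- the axis `0`
  have hform0 : ∃ s : ℝ, s ≠ 0 ∧ rlin A (b e0) u1 = s * (0 * p1 + (-1) * q1) ∧
      rlin A (b e0) u2 = s * (0 * p2 + (-1) * q2) := by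
    obtain ⟨hbo, hbt, -⟩ := hb e0
    obtain ⟨f, hf⟩ : ∃ f, f = w ⟨n - 1, by omega⟩ := ⟨_, rfl⟩
    obtain ⟨g, hg⟩ : ∃ g, g = w ⟨1, by omega⟩ := ⟨_, rfl⟩
    have hfg : f ≠ g := by
      rw [hf, hg]
      intro h
      have := congrArg Fin.val (w.injective h)
      simp only at this
      omega
    have hs1 : 0 < Real.sin (2 * Real.pi / n) := by
      apply Real.sin_pos_of_pos_of_lt_pi
      · positivity
      · rw [div_lt_iff₀ hn0]
        nlinarith
    have hang : ((n - 1 : ℕ) : ℝ) * (2 * Real.pi / n) = 2 * Real.pi - 2 * Real.pi / n := by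
      rw [Nat.cast_sub (by omega)]
      field_simp
      ring
    have hfx : nv A o u1 f = c1 + Real.cos (2 * Real.pi / n) * p1
        - Real.sin (2 * Real.pi / n) * q1 := by
      rw [hf, (hw _).1]
      simp only [hang]
      rw [Real.cos_two_pi_sub, Real.sin_two_pi_sub]
      ring
    have hfy : nv A o u2 f = c2 + Real.cos (2 * Real.pi / n) * p2
        - Real.sin (2 * Real.pi / n) * q2 := by
      rw [hf, (hw _).2]
      simp only [hang]
      rw [Real.cos_two_pi_sub, Real.sin_two_pi_sub]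
      ring
    have hgx : nv A o u1 g = c1 + Real.cos (2 * Real.pi / n) * p1
        + Real.sin (2 * Real.pi / n) * q1 := by
      rw [hg, (hw _).1]
      simp
    have hgy : nv A o u2 g = c2 + Real.cos (2 * Real.pi / n) * p2
        + Real.sin (2 * Real.pi / n) * q2 := by
      rw [hg, (hw _).2]
      simp
    have htq : t1 e0 * q2 - t2 e0 * q1 = 0 := by
      rcases hS.slope e0 f g hfg with h | ⟨j, hj, h⟩
      · rw [hfx, hfy, hgx, hgy] at h
        have : 2 * Real.sin (2 * Real.pi / n) * (t1 e0 * q2 - t2 e0 * q1) = 0 := by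
          linear_combination h
        exact (mul_eq_zero.1 this).resolve_left (by positivity)
      · exfalso
        obtain ⟨k, rfl⟩ := w.surjective j
        have hk : (k : ℕ) ≠ 0 := by
          intro h0
          apply hj
          rw [he0]
          congr 1
          exact Fin.ext h0
        rw [hfx, hfy, hgx, hgy, hx0, hy0, (hw k).1, (hw k).2, hhalf k, Real.cos_two_mul] at h
        have h5 := Real.sin_sq_add_cos_sq (((k : ℕ) : ℝ) * (Real.pi / n))
        have h6 : 4 * Real.sin (2 * Real.pi / n) * Real.sin (((k : ℕ) : ℝ) * (Real.pi / n)) ^ 2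
            * (p1 * q2 - p2 * q1) = 0 := by
          linear_combination h + (4 * Real.sin (2 * Real.pi / n) * (p1 * q2 - p2 * q1)) * h5
        have h7 := hsink k hk
        exact mul_ne_zero (by positivity) hpq h6
    have ht : t1 e0 ≠ 0 ∨ t2 e0 ≠ 0 := by
      by_contra hcon
      push Not at hcon
      have := hS.tan e0 f (by
        rw [hf, he0]
        intro h
        have := congrArg Fin.val (w.injective h)
        simp only at this
        omega)
      rw [hcon.1, hcon.2] at this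
      linarith
    -- the form of the axis is proportional to `(q1, q2)`
    have hq : q1 ≠ 0 ∨ q2 ≠ 0 := by
      by_contra hcon
      push Not at hcon
      exact hpq (by rw [hcon.1, hcon.2]; ring)
    have hpar : rlin A (b e0) u1 * q2 - rlin A (b e0) u2 * q1 = 0 := by
      rcases ht with h | h
      · have : t1 e0 * (rlin A (b e0) u1 * q2 - rlin A (b e0) u2 * q1) = 0 := by
          linear_combination (rlin A (b e0) u1) * htq - q1 * hbt
        exact (mul_eq_zero.1 this).resolve_left h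
      · have : t2 e0 * (rlin A (b e0) u1 * q2 - rlin A (b e0) u2 * q1) = 0 := by
          linear_combination (rlin A (b e0) u2) * htq - q2 * hbt
        exact (mul_eq_zero.1 this).resolve_left h
    rcases hq with h | h
    · refine ⟨-(rlin A (b e0) u1 / q1), ?_, ?_, ?_⟩
      · intro h0
        have h1 : rlin A (b e0) u1 = 0 := by
          have := neg_eq_zero.1 h0
          rw [div_eq_zero_iff] at this
          exact this.resolve_right h
        refine form_ne_zero H.config hu hbo h1 ?_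
        rw [h1] at hpar
        have : rlin A (b e0) u2 * q1 = 0 := by linarith
        exact (mul_eq_zero.1 this).resolve_right h
      · field_simp
        ring
      · field_simp
        linear_combination -hpar
    · refine ⟨-(rlin A (b e0) u2 / q2), ?_, ?_, ?_⟩
      · intro h0
        have h1 : rlin A (b e0) u2 = 0 := by
          have := neg_eq_zero.1 h0
          rw [div_eq_zero_iff] at this
          exact this.resolve_right h
        refine form_ne_zero H.config hu hbo ?_ h1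
        rw [h1] at hpar
        have : rlin A (b e0) u1 * q2 = 0 := by linarith
        exact (mul_eq_zero.1 this).resolve_right h
      · field_simp
        linear_combination hpar
      · field_simp
        ring
  -- the axes
  have hax : ∀ k : Fin n, ∃ c : ι, rlin A c o = 0 ∧
      ((k : ℕ) ≠ 0 → rlin A c (cr A e0.1 (w k).1) = 0) ∧ ((k : ℕ) = 0 → c = b e0) := by
    intro k
    by_cases hk : (k : ℕ) = 0
    · exact ⟨b e0, (hb e0).1, fun h => absurd hk h, fun _ => rfl⟩
    · have hne : e0.1 ≠ (w k).1 := by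
        intro h
        have h1 : e0 = w k := Subtype.ext h
        rw [he0] at h1
        exact hk (congrArg Fin.val (w.injective h1)).symm
      obtain ⟨c, hco, hc⟩ := H.meet _ _ hne e0.2 (w k).2
      exact ⟨c, hco, fun _ => hc, fun h => absurd h hk⟩
  choose ax hax using hax
  have hsurj : Function.Surjective fun k : Fin n ⊕ Fin n =>
      Sum.elim (fun k => (w k).1) ax k := by
    intro m
    by_cases hm : rlin A m o = 0
    · by_cases hmb : m = b e0
      · refine ⟨Sum.inr ⟨0, by omega⟩, ?_⟩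
        rw [hmb]
        exact (hax ⟨0, by omega⟩).2.2 rfl
      · obtain ⟨j, hj, hmj⟩ := (hb e0).2.2 m hm hmb
        obtain ⟨k, rfl⟩ := w.surjective j
        have hk : (k : ℕ) ≠ 0 := by
          intro h0
          apply hj
          rw [he0]
          congr 1
          exact Fin.ext h0
        refine ⟨Sum.inr k, ?_⟩
        show ax k = m
        by_contra hne
        exact pencil_unique H.config hne (hax k).1 hm e0.2
          (cr_ne_zero H.config fun h => hj (Subtype.ext h.symm)) (rlin_cr_left A _ _)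
          ((hax k).2.1 hk) hmj
    · obtain ⟨k, hk⟩ := w.surjective ⟨m, hm⟩
      exact ⟨Sum.inl k, congrArg Subtype.val hk⟩
  have hbij : Function.Bijective fun k : Fin n ⊕ Fin n => Sum.elim (fun k => (w k).1) ax k := by
    rw [Fintype.bijective_iff_surjective_and_card]
    refine ⟨hsurj, ?_⟩
    rw [Fintype.card_sum, Fintype.card_fin, hcardι, ← hn]
    ring
  obtain ⟨g, hg⟩ := polygon_map (c1 := c1) (c2 := c2) hu hpq
  refine ⟨n, hn4, Equiv.ofBijective _ hbij, g, ?_⟩
  rintro (k | k)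
  · refine ⟨rlin A (w k).1 o, (w k).2, fun X => ?_⟩
    rw [polygon_inl, hg]
    exact nv_polygon hpq (w k) (hw k).1 (hw k).2 X
  · by_cases hk : (k : ℕ) = 0
    · obtain ⟨s, hs, h1, h2⟩ := hform0
      refine ⟨s, hs, fun X => ?_⟩
      have h3 : ax k = b e0 := (hax k).2.2 hk
      show rlin A (ax k) (g X) = _
      rw [h3, polygon_inr, hg, on_polygon hpq (hb e0).1 h1 h2 X, hk]
      simp
    · obtain ⟨s, hs, h1, h2⟩ := hform k (ax k) hk (hax k).1 ((hax k).2.1 hk)
      refine ⟨s, hs, fun X => ?_⟩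
      show rlin A (ax k) (g X) = _
      rw [polygon_inr, hg, on_polygon hpq (hax k).1 h1 h2 X]
      ring

end

end Pool.Agent.H.MP_02294b_ag.Cov
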