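import Pool.Agent.H.MP_02294b_ag.Cov.One10
import Pool.Agent.H.MP_02294b_ag.Cov.Line3

/-! Real configurations with at most one point on more than three lines. -/

set_option autoImplicit false
set_option linter.unusedSectionVars false

open Set Filter Topology Matrix
open scoped LinearAlgebra.Projectivization

namespace Pool.Agent.H.MP_02294b_ag.Cov

section

theorem RealEquiv.trans {ι κ τ : Type} {A : ι → Fin 3 → ℝ} {B : κ → Fin 3 → ℝ}
    {C : τ → Fin 3 → ℝ} (h1 : RealEquiv A B) (h2 : RealEquiv B C) : RealEquiv A C := by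
  obtain ⟨f, g, h⟩ := h1
  obtain ⟨f', g', h'⟩ := h2
  refine ⟨f'.trans f, g'.trans g, fun k => ?_⟩
  obtain ⟨c, hc, h3⟩ := h (f' k)
  obtain ⟨c', hc', h4⟩ := h' k
  refine ⟨c * c', mul_ne_zero hc hc', fun x => ?_⟩
  show rlin A (f (f' k)) (g (g' x)) = _
  rw [h3, h4, mul_assoc]

/-- The bijection between the lines of the triangle with its axes and the complete quadrangle. -/
def perm6 : Fin 3 ⊕ Fin 3 → Fin 6 := Sum.elim ![5, 3, 0] ![2, 1, 4]

theorem perm6_bijective : Function.Bijective perm6 := by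
  rw [Fintype.bijective_iff_injective_and_card]
  constructor
  · decide
  · decide

/-- The complete quadrangle consists of the sides and the axes of a triangle. -/
theorem quad6_polygon : RealEquiv quad6 (polygon 3) := by
  have h3 : Real.sqrt 3 ^ 2 = 3 := Real.sq_sqrt (by norm_num)
  have h3' : Real.sqrt 3 ≠ 0 := by positivity
  obtain ⟨g0, hg0⟩ : ∃ g : (Fin 3 → ℝ) →ₗ[ℝ] (Fin 3 → ℝ), ∀ X, g X
      = ![X 0 + 2 * X 2 + Real.sqrt 3 * X 1, -3 * X 0 + Real.sqrt 3 * X 1,
        -2 * X 0 + 2 * X 2 - 2 * Real.sqrt 3 * X 1] := by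
    refine ⟨{
      toFun := fun X => ![X 0 + 2 * X 2 + Real.sqrt 3 * X 1, -3 * X 0 + Real.sqrt 3 * X 1,
        -2 * X 0 + 2 * X 2 - 2 * Real.sqrt 3 * X 1]
      map_add' := ?_
      map_smul' := ?_ }, fun X => rfl⟩
    · intro X Y
      funext b
      fin_cases b <;> simp <;> ring
    · intro r X
      funext b
      fin_cases b <;> simp <;> ring
  have hinj : Function.Injective g0 := by
    rw [← LinearMap.ker_eq_bot, LinearMap.ker_eq_bot']
    intro X hX
    rw [hg0] at hX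
    have e0 : X 0 + 2 * X 2 + Real.sqrt 3 * X 1 = 0 := congrFun hX 0
    have e1 : -3 * X 0 + Real.sqrt 3 * X 1 = 0 := congrFun hX 1
    have e2 : -2 * X 0 + 2 * X 2 - 2 * Real.sqrt 3 * X 1 = 0 := congrFun hX 2
    have k0 : X 0 = 0 := by linarith
    have k1 : Real.sqrt 3 * X 1 = 0 := by linarith
    have k2 : X 2 = 0 := by linarith
    funext b
    fin_cases b
    · exact k0
    · exact (mul_eq_zero.1 k1).resolve_left h3'
    · exact k2
  obtain ⟨g, hg⟩ : ∃ g : (Fin 3 → ℝ) ≃ₗ[ℝ] (Fin 3 → ℝ), ∀ X, g X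
      = ![X 0 + 2 * X 2 + Real.sqrt 3 * X 1, -3 * X 0 + Real.sqrt 3 * X 1,
        -2 * X 0 + 2 * X 2 - 2 * Real.sqrt 3 * X 1] :=
    ⟨LinearEquiv.ofInjectiveEndo g0 hinj, fun X => hg0 X⟩
  have a1 : ((3 : ℕ) : ℝ) = 3 := by norm_num
  have c1 : Real.cos (2 * Real.pi / 3) = -(1 / 2) := by
    have : 2 * Real.pi / 3 = Real.pi - Real.pi / 3 := by ring
    rw [this, Real.cos_pi_sub, Real.cos_pi_div_three]
  have s1 : Real.sin (2 * Real.pi / 3) = Real.sqrt 3 / 2 := by
    have : 2 * Real.pi / 3 = Real.pi - Real.pi / 3 := by ring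
    rw [this, Real.sin_pi_sub, Real.sin_pi_div_three]
  have c2 : Real.cos (2 * (2 * Real.pi / 3)) = -(1 / 2) := by
    rw [Real.cos_two_mul, c1]
    norm_num
  have s2 : Real.sin (2 * (2 * Real.pi / 3)) = -(Real.sqrt 3 / 2) := by
    rw [Real.sin_two_mul, c1, s1]
    ring
  have c3 : Real.cos (2 * (Real.pi / 3)) = -(1 / 2) := by
    rw [Real.cos_two_mul, Real.cos_pi_div_three]
    norm_num
  have s3 : Real.sin (2 * (Real.pi / 3)) = Real.sqrt 3 / 2 := by
    rw [Real.sin_two_mul, Real.cos_pi_div_three, Real.sin_pi_div_three]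
    ring
  refine ⟨Equiv.ofBijective perm6 perm6_bijective, g, ?_⟩
  have q5 : quad6 5 = ![1, 1, 1] := rfl
  have q3 : quad6 3 = ![1, -1, 1] := rfl
  have q0 : quad6 0 = ![1, 0, 0] := rfl
  have q2 : quad6 2 = ![-1, -1, 1] := rfl
  have q1 : quad6 1 = ![0, 1, 0] := rfl
  have q4 : quad6 4 = ![-1, 1, 1] := rfl
  rintro (k | k)
  · fin_cases k
    · refine ⟨-4, by norm_num, fun X => ?_⟩
      show rlin quad6 5 (g X) = -4 * rlin (polygon 3) (Sum.inl 0) X
      rw [polygon_inl, rlin_three, q5, hg]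
      simp
      ring
    · refine ⟨-4, by norm_num, fun X => ?_⟩
      show rlin quad6 3 (g X) = -4 * rlin (polygon 3) (Sum.inl 1) X
      rw [polygon_inl, rlin_three, q3, hg, a1]
      simp [c1, s1]
      ring
    · refine ⟨-2, by norm_num, fun X => ?_⟩
      show rlin quad6 0 (g X) = -2 * rlin (polygon 3) (Sum.inl 2) X
      rw [polygon_inl, rlin_three, q0, hg, a1]
      simp [c2, s2]
      ring
  · fin_cases k
    · refine ⟨4 * Real.sqrt 3, by positivity, fun X => ?_⟩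
      show rlin quad6 2 (g X) = 4 * Real.sqrt 3 * rlin (polygon 3) (Sum.inr 0) X
      rw [polygon_inr, rlin_three, q2, hg]
      simp
      ring
    · refine ⟨-2 * Real.sqrt 3, by simp [h3'], fun X => ?_⟩
      show rlin quad6 1 (g X) = -2 * Real.sqrt 3 * rlin (polygon 3) (Sum.inr 1) X
      rw [polygon_inr, rlin_three, q1, hg, a1]
      simp [Real.cos_pi_div_three, Real.sin_pi_div_three]
      ring_nf
      rw [h3]
    · refine ⟨-4 * Real.sqrt 3, by simp [h3'], fun X => ?_⟩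
      show rlin quad6 4 (g X) = -4 * Real.sqrt 3 * rlin (polygon 3) (Sum.inr 2) X
      rw [polygon_inr, rlin_three, q4, hg, a1]
      simp [c3, s3]
      ring_nf
      rw [h3]
      ring

end

section

variable {ι : Type} [Fintype ι]

theorem rlin_lin_cx (A : ι → Fin 3 → ℝ) (i : ι) (x : Fin 3 → ℝ) :
    lin (cx A) i (fun b => (x b : ℂ)) = 0 ↔ rlin A i x = 0 := by
  rw [lin_cx]
  exact_mod_cast Iff.rfl

/-- Real configurations of at least five lines with at most one point on more than three lines,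
without a cut, are near-pencils or regular. -/
theorem real_one (A : ι → Fin 3 → ℝ) (hA : IsConfig (cx A)) (h5 : 5 ≤ Fintype.card ι)
    (h4 : ∀ p q : Fin 3 → ℝ, p ≠ 0 → q ≠ 0 → 4 ≤ {i | rlin A i p = 0}.ncard →
      4 ≤ {i | rlin A i q = 0}.ncard → ∃ c : ℝ, q = c • p) (hcut : ¬ HasCut (cx A)) :
    RealEquiv A quad7 ∨ (∃ r, 3 ≤ r ∧ RealEquiv A (polygon r)) ∨
      ∃ (o : Fin 3 → ℝ) (j : ι), rlin A j o ≠ 0 ∧ ∀ i, i ≠ j → rlin A i o = 0 := by
  by_cases hq : RealEquiv A quad6 ∨ RealEquiv A quad7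
  · rcases hq with h | h
    · exact Or.inr (Or.inl ⟨3, le_rfl, h.trans quad6_polygon⟩)
    · exact Or.inl h
  by_cases h : ∃ o : Fin 3 → ℝ, o ≠ 0 ∧ 4 ≤ {i | rlin A i o = 0}.ncard
  · obtain ⟨o, ho, hmo⟩ := h
    have hmult : ∀ p : Fin 3 → ℝ, p ≠ 0 → 4 ≤ {i | rlin A i p = 0}.ncard →
        ∃ c : ℝ, p = c • o := fun p hp hmp => h4 o p ho hp hmo hmp
    have H : OneHigh A o := ⟨hA, ho, hmult, fun x hx => walls_le_three_one A hA hcut ho hmult hx,
      h5, hq⟩
    rcases near_or_poly H hmo with ⟨j, hj, hij⟩ | hP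
    · exact Or.inr (Or.inr ⟨o, j, hj, hij⟩)
    · obtain ⟨r, hr, h⟩ := polygon_of_poly hP hmo
      exact Or.inr (Or.inl ⟨r, by omega, h⟩)
  · exfalso
    push Not at h
    exact hq (simplicial_three A hA h5 (fun p hp => Nat.lt_succ_iff.1 (h p hp)) fun x hx =>
      walls_le_three A hA hcut (fun p hp => Nat.lt_succ_iff.1 (h p hp)) hx)

end

end Pool.Agent.H.MP_02294b_ag.Cov
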