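import Pool.Agent.H.MP_02294b_ag.Cov.Defs

/-! The complete quadrangle, the complete quadrangle with one more line, projective equivalence of
real configurations. -/

set_option autoImplicit false

namespace Pool.Agent.H.MP_02294b_ag.Cov

/-- A real projective transformation carries the lines of `A` to the lines of `B`: for a bijection
`f` of the index sets and a linear automorphism `g`, the form `A (f k)` composed with `g` is a
nonzero multiple of the form `B k`. -/
def RealEquiv {ι κ : Type} (A : ι → Fin 3 → ℝ) (B : κ → Fin 3 → ℝ) : Prop :=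
  ∃ (f : κ ≃ ι) (g : (Fin 3 → ℝ) ≃ₗ[ℝ] (Fin 3 → ℝ)),
    ∀ k, ∃ c : ℝ, c ≠ 0 ∧ ∀ x, rlin A (f k) (g x) = c * rlin B k x

/-- The complete quadrangle: the lines `x = 0`, `y = 0` and `z ± x ± y = 0`, that is, the six lines
joining the points `(1, 0, 1)`, `(1, 0, -1)`, `(0, 1, 1)`, `(0, 1, -1)`. -/
def quad6 : Fin 6 → Fin 3 → ℝ :=
  ![![1, 0, 0], ![0, 1, 0], ![-1, -1, 1], ![1, -1, 1], ![-1, 1, 1], ![1, 1, 1]]

/-- The complete quadrangle and the line `z = 0` through two of its three double points. -/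
def quad7 : Fin 7 → Fin 3 → ℝ :=
  ![![1, 0, 0], ![0, 1, 0], ![-1, -1, 1], ![1, -1, 1], ![-1, 1, 1], ![1, 1, 1], ![0, 0, 1]]

end Pool.Agent.H.MP_02294b_ag.Cov
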