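import Pool.Agent.H.MP_02294b_ag.Cov.Seven
import Pool.Agent.H.MP_02294b_ag.Cov.Quad

/-! Real configurations with double and triple points without a cut: the complete quadrangle and
one more configuration of seven lines. -/

set_option autoImplicit false
set_option linter.unusedSectionVars false

open Set Filter Topology Matrix
open scoped LinearAlgebra.Projectivization

namespace Pool.Agent.H.MP_02294b_ag.Cov

section

variable {ι : Type} [Fintype ι]

/-- Coordinates at a double point `p` of the lines `a`, `b`. -/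
theorem frame {A : ι → Fin 3 → ℝ} {a b : ι} (hab : a ≠ b) {p e1 e2 : Fin 3 → ℝ}
    (hpa : rlin A a p = 0) (hpb : rlin A b p = 0) (hpj : ∀ j, j ≠ a → j ≠ b → rlin A j p ≠ 0)
    (h1a : rlin A a e1 ≠ 0) (h1b : rlin A b e1 = 0) (h2a : rlin A a e2 = 0)
    (h2b : rlin A b e2 ≠ 0) :
    ∃ κ : ι → ℝ, (∀ i, κ i ≠ 0) ∧
      ∀ (i : ι) (X : Fin 3 → ℝ), rlin A i (X 0 • e1 + X 1 • e2 + X 2 • p)
        = κ i * pv a b (fun i => rlin A i e1 / rlin A i p) (fun i => rlin A i e2 / rlin A i p)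
          i X := by
  classical
  refine ⟨fun i => if i = a then rlin A a e1 else if i = b then rlin A b e2 else rlin A i p,
    ?_, ?_⟩
  · intro i
    dsimp only
    split_ifs with h1 h2
    · exact h1a
    · exact h2b
    · exact hpj i h1 h2
  · intro i X
    beta_reduce
    rw [rlin_add, rlin_add, rlin_smul, rlin_smul, rlin_smul]
    by_cases h1 : i = a
    · rw [h1, pv_a, if_pos rfl, hpa, h2a]
      ring
    · by_cases h2 : i = b
      · rw [h2, pv_b hab, if_neg (Ne.symm hab), if_pos rfl, hpb, h1b]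
        ring
      · rw [pv_j h1 h2, if_neg h1, if_neg h2]
        have := hpj i h1 h2
        field_simp
        ring

/-- Two vectors which complete a double point to a frame. -/
theorem exists_frame {A : ι → Fin 3 → ℝ} (hA : IsConfig (cx A)) {a b : ι} (hab : a ≠ b)
    {p : Fin 3 → ℝ} (hp : p ≠ 0) (hpa : rlin A a p = 0) (hpb : rlin A b p = 0) :
    ∃ e1 e2, rlin A a e1 ≠ 0 ∧ rlin A b e1 = 0 ∧ rlin A a e2 = 0 ∧ rlin A b e2 ≠ 0 := by
  obtain ⟨r, hr⟩ := eq_smul_cr hA hab hpa hpb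
  have hr0 : r ≠ 0 := by
    rintro rfl
    exact hp (by rw [hr, zero_smul])
  have hcr := cr_ne_zero hA hab
  have hdet : A a ⬝ᵥ crossProduct (A b) p ≠ 0 := by
    have h1 : A a ⬝ᵥ crossProduct (A b) p = p ⬝ᵥ cr A a b := by
      rw [triple_product_permutation, triple_product_permutation]
      rfl
    rw [h1, hr, smul_dotProduct, smul_eq_mul]
    exact mul_ne_zero hr0 fun h0 => hcr (dotProduct_self_eq_zero.1 h0)
  have hdet2 : A b ⬝ᵥ crossProduct (A a) p ≠ 0 := by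
    have h1 : A b ⬝ᵥ crossProduct (A a) p = -(A a ⬝ᵥ crossProduct (A b) p) := by
      simp only [dotProduct, cross_apply, Fin.sum_univ_three, Matrix.cons_val_zero,
        Matrix.cons_val_one, Matrix.cons_val]
      ring
    rw [h1]
    exact neg_ne_zero.2 hdet
  exact ⟨crossProduct (A b) p, crossProduct (A a) p, hdet, dot_self_cross _ _,
    dot_self_cross _ _, hdet2⟩

theorem four_le_ncard {s : Set ι} {w : Fin 4 → ι} (hw : Function.Injective w)
    (h : ∀ k, w k ∈ s) : 4 ≤ s.ncard := by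
  have h1 : (Set.range w).ncard = 4 := by
    rw [← Set.image_univ, Set.ncard_image_of_injective _ hw, Set.ncard_univ]
    simp
  rw [← h1]
  exact Set.ncard_le_ncard (by rintro _ ⟨k, rfl⟩; exact h k) (Set.toFinite s)

theorem plane_inj_six {x0 x1 x2 x3 x4 x5 : ι} (h01 : x0 ≠ x1) (h02 : x0 ≠ x2) (h03 : x0 ≠ x3)
    (h04 : x0 ≠ x4) (h05 : x0 ≠ x5) (h12 : x1 ≠ x2) (h13 : x1 ≠ x3) (h14 : x1 ≠ x4)
    (h15 : x1 ≠ x5) (h23 : x2 ≠ x3) (h24 : x2 ≠ x4) (h25 : x2 ≠ x5) (h34 : x3 ≠ x4)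
    (h35 : x3 ≠ x5) (h45 : x4 ≠ x5) :
    Function.Injective (![x0, x1, x2, x3, x4, x5] : Fin 6 → ι) := by
  intro s t hst
  fin_cases s <;> fin_cases t <;>
    first | rfl | exact absurd hst (by assumption) | exact absurd hst.symm (by assumption)

theorem plane_inj_seven {x0 x1 x2 x3 x4 x5 x6 : ι}
    (h : Function.Injective (![x0, x1, x2, x3, x4, x5] : Fin 6 → ι)) (h06 : x0 ≠ x6)
    (h16 : x1 ≠ x6) (h26 : x2 ≠ x6) (h36 : x3 ≠ x6) (h46 : x4 ≠ x6) (h56 : x5 ≠ x6) :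
    Function.Injective (![x0, x1, x2, x3, x4, x5, x6] : Fin 7 → ι) := by
  have h01 : x0 ≠ x1 := fun h0 => by simpa using @h 0 1 h0
  have h02 : x0 ≠ x2 := fun h0 => by simpa using @h 0 2 h0
  have h03 : x0 ≠ x3 := fun h0 => by simpa using @h 0 3 h0
  have h04 : x0 ≠ x4 := fun h0 => by simpa using @h 0 4 h0
  have h05 : x0 ≠ x5 := fun h0 => by simpa using @h 0 5 h0
  have h12 : x1 ≠ x2 := fun h0 => by simpa using @h 1 2 h0
  have h13 : x1 ≠ x3 := fun h0 => by simpa using @h 1 3 h0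
  have h14 : x1 ≠ x4 := fun h0 => by simpa using @h 1 4 h0
  have h15 : x1 ≠ x5 := fun h0 => by simpa using @h 1 5 h0
  have h23 : x2 ≠ x3 := fun h0 => by simpa using @h 2 3 h0
  have h24 : x2 ≠ x4 := fun h0 => by simpa using @h 2 4 h0
  have h25 : x2 ≠ x5 := fun h0 => by simpa using @h 2 5 h0
  have h34 : x3 ≠ x4 := fun h0 => by simpa using @h 3 4 h0
  have h35 : x3 ≠ x5 := fun h0 => by simpa using @h 3 5 h0
  have h45 : x4 ≠ x5 := fun h0 => by simpa using @h 4 5 h0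
  intro s t hst
  fin_cases s <;> fin_cases t <;>
    first | rfl | exact absurd hst (by assumption) | exact absurd hst.symm (by assumption)

theorem plane_map (e1 e2 p : Fin 3 → ℝ) (C D c0 d0 : ℝ) :
    ∃ g : (Fin 3 → ℝ) →ₗ[ℝ] (Fin 3 → ℝ), ∀ x, g x
      = (![x 0 / C, x 1 / D, x 2 - c0 * (x 0 / C) - d0 * (x 1 / D)] : Fin 3 → ℝ) 0 • e1
        + (![x 0 / C, x 1 / D, x 2 - c0 * (x 0 / C) - d0 * (x 1 / D)] : Fin 3 → ℝ) 1 • e2
        + (![x 0 / C, x 1 / D, x 2 - c0 * (x 0 / C) - d0 * (x 1 / D)] : Fin 3 → ℝ) 2 • p := by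
  refine ⟨{ toFun := fun x =>
      (![x 0 / C, x 1 / D, x 2 - c0 * (x 0 / C) - d0 * (x 1 / D)] : Fin 3 → ℝ) 0 • e1
        + (![x 0 / C, x 1 / D, x 2 - c0 * (x 0 / C) - d0 * (x 1 / D)] : Fin 3 → ℝ) 1 • e2
        + (![x 0 / C, x 1 / D, x 2 - c0 * (x 0 / C) - d0 * (x 1 / D)] : Fin 3 → ℝ) 2 • p
            map_add' := fun x y => ?_
            map_smul' := fun r x => ?_ }, fun x => rfl⟩
  · funext j
    simp only [Pi.add_apply, Pi.smul_apply, smul_eq_mul, Matrix.cons_val_zero,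
      Matrix.cons_val_one, Matrix.cons_val]
    ring
  · funext j
    simp only [Pi.add_apply, Pi.smul_apply, smul_eq_mul, Matrix.cons_val_zero,
      Matrix.cons_val_one, Matrix.cons_val, RingHom.id_apply]
    ring

theorem rlin_three {κ : Type} (B : κ → Fin 3 → ℝ) (k : κ) (x : Fin 3 → ℝ) :
    rlin B k x = B k 0 * x 0 + B k 1 * x 1 + B k 2 * x 2 := by
  simp only [rlin, Fin.sum_univ_three]

/-- If all chambers of the configuration have at most three walls, so do those of the picture at a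
double point. -/
theorem nf_of_walls {A : ι → Fin 3 → ℝ} {a b : ι} {e1 e2 p : Fin 3 → ℝ} {κ c d : ι → ℝ}
    (hκ : ∀ i, κ i ≠ 0) (hG : ∀ (i : ι) (X : Fin 3 → ℝ),
      rlin A i (X 0 • e1 + X 1 • e2 + X 2 • p) = κ i * pv a b c d i X)
    (hw : ∀ x : Fin 3 → ℝ, (∀ i, rlin A i x ≠ 0) → {i | IsWall A x i}.ncard ≤ 3) :
    NF a b c d := by
  intro X hX w hwinj hwall
  have h1 := hw (X 0 • e1 + X 1 • e2 + X 2 • p) fun i => by
    rw [hG]
    exact mul_ne_zero (hκ i) (hX i)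
  have h2 := four_le_ncard (s := {i | IsWall A (X 0 • e1 + X 1 • e2 + X 2 • p) i}) hwinj
    fun k => by
      obtain ⟨Y, hY, hY'⟩ := hwall k
      refine ⟨Y 0 • e1 + Y 1 • e2 + Y 2 • p, ?_, fun j hj => ?_⟩
      · rw [hG, hY, mul_zero]
      · rw [hG, hG]
        have h2 : κ j * pv a b c d j X * (κ j * pv a b c d j Y)
            = (κ j) ^ 2 * (pv a b c d j X * pv a b c d j Y) := by ring
        rw [h2]
        have := hκ j
        exact mul_pos (by positivity) (hY' j hj)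
  omega

/-- A real configuration all of whose chambers have at most three walls, with a double point such
that the two neighbouring vertices on each of its two lines lie on at most three lines, is the
complete quadrangle or the complete quadrangle together with a line through two of its double
points. -/
theorem classify (A : ι → Fin 3 → ℝ) (hA : IsConfig (cx A)) {a b : ι} (hab : a ≠ b)
    {e1 e2 p : Fin 3 → ℝ} {κ c d : ι → ℝ}
    (hκ : ∀ i, κ i ≠ 0) (hG : ∀ (i : ι) (X : Fin 3 → ℝ),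
      rlin A i (X 0 • e1 + X 1 • e2 + X 2 • p) = κ i * pv a b c d i X)
    (hNF : NF a b c d)
    (hc : ∀ i j l, i ≠ a → i ≠ b → j ≠ a → j ≠ b → l ≠ a → l ≠ b → i ≠ j → i ≠ l → j ≠ l →
      c i = c j → c i = c l →
      ((∀ m, m ≠ a → m ≠ b → c i ≤ c m) ∨ ∀ m, m ≠ a → m ≠ b → c m ≤ c i) → False)
    (hd : ∀ i j l, i ≠ a → i ≠ b → j ≠ a → j ≠ b → l ≠ a → l ≠ b → i ≠ j → i ≠ l → j ≠ l →
      d i = d j → d i = d l →
      ((∀ m, m ≠ a → m ≠ b → d i ≤ d m) ∨ ∀ m, m ≠ a → m ≠ b → d m ≤ d i) → False)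
    (hthree : ∃ i j l, (i ≠ a ∧ i ≠ b) ∧ (j ≠ a ∧ j ≠ b) ∧ (l ≠ a ∧ l ≠ b) ∧ i ≠ j ∧ i ≠ l ∧
      j ≠ l) :
    RealEquiv A quad6 ∨ RealEquiv A quad7 := by
  classical
  have hGc : ∀ (i : ι) (x y z : ℝ), rlin A i (x • e1 + y • e2 + z • p)
      = κ i * pv a b c d i ![x, y, z] := fun i x y z => hG i ![x, y, z]
  -- the value of a form at a nonzero vector
  have hne : ∀ x y z : ℝ, (x ≠ 0 ∨ y ≠ 0) → x • e1 + y • e2 + z • p ≠ 0 := by
    rintro x y z hxy h0
    rcases hxy with hx | hy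
    · have h1 := hGc a x y z
      rw [h0, pv_a] at h1
      simp only [rlin, Pi.zero_apply, mul_zero, Finset.sum_const_zero] at h1
      exact mul_ne_zero (hκ a) hx h1.symm
    · have h1 := hGc b x y z
      rw [h0, pv_b hab] at h1
      simp only [rlin, Pi.zero_apply, mul_zero, Finset.sum_const_zero] at h1
      exact mul_ne_zero (hκ b) hy h1.symm
  have hinj : ∀ i j, i ≠ a → i ≠ b → j ≠ a → j ≠ b → c i = c j → d i = d j → i = j := by
    intro i j hia hib hja hjb hc hd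
    by_contra hij
    have v1 : rlin A i ((1 : ℝ) • e1 + (0 : ℝ) • e2 + (-c i) • p) = 0 := by
      rw [hGc, pv_j hia hib]
      simp
    have v2 : rlin A j ((1 : ℝ) • e1 + (0 : ℝ) • e2 + (-c i) • p) = 0 := by
      rw [hGc, pv_j hja hjb]
      simp [hc]
    have v3 : rlin A i ((0 : ℝ) • e1 + (1 : ℝ) • e2 + (-d i) • p) = 0 := by
      rw [hGc, pv_j hia hib]
      simp
    have v4 : rlin A j ((0 : ℝ) • e1 + (1 : ℝ) • e2 + (-d i) • p) = 0 := by
      rw [hGc, pv_j hja hjb]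
      simp [hd]
    refine not_two hA (l := a) hij ?_ ?_ (hne 0 1 (-d i) (Or.inr one_ne_zero)) v1 v2 v3 v4
    · rw [hGc, pv_a]
      simpa using hκ a
    · rw [hGc, pv_a]
      simp
  obtain ⟨i1, i2, i3, i4, ⟨h1a, h1b⟩, ⟨h2a, h2b⟩, ⟨h3a, h3b⟩, ⟨h4a, h4b⟩, ec13, ec24, hc12, ed12,
    ed34, hd13, hrest⟩ := rect_structure hab hNF hinj hc hd hthree
  have n12 : i1 ≠ i2 := by
    rintro rfl
    exact lt_irrefl _ hc12
  have n13 : i1 ≠ i3 := by
    rintro rfl
    exact lt_irrefl _ hd13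
  have n24 : i2 ≠ i4 := by
    rintro rfl
    linarith
  have n34 : i3 ≠ i4 := by
    rintro rfl
    linarith
  have n14 : i1 ≠ i4 := by
    rintro rfl
    linarith
  have n23 : i2 ≠ i3 := by
    rintro rfl
    linarith
  -- the linear map
  obtain ⟨C, hC⟩ : ∃ C : ℝ, C = (c i2 - c i1) / 2 := ⟨_, rfl⟩
  obtain ⟨D, hD⟩ : ∃ D : ℝ, D = (d i3 - d i1) / 2 := ⟨_, rfl⟩
  obtain ⟨c0, hc0⟩ : ∃ c0 : ℝ, c0 = (c i1 + c i2) / 2 := ⟨_, rfl⟩
  obtain ⟨d0, hd0⟩ : ∃ d0 : ℝ, d0 = (d i1 + d i3) / 2 := ⟨_, rfl⟩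
  have hC0 : C ≠ 0 := by
    rw [hC]
    have : 0 < c i2 - c i1 := by linarith
    positivity
  have hD0 : D ≠ 0 := by
    rw [hD]
    have : 0 < d i3 - d i1 := by linarith
    positivity
  have c1 : c i1 = c0 - C := by rw [hC, hc0]; ring
  have c2 : c i2 = c0 + C := by rw [hC, hc0]; ring
  have c3 : c i3 = c0 - C := by rw [← ec13, c1]
  have c4 : c i4 = c0 + C := by rw [← ec24, c2]
  have d1 : d i1 = d0 - D := by rw [hD, hd0]; ring
  have d2 : d i2 = d0 - D := by rw [← ed12, d1]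
  have d3 : d i3 = d0 + D := by rw [hD, hd0]; ring
  have d4 : d i4 = d0 + D := by rw [← ed34, d3]
  obtain ⟨g0, hg0⟩ := plane_map e1 e2 p C D c0 d0
  have hval : ∀ i x, rlin A i (g0 x) = κ i * pv a b c d i
      ![x 0 / C, x 1 / D, x 2 - c0 * (x 0 / C) - d0 * (x 1 / D)] := fun i x => by
    rw [hg0, hG]
  have hva : ∀ x, rlin A a (g0 x) = κ a / C * x 0 := fun x => by
    rw [hval, pv_a]
    simp only [Matrix.cons_val_zero]
    ring
  have hvb : ∀ x, rlin A b (g0 x) = κ b / D * x 1 := fun x => by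
    rw [hval, pv_b hab]
    show κ b * (x 1 / D) = κ b / D * x 1
    ring
  have hvj : ∀ j, j ≠ a → j ≠ b → ∀ x, rlin A j (g0 x)
      = κ j * (x 2 + (c j - c0) / C * x 0 + (d j - d0) / D * x 1) := fun j hja hjb x => by
    rw [hval, pv_j hja hjb]
    simp only [Matrix.cons_val_zero, Matrix.cons_val_one, Matrix.cons_val]
    ring
  have hg0inj : Function.Injective g0 := by
    rw [← LinearMap.ker_eq_bot, LinearMap.ker_eq_bot']
    intro x hx
    have k0 : x 0 = 0 := by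
      have h1 := hva x
      rw [hx] at h1
      simp only [rlin, Pi.zero_apply, mul_zero, Finset.sum_const_zero] at h1
      exact (mul_eq_zero.1 h1.symm).resolve_left (div_ne_zero (hκ a) hC0)
    have k1 : x 1 = 0 := by
      have h1 := hvb x
      rw [hx] at h1
      simp only [rlin, Pi.zero_apply, mul_zero, Finset.sum_const_zero] at h1
      exact (mul_eq_zero.1 h1.symm).resolve_left (div_ne_zero (hκ b) hD0)
    have k2 : x 2 = 0 := by
      have h1 := hvj i1 h1a h1b x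
      rw [hx, k0, k1] at h1
      simp only [rlin, Pi.zero_apply, mul_zero, Finset.sum_const_zero, add_zero] at h1
      exact (mul_eq_zero.1 h1.symm).resolve_left (hκ i1)
    funext j
    fin_cases j
    · exact k0
    · exact k1
    · exact k2
  let g : (Fin 3 → ℝ) ≃ₗ[ℝ] (Fin 3 → ℝ) := LinearEquiv.ofInjectiveEndo g0 hg0inj
  have hg : ∀ x, g x = g0 x := fun x => rfl
  have q6 : ∀ {κ' : Type} (B : κ' → Fin 3 → ℝ) (k : κ') (s t : ℝ) (j : ι), j ≠ a → j ≠ b →
      B k = ![s, t, 1] → c j = c0 + s * C → d j = d0 + t * D →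
      ∀ x, rlin A j (g x) = κ j * rlin B k x := by
    intro κ' B k s t j hja hjb h1 h2 h3 x
    rw [hg, hvj j hja hjb, h2, h3, rlin_three, h1, add_sub_cancel_left, add_sub_cancel_left,
      mul_div_cancel_right₀ _ hC0, mul_div_cancel_right₀ _ hD0]
    show κ j * (x 2 + s * x 0 + t * x 1) = κ j * (s * x 0 + t * x 1 + 1 * x 2)
    ring
  have qa : ∀ {κ' : Type} (B : κ' → Fin 3 → ℝ) (k : κ'), B k = ![1, 0, 0] →
      ∀ x, rlin A a (g x) = κ a / C * rlin B k x := by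
    intro κ' B k h1 x
    rw [hg, hva, rlin_three, h1]
    show κ a / C * x 0 = κ a / C * (1 * x 0 + 0 * x 1 + 0 * x 2)
    ring
  have qb : ∀ {κ' : Type} (B : κ' → Fin 3 → ℝ) (k : κ'), B k = ![0, 1, 0] →
      ∀ x, rlin A b (g x) = κ b / D * rlin B k x := by
    intro κ' B k h1 x
    rw [hg, hvb, rlin_three, h1]
    show κ b / D * x 1 = κ b / D * (0 * x 0 + 1 * x 1 + 0 * x 2)
    ring
  have hfin6 : Function.Injective (![a, b, i1, i2, i3, i4] : Fin 6 → ι) :=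
    plane_inj_six hab h1a.symm h2a.symm h3a.symm h4a.symm h1b.symm h2b.symm h3b.symm h4b.symm
      n12 n13 n14 n23 n24 n34
  by_cases hcen : ∃ l, l ≠ a ∧ l ≠ b ∧ l ≠ i1 ∧ l ≠ i2 ∧ l ≠ i3 ∧ l ≠ i4
  · right
    obtain ⟨m, hma, hmb, hm1, hm2, hm3, hm4⟩ := hcen
    obtain ⟨hmc, hmd⟩ := hrest m hma hmb hm1 hm2 hm3 hm4
    have hfin : Function.Injective (![a, b, i1, i2, i3, i4, m] : Fin 7 → ι) :=
      plane_inj_seven hfin6 hma.symm hmb.symm hm1.symm hm2.symm hm3.symm hm4.symm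
    have hsur : Function.Surjective (![a, b, i1, i2, i3, i4, m] : Fin 7 → ι) := by
      intro l
      by_cases ha : l = a
      · exact ⟨0, ha.symm⟩
      by_cases hb : l = b
      · exact ⟨1, hb.symm⟩
      by_cases k1 : l = i1
      · exact ⟨2, k1.symm⟩
      by_cases k2 : l = i2
      · exact ⟨3, k2.symm⟩
      by_cases k3 : l = i3
      · exact ⟨4, k3.symm⟩
      by_cases k4 : l = i4
      · exact ⟨5, k4.symm⟩
      refine ⟨6, ?_⟩
      obtain ⟨hlc, hld⟩ := hrest l ha hb k1 k2 k3 k4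
      exact hinj m l hma hmb ha hb (by linarith) (by linarith)
    obtain ⟨f, hf⟩ : ∃ f : Fin 7 ≃ ι, ∀ k, f k = (![a, b, i1, i2, i3, i4, m] : Fin 7 → ι) k :=
      ⟨Equiv.ofBijective _ ⟨hfin, hsur⟩, fun k => rfl⟩
    refine ⟨f, g, ?_⟩
    have f0 : f 0 = a := hf 0
    have f1 : f 1 = b := hf 1
    have f2 : f 2 = i1 := hf 2
    have f3 : f 3 = i2 := hf 3
    have f4 : f 4 = i3 := hf 4
    have f5 : f 5 = i4 := hf 5
    have f6 : f 6 = m := hf 6
    have r0 : ∃ c : ℝ, c ≠ 0 ∧ ∀ x, rlin A (f 0) (g x) = c * rlin quad7 0 x :=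
      ⟨κ a / C, div_ne_zero (hκ a) hC0, fun x => by rw [f0]; exact qa quad7 0 rfl x⟩
    have r1 : ∃ c : ℝ, c ≠ 0 ∧ ∀ x, rlin A (f 1) (g x) = c * rlin quad7 1 x :=
      ⟨κ b / D, div_ne_zero (hκ b) hD0, fun x => by rw [f1]; exact qb quad7 1 rfl x⟩
    have r2 : ∃ c : ℝ, c ≠ 0 ∧ ∀ x, rlin A (f 2) (g x) = c * rlin quad7 2 x :=
      ⟨κ i1, hκ i1, fun x => by
        rw [f2]
        exact q6 quad7 2 (-1) (-1) i1 h1a h1b rfl (by rw [c1]; ring) (by rw [d1]; ring) x⟩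
    have r3 : ∃ c : ℝ, c ≠ 0 ∧ ∀ x, rlin A (f 3) (g x) = c * rlin quad7 3 x :=
      ⟨κ i2, hκ i2, fun x => by
        rw [f3]
        exact q6 quad7 3 1 (-1) i2 h2a h2b rfl (by rw [c2]; ring) (by rw [d2]; ring) x⟩
    have r4 : ∃ c : ℝ, c ≠ 0 ∧ ∀ x, rlin A (f 4) (g x) = c * rlin quad7 4 x :=
      ⟨κ i3, hκ i3, fun x => by
        rw [f4]
        exact q6 quad7 4 (-1) 1 i3 h3a h3b rfl (by rw [c3]; ring) (by rw [d3]; ring) x⟩
    have r5 : ∃ c : ℝ, c ≠ 0 ∧ ∀ x, rlin A (f 5) (g x) = c * rlin quad7 5 x :=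
      ⟨κ i4, hκ i4, fun x => by
        rw [f5]
        exact q6 quad7 5 1 1 i4 h4a h4b rfl (by rw [c4]; ring) (by rw [d4]; ring) x⟩
    have r6 : ∃ c : ℝ, c ≠ 0 ∧ ∀ x, rlin A (f 6) (g x) = c * rlin quad7 6 x :=
      ⟨κ m, hκ m, fun x => by
        rw [f6]
        exact q6 quad7 6 0 0 m hma hmb rfl (by rw [hc0]; linarith) (by rw [hd0]; linarith) x⟩
    intro k
    fin_cases k
    exacts [r0, r1, r2, r3, r4, r5, r6]
  · left
    push Not at hcen
    have hsur : Function.Surjective (![a, b, i1, i2, i3, i4] : Fin 6 → ι) := by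
      intro l
      by_cases ha : l = a
      · exact ⟨0, ha.symm⟩
      by_cases hb : l = b
      · exact ⟨1, hb.symm⟩
      by_cases k1 : l = i1
      · exact ⟨2, k1.symm⟩
      by_cases k2 : l = i2
      · exact ⟨3, k2.symm⟩
      by_cases k3 : l = i3
      · exact ⟨4, k3.symm⟩
      exact ⟨5, (hcen l ha hb k1 k2 k3).symm⟩
    obtain ⟨f, hf⟩ : ∃ f : Fin 6 ≃ ι, ∀ k, f k = (![a, b, i1, i2, i3, i4] : Fin 6 → ι) k :=
      ⟨Equiv.ofBijective _ ⟨hfin6, hsur⟩, fun k => rfl⟩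
    refine ⟨f, g, ?_⟩
    have f0 : f 0 = a := hf 0
    have f1 : f 1 = b := hf 1
    have f2 : f 2 = i1 := hf 2
    have f3 : f 3 = i2 := hf 3
    have f4 : f 4 = i3 := hf 4
    have f5 : f 5 = i4 := hf 5
    have r0 : ∃ c : ℝ, c ≠ 0 ∧ ∀ x, rlin A (f 0) (g x) = c * rlin quad6 0 x :=
      ⟨κ a / C, div_ne_zero (hκ a) hC0, fun x => by rw [f0]; exact qa quad6 0 rfl x⟩
    have r1 : ∃ c : ℝ, c ≠ 0 ∧ ∀ x, rlin A (f 1) (g x) = c * rlin quad6 1 x :=
      ⟨κ b / D, div_ne_zero (hκ b) hD0, fun x => by rw [f1]; exact qb quad6 1 rfl x⟩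
    have r2 : ∃ c : ℝ, c ≠ 0 ∧ ∀ x, rlin A (f 2) (g x) = c * rlin quad6 2 x :=
      ⟨κ i1, hκ i1, fun x => by
        rw [f2]
        exact q6 quad6 2 (-1) (-1) i1 h1a h1b rfl (by rw [c1]; ring) (by rw [d1]; ring) x⟩
    have r3 : ∃ c : ℝ, c ≠ 0 ∧ ∀ x, rlin A (f 3) (g x) = c * rlin quad6 3 x :=
      ⟨κ i2, hκ i2, fun x => by
        rw [f3]
        exact q6 quad6 3 1 (-1) i2 h2a h2b rfl (by rw [c2]; ring) (by rw [d2]; ring) x⟩
    have r4 : ∃ c : ℝ, c ≠ 0 ∧ ∀ x, rlin A (f 4) (g x) = c * rlin quad6 4 x :=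
      ⟨κ i3, hκ i3, fun x => by
        rw [f4]
        exact q6 quad6 4 (-1) 1 i3 h3a h3b rfl (by rw [c3]; ring) (by rw [d3]; ring) x⟩
    have r5 : ∃ c : ℝ, c ≠ 0 ∧ ∀ x, rlin A (f 5) (g x) = c * rlin quad6 5 x :=
      ⟨κ i4, hκ i4, fun x => by
        rw [f5]
        exact q6 quad6 5 1 1 i4 h4a h4b rfl (by rw [c4]; ring) (by rw [d4]; ring) x⟩
    intro k
    fin_cases k
    exacts [r0, r1, r2, r3, r4, r5]

/-- the value of a form at a vector with a nonzero first coordinate in the frame -/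
theorem frame_ne {A : ι → Fin 3 → ℝ} {a b : ι} (hab : a ≠ b) {e1 e2 p : Fin 3 → ℝ}
    {κ c d : ι → ℝ} (hκ : ∀ i, κ i ≠ 0) (hG : ∀ (i : ι) (X : Fin 3 → ℝ),
      rlin A i (X 0 • e1 + X 1 • e2 + X 2 • p) = κ i * pv a b c d i X)
    (x y z : ℝ) (hxy : x ≠ 0 ∨ y ≠ 0) : x • e1 + y • e2 + z • p ≠ 0 := by
  intro h0
  rcases hxy with hx | hy
  · have h1 : rlin A a (x • e1 + y • e2 + z • p) = _ := hG a ![x, y, z]
    rw [h0, pv_a] at h1
    simp only [rlin, Pi.zero_apply, mul_zero, Finset.sum_const_zero] at h1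
    exact mul_ne_zero (hκ a) hx h1.symm
  · have h1 : rlin A b (x • e1 + y • e2 + z • p) = _ := hG b ![x, y, z]
    rw [h0, pv_b hab] at h1
    simp only [rlin, Pi.zero_apply, mul_zero, Finset.sum_const_zero] at h1
    exact mul_ne_zero (hκ b) hy h1.symm

/-- four lines through the point of the frame given by three points on a vertical line -/
theorem frame_col {A : ι → Fin 3 → ℝ} {a b : ι} (hab : a ≠ b) {e1 e2 p : Fin 3 → ℝ}
    {κ c d : ι → ℝ} (hG : ∀ (i : ι) (X : Fin 3 → ℝ),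
      rlin A i (X 0 • e1 + X 1 • e2 + X 2 • p) = κ i * pv a b c d i X)
    {i j l : ι} (hia : i ≠ a) (hib : i ≠ b) (hja : j ≠ a) (hjb : j ≠ b) (hla : l ≠ a)
    (hlb : l ≠ b) (hij : i ≠ j) (hil : i ≠ l) (hjl : j ≠ l) (hcj : c i = c j) (hcl : c i = c l) :
    4 ≤ {m | rlin A m ((1 : ℝ) • e1 + (0 : ℝ) • e2 + (-c i) • p) = 0}.ncard := by
  have hGc : ∀ (m : ι) (x y z : ℝ), rlin A m (x • e1 + y • e2 + z • p)
      = κ m * pv a b c d m ![x, y, z] := fun m x y z => hG m ![x, y, z]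
  refine four_le_ncard (w := ![b, i, j, l])
    (plane_inj_four hib.symm hjb.symm hlb.symm hij hil hjl) fun k => ?_
  fin_cases k
  · show rlin A b _ = 0
    rw [hGc, pv_b hab]
    simp
  · show rlin A i _ = 0
    rw [hGc, pv_j hia hib]
    simp
  · show rlin A j _ = 0
    rw [hGc, pv_j hja hjb]
    simp [hcj]
  · show rlin A l _ = 0
    rw [hGc, pv_j hla hlb]
    simp [hcl]

/-- four lines through the point of the frame given by three points on a horizontal line -/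
theorem frame_row {A : ι → Fin 3 → ℝ} {a b : ι} {e1 e2 p : Fin 3 → ℝ}
    {κ c d : ι → ℝ} (hG : ∀ (i : ι) (X : Fin 3 → ℝ),
      rlin A i (X 0 • e1 + X 1 • e2 + X 2 • p) = κ i * pv a b c d i X)
    {i j l : ι} (hia : i ≠ a) (hib : i ≠ b) (hja : j ≠ a) (hjb : j ≠ b) (hla : l ≠ a)
    (hlb : l ≠ b) (hij : i ≠ j) (hil : i ≠ l) (hjl : j ≠ l) (hcj : d i = d j) (hcl : d i = d l) :
    4 ≤ {m | rlin A m ((0 : ℝ) • e1 + (1 : ℝ) • e2 + (-d i) • p) = 0}.ncard := by
  have hGc : ∀ (m : ι) (x y z : ℝ), rlin A m (x • e1 + y • e2 + z • p)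
      = κ m * pv a b c d m ![x, y, z] := fun m x y z => hG m ![x, y, z]
  refine four_le_ncard (w := ![a, i, j, l])
    (plane_inj_four hia.symm hja.symm hla.symm hij hil hjl) fun k => ?_
  fin_cases k
  · show rlin A a _ = 0
    rw [hGc, pv_a]
    simp
  · show rlin A i _ = 0
    rw [hGc, pv_j hia hib]
    simp
  · show rlin A j _ = 0
    rw [hGc, pv_j hja hjb]
    simp [hcj]
  · show rlin A l _ = 0
    rw [hGc, pv_j hla hlb]
    simp [hcl]

theorem exists_three_others {a b : ι} (hab : a ≠ b) (h5 : 5 ≤ Fintype.card ι) :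
    ∃ i j l, (i ≠ a ∧ i ≠ b) ∧ (j ≠ a ∧ j ≠ b) ∧ (l ≠ a ∧ l ≠ b) ∧ i ≠ j ∧ i ≠ l ∧ j ≠ l := by
  classical
  have h1 : 3 ≤ (Finset.univ \ {a, b} : Finset ι).card := by
    have h2 := Finset.le_card_sdiff {a, b} (Finset.univ : Finset ι)
    rw [Finset.card_pair hab, Finset.card_univ] at h2
    omega
  obtain ⟨s, hs, hs3⟩ := Finset.exists_subset_card_eq h1
  obtain ⟨i, j, l, hij, hil, hjl, rfl⟩ := Finset.card_eq_three.1 hs3
  have hm : ∀ q ∈ ({i, j, l} : Finset ι), q ≠ a ∧ q ≠ b := by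
    intro q hq
    have := hs hq
    simp only [Finset.mem_sdiff, Finset.mem_univ, true_and, Finset.mem_insert,
      Finset.mem_singleton, not_or] at this
    exact this
  exact ⟨i, j, l, hm i (by simp), hm j (by simp), hm l (by simp), hij, hil, hjl⟩

/-- A real configuration of at least five lines, with only double and triple points, all of whose
chambers have at most three walls, is the complete quadrangle or the complete quadrangle together
with a line through two of its double points. -/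
theorem simplicial_three (A : ι → Fin 3 → ℝ) (hA : IsConfig (cx A)) (h5 : 5 ≤ Fintype.card ι)
    (h3 : ∀ p : Fin 3 → ℝ, p ≠ 0 → {i | rlin A i p = 0}.ncard ≤ 3)
    (hw : ∀ x : Fin 3 → ℝ, (∀ i, rlin A i x ≠ 0) → {i | IsWall A x i}.ncard ≤ 3) :
    RealEquiv A quad6 ∨ RealEquiv A quad7 := by
  obtain ⟨a, b, hab, p, hp, hpa, hpb, hpj⟩ := exists_double A hA
  obtain ⟨e1, e2, h1a, h1b, h2a, h2b⟩ := exists_frame hA hab hp hpa hpb
  obtain ⟨κ, hκ, hG⟩ := frame hab hpa hpb hpj h1a h1b h2a h2b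
  refine classify A hA hab hκ hG (nf_of_walls hκ hG hw) ?_ ?_ (exists_three_others hab h5)
  · intro i j l hia hib hja hjb hla hlb hij hil hjl hcj hcl _
    have h1 := frame_col hab hG hia hib hja hjb hla hlb hij hil hjl hcj hcl
    have h2 := h3 _ (frame_ne hab hκ hG 1 0 (-(rlin A i e1 / rlin A i p)) (Or.inl one_ne_zero))
    exact absurd (h1.trans h2) (by norm_num)
  · intro i j l hia hib hja hjb hla hlb hij hil hjl hcj hcl _
    have h1 := frame_row hG hia hib hja hjb hla hlb hij hil hjl hcj hcl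
    have h2 := h3 _ (frame_ne hab hκ hG 0 1 (-(rlin A i e2 / rlin A i p)) (Or.inr one_ne_zero))
    exact absurd (h1.trans h2) (by norm_num)

end

end Pool.Agent.H.MP_02294b_ag.Cov
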