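import Pool.Agent.H.MP_02294b_ag.Cov.One1
import Pool.Agent.H.MP_02294b_ag.Cov.Seven2

/-! Real configurations with one point of high multiplicity: every double point is adjacent to the
point of high multiplicity. -/

set_option autoImplicit false
set_option linter.unusedSectionVars false

open Set Filter Topology Matrix
open scoped LinearAlgebra.Projectivization

namespace Pool.Agent.H.MP_02294b_ag.Cov

section

variable {ι : Type} [Fintype ι]

/-- A real configuration without a chamber with four walls, in which the point `o` is the only point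
on more than three lines. -/
structure OneHigh (A : ι → Fin 3 → ℝ) (o : Fin 3 → ℝ) : Prop where
  config : IsConfig (cx A)
  ne : o ≠ 0
  mult : ∀ p : Fin 3 → ℝ, p ≠ 0 → 4 ≤ {i | rlin A i p = 0}.ncard → ∃ c : ℝ, p = c • o
  walls : ∀ x : Fin 3 → ℝ, (∀ i, rlin A i x ≠ 0) → {i | IsWall A x i}.ncard ≤ 3
  five : 5 ≤ Fintype.card ι
  nquad : ¬ (RealEquiv A quad6 ∨ RealEquiv A quad7)

theorem sign_of_smul {A : ι → Fin 3 → ℝ} {o q p : Fin 3 → ℝ} {r : ℝ} (hr : r ≠ 0) (hq : q = r • o)
    (h : (∀ j, 0 ≤ rlin A j q * rlin A j p) ∨ ∀ j, rlin A j q * rlin A j p ≤ 0) :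
    (∀ j, 0 ≤ rlin A j o * rlin A j p) ∨ ∀ j, rlin A j o * rlin A j p ≤ 0 := by
  have key : ∀ j, rlin A j q * rlin A j p = r * (rlin A j o * rlin A j p) := by
    intro j
    rw [hq, rlin_smul]
    ring
  rcases lt_or_gt_of_ne hr with h1 | h1
  · rcases h with h2 | h2
    · right
      intro j
      have := h2 j
      rw [key] at this
      by_contra hcon
      push Not at hcon
      have := mul_neg_of_neg_of_pos h1 hcon
      linarith
    · left
      intro j
      have := h2 j
      rw [key] at this
      by_contra hcon
      push Not at hcon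
      have := mul_pos_of_neg_of_neg h1 hcon
      linarith
  · rcases h with h2 | h2
    · left
      intro j
      have := h2 j
      rw [key] at this
      by_contra hcon
      push Not at hcon
      have := mul_neg_of_pos_of_neg h1 hcon
      linarith
    · right
      intro j
      have := h2 j
      rw [key] at this
      by_contra hcon
      push Not at hcon
      have := mul_pos h1 hcon
      linarith

/-- The point of high multiplicity lies on one of the two lines through a double point, and no line
separates the two points. -/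
theorem double_adjacent {A : ι → Fin 3 → ℝ} {o : Fin 3 → ℝ} (H : OneHigh A o) {a b : ι}
    (hab : a ≠ b) {p : Fin 3 → ℝ} (hp : p ≠ 0) (hpa : rlin A a p = 0) (hpb : rlin A b p = 0)
    (hpj : ∀ j, j ≠ a → j ≠ b → rlin A j p ≠ 0) :
    (rlin A a o = 0 ∨ rlin A b o = 0) ∧
      ((∀ j, 0 ≤ rlin A j o * rlin A j p) ∨ ∀ j, rlin A j o * rlin A j p ≤ 0) := by
  obtain ⟨e1, e2, h1a, h1b, h2a, h2b⟩ := exists_frame H.config hab hp hpa hpb
  obtain ⟨κ, hκ, hG⟩ := frame hab hpa hpb hpj h1a h1b h2a h2b
  by_contra hcon
  apply H.nquad
  refine classify A H.config hab hκ hG (nf_of_walls hκ hG H.walls) ?_ ?_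
    (exists_three_others hab H.five)
  · intro i j l hia hib hja hjb hla hlb hij hil hjl hcj hcl hext
    apply hcon
    have h1 := frame_col hab hG hia hib hja hjb hla hlb hij hil hjl hcj hcl
    have h2 := frame_ne hab hκ hG 1 0 (-(rlin A i e1 / rlin A i p)) (Or.inl one_ne_zero)
    obtain ⟨r, hr⟩ := H.mult _ h2 h1
    have hr0 : r ≠ 0 := by
      rintro rfl
      exact h2 (by rw [hr, zero_smul])
    constructor
    · right
      have h3 : rlin A b ((1 : ℝ) • e1 + (0 : ℝ) • e2 + (-(rlin A i e1 / rlin A i p)) • p) = 0 := by
        rw [rlin_add, rlin_add, rlin_smul, rlin_smul, rlin_smul, h1b, hpb]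
        ring
      rw [hr, rlin_smul] at h3
      exact (mul_eq_zero.1 h3).resolve_left hr0
    · refine sign_of_smul hr0 hr ?_
      have hval : ∀ m, rlin A m ((1 : ℝ) • e1 + (0 : ℝ) • e2 + (-(rlin A i e1 / rlin A i p)) • p)
          * rlin A m p = (rlin A m e1 - rlin A i e1 / rlin A i p * rlin A m p) * rlin A m p := by
        intro m
        rw [rlin_add, rlin_add, rlin_smul, rlin_smul, rlin_smul]
        ring
      have hval2 : ∀ m, m ≠ a → m ≠ b →
          (rlin A m e1 - rlin A i e1 / rlin A i p * rlin A m p) * rlin A m p
            = (rlin A m p) ^ 2 * (rlin A m e1 / rlin A m p - rlin A i e1 / rlin A i p) := by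
        intro m hma hmb
        have := hpj m hma hmb
        field_simp
      rcases hext with h3 | h3
      · left
        intro m
        rw [hval]
        by_cases hma : m = a
        · rw [hma, hpa, mul_zero]
        by_cases hmb : m = b
        · rw [hmb, hpb, mul_zero]
        rw [hval2 m hma hmb]
        have h4 : rlin A i e1 / rlin A i p ≤ rlin A m e1 / rlin A m p := h3 m hma hmb
        exact mul_nonneg (sq_nonneg _) (by linarith)
      · right
        intro m
        rw [hval]
        by_cases hma : m = a
        · rw [hma, hpa, mul_zero]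
        by_cases hmb : m = b
        · rw [hmb, hpb, mul_zero]
        rw [hval2 m hma hmb]
        have h4 : rlin A m e1 / rlin A m p ≤ rlin A i e1 / rlin A i p := h3 m hma hmb
        exact mul_nonpos_of_nonneg_of_nonpos (sq_nonneg _) (by linarith)
  · intro i j l hia hib hja hjb hla hlb hij hil hjl hcj hcl hext
    apply hcon
    have h1 := frame_row hG hia hib hja hjb hla hlb hij hil hjl hcj hcl
    have h2 := frame_ne hab hκ hG 0 1 (-(rlin A i e2 / rlin A i p)) (Or.inr one_ne_zero)
    obtain ⟨r, hr⟩ := H.mult _ h2 h1
    have hr0 : r ≠ 0 := by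
      rintro rfl
      exact h2 (by rw [hr, zero_smul])
    constructor
    · left
      have h3 : rlin A a ((0 : ℝ) • e1 + (1 : ℝ) • e2 + (-(rlin A i e2 / rlin A i p)) • p) = 0 := by
        rw [rlin_add, rlin_add, rlin_smul, rlin_smul, rlin_smul, h2a, hpa]
        ring
      rw [hr, rlin_smul] at h3
      exact (mul_eq_zero.1 h3).resolve_left hr0
    · refine sign_of_smul hr0 hr ?_
      have hval : ∀ m, rlin A m ((0 : ℝ) • e1 + (1 : ℝ) • e2 + (-(rlin A i e2 / rlin A i p)) • p)
          * rlin A m p = (rlin A m e2 - rlin A i e2 / rlin A i p * rlin A m p) * rlin A m p := by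
        intro m
        rw [rlin_add, rlin_add, rlin_smul, rlin_smul, rlin_smul]
        ring
      have hval2 : ∀ m, m ≠ a → m ≠ b →
          (rlin A m e2 - rlin A i e2 / rlin A i p * rlin A m p) * rlin A m p
            = (rlin A m p) ^ 2 * (rlin A m e2 / rlin A m p - rlin A i e2 / rlin A i p) := by
        intro m hma hmb
        have := hpj m hma hmb
        field_simp
      rcases hext with h3 | h3
      · left
        intro m
        rw [hval]
        by_cases hma : m = a
        · rw [hma, hpa, mul_zero]
        by_cases hmb : m = b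
        · rw [hmb, hpb, mul_zero]
        rw [hval2 m hma hmb]
        have h4 : rlin A i e2 / rlin A i p ≤ rlin A m e2 / rlin A m p := h3 m hma hmb
        exact mul_nonneg (sq_nonneg _) (by linarith)
      · right
        intro m
        rw [hval]
        by_cases hma : m = a
        · rw [hma, hpa, mul_zero]
        by_cases hmb : m = b
        · rw [hmb, hpb, mul_zero]
        rw [hval2 m hma hmb]
        have h4 : rlin A m e2 / rlin A m p ≤ rlin A i e2 / rlin A i p := h3 m hma hmb
        exact mul_nonpos_of_nonneg_of_nonpos (sq_nonneg _) (by linarith)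

end

end Pool.Agent.H.MP_02294b_ag.Cov
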