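import Pool.Agent.H.MP_02294b_ag.Cov.One2

/-! Real configurations with one point of high multiplicity: the vertices next to this point. -/

set_option autoImplicit false
set_option linter.unusedSectionVars false

open Set Filter Topology Matrix
open scoped LinearAlgebra.Projectivization

namespace Pool.Agent.H.MP_02294b_ag.Cov

section

variable {ι : Type} [Fintype ι]

theorem frame_inj {A : ι → Fin 3 → ℝ} (hA : IsConfig (cx A)) {a b : ι} (hab : a ≠ b)
    {e1 e2 p : Fin 3 → ℝ} {κ c d : ι → ℝ} (hκ : ∀ i, κ i ≠ 0)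
    (hG : ∀ (i : ι) (X : Fin 3 → ℝ),
      rlin A i (X 0 • e1 + X 1 • e2 + X 2 • p) = κ i * pv a b c d i X) :
    ∀ i j, i ≠ a → i ≠ b → j ≠ a → j ≠ b → c i = c j → d i = d j → i = j := by
  have hGc : ∀ (i : ι) (x y z : ℝ), rlin A i (x • e1 + y • e2 + z • p)
      = κ i * pv a b c d i ![x, y, z] := fun i x y z => hG i ![x, y, z]
  intro i j hia hib hja hjb hc hd
  by_contra hij
  have v1 : rlin A i ((1 : ℝ) • e1 + (0 : ℝ) • e2 + (-c i) • p) = 0 := by
    rw [hGc, pv_j hia hib]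
    simp
  have v2 : rlin A j ((1 : ℝ) • e1 + (0 : ℝ) • e2 + (-c i) • p) = 0 := by
    rw [hGc, pv_j hja hjb]
    simp [hc]
  have v3 : rlin A i ((0 : ℝ) • e1 + (1 : ℝ) • e2 + (-d i) • p) = 0 := by
    rw [hGc, pv_j hia hib]
    simp
  have v4 : rlin A j ((0 : ℝ) • e1 + (1 : ℝ) • e2 + (-d i) • p) = 0 := by
    rw [hGc, pv_j hja hjb]
    simp [hd]
  refine not_two hA (l := a) hij ?_ ?_ (frame_ne hab hκ hG 0 1 (-d i) (Or.inr one_ne_zero))
    v1 v2 v3 v4
  · rw [hGc, pv_a]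
    simpa using hκ a
  · rw [hGc, pv_a]
    simp

/-- Two lines through the point `o` do not meet in another point. -/
theorem pencil_unique {A : ι → Fin 3 → ℝ} (hA : IsConfig (cx A)) {o q : Fin 3 → ℝ} {i j m : ι}
    (hij : i ≠ j) (hio : rlin A i o = 0) (hjo : rlin A j o = 0) (hmo : rlin A m o ≠ 0)
    (hq : q ≠ 0) (hmq : rlin A m q = 0) (hiq : rlin A i q = 0) (hjq : rlin A j q = 0) : False :=
  not_two hA hij hmo hmq hq hio hjo hiq hjq

/-- The corners of the picture at a double point which is adjacent to the point `o`. -/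
theorem corners {A : ι → Fin 3 → ℝ} {o : Fin 3 → ℝ} (H : OneHigh A o)
    (h4 : 4 ≤ {i | rlin A i o = 0}.ncard) {a b : ι} (hab : a ≠ b) {p e1 : Fin 3 → ℝ}
    (hpa : rlin A a p = 0) (hpb : rlin A b p = 0)
    (hpj : ∀ j, j ≠ a → j ≠ b → rlin A j p ≠ 0) (hao : rlin A a o = 0) (hbo : rlin A b o ≠ 0)
    (hsign : ∀ m, 0 ≤ rlin A m o * rlin A m p) (h1a : rlin A a e1 ≠ 0) (h1b : rlin A b e1 = 0)
    (hs : ∃ m, m ≠ b ∧ rlin A m o ≠ 0) :
    ∃ i1 i3 : ι, (i1 ≠ a ∧ i1 ≠ b) ∧ rlin A i1 o = 0 ∧ (i3 ≠ a ∧ i3 ≠ b) ∧ rlin A i3 o ≠ 0 ∧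
      (∀ m, m ≠ a → m ≠ b → rlin A i1 e1 / rlin A i1 p ≤ rlin A m e1 / rlin A m p) ∧
      ∀ m, m ≠ a → m ≠ b → rlin A i3 e1 / rlin A i3 p ≤ rlin A m e1 / rlin A m p := by
  obtain ⟨κ, hκ, hG⟩ := frame hab hpa hpb hpj h1a h1b hao hbo
  have hNF := nf_of_walls hκ hG H.walls
  have hinj := frame_inj H.config hab hκ hG
  have hinj' : ∀ i j, i ≠ a → i ≠ b → j ≠ a → j ≠ b → rlin A i e1 / rlin A i p
      = rlin A j e1 / rlin A j p → -(rlin A i o / rlin A i p) = -(rlin A j o / rlin A j p) →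
      i = j := fun i j h1 h2 h3 h4 h5 h6 => hinj i j h1 h2 h3 h4 h5 (neg_injective h6)
  -- a second line through `o`
  obtain ⟨m0, hm0a, hm0⟩ : ∃ m, m ≠ a ∧ rlin A m o = 0 := by
    by_contra hcon
    push Not at hcon
    have h1 : {i | rlin A i o = 0} ⊆ {a} := by
      intro i hi
      by_contra hia
      exact hcon i hia hi
    have h2 := ncard_le_ncard h1 (finite_singleton a)
    rw [ncard_singleton] at h2
    omega
  have hm0b : m0 ≠ b := by
    rintro rfl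
    exact hbo hm0
  obtain ⟨m1, hm1b, hm1⟩ := hs
  have hm1a : m1 ≠ a := by
    rintro rfl
    exact hm1 hao
  have hdnn : ∀ m, m ≠ a → m ≠ b → 0 ≤ rlin A m o / rlin A m p := by
    intro m hma hmb
    have h1 := hpj m hma hmb
    have h2 : rlin A m o / rlin A m p = (rlin A m o * rlin A m p) / (rlin A m p) ^ 2 := by
      field_simp
    rw [h2]
    exact div_nonneg (hsign m) (sq_nonneg _)
  obtain ⟨i1, h1a', h1b', hi1⟩ := exists_corner hab hNF ⟨m0, hm0a, hm0b⟩ hinj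
  obtain ⟨i3, h3a', h3b', hi3⟩ := exists_corner hab (nf_flip_d hNF) ⟨m0, hm0a, hm0b⟩ hinj'
  refine ⟨i1, i3, ⟨h1a', h1b'⟩, ?_, ⟨h3a', h3b'⟩, ?_, fun m ha hb => (hi1 m ha hb).1,
    fun m ha hb => (hi3 m ha hb).1⟩
  · have h1 := (hi1 m0 hm0a hm0b).2
    have h2 := hdnn i1 h1a' h1b'
    rw [hm0, zero_div] at h1
    have h3 : rlin A i1 o / rlin A i1 p = 0 := le_antisymm h1 h2
    exact (div_eq_zero_iff.1 h3).resolve_right (hpj i1 h1a' h1b')
  · intro h0
    have h1 : -(rlin A i3 o / rlin A i3 p) ≤ -(rlin A m1 o / rlin A m1 p) :=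
      (hi3 m1 hm1a hm1b).2
    rw [h0, zero_div, neg_zero] at h1
    have h2 := hdnn m1 hm1a hm1b
    have h3 : rlin A m1 o / rlin A m1 p = 0 := le_antisymm (by linarith) h2
    exact hm1 ((div_eq_zero_iff.1 h3).resolve_right (hpj m1 hm1a hm1b))

/-- `S` is the set of the lines not through `o` which pass through one of the two vertices of the
line `a` next to the point `o`. -/
def Slot (A : ι → Fin 3 → ℝ) (o : Fin 3 → ℝ) (a : ι) (S : Finset ι) : Prop :=
  rlin A a o = 0 ∧ S.Nonempty ∧ ∃ q, q ≠ 0 ∧ rlin A a q = 0 ∧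
    (∀ m, rlin A m o ≠ 0 → 0 ≤ rlin A m q * rlin A m o) ∧
    ∀ m, m ∈ S ↔ (rlin A m o ≠ 0 ∧ rlin A m q = 0)

/-- A side of the picture at a double point next to the point `o`. -/
theorem side_slot {A : ι → Fin 3 → ℝ} {o : Fin 3 → ℝ} (H : OneHigh A o)
    (h4 : 4 ≤ {i | rlin A i o = 0}.ncard) {a b : ι} (hab : a ≠ b) {p e1 : Fin 3 → ℝ}
    (hpa : rlin A a p = 0) (hpb : rlin A b p = 0)
    (hpj : ∀ j, j ≠ a → j ≠ b → rlin A j p ≠ 0) (hao : rlin A a o = 0) (hbo : rlin A b o ≠ 0)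
    (hsign : ∀ m, 0 ≤ rlin A m o * rlin A m p) (h1a : rlin A a e1 ≠ 0) (h1b : rlin A b e1 = 0)
    (hs : ∃ m, m ≠ b ∧ rlin A m o ≠ 0) :
    ∃ (i1 : ι) (S : Finset ι), (i1 ≠ a ∧ i1 ≠ b) ∧ rlin A i1 o = 0 ∧
      (∀ m, m ≠ a → m ≠ b → rlin A i1 e1 / rlin A i1 p ≤ rlin A m e1 / rlin A m p) ∧
      Slot A o i1 S ∧ b ∈ S ∧ S.card = 2 := by
  classical
  obtain ⟨i1, i3, ⟨h1a', h1b'⟩, h1o, ⟨h3a', h3b'⟩, h3o, hi1, hi3⟩ :=
    corners H h4 hab hpa hpb hpj hao hbo hsign h1a h1b hs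
  obtain ⟨t, ht⟩ : ∃ t : ℝ, t = rlin A i1 e1 / rlin A i1 p := ⟨_, rfl⟩
  obtain ⟨q, hq⟩ : ∃ q : Fin 3 → ℝ, q = e1 + (-t) • p := ⟨_, rfl⟩
  have hqv : ∀ m, rlin A m q = rlin A m e1 - t * rlin A m p := by
    intro m
    rw [hq, rlin_add, rlin_smul]
    ring
  have hqa : rlin A a q ≠ 0 := by
    rw [hqv, hpa, mul_zero, sub_zero]
    exact h1a
  have hq0 : q ≠ 0 := by
    rintro h0
    apply hqa
    rw [h0]
    simp [rlin]
  have hqb : rlin A b q = 0 := by
    rw [hqv, hpb, mul_zero, sub_zero, h1b]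
  have hq1 : rlin A i1 q = 0 := by
    rw [hqv, ht]
    have := hpj i1 h1a' h1b'
    field_simp
    ring
  have hq3 : rlin A i3 q = 0 := by
    have h1 : rlin A i3 e1 / rlin A i3 p = t := by
      rw [ht]
      exact le_antisymm (hi3 i1 h1a' h1b') (hi1 i3 h3a' h3b')
    rw [hqv, ← h1]
    have := hpj i3 h3a' h3b'
    field_simp
    ring
  have hnn : ∀ m, rlin A m o ≠ 0 → 0 ≤ rlin A m q * rlin A m o := by
    intro m hmo
    have hma : m ≠ a := by
      rintro rfl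
      exact hmo hao
    by_cases hmb : m = b
    · rw [hmb, hqb, zero_mul]
    · have h1 := hpj m hma hmb
      have h2 := hi1 m hma hmb
      rw [← ht] at h2
      have h3 : 0 < rlin A m o * rlin A m p :=
        lt_of_le_of_ne (hsign m) (Ne.symm (mul_ne_zero hmo h1))
      have h5 : rlin A m q * rlin A m o
          = (rlin A m e1 / rlin A m p - t) * (rlin A m o * rlin A m p) := by
        rw [hqv]
        field_simp
      rw [h5]
      exact mul_nonneg (by linarith) h3.le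
  refine ⟨i1, Finset.univ.filter fun m => rlin A m o ≠ 0 ∧ rlin A m q = 0, ⟨h1a', h1b'⟩, h1o, hi1,
    ⟨h1o, ⟨b, by simp [hbo, hqb]⟩, q, hq0, hq1, hnn, fun m => by simp⟩, by simp [hbo, hqb], ?_⟩
  apply le_antisymm
  · -- at most three lines pass through `q`
    by_contra hcon
    push Not at hcon
    have h5 : 4 ≤ {m | rlin A m q = 0}.ncard := by
      have h6 : (insert i1 (Finset.univ.filter fun m => rlin A m o ≠ 0 ∧ rlin A m q = 0)).card
          = (Finset.univ.filter fun m => rlin A m o ≠ 0 ∧ rlin A m q = 0).card + 1 := by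
        apply Finset.card_insert_of_notMem
        simp [h1o]
      have h7 : ((insert i1 (Finset.univ.filter fun m => rlin A m o ≠ 0 ∧ rlin A m q = 0) :
          Finset ι) : Set ι) ⊆ {m | rlin A m q = 0} := by
        intro m hm
        rw [Finset.coe_insert, Set.mem_insert_iff] at hm
        rcases hm with rfl | hm
        · exact hq1
        · simp only [Finset.coe_filter, Finset.mem_univ, true_and, Set.mem_ofPred_eq] at hm
          exact hm.2
      have h8 := ncard_le_ncard h7 (toFinite _)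
      rw [ncard_coe_finset, h6] at h8
      omega
    obtain ⟨r, hr⟩ := H.mult q hq0 h5
    rw [hr, rlin_smul] at hqa
    exact hqa (by rw [hao, mul_zero])
  · have h6 : ({b, i3} : Finset ι) ⊆ Finset.univ.filter fun m => rlin A m o ≠ 0 ∧ rlin A m q = 0 := by
      intro m hm
      rw [Finset.mem_insert, Finset.mem_singleton] at hm
      rcases hm with rfl | rfl
      · simp [hbo, hqb]
      · simp [h3o, hq3]
    have h7 := Finset.card_le_card h6
    rwa [Finset.card_pair h3b'.symm] at h7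

/-- The two sides next to a double point adjacent to `o`. -/
theorem two_side_slots {A : ι → Fin 3 → ℝ} {o : Fin 3 → ℝ} (H : OneHigh A o)
    (h4 : 4 ≤ {i | rlin A i o = 0}.ncard) {a b : ι} (hab : a ≠ b) {p : Fin 3 → ℝ} (hp : p ≠ 0)
    (hpa : rlin A a p = 0) (hpb : rlin A b p = 0)
    (hpj : ∀ j, j ≠ a → j ≠ b → rlin A j p ≠ 0) (hao : rlin A a o = 0) (hbo : rlin A b o ≠ 0)
    (hsign : ∀ m, 0 ≤ rlin A m o * rlin A m p) (hs : ∃ m, m ≠ b ∧ rlin A m o ≠ 0) :
    ∃ (i1 i2 : ι) (S1 S2 : Finset ι), i1 ≠ i2 ∧ Slot A o i1 S1 ∧ Slot A o i2 S2 ∧ b ∈ S1 ∧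
      b ∈ S2 ∧ S1.card = 2 ∧ S2.card = 2 := by
  classical
  obtain ⟨e1, e2, h1a, h1b, -, -⟩ := exists_frame H.config hab hp hpa hpb
  have hneg : ∀ m, rlin A m ((-1 : ℝ) • e1) = -rlin A m e1 := by
    intro m
    rw [rlin_smul]
    ring
  obtain ⟨i1, S1, ⟨h1a', h1b'⟩, h1o, hi1, hS1, hb1, hc1⟩ :=
    side_slot H h4 hab hpa hpb hpj hao hbo hsign h1a h1b hs
  obtain ⟨i2, S2, ⟨h2a', h2b'⟩, h2o, hi2, hS2, hb2, hc2⟩ :=
    side_slot H h4 hab hpa hpb hpj hao hbo hsign (e1 := (-1 : ℝ) • e1)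
      (by rw [hneg]; exact neg_ne_zero.2 h1a) (by rw [hneg, h1b, neg_zero]) hs
  refine ⟨i1, i2, S1, S2, ?_, hS1, hS2, hb1, hb2, hc1, hc2⟩
  rintro rfl
  -- all the lines through `o` other than `a` coincide
  obtain ⟨κ, hκ, hG⟩ := frame hab hpa hpb hpj h1a h1b hao hbo
  have hinj := frame_inj H.config hab hκ hG
  have hall : ∀ m, m ≠ a → m ≠ b → rlin A m e1 / rlin A m p = rlin A i1 e1 / rlin A i1 p := by
    intro m ha hb
    apply le_antisymm _ (hi1 m ha hb)
    have h1 := hi2 m ha hb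
    rw [hneg, hneg, neg_div, neg_div] at h1
    linarith
  have h1 : {i | rlin A i o = 0} ⊆ {a, i1} := by
    intro m hm
    rw [mem_ofPred_eq] at hm
    by_cases hma : m = a
    · exact Or.inl hma
    · right
      have hmb : m ≠ b := by
        rintro rfl
        exact hbo hm
      exact hinj m i1 hma hmb h1a' h1b' (hall m hma hmb)
        (show rlin A m o / rlin A m p = rlin A i1 o / rlin A i1 p by
          rw [hm, h1o, zero_div, zero_div])
  have h2 := ncard_le_ncard h1 (toFinite _)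
  have h3 : ({a, i1} : Set ι).ncard ≤ 2 := Set.ncard_insert_le _ _ |>.trans (by
    rw [ncard_singleton])
  omega

end

end Pool.Agent.H.MP_02294b_ag.Cov
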