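import Pool.Agent.H.MP_02294b_ag.Cov.One3

/-! Real configurations with one point of high multiplicity: every line not through this point
contains a double point. -/

set_option autoImplicit false
set_option linter.unusedSectionVars false

open Set Filter Topology Matrix
open scoped LinearAlgebra.Projectivization

namespace Pool.Agent.H.MP_02294b_ag.Cov

section

variable {ι : Type} [Fintype ι]

/-- A double point does not lie on two lines through the point `o`. -/
theorem double_not_o {A : ι → Fin 3 → ℝ} {o : Fin 3 → ℝ} (hA : IsConfig (cx A)) (ho : o ≠ 0)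
    (h4 : 4 ≤ {i | rlin A i o = 0}.ncard) {a b : ι} (hab : a ≠ b) {p : Fin 3 → ℝ} (hp : p ≠ 0)
    (hpa : rlin A a p = 0) (hpb : rlin A b p = 0) (hpj : ∀ j, j ≠ a → j ≠ b → rlin A j p ≠ 0)
    (hao : rlin A a o = 0) (hbo : rlin A b o = 0) : False := by
  obtain ⟨r, hr⟩ := eq_smul_cr hA hab hpa hpb
  obtain ⟨s, hs⟩ := eq_smul_cr hA hab hao hbo
  have hr0 : r ≠ 0 := by
    rintro rfl
    exact hp (by rw [hr, zero_smul])
  have hs0 : s ≠ 0 := by
    rintro rfl
    exact ho (by rw [hs, zero_smul])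
  have h1 : {i | rlin A i o = 0} ⊆ {a, b} := by
    intro m hm
    rw [mem_ofPred_eq, hs, rlin_smul] at hm
    have hm' := (mul_eq_zero.1 hm).resolve_left hs0
    by_contra hcon
    rw [mem_insert_iff, mem_singleton_iff, not_or] at hcon
    apply hpj m hcon.1 hcon.2
    rw [hr, rlin_smul, hm', mul_zero]
  have h2 := ncard_le_ncard h1 (toFinite _)
  have h3 : ({a, b} : Set ι).ncard ≤ 2 := Set.ncard_insert_le _ _ |>.trans (by
    rw [ncard_singleton])
  omega

/-- The direction `u` (a point of the line `l`) of a ray from `o` which meets no line, on a line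
through `o`. -/
structure FreeDir (A : ι → Fin 3 → ℝ) (o : Fin 3 → ℝ) (l : ι) (u : Fin 3 → ℝ) : Prop where
  on : rlin A l u = 0
  ne : u ≠ 0
  free : ∀ m, rlin A m o ≠ 0 → 0 ≤ rlin A m o * rlin A m u
  line : ∃ g, rlin A g o = 0 ∧ rlin A g u = 0

theorem freeDir_aux {A : ι → Fin 3 → ℝ} {o : Fin 3 → ℝ} (H : OneHigh A o)
    (h4 : 4 ≤ {i | rlin A i o = 0}.ncard) {l : ι} (hlo : 0 < rlin A l o) {i j : ι}
    {v u : Fin 3 → ℝ} (hij : i ≠ j) (hvl : rlin A l v = 1) (hvi : rlin A i v = 0)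
    (hvj : rlin A j v = 0) (hv : ∀ m, m ≠ i → m ≠ j → rlin A m v ≠ 0) (hlu : rlin A l u = 0)
    (hiu : rlin A i u = 0) (hu0 : u ≠ 0) (hup : ∀ m, 0 ≤ rlin A m v * rlin A m u)
    (hjo : rlin A j o = 0) (hs : ∃ m, m ≠ i ∧ rlin A m o ≠ 0)
    (hsg : (∀ m, 0 ≤ rlin A m o * rlin A m v) ∨ ∀ m, rlin A m o * rlin A m v ≤ 0) :
    FreeDir A o l u := by
  have hv0 : v ≠ 0 := by
    rintro rfl
    simp [rlin] at hvl
  have hsign : ∀ m, 0 ≤ rlin A m o * rlin A m v := by
    rcases hsg with h | h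
    · exact h
    · have := h l
      rw [hvl, mul_one] at this
      linarith
  have hio : rlin A i o ≠ 0 := fun h0 =>
    double_not_o H.config H.ne h4 hij hv0 hvi hvj hv h0 hjo
  have hlv : rlin A l v ≠ 0 := by
    rw [hvl]
    exact one_ne_zero
  have hju : rlin A j u ≠ 0 := fun h0 =>
    not_two H.config hij hlv hlu hu0 hvi hvj hiu h0
  obtain ⟨i1, -, ⟨h1a, h1b⟩, h1o, -, -, hi1, -⟩ := corners H h4 hij.symm hvj hvi
    (fun m h1 h2 => hv m h2 h1) hjo hio hsign hju hiu hs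
  have hli : l ≠ i := by
    rintro rfl
    exact hlv hvi
  have hlj : l ≠ j := by
    rintro rfl
    exact hlv hvj
  refine ⟨hlu, hu0, fun m hmo => ?_, i1, h1o, ?_⟩
  · by_cases hmi : m = i
    · rw [hmi, hiu, mul_zero]
    · have hmj : m ≠ j := by
        rintro rfl
        exact hmo hjo
      have h1 := hv m hmi hmj
      have h2 := mul_nonneg (hup m) (hsign m)
      have h3 : rlin A m v * rlin A m u * (rlin A m o * rlin A m v)
          = (rlin A m v) ^ 2 * (rlin A m o * rlin A m u) := by ring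
      rw [h3] at h2
      have h5 : 0 < (rlin A m v) ^ 2 := by positivity
      exact (mul_nonneg_iff_of_pos_left h5).1 h2
  · have h1 := hi1 l hlj hli
    rw [hlu, zero_div] at h1
    have h2 := hv i1 h1b h1a
    have h3 : 0 ≤ rlin A i1 u / rlin A i1 v := by
      have h5 : rlin A i1 u / rlin A i1 v = (rlin A i1 v * rlin A i1 u) / (rlin A i1 v) ^ 2 := by
        field_simp
      rw [h5]
      exact div_nonneg (hup i1) (sq_nonneg _)
    exact (div_eq_zero_iff.1 (le_antisymm h1 h3)).resolve_right h2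

/-- In every generic direction there is a free ray from `o`, if no point of `l` is a double
point. -/
theorem freeDir_of_max {A : ι → Fin 3 → ℝ} {o : Fin 3 → ℝ} (H : OneHigh A o)
    (h4 : 4 ≤ {i | rlin A i o = 0}.ncard) {l : ι} (hlo : 0 < rlin A l o)
    (hd : ∀ j, l ≠ j → ∃ i, i ≠ l ∧ i ≠ j ∧ rlin A i (cr A l j) = 0)
    (φ : Module.Dual ℝ (Fin 3 → ℝ)) (hφ : ∀ j, l ≠ j → φ (cr A l j) ≠ 0)
    (hs : ∀ b, ∃ m, m ≠ b ∧ rlin A m o ≠ 0) :
    ∃ u, φ u = 1 ∧ FreeDir A o l u := by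
  obtain ⟨i, j, v, ui, uj, hij, hvl, hvi, hvj, hv, hli, hlj, hii, hjj, hφi, hφj, hupi, hupj⟩ :=
    max_vertex A H.config l hd φ hφ
  have hv0 : v ≠ 0 := by
    rintro rfl
    simp [rlin] at hvl
  have hne : ∀ u : Fin 3 → ℝ, φ u = 1 → u ≠ 0 := by
    rintro u hu rfl
    rw [map_zero] at hu
    exact zero_ne_one hu
  obtain ⟨h1, h2⟩ := double_adjacent H hij hv0 hvi hvj hv
  rcases h1 with h1 | h1
  · exact ⟨uj, hφj, freeDir_aux H h4 hlo hij.symm hvl hvj hvi (fun m k1 k2 => hv m k2 k1) hlj hjj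
      (hne uj hφj) hupj h1 (hs j) h2⟩
  · exact ⟨ui, hφi, freeDir_aux H h4 hlo hij hvl hvi hvj hv hli hii (hne ui hφi) hupi h1
      (hs i) h2⟩

theorem freeDir_sep {A : ι → Fin 3 → ℝ} {o : Fin 3 → ℝ} (hA : IsConfig (cx A)) {l : ι}
    (hlo : rlin A l o ≠ 0)
    (hd : ∀ j, l ≠ j → ∃ i, i ≠ l ∧ i ≠ j ∧ rlin A i (cr A l j) = 0) {u u' w : Fin 3 → ℝ}
    (hu : FreeDir A o l u) (hu' : FreeDir A o l u') {s s' : ℝ} (hs : 0 < s) (hs' : 0 < s')
    (hw : w = s • u + s' • u') (hw0 : w ≠ 0) {g : ι} (hgo : rlin A g o = 0)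
    (hgw : rlin A g w = 0) : ∃ r : ℝ, u = r • u' := by
  have hlg : l ≠ g := by
    rintro rfl
    exact hlo hgo
  have hlw : rlin A l w = 0 := by
    rw [hw, rlin_add, rlin_smul, rlin_smul, hu.on, hu'.on]
    ring
  obtain ⟨t, ht⟩ := eq_smul_cr hA hlg hlw hgw
  obtain ⟨m, hml, hmg, hm⟩ := hd g hlg
  have hmw : rlin A m w = 0 := by
    rw [ht, rlin_smul, hm, mul_zero]
  have hmo : rlin A m o ≠ 0 := fun h0 => not_two hA hmg hlo hlw hw0 h0 hgo hmw hgw
  have h1 : s * (rlin A m o * rlin A m u) + s' * (rlin A m o * rlin A m u') = 0 := by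
    have h2 : s * rlin A m u + s' * rlin A m u' = 0 := by
      rw [← rlin_smul, ← rlin_smul, ← rlin_add, ← hw]
      exact hmw
    linear_combination (rlin A m o) * h2
  have h2 := mul_nonneg hs.le (hu.free m hmo)
  have h3 := mul_nonneg hs'.le (hu'.free m hmo)
  have h5 : s * (rlin A m o * rlin A m u) = 0 := by linarith
  have h6 : s' * (rlin A m o * rlin A m u') = 0 := by linarith
  have h7 : rlin A m u = 0 :=
    (mul_eq_zero.1 ((mul_eq_zero.1 h5).resolve_left hs.ne')).resolve_left hmo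
  have h8 : rlin A m u' = 0 :=
    (mul_eq_zero.1 ((mul_eq_zero.1 h6).resolve_left hs'.ne')).resolve_left hmo
  obtain ⟨r, hr⟩ := eq_smul_cr hA hml h7 hu.on
  obtain ⟨r', hr'⟩ := eq_smul_cr hA hml h8 hu'.on
  have hr0 : r' ≠ 0 := by
    rintro rfl
    exact hu'.ne (by rw [hr', zero_smul])
  refine ⟨r / r', ?_⟩
  rw [hr, hr', smul_smul, div_mul_cancel₀ _ hr0]

theorem freeDir_opp {A : ι → Fin 3 → ℝ} {o : Fin 3 → ℝ} (H : OneHigh A o) {l : ι}
    (hlo : rlin A l o ≠ 0) (hs3 : 3 ≤ {m | rlin A m o ≠ 0}.ncard) {u u' : Fin 3 → ℝ}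
    (hu : FreeDir A o l u) (hu' : FreeDir A o l u') {c : ℝ} (hc : c < 0) (hcu : u' = c • u) :
    False := by
  classical
  have hall : ∀ m, rlin A m o ≠ 0 → rlin A m u = 0 := by
    intro m hmo
    have h1 := hu.free m hmo
    have h2 := hu'.free m hmo
    rw [hcu, rlin_smul] at h2
    have h3 : rlin A m o * rlin A m u = 0 := by
      apply le_antisymm _ h1
      by_contra hcon
      push Not at hcon
      have := mul_neg_of_neg_of_pos hc hcon
      nlinarith
    exact (mul_eq_zero.1 h3).resolve_left hmo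
  obtain ⟨g, hgo, hgu⟩ := hu.line
  have h4 : 4 ≤ {i | rlin A i u = 0}.ncard := by
    have h5 : insert g {m | rlin A m o ≠ 0} ⊆ {i | rlin A i u = 0} := by
      intro m hm
      rw [mem_insert_iff] at hm
      rcases hm with rfl | hm
      · exact hgu
      · exact hall m hm
    have h6 := ncard_le_ncard h5 (toFinite _)
    rw [ncard_insert_of_notMem (by simp [hgo]) (toFinite _)] at h6
    omega
  obtain ⟨r, hr⟩ := H.mult u hu.ne h4
  have h5 := hu.on
  rw [hr, rlin_smul] at h5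
  have h6 := (mul_eq_zero.1 h5).resolve_right hlo
  exact hu.ne (by rw [hr, h6, zero_smul])

/-- Every line which does not pass through `o` contains a double point. -/
theorem exists_double_on_aux {A : ι → Fin 3 → ℝ} {o : Fin 3 → ℝ} (H : OneHigh A o)
    (h4 : 4 ≤ {i | rlin A i o = 0}.ncard) (hs3 : 3 ≤ {m | rlin A m o ≠ 0}.ncard) {l : ι}
    (hlo : 0 < rlin A l o)
    (hd : ∀ j, l ≠ j → ∃ i, i ≠ l ∧ i ≠ j ∧ rlin A i (cr A l j) = 0) : False := by
  classical
  have hs : ∀ b, ∃ m, m ≠ b ∧ rlin A m o ≠ 0 := by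
    intro b
    by_contra hcon
    push Not at hcon
    have h1 : {m | rlin A m o ≠ 0} ⊆ {b} := by
      intro m hm
      by_contra hmb
      exact hm (hcon m hmb)
    have h2 := ncard_le_ncard h1 (toFinite _)
    rw [ncard_singleton] at h2
    omega
  obtain ⟨φ, hφ⟩ := Module.exists_dual_forall_apply_ne_zero (K := ℝ)
    (fun j : {j : ι // l ≠ j} => cr A l j.1) fun j => cr_ne_zero H.config j.2
  have hφ' : ∀ j, l ≠ j → φ (cr A l j) ≠ 0 := fun j hj => hφ ⟨j, hj⟩
  obtain ⟨u1, hφ1, hu1⟩ := freeDir_of_max H h4 hlo hd φ hφ' hs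
  obtain ⟨u2, hφ2, hu2⟩ := freeDir_of_max H h4 hlo hd (-φ)
    (fun j hj => by rw [LinearMap.neg_apply]; exact neg_ne_zero.2 (hφ' j hj)) hs
  have hφ2' : φ u2 = -1 := by
    rw [LinearMap.neg_apply] at hφ2
    linarith
  -- two free directions are dependent only if they are equal up to a positive factor
  have hopp : ∀ x y : Fin 3 → ℝ, FreeDir A o l x → FreeDir A o l y → ∀ r : ℝ, r < 0 →
      x = r • y → False := fun x y hx hy r hr hxy => freeDir_opp H hlo.ne' hs3 hy hx hr hxy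
  have hsymm : ∀ x y : Fin 3 → ℝ, FreeDir A o l x → (∃ r : ℝ, x = r • y) → ∃ r : ℝ, y = r • x := by
    rintro x y hx ⟨r, hr⟩
    have hr0 : r ≠ 0 := by
      rintro rfl
      exact hx.ne (by rw [hr, zero_smul])
    exact ⟨r⁻¹, by rw [hr, smul_smul, inv_mul_cancel₀ hr0, one_smul]⟩
  have hn12 : ¬ ∃ r : ℝ, u1 = r • u2 := by
    rintro ⟨r, hr⟩
    have h1 := congrArg φ hr
    rw [map_smul, hφ1, hφ2', smul_eq_mul] at h1
    exact hopp u1 u2 hu1 hu2 r (by linarith) hr
  have hind : LinearIndependent ℝ ![u1, u2] := by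
    rw [LinearIndependent.pair_iff]
    intro s t hst
    have hs0 : s = 0 := by
      by_contra hs0
      apply hn12
      refine ⟨-(t / s), ?_⟩
      have h1 : s • u1 = -(t • u2) := eq_neg_of_add_eq_zero_left hst
      have h2 : u1 = s⁻¹ • (s • u1) := by rw [smul_smul, inv_mul_cancel₀ hs0, one_smul]
      rw [h2, h1, smul_neg, smul_smul, ← neg_smul]
      congr 1
      field_simp
    refine ⟨hs0, ?_⟩
    rw [hs0, zero_smul, zero_add] at hst
    exact (smul_eq_zero.1 hst).resolve_right hu2.ne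
  obtain ⟨f, hf⟩ : ∃ f : Module.Dual ℝ (Fin 3 → ℝ), ∀ i ∈ (univ : Set (Fin 2)),
      f ((![u1, u2] : Fin 2 → Fin 3 → ℝ) i) = 1 :=
    Module.exists_dual_forall_apply_eq_one (linearIndepOn_univ_iff.2 hind)
  have hf1 : f u1 = 1 := hf 0 (mem_univ _)
  have hf2 : f u2 = 1 := hf 1 (mem_univ _)
  obtain ⟨ε, hε0, hε1, hε⟩ : ∃ ε : ℝ, 0 < ε ∧ ε < 1 ∧ ∀ j, l ≠ j →
      -f (cr A l j) + ε * φ (cr A l j) ≠ 0 := by
    have h1 : ∀ᶠ ε in 𝓝[>] (0 : ℝ), ∀ j, l ≠ j → -f (cr A l j) + ε * φ (cr A l j) ≠ 0 := by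
      rw [eventually_all]
      intro j
      by_cases hj : l = j
      · exact Eventually.of_forall fun ε h => absurd hj h
      by_cases hfj : f (cr A l j) = 0
      · filter_upwards [self_mem_nhdsWithin] with ε hε _
        rw [hfj, neg_zero, zero_add]
        exact mul_ne_zero (ne_of_gt hε) (hφ' j hj)
      · have hc : Tendsto (fun ε : ℝ => -f (cr A l j) + ε * φ (cr A l j)) (𝓝[>] 0)
            (𝓝 (-f (cr A l j) + 0 * φ (cr A l j))) := by
          apply Tendsto.mono_left _ nhdsWithin_le_nhds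
          exact (continuous_const.add (continuous_id.mul continuous_const)).tendsto 0
        rw [zero_mul, add_zero] at hc
        filter_upwards [hc.eventually_ne (neg_ne_zero.2 hfj)] with ε hε _ using hε
    have h2 : ∀ᶠ ε in 𝓝[>] (0 : ℝ), ε < 1 :=
      nhdsWithin_le_nhds (eventually_lt_nhds one_pos)
    obtain ⟨ε, ⟨h3, h5⟩, h6⟩ := ((h1.and h2).and self_mem_nhdsWithin).exists
    exact ⟨ε, h6, h5, h3⟩
  obtain ⟨u3, hψ3, hu3⟩ := freeDir_of_max H h4 hlo hd (-f + ε • φ)
    (fun j hj => by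
      rw [LinearMap.add_apply, LinearMap.neg_apply, LinearMap.smul_apply, smul_eq_mul]
      exact hε j hj) hs
  have hψ3' : -f u3 + ε * φ u3 = 1 := by
    rw [LinearMap.add_apply, LinearMap.neg_apply, LinearMap.smul_apply, smul_eq_mul] at hψ3
    exact hψ3
  have hn31 : ¬ ∃ r : ℝ, u3 = r • u1 := by
    rintro ⟨r, hr⟩
    rw [hr, map_smul, map_smul, hf1, hφ1] at hψ3'
    simp only [smul_eq_mul] at hψ3'
    refine hopp u3 u1 hu3 hu1 r ?_ hr
    by_contra hcon
    push Not at hcon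
    nlinarith
  have hn32 : ¬ ∃ r : ℝ, u3 = r • u2 := by
    rintro ⟨r, hr⟩
    rw [hr, map_smul, map_smul, hf2, hφ2'] at hψ3'
    simp only [smul_eq_mul] at hψ3'
    refine hopp u3 u2 hu3 hu2 r ?_ hr
    by_contra hcon
    push Not at hcon
    nlinarith
  have hn21 : ¬ ∃ r : ℝ, u2 = r • u1 := fun h => hn12 (hsymm _ _ hu2 h)
  have hn13 : ¬ ∃ r : ℝ, u1 = r • u3 := fun h => hn31 (hsymm _ _ hu1 h)
  have hn23 : ¬ ∃ r : ℝ, u2 = r • u3 := fun h => hn32 (hsymm _ _ hu2 h)
  have hAl : A l ≠ 0 := by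
    intro h0
    apply hlo.ne'
    simp [rlin, h0]
  obtain ⟨c, hc, hrel⟩ := exists_rel ![u1, u2, u3] hAl (fun a => by
    have h1 : ∀ x, rlin A l x = 0 → ∑ j, x j * A l j = 0 := by
      intro x hx
      rw [rlin] at hx
      rw [← hx]
      exact Finset.sum_congr rfl fun j _ => mul_comm _ _
    fin_cases a
    · exact h1 u1 hu1.on
    · exact h1 u2 hu2.on
    · exact h1 u3 hu3.on)
  have hrel' : c 0 • u1 + c 1 • u2 + c 2 • u3 = 0 := hrel
  -- a relation in which two coefficients have the same sign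
  have key : ∀ (x y z : Fin 3 → ℝ) (α β γ : ℝ), FreeDir A o l x → FreeDir A o l y →
      FreeDir A o l z → 0 < α * β → γ ≠ 0 → α • x + β • y + γ • z = 0 →
      ∃ r : ℝ, x = r • y := by
    intro x y z α β γ hx hy hz hαβ hγ hr
    obtain ⟨g, hgo, hgz⟩ := hz.line
    rcases lt_trichotomy α 0 with hα | hα | hα
    · have hβ : β < 0 := by
        by_contra hcon
        push Not at hcon
        have := mul_nonpos_of_nonpos_of_nonneg hα.le hcon
        linarith
      have h1 : γ • z = (-α) • x + (-β) • y := by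
        have : γ • z = -(α • x + β • y) := by
          rw [add_comm] at hr
          exact eq_neg_of_add_eq_zero_left hr
        rw [this, neg_smul, neg_smul]
        abel
      exact freeDir_sep H.config hlo.ne' hd hx hy (neg_pos.2 hα) (neg_pos.2 hβ) h1
        (smul_ne_zero hγ hz.ne) hgo (by rw [rlin_smul, hgz, mul_zero])
    · rw [hα, zero_mul] at hαβ
      exact absurd hαβ (lt_irrefl _)
    · have hβ : 0 < β := by
        by_contra hcon
        push Not at hcon
        have := mul_nonpos_of_nonneg_of_nonpos hα.le hcon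
        linarith
      have h1 : (-γ) • z = α • x + β • y := by
        have : α • x + β • y = -(γ • z) := eq_neg_of_add_eq_zero_left hr
        rw [this, neg_smul]
      exact freeDir_sep H.config hlo.ne' hd hx hy hα hβ h1
        (smul_ne_zero (neg_ne_zero.2 hγ) hz.ne) hgo (by rw [rlin_smul, hgz, mul_zero])
  have hdep : ∀ (x y : Fin 3 → ℝ) (α β : ℝ), (¬ ∃ r : ℝ, x = r • y) → (¬ ∃ r : ℝ, y = r • x) →
      α • x + β • y = 0 → α = 0 ∧ β = 0 := by
    intro x y α β h1 h2 h3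
    constructor
    · by_contra h0
      apply h1
      refine ⟨-(β / α), ?_⟩
      have h5 : α • x = -(β • y) := eq_neg_of_add_eq_zero_left h3
      have h6 : x = α⁻¹ • (α • x) := by rw [smul_smul, inv_mul_cancel₀ h0, one_smul]
      rw [h6, h5, smul_neg, smul_smul, ← neg_smul]
      congr 1
      field_simp
    · by_contra h0
      apply h2
      refine ⟨-(α / β), ?_⟩
      have h5 : β • y = -(α • x) := by
        rw [add_comm] at h3
        exact eq_neg_of_add_eq_zero_left h3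
      have h6 : y = β⁻¹ • (β • y) := by rw [smul_smul, inv_mul_cancel₀ h0, one_smul]
      rw [h6, h5, smul_neg, smul_smul, ← neg_smul]
      congr 1
      field_simp
  have hzero : ∀ a b : ℝ, a = 0 → b = 0 → ∀ d : ℝ, d = 0 → c = ![a, b, d] → False := by
    rintro a b rfl rfl d rfl h
    apply hc
    rw [h]
    funext i
    fin_cases i <;> rfl
  have hceta : c = ![c 0, c 1, c 2] := by
    funext i
    fin_cases i <;> rfl
  have c0 : c 0 ≠ 0 := by
    intro h0
    rw [h0, zero_smul, zero_add] at hrel'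
    obtain ⟨h1, h2⟩ := hdep u2 u3 _ _ hn23 hn32 hrel'
    exact hzero _ _ h0 h1 _ h2 hceta
  have c1 : c 1 ≠ 0 := by
    intro h0
    rw [h0, zero_smul, add_zero] at hrel'
    obtain ⟨h1, h2⟩ := hdep u1 u3 _ _ hn13 hn31 hrel'
    exact hzero _ _ h1 h0 _ h2 hceta
  have c2 : c 2 ≠ 0 := by
    intro h0
    rw [h0, zero_smul, add_zero] at hrel'
    obtain ⟨h1, h2⟩ := hdep u1 u2 _ _ hn12 hn21 hrel'
    exact hzero _ _ h1 h2 _ h0 hceta
  rcases lt_or_gt_of_ne (mul_ne_zero c0 c1) with h1 | h1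
  · rcases lt_or_gt_of_ne (mul_ne_zero c0 c2) with h2 | h2
    · -- the coefficients of `u2` and `u3` have the same sign
      have h3 : 0 < c 1 * c 2 := by
        have h5 : 0 < (c 0 * c 1) * (c 0 * c 2) := mul_pos_of_neg_of_neg h1 h2
        have h6 : (c 0 * c 1) * (c 0 * c 2) = (c 0) ^ 2 * (c 1 * c 2) := by ring
        rw [h6] at h5
        exact (mul_pos_iff_of_pos_left (by positivity)).1 h5
      exact hn23 (key u2 u3 u1 _ _ _ hu2 hu3 hu1 h3 c0 (by rw [← hrel']; abel))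
    · exact hn13 (key u1 u3 u2 _ _ _ hu1 hu3 hu2 h2 c1 (by rw [← hrel']; abel))
  · exact hn12 (key u1 u2 u3 _ _ _ hu1 hu2 hu3 h1 c2 hrel')

theorem OneHigh.neg {A : ι → Fin 3 → ℝ} {o : Fin 3 → ℝ} (H : OneHigh A o) :
    OneHigh A ((-1 : ℝ) • o) :=
  { config := H.config
    ne := smul_ne_zero (by norm_num) H.ne
    mult := fun p hp h4 => by
      obtain ⟨c, hc⟩ := H.mult p hp h4
      exact ⟨-c, by rw [hc, smul_smul]; congr 1; ring⟩
    walls := H.walls
    five := H.five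
    nquad := H.nquad }

/-- Every line which does not pass through `o` contains a double point, on a line through `o`. -/
theorem exists_double_on {A : ι → Fin 3 → ℝ} {o : Fin 3 → ℝ} (H : OneHigh A o)
    (h4 : 4 ≤ {i | rlin A i o = 0}.ncard) (hs3 : 3 ≤ {m | rlin A m o ≠ 0}.ncard) {l : ι}
    (hlo : rlin A l o ≠ 0) :
    ∃ (a : ι) (p : Fin 3 → ℝ), a ≠ l ∧ p ≠ 0 ∧ rlin A a o = 0 ∧ rlin A a p = 0 ∧ rlin A l p = 0 ∧
      (∀ j, j ≠ a → j ≠ l → rlin A j p ≠ 0) ∧ ∀ m, 0 ≤ rlin A m o * rlin A m p := by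
  obtain ⟨j, hlj, hj⟩ : ∃ j, l ≠ j ∧ ∀ i, i ≠ l → i ≠ j → rlin A i (cr A l j) ≠ 0 := by
    by_contra hcon
    push Not at hcon
    rcases lt_or_gt_of_ne hlo with h1 | h1
    · have hn : ∀ m, rlin A m ((-1 : ℝ) • o) = -rlin A m o := fun m => by
        rw [rlin_smul]
        ring
      refine exists_double_on_aux H.neg (l := l) ?_ ?_ ?_ hcon
      · simpa only [hn, neg_eq_zero] using h4
      · simpa only [hn, ne_eq, neg_eq_zero] using hs3
      · rw [hn]
        linarith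
    · exact exists_double_on_aux H h4 hs3 h1 hcon
  have hp := cr_ne_zero H.config hlj
  obtain ⟨h1, h2⟩ := double_adjacent H hlj hp (rlin_cr_left A l j) (rlin_cr_right A l j) hj
  have h3 : rlin A j o = 0 := h1.resolve_left hlo
  rcases h2 with h2 | h2
  · exact ⟨j, cr A l j, hlj.symm, hp, h3, rlin_cr_right A l j, rlin_cr_left A l j,
      fun i h5 h6 => hj i h6 h5, h2⟩
  · refine ⟨j, (-1 : ℝ) • cr A l j, hlj.symm, smul_ne_zero (by norm_num) hp, h3, ?_, ?_, ?_, ?_⟩
    · rw [rlin_smul, rlin_cr_right, mul_zero]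
    · rw [rlin_smul, rlin_cr_left, mul_zero]
    · intro i h5 h6
      rw [rlin_smul]
      exact mul_ne_zero (by norm_num) (hj i h6 h5)
    · intro m
      rw [rlin_smul]
      have := h2 m
      linarith

end

end Pool.Agent.H.MP_02294b_ag.Cov
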