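import Pool.Agent.H.MP_02294b_ag.Cov.One4

/-! Real configurations with one point of high multiplicity: the number of lines. -/

set_option autoImplicit false
set_option linter.unusedSectionVars false

open Set Filter Topology Matrix
open scoped LinearAlgebra.Projectivization

namespace Pool.Agent.H.MP_02294b_ag.Cov

section

variable {ι : Type} [Fintype ι]

theorem exists_decomp {A : ι → Fin 3 → ℝ} {a : ι} {o : Fin 3 → ℝ} (hAa : A a ≠ 0) (ho : o ≠ 0)
    (hao : rlin A a o = 0) {q : Fin 3 → ℝ} (haq : rlin A a q = 0) :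
    ∃ α β : ℝ, q = α • o + β • crossProduct (A a) o := by
  obtain ⟨u, hu⟩ : ∃ u : Fin 3 → ℝ, u = crossProduct (A a) o := ⟨_, rfl⟩
  have hao' : A a ⬝ᵥ o = 0 := hao
  have hoo : o ⬝ᵥ o ≠ 0 := fun h0 => ho (dotProduct_self_eq_zero.1 h0)
  have hAA : A a ⬝ᵥ A a ≠ 0 := fun h0 => hAa (dotProduct_self_eq_zero.1 h0)
  have huu : u ⬝ᵥ u ≠ 0 := by
    rw [hu, cross_dot_cross, dotProduct_comm o (A a), hao']
    simpa using ⟨hAa, ho⟩
  have hau : A a ⬝ᵥ u = 0 := by
    rw [hu]
    exact dot_self_cross _ _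
  have hou : o ⬝ᵥ u = 0 := by
    rw [hu]
    exact dot_cross_self _ _
  refine ⟨(o ⬝ᵥ q) / (o ⬝ᵥ o), (u ⬝ᵥ q) / (u ⬝ᵥ u), ?_⟩
  rw [← hu, ← sub_eq_zero]
  refine Matrix.eq_zero_of_mulVec_eq_zero (M := Matrix.of ![A a, o, u]) ?_ ?_
  · have h1 := triple_product_eq_det (A a) o u
    have h2 : (Matrix.of ![A a, o, u]).det = A a ⬝ᵥ crossProduct o u := h1.symm
    rw [h2, triple_product_permutation, triple_product_permutation, ← hu]
    exact huu
  · funext b
    fin_cases b
    · show A a ⬝ᵥ _ = 0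
      rw [dotProduct_sub, dotProduct_add, dotProduct_smul, dotProduct_smul, hao', hau,
        ← rlin_dot A a q, haq]
      simp
    · show o ⬝ᵥ _ = 0
      rw [dotProduct_sub, dotProduct_add, dotProduct_smul, dotProduct_smul, hou, smul_zero,
        add_zero, smul_eq_mul, div_mul_cancel₀ _ hoo, sub_self]
    · show u ⬝ᵥ _ = 0
      rw [dotProduct_sub, dotProduct_add, dotProduct_smul, dotProduct_smul, dotProduct_comm u o,
        hou, smul_zero, zero_add, smul_eq_mul, div_mul_cancel₀ _ huu, sub_self]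

/-- A line through `o` has at most two vertices next to `o`. -/
theorem slot_two {A : ι → Fin 3 → ℝ} {a : ι} {o : Fin 3 → ℝ} (hAa : A a ≠ 0) (ho : o ≠ 0)
    (hao : rlin A a o = 0) :
    ∃ S1 S2 : Finset ι, ∀ S, Slot A o a S → S = S1 ∨ S = S2 := by
  classical
  obtain ⟨u, hu⟩ : ∃ u : Fin 3 → ℝ, u = crossProduct (A a) o := ⟨_, rfl⟩
  refine ⟨Finset.univ.filter fun m => rlin A m o ≠ 0 ∧ ∀ m', rlin A m' o ≠ 0 →
      rlin A m u / rlin A m o ≤ rlin A m' u / rlin A m' o,
    Finset.univ.filter fun m => rlin A m o ≠ 0 ∧ ∀ m', rlin A m' o ≠ 0 →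
      rlin A m' u / rlin A m' o ≤ rlin A m u / rlin A m o, ?_⟩
  rintro S ⟨-, ⟨m0, hm0⟩, q, hq0, haq, hnn, hS⟩
  obtain ⟨α, β, hq⟩ := exists_decomp hAa ho hao haq
  rw [← hu] at hq
  have hval : ∀ m, rlin A m o ≠ 0 →
      rlin A m q * rlin A m o = (rlin A m o) ^ 2 * (α + β * (rlin A m u / rlin A m o)) := by
    intro m hm
    rw [hq, rlin_add, rlin_smul, rlin_smul]
    field_simp
  have hge : ∀ m, rlin A m o ≠ 0 → 0 ≤ α + β * (rlin A m u / rlin A m o) := by
    intro m hm
    have h1 := hnn m hm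
    rw [hval m hm] at h1
    exact (mul_nonneg_iff_of_pos_left (by positivity)).1 h1
  have hiff : ∀ m, m ∈ S ↔ (rlin A m o ≠ 0 ∧ α + β * (rlin A m u / rlin A m o) = 0) := by
    intro m
    rw [hS]
    constructor
    · rintro ⟨h1, h2⟩
      refine ⟨h1, ?_⟩
      have h3 := hval m h1
      rw [h2, zero_mul] at h3
      exact (mul_eq_zero.1 h3.symm).resolve_left (by positivity)
    · rintro ⟨h1, h2⟩
      refine ⟨h1, ?_⟩
      have h3 := hval m h1
      rw [h2, mul_zero] at h3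
      exact (mul_eq_zero.1 h3).resolve_right h1
  obtain ⟨k1, k2⟩ := (hiff m0).1 hm0
  rcases lt_trichotomy β 0 with hβ | hβ | hβ
  · right
    ext m
    rw [hiff, Finset.mem_filter]
    simp only [Finset.mem_univ, true_and]
    constructor
    · rintro ⟨h1, h2⟩
      refine ⟨h1, fun m' hm' => ?_⟩
      have h3 := hge m' hm'
      by_contra hcon
      push Not at hcon
      nlinarith
    · rintro ⟨h1, h2⟩
      refine ⟨h1, le_antisymm ?_ (hge m h1)⟩
      have h3 := h2 m0 k1
      nlinarith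
  · exfalso
    rw [hβ, zero_mul, add_zero] at k2
    apply hq0
    rw [hq, k2, hβ, zero_smul, zero_smul, add_zero]
  · left
    ext m
    rw [hiff, Finset.mem_filter]
    simp only [Finset.mem_univ, true_and]
    constructor
    · rintro ⟨h1, h2⟩
      refine ⟨h1, fun m' hm' => ?_⟩
      have h3 := hge m' hm'
      by_contra hcon
      push Not at hcon
      nlinarith
    · rintro ⟨h1, h2⟩
      refine ⟨h1, le_antisymm ?_ (hge m h1)⟩
      have h3 := h2 m0 k1
      nlinarith

/-- A double point on a line through `o` is next to `o`. -/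
theorem slot_of_double {A : ι → Fin 3 → ℝ} {o : Fin 3 → ℝ} (H : OneHigh A o) {a e : ι}
    (hae : a ≠ e) (hao : rlin A a o = 0) (heo : rlin A e o ≠ 0)
    (hj : ∀ j, j ≠ a → j ≠ e → rlin A j (cr A a e) ≠ 0) : Slot A o a {e} := by
  have hp := cr_ne_zero H.config hae
  obtain ⟨-, h2⟩ := double_adjacent H hae hp (rlin_cr_left A a e) (rlin_cr_right A a e) hj
  have hiff : ∀ r : ℝ, r ≠ 0 → ∀ m, m ∈ ({e} : Finset ι) ↔
      (rlin A m o ≠ 0 ∧ rlin A m (r • cr A a e) = 0) := by
    intro r hr m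
    rw [Finset.mem_singleton, rlin_smul]
    constructor
    · rintro rfl
      exact ⟨heo, by rw [rlin_cr_right, mul_zero]⟩
    · rintro ⟨h3, h5⟩
      by_contra hme
      have hma : m ≠ a := by
        rintro rfl
        exact h3 hao
      exact hj m hma hme ((mul_eq_zero.1 h5).resolve_left hr)
  rcases h2 with h2 | h2
  · refine ⟨hao, Finset.singleton_nonempty e, (1 : ℝ) • cr A a e, smul_ne_zero one_ne_zero hp, ?_,
      fun m _ => ?_, hiff 1 one_ne_zero⟩
    · rw [rlin_smul, rlin_cr_left, mul_zero]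
    · rw [rlin_smul]
      have := h2 m
      linarith
  · refine ⟨hao, Finset.singleton_nonempty e, (-1 : ℝ) • cr A a e,
      smul_ne_zero (by norm_num) hp, ?_, fun m _ => ?_, hiff (-1) (by norm_num)⟩
    · rw [rlin_smul, rlin_cr_left, mul_zero]
    · rw [rlin_smul]
      have := h2 m
      linarith

/-- The lines through `o` which meet the line `e` in a point on a further line: there are fewer
such lines than lines not through `o`, and if there are as many as possible, every line not through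
`o` meets `e` on a line through `o`. -/
theorem triple_lines {A : ι → Fin 3 → ℝ} {o : Fin 3 → ℝ} (hA : IsConfig (cx A)) {e : ι}
    (heo : rlin A e o ≠ 0) [DecidableEq ι] (T N : Finset ι)
    (hT : ∀ a, a ∈ T → rlin A a o = 0 ∧ ∃ j, j ≠ a ∧ j ≠ e ∧ rlin A j (cr A a e) = 0)
    (hN : ∀ m, m ∈ N ↔ rlin A m o ≠ 0) :
    T.card + 1 ≤ N.card ∧ (T.card + 1 = N.card → ∀ e', e' ≠ e → rlin A e' o ≠ 0 →
      ∃ a, rlin A a o = 0 ∧ ∃ q, q ≠ 0 ∧ rlin A a q = 0 ∧ rlin A e q = 0 ∧ rlin A e' q = 0) := by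
  classical
  have hae : ∀ a, a ∈ T → a ≠ e := by
    rintro a ha rfl
    exact heo (hT a ha).1
  have hj : ∀ a, ∃ j, a ∈ T → j ≠ a ∧ j ≠ e ∧ rlin A j (cr A a e) = 0 := by
    intro a
    by_cases ha : a ∈ T
    · obtain ⟨j, hj⟩ := (hT a ha).2
      exact ⟨j, fun _ => hj⟩
    · exact ⟨a, fun h => absurd h ha⟩
  choose f hf using hj
  have hfN : ∀ a ∈ T, f a ∈ N.erase e := by
    intro a ha
    obtain ⟨h1, h2, h3⟩ := hf a ha
    rw [Finset.mem_erase, hN]
    refine ⟨h2, fun h0 => ?_⟩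
    exact pencil_unique hA h1 h0 (hT a ha).1 heo (cr_ne_zero hA (hae a ha)) (rlin_cr_right A a e)
      h3 (rlin_cr_left A a e)
  have hinj : ∀ a ∈ T, ∀ a' ∈ T, f a = f a' → a = a' := by
    intro a ha a' ha' h
    by_contra hne
    obtain ⟨h1, h2, h3⟩ := hf a ha
    obtain ⟨h1', h2', h3'⟩ := hf a' ha'
    rw [← h] at h3'
    obtain ⟨r, hr⟩ := eq_smul_cr hA h2 h3 (rlin_cr_right A a e)
    obtain ⟨r', hr'⟩ := eq_smul_cr hA h2 h3' (rlin_cr_right A a' e)
    have hr0 : r ≠ 0 := by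
      rintro rfl
      exact cr_ne_zero hA (hae a ha) (by rw [hr, zero_smul])
    have hr0' : r' ≠ 0 := by
      rintro rfl
      exact cr_ne_zero hA (hae a' ha') (by rw [hr', zero_smul])
    have h5 := rlin_cr_left A a e
    have h6 := rlin_cr_left A a' e
    rw [hr, rlin_smul] at h5
    rw [hr', rlin_smul] at h6
    exact pencil_unique hA hne (hT a ha).1 (hT a' ha').1 heo (cr_ne_zero hA h2)
      (rlin_cr_right A (f a) e) ((mul_eq_zero.1 h5).resolve_left hr0)
      ((mul_eq_zero.1 h6).resolve_left hr0')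
  have heN : e ∈ N := (hN e).2 heo
  have hcard : T.card ≤ (N.erase e).card :=
    Finset.card_le_card_of_injOn f hfN fun a ha a' ha' h => hinj a ha a' ha' h
  rw [Finset.card_erase_of_mem heN] at hcard
  have hNpos : 0 < N.card := Finset.card_pos.2 ⟨e, heN⟩
  refine ⟨by omega, fun heq e' hne he' => ?_⟩
  have hsurj : T.image f = N.erase e := by
    apply Finset.eq_of_subset_of_card_le
    · intro m hm
      obtain ⟨a, ha, rfl⟩ := Finset.mem_image.1 hm
      exact hfN a ha
    · rw [Finset.card_erase_of_mem heN, Finset.card_image_of_injOn fun a ha a' ha' h =>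
        hinj a ha a' ha' h]
      omega
  have he'm : e' ∈ T.image f := by
    rw [hsurj, Finset.mem_erase, hN]
    exact ⟨hne, he'⟩
  obtain ⟨a, ha, hfa⟩ := Finset.mem_image.1 he'm
  obtain ⟨h1, h2, h3⟩ := hf a ha
  rw [hfa] at h3
  exact ⟨a, (hT a ha).1, cr A a e, cr_ne_zero hA (hae a ha), rlin_cr_left A a e,
    rlin_cr_right A a e, h3⟩

/-- The arithmetic of the count. -/
theorem count_arith {r s D T : ℕ} (h3 : 3 ≤ s) (h1 : D + T ≤ 2 * r) (h2 : s ≤ T) (h4 : s ≤ D)
    (h5 : s * r ≤ D + s * (s - 1)) : r = s ∧ D = s := by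
  have hsr : s ≤ r := by omega
  obtain ⟨k, rfl⟩ := Nat.exists_eq_add_of_le hsr
  obtain ⟨t, rfl⟩ := Nat.exists_eq_add_of_le h3
  have h6 : (3 + t) * (3 + t + k) ≤ D + (3 + t) * (2 + t) := by
    have : 3 + t - 1 = 2 + t := by omega
    rw [this] at h5
    exact h5
  have hD : D ≤ (3 + t) + 2 * k := by omega
  have hk : k = 0 := by
    by_contra hk0
    have hk1 : 1 ≤ k := Nat.one_le_iff_ne_zero.2 hk0
    nlinarith
  subst hk
  constructor
  · omega
  · omega

end

end Pool.Agent.H.MP_02294b_ag.Cov
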