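import Pool.Agent.H.MP_02294b_ag.Cov.One5

/-! Real configurations with one point of high multiplicity: the count of the double and the triple
points next to this point. -/

set_option autoImplicit false
set_option linter.unusedSectionVars false

open Set Filter Topology Matrix
open scoped LinearAlgebra.Projectivization

namespace Pool.Agent.H.MP_02294b_ag.Cov

section

variable {ι : Type} [Fintype ι]

/-- The structure found by the count: any two lines not through `o` meet on a line through `o`, and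
the lines through `o` meet a line `e` not through `o` in points on a further line, but for one,
which meets it in a double point next to `o`. -/
structure PolyType (A : ι → Fin 3 → ℝ) (o : Fin 3 → ℝ) : Prop where
  config : IsConfig (cx A)
  ne : o ≠ 0
  meet : ∀ e e', e ≠ e' → rlin A e o ≠ 0 → rlin A e' o ≠ 0 →
    ∃ a, rlin A a o = 0 ∧ rlin A a (cr A e e') = 0
  dbl : ∀ e, rlin A e o ≠ 0 → ∃ (a : ι) (p : Fin 3 → ℝ), p ≠ 0 ∧ rlin A a o = 0 ∧
    rlin A a p = 0 ∧ rlin A e p = 0 ∧ (∀ j, j ≠ a → j ≠ e → rlin A j p ≠ 0) ∧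
    (∀ m, 0 ≤ rlin A m o * rlin A m p) ∧
    ∀ a', rlin A a' o = 0 → a' ≠ a → ∃ j, j ≠ e ∧ rlin A j o ≠ 0 ∧ rlin A j (cr A a' e) = 0
  gen : ∀ e e' e'', e ≠ e' → e ≠ e'' → e' ≠ e'' → rlin A e o ≠ 0 → rlin A e' o ≠ 0 →
    rlin A e'' o ≠ 0 → rlin A e'' (cr A e e') ≠ 0
  three : 3 ≤ {m | rlin A m o ≠ 0}.ncard
  card_eq : {m | rlin A m o = 0}.ncard = {m | rlin A m o ≠ 0}.ncard

theorem gen_of_meet {A : ι → Fin 3 → ℝ} {o : Fin 3 → ℝ} (H : OneHigh A o)
    (hmeet : ∀ e e', e ≠ e' → rlin A e o ≠ 0 → rlin A e' o ≠ 0 →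
      ∃ a, rlin A a o = 0 ∧ rlin A a (cr A e e') = 0) {e e' e'' : ι} (h1 : e ≠ e')
    (h2 : e ≠ e'') (h3 : e' ≠ e'') (he : rlin A e o ≠ 0) (he' : rlin A e' o ≠ 0)
    (he'' : rlin A e'' o ≠ 0) : rlin A e'' (cr A e e') ≠ 0 := by
  intro h0
  obtain ⟨a, hao, ha⟩ := hmeet e e' h1 he he'
  have hae : a ≠ e := by
    rintro rfl
    exact he hao
  have hae' : a ≠ e' := by
    rintro rfl
    exact he' hao
  have hae'' : a ≠ e'' := by
    rintro rfl
    exact he'' hao
  have h4 : 4 ≤ {i | rlin A i (cr A e e') = 0}.ncard := by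
    refine four_le_ncard (w := ![a, e, e', e'']) ?_ ?_
    · intro i j hij
      fin_cases i <;> fin_cases j <;> simp_all
    · intro k
      fin_cases k
      · exact ha
      · exact rlin_cr_left A e e'
      · exact rlin_cr_right A e e'
      · exact h0
  obtain ⟨c, hc⟩ := H.mult _ (cr_ne_zero H.config h1) h4
  have h5 := rlin_cr_left A e e'
  rw [hc, rlin_smul] at h5
  rcases mul_eq_zero.1 h5 with h6 | h6
  · exact cr_ne_zero H.config h1 (by rw [hc, h6, zero_smul])
  · exact he h6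

theorem polyType_of_three {A : ι → Fin 3 → ℝ} {o : Fin 3 → ℝ} (H : OneHigh A o)
    (h4 : 4 ≤ {i | rlin A i o = 0}.ncard) (hs3 : 3 ≤ {m | rlin A m o ≠ 0}.ncard) :
    PolyType A o := by
  classical
  obtain ⟨P, hP⟩ : ∃ P : Finset ι, ∀ a, a ∈ P ↔ rlin A a o = 0 :=
    ⟨Finset.univ.filter fun a => rlin A a o = 0, fun a => by simp⟩
  obtain ⟨N, hN⟩ : ∃ N : Finset ι, ∀ m, m ∈ N ↔ rlin A m o ≠ 0 :=
    ⟨Finset.univ.filter fun m => rlin A m o ≠ 0, fun m => by simp⟩
  have hPc : {i | rlin A i o = 0}.ncard = P.card := by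
    rw [← Set.ncard_coe_finset]
    congr 1
    ext a
    simp [hP]
  have hNc : {m | rlin A m o ≠ 0}.ncard = N.card := by
    rw [← Set.ncard_coe_finset]
    congr 1
    ext a
    simp [hN]
  have hs3' := hs3
  rw [hNc] at hs3'
  have hother : ∀ b, ∃ m, m ≠ b ∧ rlin A m o ≠ 0 := by
    intro b
    obtain ⟨m, hm, hmb⟩ := Finset.exists_mem_ne (s := N) (by omega) b
    exact ⟨m, hmb, (hN m).1 hm⟩
  -- the slots
  obtain ⟨S, hS⟩ : ∃ S : Finset (ι × Finset ι), ∀ x, x ∈ S ↔ Slot A o x.1 x.2 :=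
    ⟨Finset.univ.filter fun x => Slot A o x.1 x.2, fun x => by simp⟩
  have hScard : S.card ≤ 2 * P.card := by
    apply Finset.card_le_mul_card_image_of_maps_to (f := Prod.fst)
    · intro x hx
      exact (hP _).2 ((hS x).1 hx).1
    · intro a ha
      have haP := (hP a).1 ha
      obtain ⟨S1, S2, h12⟩ := slot_two (a := a) (fun h0 => by
        obtain ⟨m, hma, hm⟩ := hother a
        exact cr_ne_zero H.config hma (by rw [cr, h0, map_zero])) H.ne haP
      refine le_trans (Finset.card_le_card (t := {(a, S1), (a, S2)}) ?_) Finset.card_le_two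
      rintro ⟨a', S'⟩ hx
      rw [Finset.mem_filter] at hx
      obtain ⟨hx1, hx2⟩ := hx
      have hx3 : a' = a := hx2
      subst hx3
      rcases h12 S' ((hS _).1 hx1) with h | h
      · simp [h]
      · simp [h]
  have hDT : (S.filter fun x => x.2.card = 1).card + (S.filter fun x => x.2.card = 2).card
      ≤ S.card := by
    rw [← Finset.card_union_of_disjoint]
    · refine Finset.card_le_card fun x hx => ?_
      rcases Finset.mem_union.1 hx with h | h
      · exact (Finset.mem_filter.1 h).1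
      · exact (Finset.mem_filter.1 h).1
    · rw [Finset.disjoint_left]
      intro x h1 h2
      have h3 := (Finset.mem_filter.1 h1).2
      have h5 := (Finset.mem_filter.1 h2).2
      omega
  -- the triple points
  have hT : N.card ≤ (S.filter fun x => x.2.card = 2).card := by
    have := Finset.card_mul_le_card_mul (s := N) (t := S.filter fun x => x.2.card = 2)
      (m := 2) (n := 2) (fun (e : ι) (x : ι × Finset ι) => e ∈ x.2) ?_ ?_
    · omega
    · intro e he
      obtain ⟨a, p, hae, hp, hao, hap, hep, hj, hsg⟩ := exists_double_on H h4 hs3 ((hN e).1 he)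
      obtain ⟨i1, i2, S1, S2, h12, hs1, hs2, he1, he2, hc1, hc2⟩ := two_side_slots H h4 hae hp hap
        hep hj hao ((hN e).1 he) hsg (hother e)
      refine le_trans (le_of_eq (Finset.card_pair (a := (i1, S1)) (b := (i2, S2))
        fun h => h12 (Prod.mk.inj h).1).symm) (Finset.card_le_card ?_)
      intro x hx
      rw [Finset.mem_insert, Finset.mem_singleton] at hx
      rw [Finset.mem_bipartiteAbove, Finset.mem_filter, hS]
      rcases hx with rfl | rfl
      · exact ⟨⟨hs1, hc1⟩, he1⟩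
      · exact ⟨⟨hs2, hc2⟩, he2⟩
    · intro x hx
      rw [Finset.mem_filter] at hx
      refine le_trans (Finset.card_le_card (t := x.2) ?_) (le_of_eq hx.2)
      intro e he
      rw [Finset.mem_bipartiteBelow] at he
      exact he.2
  -- the double points
  have hdbl : ∀ e, rlin A e o ≠ 0 → ∃ (a : ι) (p : Fin 3 → ℝ), a ≠ e ∧ p ≠ 0 ∧ rlin A a o = 0 ∧
      rlin A a p = 0 ∧ rlin A e p = 0 ∧ (∀ j, j ≠ a → j ≠ e → rlin A j p ≠ 0) ∧
      (∀ m, 0 ≤ rlin A m o * rlin A m p) ∧ ∀ j, j ≠ a → j ≠ e → rlin A j (cr A a e) ≠ 0 := by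
    intro e he
    obtain ⟨a, p, hae, hp, hao, hap, hep, hj, hsg⟩ := exists_double_on H h4 hs3 he
    refine ⟨a, p, hae, hp, hao, hap, hep, hj, hsg, fun j hja hje h0 => ?_⟩
    obtain ⟨r, hr⟩ := eq_smul_cr H.config hae hap hep
    apply hj j hja hje
    rw [hr, rlin_smul, h0, mul_zero]
  obtain ⟨D, hD⟩ : ∃ D : ι → Finset ι, ∀ e a, a ∈ D e ↔
      (rlin A a o = 0 ∧ ∀ j, j ≠ a → j ≠ e → rlin A j (cr A a e) ≠ 0) :=
    ⟨fun e => P.filter fun a => ∀ j, j ≠ a → j ≠ e → rlin A j (cr A a e) ≠ 0, fun e a => by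
      simp only [Finset.mem_filter, hP]⟩
  obtain ⟨T, hTm⟩ : ∃ T : ι → Finset ι, ∀ e a, a ∈ T e ↔
      (rlin A a o = 0 ∧ ¬ ∀ j, j ≠ a → j ≠ e → rlin A j (cr A a e) ≠ 0) :=
    ⟨fun e => P.filter fun a => ¬ ∀ j, j ≠ a → j ≠ e → rlin A j (cr A a e) ≠ 0, fun e a => by
      simp only [Finset.mem_filter, hP]⟩
  have hDTe : ∀ e, (D e).card + (T e).card = P.card := by
    intro e
    rw [← Finset.card_union_of_disjoint]
    · congr 1
      ext a
      rw [Finset.mem_union, hD, hTm, hP]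
      tauto
    · rw [Finset.disjoint_left]
      intro a h1 h2
      exact ((hTm e a).1 h2).2 ((hD e a).1 h1).2
  have hTl : ∀ e, rlin A e o ≠ 0 → (T e).card + 1 ≤ N.card ∧ ((T e).card + 1 = N.card →
      ∀ e', e' ≠ e → rlin A e' o ≠ 0 → ∃ a, rlin A a o = 0 ∧ ∃ q, q ≠ 0 ∧ rlin A a q = 0 ∧
        rlin A e q = 0 ∧ rlin A e' q = 0) := by
    intro e he
    refine triple_lines H.config he (T e) N (fun a ha => ?_) hN
    obtain ⟨h1, h2⟩ := (hTm e a).1 ha
    push Not at h2
    exact ⟨h1, h2⟩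
  have hDe : ∀ e, rlin A e o ≠ 0 → 1 ≤ (D e).card := by
    intro e he
    obtain ⟨a, p, hae, hp, hao, hap, hep, hj, hsg, hjj⟩ := hdbl e he
    exact Finset.card_pos.2 ⟨a, (hD e a).2 ⟨hao, hjj⟩⟩
  have hDsum : ∑ e ∈ N, (D e).card ≤ (S.filter fun x => x.2.card = 1).card := by
    rw [← Finset.card_sigma]
    apply Finset.card_le_card_of_injOn (f := fun x => (x.2, {x.1}))
    · rintro ⟨e, a⟩ hx
      have hx' := Finset.mem_sigma.1 (Finset.mem_coe.1 hx)
      obtain ⟨he, ha⟩ := hx'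
      obtain ⟨hao, hj⟩ := (hD e a).1 ha
      have heo := (hN e).1 he
      have hae : a ≠ e := by
        rintro rfl
        exact heo hao
      rw [Finset.mem_coe, Finset.mem_filter, hS]
      exact ⟨slot_of_double H hae hao heo hj, Finset.card_singleton _⟩
    · rintro ⟨e, a⟩ - ⟨e', a'⟩ - h
      have h1 := (Prod.mk.inj h).1
      have h2 := Finset.singleton_injective (Prod.mk.inj h).2
      have h1' : a = a' := h1
      have h2' : e = e' := h2
      subst h1' h2'
      rfl
  have hsumge : N.card ≤ ∑ e ∈ N, (D e).card := by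
    rw [Finset.card_eq_sum_ones]
    exact Finset.sum_le_sum fun e he => hDe e ((hN e).1 he)
  have hsumle : N.card * P.card ≤ ∑ e ∈ N, (D e).card + N.card * (N.card - 1) := by
    rw [← smul_eq_mul, ← Finset.sum_const, ← smul_eq_mul (N.card) (N.card - 1), ← Finset.sum_const,
      ← Finset.sum_add_distrib]
    refine Finset.sum_le_sum fun e he => ?_
    have h1 := hDTe e
    have h2 := (hTl e ((hN e).1 he)).1
    omega
  obtain ⟨hrs, hDs⟩ := count_arith hs3' (le_trans (le_trans (Nat.add_le_add_right hDsum _) hDT)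
    hScard) hT hsumge hsumle
  have hD1 : ∀ e, rlin A e o ≠ 0 → (D e).card = 1 := by
    have := (Finset.sum_eq_sum_iff_of_le (s := N) (f := fun _ => 1) (g := fun e => (D e).card)
      fun e he => hDe e ((hN e).1 he)).1 (by rw [← Finset.card_eq_sum_ones]; exact hDs.symm)
    intro e he
    exact (this e ((hN e).2 he)).symm
  have hmeet : ∀ e e', e ≠ e' → rlin A e o ≠ 0 → rlin A e' o ≠ 0 →
      ∃ a, rlin A a o = 0 ∧ rlin A a (cr A e e') = 0 := by
    intro e e' hee he he'
    have h1 := hDTe e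
    have h2 := hD1 e he
    obtain ⟨a, hao, q, hq, haq, heq, he'q⟩ := (hTl e he).2 (by omega) e' hee.symm he'
    obtain ⟨r, hr⟩ := eq_smul_cr H.config hee heq he'q
    refine ⟨a, hao, ?_⟩
    rw [hr, rlin_smul] at haq
    refine (mul_eq_zero.1 haq).resolve_left ?_
    rintro rfl
    exact hq (by rw [hr, zero_smul])
  refine ⟨H.config, H.ne, hmeet, ?_, ?_, hs3, by rw [hPc, hNc, hrs]⟩
  · intro e he
    obtain ⟨a, p, hae, hp, hao, hap, hep, hj, hsg, hjj⟩ := hdbl e he
    refine ⟨a, p, hp, hao, hap, hep, hj, hsg, fun a' ha'o ha'a => ?_⟩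
    obtain ⟨a0, ha0⟩ := Finset.card_eq_one.1 (hD1 e he)
    have h1 : a ∈ D e := (hD e a).2 ⟨hao, hjj⟩
    rw [ha0, Finset.mem_singleton] at h1
    have h2 : a' ∉ D e := by
      rw [ha0, Finset.mem_singleton, ← h1]
      exact ha'a
    rw [hD] at h2
    push Not at h2
    obtain ⟨j, hja, hje, hj0⟩ := h2 ha'o
    have ha'e : a' ≠ e := by
      rintro rfl
      exact he ha'o
    refine ⟨j, hje, fun hjo => ?_, hj0⟩
    exact pencil_unique H.config hja hjo ha'o he (cr_ne_zero H.config ha'e) (rlin_cr_right A a' e)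
      hj0 (rlin_cr_left A a' e)
  · intro e e' e'' h1 h2 h3 he he' he''
    exact gen_of_meet H hmeet h1 h2 h3 he he' he''

end

end Pool.Agent.H.MP_02294b_ag.Cov
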