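import Pool.Agent.H.MP_02294b_ag.Cov.One6

/-! Real configurations with one point of high multiplicity: near-pencils and the rest. -/

set_option autoImplicit false
set_option linter.unusedSectionVars false

open Set Filter Topology Matrix
open scoped LinearAlgebra.Projectivization

namespace Pool.Agent.H.MP_02294b_ag.Cov

section

variable {ι : Type} [Fintype ι]

theorem not_only_two {A : ι → Fin 3 → ℝ} {o : Fin 3 → ℝ} (H : OneHigh A o)
    (h4 : 4 ≤ {i | rlin A i o = 0}.ncard) {b b' : ι} (hbb : b ≠ b')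
    (hb : rlin A b o ≠ 0) (hb' : rlin A b' o ≠ 0)
    (hN : ∀ m, rlin A m o ≠ 0 → m = b ∨ m = b') {a c : ι} (hac : a ≠ c) {p : Fin 3 → ℝ}
    (hp : p ≠ 0) (hpa : rlin A a p = 0) (hpc : rlin A c p = 0)
    (hpj : ∀ j, j ≠ a → j ≠ c → rlin A j p ≠ 0) (hao : rlin A a o = 0) (hco : rlin A c o ≠ 0)
    (hsg : ∀ m, 0 ≤ rlin A m o * rlin A m p) : False := by
  classical
  have hs : ∃ m, m ≠ c ∧ rlin A m o ≠ 0 := by
    rcases hN c hco with rfl | rfl
    · exact ⟨b', hbb.symm, hb'⟩
    · exact ⟨b, hbb, hb⟩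
  obtain ⟨i1, i2, S1, S2, h12, hs1, hs2, -, -, hc1, hc2⟩ :=
    two_side_slots H h4 hac hp hpa hpc hpj hao hco hsg hs
  have key : ∀ (i : ι) (S : Finset ι), Slot A o i S → S.card = 2 → rlin A i (cr A b b') = 0 := by
    rintro i S ⟨-, -, q, hq, hiq, -, hS⟩ hc
    have hsub : S ⊆ {b, b'} := by
      intro m hm
      rw [Finset.mem_insert, Finset.mem_singleton]
      exact hN m ((hS m).1 hm).1
    have heq : S = {b, b'} := Finset.eq_of_subset_of_card_le hsub (by
      rw [hc, Finset.card_pair hbb])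
    have h1 := ((hS b).1 (by rw [heq]; simp)).2
    have h2 := ((hS b').1 (by rw [heq]; simp)).2
    obtain ⟨r, hr⟩ := eq_smul_cr H.config hbb h1 h2
    rw [hr, rlin_smul] at hiq
    refine (mul_eq_zero.1 hiq).resolve_left ?_
    rintro rfl
    exact hq (by rw [hr, zero_smul])
  exact pencil_unique H.config h12 hs1.1 hs2.1 hb (cr_ne_zero H.config hbb) (rlin_cr_left A b b')
    (key i1 S1 hs1 hc1) (key i2 S2 hs2 hc2)

theorem three_of_two {A : ι → Fin 3 → ℝ} {o : Fin 3 → ℝ} (H : OneHigh A o)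
    (h4 : 4 ≤ {i | rlin A i o = 0}.ncard) {b b' : ι} (hbb : b ≠ b')
    (hb : rlin A b o ≠ 0) (hb' : rlin A b' o ≠ 0) : 3 ≤ {m | rlin A m o ≠ 0}.ncard := by
  classical
  by_contra hcon
  have hN : ∀ m, rlin A m o ≠ 0 → m = b ∨ m = b' := by
    intro m hm
    by_contra h
    push Not at h
    apply hcon
    have h1 : ({m, b, b'} : Finset ι).card = 3 := Finset.card_eq_three.2
      ⟨m, b, b', h.1, h.2, hbb, rfl⟩
    rw [← h1, ← Set.ncard_coe_finset]
    refine Set.ncard_le_ncard ?_ (Set.toFinite _)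
    intro x hx
    simp only [Finset.coe_insert, Finset.coe_singleton, Set.mem_insert_iff,
      Set.mem_singleton_iff] at hx
    rcases hx with rfl | rfl | rfl
    · exact hm
    · exact hb
    · exact hb'
  obtain ⟨a, c, hac, p, hp, hpa, hpc, hpj⟩ := exists_double A H.config
  have hneg : ∀ m, rlin A m ((-1 : ℝ) • p) = -rlin A m p := fun m => by
    rw [rlin_smul]
    ring
  -- one of the two signs
  have core : ∀ a c : ι, a ≠ c → rlin A a p = 0 → rlin A c p = 0 →
      (∀ j, j ≠ a → j ≠ c → rlin A j p ≠ 0) → rlin A a o = 0 → rlin A c o ≠ 0 → False := by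
    intro a c hac hpa hpc hpj hao hco
    obtain ⟨-, h | h⟩ := double_adjacent H hac hp hpa hpc hpj
    · exact not_only_two H h4 hbb hb hb' hN hac hp hpa hpc hpj hao hco h
    · refine not_only_two H h4 hbb hb hb' hN hac (p := (-1 : ℝ) • p)
        (smul_ne_zero (by norm_num) hp) (by rw [hneg, hpa, neg_zero]) (by rw [hneg, hpc, neg_zero])
        (fun j hja hjc => by rw [hneg]; exact neg_ne_zero.2 (hpj j hja hjc)) hao hco fun m => ?_
      rw [hneg]
      have := h m
      linarith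
  obtain ⟨h1, -⟩ := double_adjacent H hac hp hpa hpc hpj
  by_cases hao : rlin A a o = 0
  · by_cases hco : rlin A c o = 0
    · exact double_not_o H.config H.ne h4 hac hp hpa hpc hpj hao hco
    · exact core a c hac hpa hpc hpj hao hco
  · have hco := h1.resolve_left hao
    exact core c a hac.symm hpc hpa (fun j hjc hja => hpj j hja hjc) hco hao

theorem near_or_poly {A : ι → Fin 3 → ℝ} {o : Fin 3 → ℝ} (H : OneHigh A o)
    (h4 : 4 ≤ {i | rlin A i o = 0}.ncard) :
    (∃ j, rlin A j o ≠ 0 ∧ ∀ i, i ≠ j → rlin A i o = 0) ∨ PolyType A o := by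
  by_cases h : ∃ b b', b ≠ b' ∧ rlin A b o ≠ 0 ∧ rlin A b' o ≠ 0
  · obtain ⟨b, b', hbb, hb, hb'⟩ := h
    exact Or.inr (polyType_of_three H h4 (three_of_two H h4 hbb hb hb'))
  · left
    have h1 : ∃ j, rlin A j o ≠ 0 := by
      by_contra hcon
      push Not at hcon
      apply H.ne
      have h2 := H.config.noCommon (fun b => (o b : ℂ)) (fun i => by
        have h3 := hcon i
        have h5 : lin (cx A) i (fun b => (o b : ℂ)) = ((rlin A i o : ℝ) : ℂ) := by
          simp [lin, rlin, cx]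
        rw [h5, h3]
        simp)
      funext b
      have h3 : (o b : ℂ) = 0 := congrFun h2 b
      exact_mod_cast h3
    obtain ⟨j, hj⟩ := h1
    refine ⟨j, hj, fun i hij => ?_⟩
    by_contra hi
    exact h ⟨i, j, hij, hi, hj⟩

end

end Pool.Agent.H.MP_02294b_ag.Cov
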