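import Pool.Agent.H.MP_02294b_ag.Cov.Slopes2

/-! Planar point sets with few slopes are affinely regular polygons. -/

set_option autoImplicit false

namespace Pool.Agent.H.MP_02294b_ag.Cov

section

variable {κ : Type}

/-- The orbit of the map to the next point exhausts the point set. -/
theorem orbit_surj [Finite κ] {x y t1 t2 : κ → ℝ} (S : Slopes x y t1 t2) {σ : κ → κ}
    (hσ : ∀ e, Edge x y e (σ e)) (e0 m : κ) :
    ∃ i, i < Function.minimalPeriod σ e0 ∧ σ^[i] e0 = m := by
  have hinj : Function.Injective σ := fun e f h => edge_inj (hσ e) (h ▸ hσ f)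
  have hn0 : 0 < Function.minimalPeriod σ e0 :=
    Function.minimalPeriod_pos_of_mem_periodicPts (hinj.mem_periodicPts e0)
  have hinjOn : ∀ i j, i < Function.minimalPeriod σ e0 → j < Function.minimalPeriod σ e0 →
      σ^[i] e0 = σ^[j] e0 → i = j := fun i j hi hj h =>
    Function.iterate_injOn_Iio_minimalPeriod hi hj h
  by_contra hcon
  push Not at hcon
  have hn2 : 2 ≤ Function.minimalPeriod σ e0 := by
    by_contra h1
    have h2 : Function.minimalPeriod σ e0 = 1 := by omega
    have h3 : σ^[1] e0 = e0 := by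
      have := Function.iterate_minimalPeriod (f := σ) (x := e0)
      rwa [h2] at this
    exact (hσ e0).1 h3.symm
  have claim : ∀ j, 1 ≤ j → j < Function.minimalPeriod σ e0 → 0 < dt x y e0 (σ^[j] e0) m := by
    intro j hj
    induction j, hj using Nat.le_induction with
    | base =>
      intro h1
      have h2 := hcon 0 (by omega)
      have h3 := hcon 1 h1
      exact (hσ e0).2 m (fun h => h2 h.symm) (fun h => h3 h.symm)
    | succ j hj ih =>
      intro h1
      have h2 := ih (by omega)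
      have k0 : e0 ≠ m := hcon 0 (by omega)
      have k1 : σ^[j] e0 ≠ m := hcon j (by omega)
      have k2 : σ^[j + 1] e0 ≠ m := hcon (j + 1) h1
      have k3 : e0 ≠ σ^[j + 1] e0 := fun h => by
        have := hinjOn 0 (j + 1) (by omega) h1 h
        omega
      have hE : Edge x y (σ^[j] e0) (σ^[j + 1] e0) := by
        rw [Function.iterate_succ_apply']
        exact hσ _
      by_contra h3
      have h4 : dt x y e0 (σ^[j + 1] e0) m < 0 :=
        lt_of_le_of_ne (not_lt.1 h3) (S.gen _ _ _ k3 k0 k2)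
      refine not_in_triangle S k0 k1 k2 h2 (hE.2 m (Ne.symm k1) (Ne.symm k2)) ?_
      have h5 : dt x y (σ^[j + 1] e0) e0 m = -dt x y e0 (σ^[j + 1] e0) m := by
        unfold dt
        ring
      rw [h5]
      linarith
  obtain ⟨k, hk⟩ : ∃ k, Function.minimalPeriod σ e0 = k + 1 := ⟨_, (Nat.succ_pred_eq_of_pos hn0).symm⟩
  have h1 := claim k (by omega) (by omega)
  have hE : Edge x y (σ^[k] e0) e0 := by
    have h2 := hσ (σ^[k] e0)
    rw [← Function.iterate_succ_apply' σ k e0, Nat.succ_eq_add_one, ← hk,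
      Function.iterate_minimalPeriod] at h2
    exact h2
  have h2 := hE.2 m (fun h => hcon k (by omega) h.symm) (fun h => hcon 0 (by omega) h.symm)
  have h5 : dt x y (σ^[k] e0) e0 m = -dt x y e0 (σ^[k] e0) m := by
    unfold dt
    ring
  linarith

/-- Points of the plane, no three on a line, with as many slopes as points: the points are the
vertices of an affinely regular polygon. -/
theorem regular_of_slopes [Fintype κ] {x y t1 t2 : κ → ℝ} (S : Slopes x y t1 t2)
    (h4 : 4 ≤ Fintype.card κ) :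
    ∃ (n : ℕ) (w : Fin n ≃ κ) (c1 c2 p1 p2 q1 q2 : ℝ), p1 * q2 - p2 * q1 ≠ 0 ∧
      ∀ i : Fin n, x (w i) = c1 + Real.cos ((i : ℕ) * (2 * Real.pi / n)) * p1
          + Real.sin ((i : ℕ) * (2 * Real.pi / n)) * q1 ∧
        y (w i) = c2 + Real.cos ((i : ℕ) * (2 * Real.pi / n)) * p2
          + Real.sin ((i : ℕ) * (2 * Real.pi / n)) * q2 := by
  classical
  have hne : ∀ e : κ, ∃ m, m ≠ e := fun e => Fintype.exists_ne_of_one_lt_card (by omega) e
  choose σ hσ using fun e => exists_edge S (hne e)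
  have hinj : Function.Injective σ := fun e f h => edge_inj (hσ e) (h ▸ hσ f)
  obtain ⟨e0⟩ : Nonempty κ := Fintype.card_pos_iff.1 (by omega)
  obtain ⟨n, hn⟩ : ∃ n, n = Function.minimalPeriod σ e0 := ⟨_, rfl⟩
  obtain ⟨w, hw⟩ : ∃ w : ℕ → κ, ∀ i, w i = σ^[i] e0 := ⟨fun i => σ^[i] e0, fun _ => rfl⟩
  have hinjOn : ∀ i j, i < n → j < n → w i = w j → i = j := by
    intro i j hi hj h
    rw [hw, hw] at h
    rw [hn] at hi hj
    exact Function.iterate_injOn_Iio_minimalPeriod hi hj h
  have hsurj : ∀ m, ∃ i, i < n ∧ w i = m := by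
    intro m
    obtain ⟨i, hi, h⟩ := orbit_surj S hσ e0 m
    exact ⟨i, by rw [hn]; exact hi, by rw [hw]; exact h⟩
  have hbij : Function.Bijective fun i : Fin n => w i := by
    constructor
    · intro i j h
      exact Fin.ext (hinjOn _ _ i.2 j.2 h)
    · intro m
      obtain ⟨i, hi, h⟩ := hsurj m
      exact ⟨⟨i, hi⟩, h⟩
  have hcard : n = Fintype.card κ := by
    have := Fintype.card_of_bijective hbij
    rwa [Fintype.card_fin] at this
  have hn4 : 4 ≤ n := by omega
  have hE : ∀ i, Edge x y (w i) (w (i + 1)) := by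
    intro i
    rw [hw, hw, Function.iterate_succ_apply']
    exact hσ _
  have hper : ∀ i, w (i + n) = w i := by
    intro i
    rw [hw, hw, hn]
    exact Function.iterate_add_minimalPeriod_eq
  have hdist : ∀ i a b, a < n → b < n → a ≠ b → w (i + a) ≠ w (i + b) := by
    intro i a b ha hb hab h
    rw [hw, hw, Function.iterate_add_apply, Function.iterate_add_apply] at h
    have h1 := hinj.iterate i h
    rw [← hw, ← hw] at h1
    exact hab (hinjOn a b ha hb h1)
  have hE1 : ∀ i, (x (w (i + 2)) - x (w (i + 1))) * (y (w (i + 3)) - y (w i))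
      - (y (w (i + 2)) - y (w (i + 1))) * (x (w (i + 3)) - x (w i)) = 0 := fun i =>
    edge_parallel S (hE i) (hE (i + 2)) (hdist i 0 2 (by omega) (by omega) (by omega))
      (hdist i 0 3 (by omega) (by omega) (by omega))
      (hdist i 1 2 (by omega) (by omega) (by omega)) (hdist i 1 3 (by omega) (by omega) (by omega))
  have hE2 : ∀ i, (x (w (i + 3)) - x (w (i + 1))) * (y (w (i + 4)) - y (w i))
      - (y (w (i + 3)) - y (w (i + 1))) * (x (w (i + 4)) - x (w i)) = 0 := by
    intro i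
    by_cases h : w (i + 4) = w i
    · rw [h]
      ring
    · have h14 : w (i + 1) ≠ w (i + 4) := by
        have : i + 4 = i + 1 + 3 := by omega
        rw [this]
        exact hdist (i + 1) 0 3 (by omega) (by omega) (by omega)
      exact edge_parallel S (hE i) (hE (i + 3)) (hdist i 0 3 (by omega) (by omega) (by omega))
        (Ne.symm h) (hdist i 1 3 (by omega) (by omega) (by omega)) h14
  obtain ⟨X, hX⟩ : ∃ X : ℕ → ℝ, ∀ i, x (w i) = X i := ⟨fun i => x (w i), fun _ => rfl⟩
  obtain ⟨Y, hY⟩ : ∃ Y : ℕ → ℝ, ∀ i, y (w i) = Y i := ⟨fun i => y (w i), fun _ => rfl⟩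
  simp only [hX, hY] at hE1 hE2
  obtain ⟨Δ, hΔ⟩ : ∃ Δ : ℕ → ℝ, ∀ i, Δ i = (X (i + 1) - X i) * (Y (i + 2) - Y (i + 1))
      - (Y (i + 1) - Y i) * (X (i + 2) - X (i + 1)) := ⟨_, fun _ => rfl⟩
  obtain ⟨M, hM⟩ : ∃ M : ℕ → ℝ, ∀ i, M i = (X (i + 1) - X i) * (Y (i + 3) - Y (i + 2))
      - (Y (i + 1) - Y i) * (X (i + 3) - X (i + 2)) := ⟨_, fun _ => rfl⟩
  have hΔs : ∀ i, Δ (i + 1) = Δ i := by
    intro i
    rw [hΔ, hΔ]
    have := hE1 i
    show (X (i + 2) - X (i + 1)) * (Y (i + 3) - Y (i + 2))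
      - (Y (i + 2) - Y (i + 1)) * (X (i + 3) - X (i + 2)) = _
    linear_combination this
  have hMs : ∀ i, M (i + 1) = M i := by
    intro i
    have h1 := hΔs i
    have h2 := hΔs (i + 1)
    have h3 := hE2 i
    have h5 : Δ (i + 2) = (X (i + 3) - X (i + 2)) * (Y (i + 4) - Y (i + 3))
      - (Y (i + 3) - Y (i + 2)) * (X (i + 4) - X (i + 3)) := hΔ (i + 2)
    have h6 : M (i + 1) = (X (i + 2) - X (i + 1)) * (Y (i + 4) - Y (i + 3))
      - (Y (i + 2) - Y (i + 1)) * (X (i + 4) - X (i + 3)) := hM (i + 1)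
    have h7 : Δ (i + 2) = Δ (i + 1) := h2
    have h8 : Δ (i + 2) = Δ i := by rw [h7, h1]
    rw [h5, hΔ i] at h8
    rw [h6, hM i]
    linear_combination h3 - h8
  have hΔc : ∀ i, Δ i = Δ 0 := by
    intro i
    induction i with
    | zero => rfl
    | succ i ih => rw [hΔs, ih]
  have hMc : ∀ i, M i = M 0 := by
    intro i
    induction i with
    | zero => rfl
    | succ i ih => rw [hMs, ih]
  have hD : ∀ i, 2 ≤ i → i < n → 0 < (X 1 - X 0) * (Y i - Y 0) - (Y 1 - Y 0) * (X i - X 0) := by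
    intro i hi hin
    have h1 := (hE 0).2 (w i) (fun h => by
      have := hinjOn i 0 hin (by omega) h
      omega) (fun h => by
      have := hinjOn i 1 hin (by omega) h
      omega)
    unfold dt at h1
    rw [hX, hX, hY, hY, hX, hY] at h1
    exact h1
  have hΔ0 : 0 < Δ 0 := by
    have h1 := hD 2 le_rfl (by omega)
    rw [hΔ]
    simp only [zero_add]
    linarith
  have hrec : ∀ i, X (i + 3) - X (i + 2) = M 0 / Δ 0 * (X (i + 2) - X (i + 1)) - (X (i + 1) - X i)
      ∧ Y (i + 3) - Y (i + 2) = M 0 / Δ 0 * (Y (i + 2) - Y (i + 1)) - (Y (i + 1) - Y i) := by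
    intro i
    have h1 := hΔc i
    have h2 := hΔc (i + 1)
    have h3 := hMc i
    have h5 : Δ (i + 1) = (X (i + 2) - X (i + 1)) * (Y (i + 3) - Y (i + 2))
      - (Y (i + 2) - Y (i + 1)) * (X (i + 3) - X (i + 2)) := hΔ (i + 1)
    rw [h5] at h2
    rw [hΔ i] at h1
    rw [hM i] at h3
    constructor
    · field_simp
      linear_combination (-(X (i + 3) - X (i + 2))) * h1 + (X (i + 2) - X (i + 1)) * h3
        - (X (i + 1) - X i) * h2
    · field_simp
      linear_combination (-(Y (i + 3) - Y (i + 2))) * h1 + (Y (i + 2) - Y (i + 1)) * h3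
        - (Y (i + 1) - Y i) * h2
  obtain ⟨c1, c2, p1, p2, q1, q2, hpq, hall⟩ := seq_regular (fun i => (hrec i).1)
    (fun i => (hrec i).2) (n := n) (by omega) (fun i => by rw [← hX, ← hX, hper])
    (fun i => by rw [← hY, ← hY, hper]) hD
  refine ⟨n, Equiv.ofBijective _ hbij, c1, c2, p1, p2, q1, q2, hpq, fun i => ?_⟩
  rw [Equiv.ofBijective_apply, hX, hY]
  exact hall i

end

end Pool.Agent.H.MP_02294b_ag.Cov
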