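import Pool.Agent.H.MP_02294b_ag.Cov.One7
import Pool.Agent.H.MP_02294b_ag.Cov.Slopes3

/-! Real configurations with one point of high multiplicity: from the lines to a planar point set
with few slopes. -/

set_option autoImplicit false
set_option linter.unusedSectionVars false

open Set Filter Topology Matrix
open scoped LinearAlgebra.Projectivization

namespace Pool.Agent.H.MP_02294b_ag.Cov

section

variable {ι : Type} [Fintype ι]

theorem perp_two {p q x : Fin 3 → ℝ} (hc : crossProduct p q ≠ 0) (hp : p ⬝ᵥ x = 0)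
    (hq : q ⬝ᵥ x = 0) : ∃ r : ℝ, x = r • crossProduct p q := by
  have hcc : crossProduct p q ⬝ᵥ crossProduct p q ≠ 0 := fun h0 => hc (dotProduct_self_eq_zero.1 h0)
  refine ⟨(crossProduct p q ⬝ᵥ x) / (crossProduct p q ⬝ᵥ crossProduct p q), ?_⟩
  rw [← sub_eq_zero]
  refine Matrix.eq_zero_of_mulVec_eq_zero (M := Matrix.of ![crossProduct p q, p, q]) ?_ ?_
  · have h1 := triple_product_eq_det (crossProduct p q) p q
    have h2 : (Matrix.of ![crossProduct p q, p, q]).det = crossProduct p q ⬝ᵥ crossProduct p q :=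
      h1.symm
    rw [h2]
    exact hcc
  · funext b
    fin_cases b
    · show crossProduct p q ⬝ᵥ _ = 0
      rw [dotProduct_sub, dotProduct_smul, smul_eq_mul, div_mul_cancel₀ _ hcc, sub_self]
    · show p ⬝ᵥ _ = 0
      rw [dotProduct_sub, dotProduct_smul, hp, dot_self_cross, smul_zero, sub_self]
    · show q ⬝ᵥ _ = 0
      rw [dotProduct_sub, dotProduct_smul, hq, dot_cross_self, smul_zero, sub_self]

/-- The form of a line through `o` and through the intersection point of two lines not through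
`o`. -/
theorem pencil_form {A : ι → Fin 3 → ℝ} {o : Fin 3 → ℝ} (hA : IsConfig (cx A)) {e f a : ι}
    (hef : e ≠ f) (he : rlin A e o ≠ 0) (hf : rlin A f o ≠ 0) (hao : rlin A a o = 0)
    (ha : rlin A a (cr A e f) = 0) : ∃ s : ℝ, s ≠ 0 ∧
      ∀ v, rlin A a v = s * (rlin A e v / rlin A e o - rlin A f v / rlin A f o) := by
  obtain ⟨c, hc⟩ : ∃ c, c = cr A e f := ⟨_, rfl⟩
  have hc0 : c ≠ 0 := by
    rw [hc]
    exact cr_ne_zero hA hef
  have hec : rlin A e c = 0 := by
    rw [hc]
    exact rlin_cr_left A e f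
  have hfc : rlin A f c = 0 := by
    rw [hc]
    exact rlin_cr_right A e f
  rw [← hc] at ha
  have hoc : crossProduct o c ≠ 0 := by
    rw [crossProduct_ne_zero_iff_linearIndependent, LinearIndependent.pair_iff]
    intro s t hst
    have h1 : rlin A e (s • o + t • c) = s * rlin A e o := by
      rw [rlin_add, rlin_smul, rlin_smul, hec, mul_zero, add_zero]
    rw [hst] at h1
    have h2 : rlin A e 0 = 0 := by simp [rlin]
    rw [h2] at h1
    have hs : s = 0 := (mul_eq_zero.1 h1.symm).resolve_right he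
    refine ⟨hs, ?_⟩
    rw [hs, zero_smul, zero_add] at hst
    exact (smul_eq_zero.1 hst).resolve_right hc0
  obtain ⟨w, hw⟩ : ∃ w : Fin 3 → ℝ, w = (rlin A e o)⁻¹ • A e - (rlin A f o)⁻¹ • A f := ⟨_, rfl⟩
  have hwv : ∀ v, w ⬝ᵥ v = rlin A e v / rlin A e o - rlin A f v / rlin A f o := by
    intro v
    rw [hw, sub_dotProduct, smul_dotProduct, smul_dotProduct, ← rlin_dot, ← rlin_dot, smul_eq_mul,
      smul_eq_mul]
    ring
  have hw0 : w ≠ 0 := by
    intro h0
    rw [hw, sub_eq_zero] at h0
    apply hc0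
    have h1 : A e = (rlin A e o * (rlin A f o)⁻¹) • A f := by
      rw [mul_smul, ← h0, smul_smul, mul_inv_cancel₀ he, one_smul]
    rw [hc, cr, h1, map_smul, LinearMap.smul_apply, cross_self, smul_zero]
  obtain ⟨r, hr⟩ := perp_two hoc (x := A a) (by rw [dotProduct_comm, ← rlin_dot]; exact hao)
    (by rw [dotProduct_comm, ← rlin_dot]; exact ha)
  obtain ⟨r', hr'⟩ := perp_two hoc (x := w) (by
    rw [dotProduct_comm, hwv, div_self he, div_self hf, sub_self])
    (by rw [dotProduct_comm, hwv, hec, hfc, zero_div, zero_div, sub_self])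
  have hr0 : r ≠ 0 := by
    rintro rfl
    rw [zero_smul] at hr
    have hae : a ≠ e := by
      rintro rfl
      exact he hao
    exact cr_ne_zero hA hae (by rw [cr, hr, map_zero, LinearMap.zero_apply])
  have hr0' : r' ≠ 0 := by
    rintro rfl
    exact hw0 (by rw [hr', zero_smul])
  refine ⟨r / r', div_ne_zero hr0 hr0', fun v => ?_⟩
  rw [← hwv, rlin_dot, hr, hr', smul_dotProduct, smul_dotProduct, smul_eq_mul, smul_eq_mul]
  field_simp

/-- Coordinates adapted to the point `o`. -/
structure Adapted (A : ι → Fin 3 → ℝ) (o u1 u2 : Fin 3 → ℝ) : Prop where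
  span : ∀ v, ∃ α β z : ℝ, v = α • u1 + β • u2 + z • o
  inj : ∀ α β z : ℝ, α • u1 + β • u2 + z • o = 0 → α = 0 ∧ β = 0 ∧ z = 0
  sep : ∀ e f, e ≠ f → rlin A e o ≠ 0 → rlin A f o ≠ 0 →
    rlin A e u1 / rlin A e o = rlin A f u1 / rlin A f o →
    rlin A e u2 / rlin A e o = rlin A f u2 / rlin A f o → False

theorem exists_adapted {A : ι → Fin 3 → ℝ} {o : Fin 3 → ℝ} (hA : IsConfig (cx A)) {a a' e : ι}
    (haa : a ≠ a') (hao : rlin A a o = 0) (ha'o : rlin A a' o = 0) (heo : rlin A e o ≠ 0) :
    ∃ u1 u2, Adapted A o u1 u2 := by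
  have hae : a ≠ e := by
    rintro rfl
    exact heo hao
  have ha'e : a' ≠ e := by
    rintro rfl
    exact heo ha'o
  have h1 : rlin A a' (cr A a e) ≠ 0 := fun h0 =>
    pencil_unique hA haa hao ha'o heo (cr_ne_zero hA hae) (rlin_cr_right A a e)
      (rlin_cr_left A a e) h0
  have h2 : rlin A a (cr A a' e) ≠ 0 := fun h0 =>
    pencil_unique hA haa hao ha'o heo (cr_ne_zero hA ha'e) (rlin_cr_right A a' e) h0
      (rlin_cr_left A a' e)
  have e1 := rlin_cr_left A a e
  have e2 := rlin_cr_right A a e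
  have e3 := rlin_cr_left A a' e
  have e4 := rlin_cr_right A a' e
  refine ⟨cr A a e, cr A a' e, fun v => ?_, fun α β z h => ?_, fun i j hij hi hj hx hy => ?_⟩
  · refine ⟨rlin A a' v / rlin A a' (cr A a e), rlin A a v / rlin A a (cr A a' e),
      rlin A e v / rlin A e o, ?_⟩
    rw [← sub_eq_zero]
    by_contra hne
    have hneg : ∀ (i : ι) (x y : Fin 3 → ℝ), rlin A i (x - y) = rlin A i x - rlin A i y := by
      intro i x y
      have := rlin_add A i (x - y) y
      rw [sub_add_cancel] at this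
      linarith
    refine pencil_unique hA haa hao ha'o heo hne ?_ ?_ ?_
    · rw [hneg, rlin_add, rlin_add, rlin_smul, rlin_smul, rlin_smul, e2, e4]
      field_simp
      ring
    · rw [hneg, rlin_add, rlin_add, rlin_smul, rlin_smul, rlin_smul, e1, hao]
      field_simp
      ring
    · rw [hneg, rlin_add, rlin_add, rlin_smul, rlin_smul, rlin_smul, e3, ha'o]
      field_simp
      ring
  · have hz : ∀ i, rlin A i (0 : Fin 3 → ℝ) = 0 := fun i => by simp [rlin]
    have k1 : rlin A a' (α • cr A a e + β • cr A a' e + z • o) = α * rlin A a' (cr A a e) := by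
      rw [rlin_add, rlin_add, rlin_smul, rlin_smul, rlin_smul, e3, ha'o]
      ring
    have k2 : rlin A a (α • cr A a e + β • cr A a' e + z • o) = β * rlin A a (cr A a' e) := by
      rw [rlin_add, rlin_add, rlin_smul, rlin_smul, rlin_smul, e1, hao]
      ring
    have k3 : rlin A e (α • cr A a e + β • cr A a' e + z • o) = z * rlin A e o := by
      rw [rlin_add, rlin_add, rlin_smul, rlin_smul, rlin_smul, e2, e4]
      ring
    rw [h, hz] at k1 k2 k3
    exact ⟨(mul_eq_zero.1 k1.symm).resolve_right h1, (mul_eq_zero.1 k2.symm).resolve_right h2,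
      (mul_eq_zero.1 k3.symm).resolve_right heo⟩
  · -- two lines with the same normalized form
    have key : ∀ (m : ι) (u : Fin 3 → ℝ) (r : ℝ), rlin A m (u + (-r) • o)
        = rlin A m u - r * rlin A m o := by
      intro m u r
      rw [rlin_add, rlin_smul]
      ring
    obtain ⟨r, hr⟩ : ∃ r, r = rlin A i (cr A a e) / rlin A i o := ⟨_, rfl⟩
    obtain ⟨s, hs⟩ : ∃ s, s = rlin A i (cr A a' e) / rlin A i o := ⟨_, rfl⟩
    rw [← hr] at hx
    rw [← hs] at hy
    refine not_two hA (l := a) hij (v := cr A a' e + (-s) • o) (u := cr A a e + (-r) • o) ?_ ?_ ?_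
      ?_ ?_ ?_ ?_
    · rw [key, hao, mul_zero, sub_zero]
      exact h2
    · rw [key, hao, e1, mul_zero, sub_zero]
    · intro h0
      have := key a' (cr A a e) r
      rw [h0, ha'o] at this
      have hz : rlin A a' (0 : Fin 3 → ℝ) = 0 := by simp [rlin]
      rw [hz, mul_zero, sub_zero] at this
      exact h1 this.symm
    · rw [key, hs]
      field_simp
      ring
    · rw [key, hy]
      field_simp
      ring
    · rw [key, hr]
      field_simp
      ring
    · rw [key, hx]
      field_simp
      ring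

end

end Pool.Agent.H.MP_02294b_ag.Cov
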