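import Pool.Agent.H.MP_02294b_ag.Cov.One8

/-! Real configurations with one point of high multiplicity: the planar point set. -/

set_option autoImplicit false
set_option linter.unusedSectionVars false

open Set Filter Topology Matrix
open scoped LinearAlgebra.Projectivization

namespace Pool.Agent.H.MP_02294b_ag.Cov

section

variable {ι : Type} [Fintype ι]

/-- The lines not through `o`. -/
abbrev Off (A : ι → Fin 3 → ℝ) (o : Fin 3 → ℝ) : Type := {m : ι // rlin A m o ≠ 0}

/-- The normalized value of the form of a line not through `o` at a vector. -/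
noncomputable def nv (A : ι → Fin 3 → ℝ) (o u : Fin 3 → ℝ) (m : Off A o) : ℝ :=
  rlin A m.1 u / rlin A m.1 o

theorem nv_eval {A : ι → Fin 3 → ℝ} {o u1 u2 : Fin 3 → ℝ} (m : Off A o) (α β z : ℝ) :
    rlin A m.1 (α • u1 + β • u2 + z • o)
      = rlin A m.1 o * (z + α * nv A o u1 m + β * nv A o u2 m) := by
  have := m.2
  rw [rlin_add, rlin_add, rlin_smul, rlin_smul, rlin_smul, nv, nv]
  field_simp
  ring

theorem on_eval {A : ι → Fin 3 → ℝ} {o u1 u2 : Fin 3 → ℝ} {a : ι} (hao : rlin A a o = 0)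
    (α β z : ℝ) :
    rlin A a (α • u1 + β • u2 + z • o) = α * rlin A a u1 + β * rlin A a u2 := by
  rw [rlin_add, rlin_add, rlin_smul, rlin_smul, rlin_smul, hao]
  ring

theorem pencil_slope {A : ι → Fin 3 → ℝ} {o : Fin 3 → ℝ} (hA : IsConfig (cx A)) {e f : Off A o}
    {a : ι} (hef : e ≠ f) (hao : rlin A a o = 0) (ha : rlin A a (cr A e.1 f.1) = 0)
    (u1 u2 : Fin 3 → ℝ) :
    ∃ s : ℝ, s ≠ 0 ∧ rlin A a u1 = s * (nv A o u1 e - nv A o u1 f) ∧
      rlin A a u2 = s * (nv A o u2 e - nv A o u2 f) := by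
  obtain ⟨s, hs, h⟩ := pencil_form hA (fun h => hef (Subtype.ext h)) e.2 f.2 hao ha
  exact ⟨s, hs, h u1, h u2⟩

theorem slopes_of_poly {A : ι → Fin 3 → ℝ} {o : Fin 3 → ℝ} (H : PolyType A o)
    {u1 u2 : Fin 3 → ℝ} (hu : Adapted A o u1 u2) :
    ∃ (t1 t2 : Off A o → ℝ) (b : Off A o → ι), Slopes (nv A o u1) (nv A o u2) t1 t2 ∧
      ∀ e, rlin A (b e) o = 0 ∧ t1 e * rlin A (b e) u2 - t2 e * rlin A (b e) u1 = 0 ∧
        ∀ a, rlin A a o = 0 → a ≠ b e → ∃ j : Off A o, j ≠ e ∧ rlin A a (cr A e.1 j.1) = 0 := by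
  have hex : ∀ e : Off A o, ∃ (t1 t2 : ℝ) (b : ι),
      (∀ m, m ≠ e → 0 < t1 * (nv A o u2 m - nv A o u2 e) - t2 * (nv A o u1 m - nv A o u1 e)) ∧
      rlin A b o = 0 ∧ t1 * rlin A b u2 - t2 * rlin A b u1 = 0 ∧
      ∀ a, rlin A a o = 0 → a ≠ b → ∃ j : Off A o, j ≠ e ∧ rlin A a (cr A e.1 j.1) = 0 := by
    intro e
    obtain ⟨b, p, hp, hbo, hbp, hep, hj, hsg, hrest⟩ := H.dbl e.1 e.2
    obtain ⟨α, β, z, hpd⟩ := hu.span p
    refine ⟨β, -α, b, fun m hm => ?_, hbo, ?_, fun a hao hab => ?_⟩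
    · have h1 := hsg m.1
      have h2 : m.1 ≠ b := by
        intro h
        exact m.2 (by rw [h]; exact hbo)
      have h3 : rlin A m.1 p ≠ 0 := hj m.1 h2 fun h => hm (Subtype.ext h)
      rw [hpd, nv_eval] at h1 h3 hep
      have h5 := (mul_eq_zero.1 hep).resolve_left e.2
      have h6 : 0 < rlin A m.1 o ^ 2 := by
        have := m.2
        positivity
      have h7 : rlin A m.1 o * (rlin A m.1 o * (z + α * nv A o u1 m + β * nv A o u2 m))
          = rlin A m.1 o ^ 2 * (z + α * nv A o u1 m + β * nv A o u2 m) := by ring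
      rw [h7] at h1
      have h8 := (mul_nonneg_iff_of_pos_left h6).1 h1
      have h9 : z + α * nv A o u1 m + β * nv A o u2 m ≠ 0 := fun h0 => h3 (by rw [h0, mul_zero])
      have h10 := lt_of_le_of_ne h8 (Ne.symm h9)
      linarith
    · rw [hpd, on_eval hbo] at hbp
      linarith
    · obtain ⟨j, hje, hjo, hj0⟩ := hrest a hao hab
      refine ⟨⟨j, hjo⟩, fun h => hje (congrArg Subtype.val h), ?_⟩
      rw [rlin_cr_swap] at hj0
      have : rlin A a (cr A e.1 j) = -rlin A a (cr A j e.1) := by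
        rw [cr, cr, ← cross_anticomm, rlin_dot, rlin_dot, dotProduct_neg]
      show rlin A a (cr A e.1 j) = 0
      rw [this]
      exact hj0
  choose t1 t2 b hb using hex
  refine ⟨t1, t2, b, ⟨?_, fun e m hm => (hb e).1 m hm, ?_⟩, fun e => (hb e).2⟩
  · -- no three points on a line
    intro e f g hef heg hfg h0
    have hef' : e.1 ≠ f.1 := fun h => hef (Subtype.ext h)
    have h1 := H.gen e.1 f.1 g.1 hef' (fun h => heg (Subtype.ext h)) (fun h => hfg (Subtype.ext h))
      e.2 f.2 g.2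
    obtain ⟨α, β, z, hc⟩ := hu.span (cr A e.1 f.1)
    have h2 := rlin_cr_left A e.1 f.1
    have h3 := rlin_cr_right A e.1 f.1
    rw [hc, nv_eval] at h1 h2 h3
    have h2' := (mul_eq_zero.1 h2).resolve_left e.2
    have h3' := (mul_eq_zero.1 h3).resolve_left f.2
    have h1' : z + α * nv A o u1 g + β * nv A o u2 g ≠ 0 := fun h => h1 (by rw [h, mul_zero])
    unfold dt at h0
    have k1 : (nv A o u1 f - nv A o u1 e) * (z + α * nv A o u1 g + β * nv A o u2 g) = 0 := by
      linear_combination (nv A o u1 f - nv A o u1 e) * h2' + β * h0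
        + (nv A o u1 g - nv A o u1 e) * (h3' - h2')
    have k2 : (nv A o u2 f - nv A o u2 e) * (z + α * nv A o u1 g + β * nv A o u2 g) = 0 := by
      linear_combination (nv A o u2 f - nv A o u2 e) * h2' - α * h0
        + (nv A o u2 g - nv A o u2 e) * (h3' - h2')
    have k1' := (mul_eq_zero.1 k1).resolve_right h1'
    have k2' := (mul_eq_zero.1 k2).resolve_right h1'
    exact hu.sep e.1 f.1 hef' e.2 f.2 (by rw [nv, nv] at k1'; linarith)
      (by rw [nv, nv] at k2'; linarith)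
  · intro e f g hfg
    obtain ⟨a, hao, ha⟩ := H.meet f.1 g.1 (fun h => hfg (Subtype.ext h)) f.2 g.2
    obtain ⟨s, hs, hs1, hs2⟩ := pencil_slope H.config hfg hao ha u1 u2
    obtain ⟨-, -, hbt, hbr⟩ := hb e
    by_cases hab : a = b e
    · left
      rw [← hab, hs1, hs2] at hbt
      have : s * (t1 e * (nv A o u2 g - nv A o u2 f) - t2 e * (nv A o u1 g - nv A o u1 f)) = 0 := by
        linear_combination -hbt
      exact (mul_eq_zero.1 this).resolve_left hs
    · right
      obtain ⟨j, hje, hj⟩ := hbr a hao hab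
      obtain ⟨r, hr, hr1, hr2⟩ := pencil_slope H.config (Ne.symm hje) hao hj u1 u2
      refine ⟨j, hje, ?_⟩
      have : s * r * ((nv A o u1 g - nv A o u1 f) * (nv A o u2 j - nv A o u2 e)
          - (nv A o u2 g - nv A o u2 f) * (nv A o u1 j - nv A o u1 e)) = 0 := by
        have e1 : s * (nv A o u1 f - nv A o u1 g) = r * (nv A o u1 e - nv A o u1 j) := by
          rw [← hs1, ← hr1]
        have e2 : s * (nv A o u2 f - nv A o u2 g) = r * (nv A o u2 e - nv A o u2 j) := by
          rw [← hs2, ← hr2]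
        linear_combination r * (nv A o u2 e - nv A o u2 j) * e1
          - r * (nv A o u1 e - nv A o u1 j) * e2
      exact (mul_eq_zero.1 this).resolve_left (mul_ne_zero hs hr)

end

end Pool.Agent.H.MP_02294b_ag.Cov
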