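import Mathlib

/-! Points in a rectangle: the planar picture of a configuration near a double point. -/

set_option autoImplicit false
set_option linter.unusedSectionVars false

open Set Filter Topology

namespace Pool.Agent.H.MP_02294b_ag.Cov

section

variable {ι : Type} [Fintype ι]

open Classical in
/-- The values of the forms `x`, `y` (for the lines `a`, `b`) and `z + c i * x + d i * y`. -/
noncomputable def pv (a b : ι) (c d : ι → ℝ) (i : ι) (X : Fin 3 → ℝ) : ℝ :=
  if i = a then X 0 else if i = b then X 1 else X 2 + c i * X 0 + d i * X 1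

/-- walls of a chamber -/
def PW (a b : ι) (c d : ι → ℝ) (X : Fin 3 → ℝ) (w : ι) : Prop :=
  ∃ Y, pv a b c d w Y = 0 ∧ ∀ j, j ≠ w → 0 < pv a b c d j X * pv a b c d j Y

/-- no chamber has four walls -/
def NF (a b : ι) (c d : ι → ℝ) : Prop :=
  ∀ X, (∀ i, pv a b c d i X ≠ 0) → ∀ w : Fin 4 → ι, Function.Injective w →
    ¬ ∀ k, PW a b c d X (w k)

theorem pv_a (a b : ι) (c d : ι → ℝ) (X : Fin 3 → ℝ) : pv a b c d a X = X 0 := by
  simp [pv]

theorem pv_b {a b : ι} (h : a ≠ b) (c d : ι → ℝ) (X : Fin 3 → ℝ) : pv a b c d b X = X 1 := by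
  simp [pv, h.symm]

theorem pv_j {a b j : ι} (ha : j ≠ a) (hb : j ≠ b) (c d : ι → ℝ) (X : Fin 3 → ℝ) :
    pv a b c d j X = X 2 + c j * X 0 + d j * X 1 := by
  simp [pv, ha, hb]

open Classical in
theorem pv_flip_c {a b : ι} (c d : ι → ℝ) (i : ι) (X : Fin 3 → ℝ) :
    pv a b (fun j => -c j) d i X
      = (if i = a then -1 else 1) * pv a b c d i ![-X 0, X 1, X 2] := by
  classical
  unfold pv
  split_ifs <;> simp

open Classical in
theorem pv_flip_d {a b : ι} (c d : ι → ℝ) (i : ι) (X : Fin 3 → ℝ) :
    pv a b c (fun j => -d j) i X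
      = (if i = a then 1 else if i = b then -1 else 1) * pv a b c d i ![X 0, -X 1, X 2] := by
  classical
  unfold pv
  split_ifs <;> simp

theorem nf_of_scaled {a b : ι} {c d c' d' : ι → ℝ} (h : NF a b c d) (s : ι → ℝ)
    (hs : ∀ i, s i ≠ 0) (T : (Fin 3 → ℝ) → Fin 3 → ℝ)
    (hT : ∀ i X, pv a b c' d' i X = s i * pv a b c d i (T X)) : NF a b c' d' := by
  intro X hX w hw hall
  refine h (T X) (fun i h0 => hX i (by rw [hT, h0, mul_zero])) w hw fun k => ?_
  obtain ⟨Y, hY, hY'⟩ := hall k
  rw [hT] at hY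
  refine ⟨T Y, (mul_eq_zero.1 hY).resolve_left (hs _), fun j hj => ?_⟩
  have h1 := hY' j hj
  rw [hT, hT] at h1
  have h2 : s j * pv a b c d j (T X) * (s j * pv a b c d j (T Y))
      = (s j) ^ 2 * (pv a b c d j (T X) * pv a b c d j (T Y)) := by ring
  rw [h2] at h1
  have h3 : 0 < (s j) ^ 2 := by
    have := hs j
    positivity
  exact (mul_pos_iff_of_pos_left h3).1 h1

theorem nf_flip_c {a b : ι} {c d : ι → ℝ} (h : NF a b c d) : NF a b (fun j => -c j) d := by
  classical
  refine nf_of_scaled h (fun i => if i = a then -1 else 1) (fun i => ?_)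
    (fun X => ![-X 0, X 1, X 2]) fun i X => pv_flip_c c d i X
  split_ifs <;> norm_num

theorem nf_flip_d {a b : ι} {c d : ι → ℝ} (h : NF a b c d) : NF a b c (fun j => -d j) := by
  classical
  refine nf_of_scaled h (fun i => if i = a then 1 else if i = b then -1 else 1) (fun i => ?_)
    (fun X => ![X 0, -X 1, X 2]) fun i X => pv_flip_d c d i X
  split_ifs <;> norm_num

theorem plane_eps (f g : ι → ℝ) : ∃ ε : ℝ, 0 < ε ∧ ∀ l, 0 < f l → 0 < f l + ε * g l := by
  have h : ∀ᶠ ε in 𝓝[>] (0 : ℝ), ∀ l, 0 < f l → 0 < f l + ε * g l := by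
    rw [eventually_all]
    intro l
    by_cases hl : 0 < f l
    · have hc : Tendsto (fun ε : ℝ => f l + ε * g l) (𝓝[>] 0) (𝓝 (f l + 0 * g l)) := by
        apply Tendsto.mono_left _ nhdsWithin_le_nhds
        exact (continuous_const.add (continuous_id.mul continuous_const)).tendsto 0
      rw [zero_mul, add_zero] at hc
      filter_upwards [hc.eventually (lt_mem_nhds hl)] with ε hε _ using hε
    · exact Eventually.of_forall fun ε h => absurd h hl
  obtain ⟨ε, hε, hpos⟩ := (h.and self_mem_nhdsWithin).exists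
  exact ⟨ε, hpos, hε⟩

theorem plane_big (f : ι → ℝ) : ∃ z : ℝ, ∀ l, 0 < z + f l := by
  obtain ⟨m, hm⟩ : ∃ m, ∀ l, -f l ≤ m := by
    obtain ⟨m, hm⟩ := (Set.finite_range fun l => -f l).bddAbove
    exact ⟨m, fun l => hm ⟨l, rfl⟩⟩
  exact ⟨m + 1, fun l => by linarith [hm l]⟩

theorem plane_inj_four {w : Fin 4 → ι} (h01 : w 0 ≠ w 1) (h02 : w 0 ≠ w 2) (h03 : w 0 ≠ w 3)
    (h12 : w 1 ≠ w 2) (h13 : w 1 ≠ w 3) (h23 : w 2 ≠ w 3) : Function.Injective w := by
  intro p q hpq
  fin_cases p <;> fin_cases q <;> first | rfl | (exfalso; simp at hpq; tauto)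

/-- If no chamber has four walls, some point is the lower left corner. -/
theorem exists_corner {a b : ι} (hab : a ≠ b) {c d : ι → ℝ} (h : NF a b c d)
    (hne : ∃ j, j ≠ a ∧ j ≠ b)
    (hinj : ∀ i j, i ≠ a → i ≠ b → j ≠ a → j ≠ b → c i = c j → d i = d j → i = j) :
    ∃ i, i ≠ a ∧ i ≠ b ∧ ∀ j, j ≠ a → j ≠ b → c i ≤ c j ∧ d i ≤ d j := by
  classical
  set J : Finset ι := Finset.univ.filter fun j => j ≠ a ∧ j ≠ b with hJ
  have hmem : ∀ j, j ∈ J ↔ j ≠ a ∧ j ≠ b := fun j => by simp [hJ]
  have hJne : J.Nonempty := by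
    obtain ⟨j, h1, h2⟩ := hne
    exact ⟨j, (hmem j).2 ⟨h1, h2⟩⟩
  obtain ⟨i, hi, himin⟩ := J.exists_min_image (fun j => toLex (c j, d j)) hJne
  obtain ⟨j, hj, hjmin⟩ := J.exists_min_image (fun j => toLex (d j, c j)) hJne
  have hi' : ∀ l ∈ J, c i < c l ∨ c i = c l ∧ d i ≤ d l := fun l hl => by
    have := himin l hl
    simpa [Prod.Lex.toLex_le_toLex] using this
  have hj' : ∀ l ∈ J, d j < d l ∨ d j = d l ∧ c j ≤ c l := fun l hl => by
    have := hjmin l hl
    simpa [Prod.Lex.toLex_le_toLex] using this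
  obtain ⟨hia, hib⟩ := (hmem i).1 hi
  obtain ⟨hja, hjb⟩ := (hmem j).1 hj
  by_cases hij : i = j
  · refine ⟨i, hia, hib, fun l h1 h2 => ?_⟩
    have hl := (hmem l).2 ⟨h1, h2⟩
    constructor
    · rcases hi' l hl with h3 | h3
      · exact h3.le
      · exact h3.1.le
    · rcases hj' l hl with h3 | h3
      · rw [hij]
        exact h3.le
      · rw [hij]
        exact h3.1.le
  exfalso
  obtain ⟨z, hz⟩ := plane_big fun l => c l + d l
  obtain ⟨z1, hz1⟩ := plane_big fun l => d l
  obtain ⟨z2, hz2⟩ := plane_big fun l => c l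
  have hXpos : ∀ l, 0 < pv a b c d l ![1, 1, z] := by
    intro l
    by_cases h1 : l = a
    · rw [h1, pv_a]
      norm_num
    · by_cases h2 : l = b
      · rw [h2, pv_b hab]
        norm_num
      · rw [pv_j h1 h2]
        have := hz l
        simp only [Matrix.cons_val_zero, Matrix.cons_val_one, Matrix.cons_val]
        linarith
  have hwall : ∀ (w : ι) (Y : Fin 3 → ℝ), pv a b c d w Y = 0 →
      (∀ l, l ≠ w → 0 < pv a b c d l Y) → PW a b c d ![1, 1, z] w := fun w Y h0 h1 =>
    ⟨Y, h0, fun l hl => mul_pos (hXpos l) (h1 l hl)⟩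
  refine h ![1, 1, z] (fun l => (hXpos l).ne') ![a, b, i, j] ?_ ?_
  · apply plane_inj_four
    · exact hab
    · exact hia.symm
    · exact hja.symm
    · exact hib.symm
    · exact hjb.symm
    · exact hij
  intro k
  fin_cases k
  · refine hwall a ![0, 1, z1] (by rw [pv_a]; rfl) fun l hl => ?_
    by_cases h2 : l = b
    · rw [h2, pv_b hab]
      norm_num
    · rw [pv_j hl h2]
      have := hz1 l
      simp only [Matrix.cons_val_zero, Matrix.cons_val_one, Matrix.cons_val]
      linarith
  · refine hwall b ![1, 0, z2] (by rw [pv_b hab]; rfl) fun l hl => ?_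
    by_cases h2 : l = a
    · rw [h2, pv_a]
      norm_num
    · rw [pv_j h2 hl]
      have := hz2 l
      simp only [Matrix.cons_val_zero, Matrix.cons_val_one, Matrix.cons_val]
      linarith
  · obtain ⟨ε, hε, hε'⟩ := plane_eps (fun l => c l - c i) fun l => d l - d i
    refine hwall i ![1, ε, -c i - ε * d i] ?_ fun l hl => ?_
    · rw [pv_j hia hib]
      simp only [Matrix.cons_val_zero, Matrix.cons_val_one, Matrix.cons_val]
      ring
    · by_cases h1 : l = a
      · rw [h1, pv_a]
        norm_num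
      · by_cases h2 : l = b
        · rw [h2, pv_b hab]
          exact hε
        · rw [pv_j h1 h2]
          simp only [Matrix.cons_val_zero, Matrix.cons_val_one, Matrix.cons_val]
          rcases hi' l ((hmem l).2 ⟨h1, h2⟩) with h3 | ⟨h3, h4⟩
          · have := hε' l (by linarith)
            nlinarith
          · have h5 : d i ≠ d l := fun h0 => hl (hinj l i h1 h2 hia hib h3.symm h0.symm)
            have h6 : 0 < ε * (d l - d i) := mul_pos hε (by
              rcases lt_or_eq_of_le h4 with h7 | h7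
              · linarith
              · exact absurd h7 h5)
            nlinarith
  · obtain ⟨ε, hε, hε'⟩ := plane_eps (fun l => d l - d j) fun l => c l - c j
    refine hwall j ![ε, 1, -ε * c j - d j] ?_ fun l hl => ?_
    · rw [pv_j hja hjb]
      simp only [Matrix.cons_val_zero, Matrix.cons_val_one, Matrix.cons_val]
      ring
    · by_cases h1 : l = a
      · rw [h1, pv_a]
        exact hε
      · by_cases h2 : l = b
        · rw [h2, pv_b hab]
          norm_num
        · rw [pv_j h1 h2]
          simp only [Matrix.cons_val_zero, Matrix.cons_val_one, Matrix.cons_val]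
          rcases hj' l ((hmem l).2 ⟨h1, h2⟩) with h3 | ⟨h3, h4⟩
          · have := hε' l (by linarith)
            nlinarith
          · have h5 : c j ≠ c l := fun h0 => hl (hinj l j h1 h2 hja hjb h0.symm h3.symm)
            have h6 : 0 < ε * (c l - c j) := mul_pos hε (by
              rcases lt_or_eq_of_le h4 with h7 | h7
              · linarith
              · exact absurd h7 h5)
            nlinarith

/-- If no chamber has four walls, no point lies below the diagonal at a corner. -/
theorem corner_cut {a b : ι} (hab : a ≠ b) {c d : ι → ℝ} (h : NF a b c d)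
    (hinj : ∀ i j, i ≠ a → i ≠ b → j ≠ a → j ≠ b → c i = c j → d i = d j → i = j)
    {i m n : ι} (hia : i ≠ a) (hib : i ≠ b) (hma : m ≠ a) (hmb : m ≠ b) (hna : n ≠ a)
    (hnb : n ≠ b) (hcm : c m = c i) (hdm : d i < d m) (hdn : d n = d i) (hcn : c i < c n)
    (hm : ∀ l, l ≠ a → l ≠ b → l ≠ i → l ≠ m → c i < c l)
    (hn : ∀ l, l ≠ a → l ≠ b → l ≠ i → l ≠ n → d i < d l) :
    ∀ l, l ≠ a → l ≠ b → l ≠ i →
      1 ≤ (c l - c i) / (c n - c i) + (d l - d i) / (d m - d i) := by
  classical
  have hC : 0 < c n - c i := by linarith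
  have hD : 0 < d m - d i := by linarith
  set g : ι → ℝ := fun l => (c l - c i) / (c n - c i) + (d l - d i) / (d m - d i) with hg
  by_contra hcon
  push Not at hcon
  obtain ⟨l0, hl0a, hl0b, hl0i, hl0⟩ := hcon
  set J : Finset ι := Finset.univ.filter fun j => j ≠ a ∧ j ≠ b ∧ j ≠ i with hJ
  have hmem : ∀ j, j ∈ J ↔ j ≠ a ∧ j ≠ b ∧ j ≠ i := fun j => by simp [hJ]
  obtain ⟨q, hq, hqmin⟩ := J.exists_min_image (fun j => toLex (g j, c j))
    ⟨l0, (hmem l0).2 ⟨hl0a, hl0b, hl0i⟩⟩
  have hq' : ∀ l ∈ J, g q < g l ∨ g q = g l ∧ c q ≤ c l := fun l hl => by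
    have := hqmin l hl
    simpa [Prod.Lex.toLex_le_toLex] using this
  obtain ⟨hqa, hqb, hqi⟩ := (hmem q).1 hq
  have hqle : ∀ l, l ≠ a → l ≠ b → l ≠ i → g q ≤ g l := by
    intro l h1 h2 h3
    rcases hq' l ((hmem l).2 ⟨h1, h2, h3⟩) with h4 | h4
    · exact h4.le
    · exact h4.1.le
  have hq1 : g q < 1 := lt_of_le_of_lt (hqle l0 hl0a hl0b hl0i) hl0
  have hgm : g m = 1 := by
    simp only [hg, hcm, sub_self, zero_div, zero_add]
    exact div_self hD.ne'
  have hgn : g n = 1 := by
    simp only [hg, hdn, sub_self, zero_div, add_zero]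
    exact div_self hC.ne'
  have hgi : g i = 0 := by simp [hg]
  have hqm : q ≠ m := by
    rintro rfl
    linarith
  have hqn : q ≠ n := by
    rintro rfl
    linarith
  have him : i ≠ m := by
    rintro rfl
    linarith
  have hin : i ≠ n := by
    rintro rfl
    linarith
  have hmn : m ≠ n := by
    rintro rfl
    linarith
  have hγ : 0 < g q := by
    have h1 := hm q hqa hqb hqi hqm
    have h2 := hn q hqa hqb hqi hqn
    have h3 : 0 < (c q - c i) / (c n - c i) := div_pos (by linarith) hC
    have h4 : 0 < (d q - d i) / (d m - d i) := div_pos (by linarith) hD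
    show 0 < (c q - c i) / (c n - c i) + (d q - d i) / (d m - d i)
    linarith
  set C := c n - c i with hCdef
  set D := d m - d i with hDdef
  set X : Fin 3 → ℝ := ![1 / C, 1 / D, -(c i / C) - d i / D - g q / 2] with hX
  have hval : ∀ l, l ≠ a → l ≠ b → pv a b c d l X = g l - g q / 2 := by
    intro l h1 h2
    rw [pv_j h1 h2]
    simp only [hX, hg, Matrix.cons_val_zero, Matrix.cons_val_one, Matrix.cons_val]
    field_simp
    ring
  have hXa : 0 < pv a b c d a X := by
    rw [pv_a]
    simp only [hX, Matrix.cons_val_zero]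
    positivity
  have hXb : 0 < pv a b c d b X := by
    rw [pv_b hab]
    show 0 < 1 / D
    positivity
  have hXi : pv a b c d i X < 0 := by
    rw [hval i hia hib, hgi]
    linarith
  have hXl : ∀ l, l ≠ a → l ≠ b → l ≠ i → 0 < pv a b c d l X := by
    intro l h1 h2 h3
    rw [hval l h1 h2]
    linarith [hqle l h1 h2 h3]
  have hwall : ∀ (w : ι) (Y : Fin 3 → ℝ), pv a b c d w Y = 0 → 0 < Y 0 → 0 < Y 1 →
      (i ≠ w → pv a b c d i Y < 0) →
      (∀ l, l ≠ w → l ≠ a → l ≠ b → l ≠ i → 0 < pv a b c d l Y) → PW a b c d X w := by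
    intro w Y h0 h1 h2 h3 h4
    refine ⟨Y, h0, fun l hl => ?_⟩
    by_cases ha : l = a
    · rw [ha]
      refine mul_pos hXa ?_
      rw [pv_a]
      exact h1
    by_cases hb : l = b
    · rw [hb]
      refine mul_pos hXb ?_
      rw [pv_b hab]
      exact h2
    by_cases hi : l = i
    · rw [hi]
      exact mul_pos_of_neg_of_neg hXi (h3 (by rw [← hi]; exact hl))
    exact mul_pos (hXl l ha hb hi) (h4 l hl ha hb hi)
  refine h X (fun l => ?_) ![i, m, n, q] ?_ ?_
  · by_cases ha : l = a
    · rw [ha]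
      exact hXa.ne'
    by_cases hb : l = b
    · rw [hb]
      exact hXb.ne'
    by_cases hi : l = i
    · rw [hi]
      exact hXi.ne
    exact (hXl l ha hb hi).ne'
  · apply plane_inj_four
    · exact him
    · exact hin
    · exact hqi.symm
    · exact hmn
    · exact hqm.symm
    · exact hqn.symm
  intro k
  fin_cases k
  · refine hwall i ![1 / C, 1 / D, -(c i / C) - d i / D] ?_ ?_ ?_ (fun h0 => absurd rfl h0) ?_
    · rw [pv_j hia hib]
      simp only [Matrix.cons_val_zero, Matrix.cons_val_one, Matrix.cons_val]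
      field_simp
      ring
    · simp only [Matrix.cons_val_zero]
      positivity
    · show 0 < 1 / D
      positivity
    · intro l _ h1 h2 h3
      have h4 := hqle l h1 h2 h3
      have h5 : pv a b c d l ![1 / C, 1 / D, -(c i / C) - d i / D] = g l := by
        rw [pv_j h1 h2]
        simp only [hg, Matrix.cons_val_zero, Matrix.cons_val_one, Matrix.cons_val]
        field_simp
        ring
      rw [h5]
      linarith
  · obtain ⟨ε, hε, hε'⟩ := plane_eps (fun l => c l - c i) fun l => d l - d m
    refine hwall m ![1, ε, -c i - ε * d m] ?_ ?_ ?_ ?_ ?_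
    · rw [pv_j hma hmb]
      simp only [Matrix.cons_val_zero, Matrix.cons_val_one, Matrix.cons_val]
      rw [hcm]
      ring
    · norm_num
    · exact hε
    · intro _
      rw [pv_j hia hib]
      simp only [Matrix.cons_val_zero, Matrix.cons_val_one, Matrix.cons_val]
      have := mul_pos hε hD
      rw [hDdef] at this
      nlinarith
    · intro l hl h1 h2 h3
      rw [pv_j h1 h2]
      simp only [Matrix.cons_val_zero, Matrix.cons_val_one, Matrix.cons_val]
      have := hε' l (by linarith [hm l h1 h2 h3 hl])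
      nlinarith
  · obtain ⟨ε, hε, hε'⟩ := plane_eps (fun l => d l - d i) fun l => c l - c n
    refine hwall n ![ε, 1, -ε * c n - d i] ?_ ?_ ?_ ?_ ?_
    · rw [pv_j hna hnb]
      simp only [Matrix.cons_val_zero, Matrix.cons_val_one, Matrix.cons_val]
      rw [hdn]
      ring
    · exact hε
    · norm_num
    · intro _
      rw [pv_j hia hib]
      simp only [Matrix.cons_val_zero, Matrix.cons_val_one, Matrix.cons_val]
      have := mul_pos hε hC
      rw [hCdef] at this
      nlinarith
    · intro l hl h1 h2 h3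
      rw [pv_j h1 h2]
      simp only [Matrix.cons_val_zero, Matrix.cons_val_one, Matrix.cons_val]
      have := hε' l (by linarith [hn l h1 h2 h3 hl])
      nlinarith
  · obtain ⟨ε, hε, hε'⟩ := plane_eps (fun l => g l - g q) fun l => c l - c q
    have hval2 : ∀ l, l ≠ a → l ≠ b → pv a b c d l
        ![1 / C + ε, 1 / D, -(c i / C) - d i / D - g q - ε * c q]
        = (g l - g q) + ε * (c l - c q) := by
      intro l h1 h2
      rw [pv_j h1 h2]
      have h3 : g l = (c l - c i) / C + (d l - d i) / D := rfl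
      rw [h3]
      generalize g q = γ
      simp only [Matrix.cons_val_zero, Matrix.cons_val_one, Matrix.cons_val]
      field_simp
      ring
    refine hwall q ![1 / C + ε, 1 / D, -(c i / C) - d i / D - g q - ε * c q] ?_ ?_ ?_ ?_ ?_
    · rw [hval2 q hqa hqb]
      ring
    · simp only [Matrix.cons_val_zero]
      positivity
    · show 0 < 1 / D
      positivity
    · intro _
      rw [hval2 i hia hib, hgi]
      have h1 := hm q hqa hqb hqi hqm
      have := mul_pos hε (show 0 < c q - c i by linarith)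
      nlinarith
    · intro l hl h1 h2 h3
      rw [hval2 l h1 h2]
      rcases hq' l ((hmem l).2 ⟨h1, h2, h3⟩) with h4 | ⟨h4, h5⟩
      · exact hε' l (by linarith)
      · have h6 : c q ≠ c l := by
          intro h0
          apply hl
          apply hinj l q h1 h2 hqa hqb h0.symm
          have h7 : (c q - c i) / C + (d q - d i) / D = (c l - c i) / C + (d l - d i) / D := h4
          rw [h0] at h7
          have h8 : (d q - d i) / D = (d l - d i) / D := by linarith
          have h9 : d q - d i = d l - d i := by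
            field_simp at h8
            linarith
          linarith
        have h7 : 0 < ε * (c l - c q) := mul_pos hε (by
          rcases lt_or_eq_of_le h5 with h8 | h8
          · linarith
          · exact absurd h8 h6)
        linarith

end

end Pool.Agent.H.MP_02294b_ag.Cov
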