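import Pool.Agent.H.MP_02294b_ag.Cov.Plane

/-! Points in a rectangle: the four corners and the centre. -/

set_option autoImplicit false
set_option linter.unusedSectionVars false

open Set Filter Topology

namespace Pool.Agent.H.MP_02294b_ag.Cov

section

variable {ι : Type} [Fintype ι]

/-- If no chamber has four walls and each side of the smallest rectangle which contains the points
contains at most two of them, the points are the corners of the rectangle and possibly its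
centre. -/
theorem rect_structure {a b : ι} (hab : a ≠ b) {c d : ι → ℝ} (h : NF a b c d)
    (hinj : ∀ i j, i ≠ a → i ≠ b → j ≠ a → j ≠ b → c i = c j → d i = d j → i = j)
    (hc : ∀ i j l, i ≠ a → i ≠ b → j ≠ a → j ≠ b → l ≠ a → l ≠ b → i ≠ j → i ≠ l → j ≠ l →
      c i = c j → c i = c l →
      ((∀ m, m ≠ a → m ≠ b → c i ≤ c m) ∨ ∀ m, m ≠ a → m ≠ b → c m ≤ c i) → False)
    (hd : ∀ i j l, i ≠ a → i ≠ b → j ≠ a → j ≠ b → l ≠ a → l ≠ b → i ≠ j → i ≠ l → j ≠ l →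
      d i = d j → d i = d l →
      ((∀ m, m ≠ a → m ≠ b → d i ≤ d m) ∨ ∀ m, m ≠ a → m ≠ b → d m ≤ d i) → False)
    (h3 : ∃ i j l, (i ≠ a ∧ i ≠ b) ∧ (j ≠ a ∧ j ≠ b) ∧ (l ≠ a ∧ l ≠ b) ∧ i ≠ j ∧ i ≠ l ∧ j ≠ l) :
    ∃ i1 i2 i3 i4 : ι, (i1 ≠ a ∧ i1 ≠ b) ∧ (i2 ≠ a ∧ i2 ≠ b) ∧ (i3 ≠ a ∧ i3 ≠ b) ∧
      (i4 ≠ a ∧ i4 ≠ b) ∧ c i1 = c i3 ∧ c i2 = c i4 ∧ c i1 < c i2 ∧ d i1 = d i2 ∧ d i3 = d i4 ∧
      d i1 < d i3 ∧ ∀ l, l ≠ a → l ≠ b → l ≠ i1 → l ≠ i2 → l ≠ i3 → l ≠ i4 →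
        2 * c l = c i1 + c i2 ∧ 2 * d l = d i1 + d i3 := by
  obtain ⟨j1, j2, j3, ⟨j1a, j1b⟩, ⟨j2a, j2b⟩, ⟨j3a, j3b⟩, j12, j13, j23⟩ := h3
  have hne : ∃ j, j ≠ a ∧ j ≠ b := ⟨j1, j1a, j1b⟩
  have hinjc : ∀ i j, i ≠ a → i ≠ b → j ≠ a → j ≠ b → -c i = -c j → d i = d j → i = j :=
    fun i j h1 h2 h3 h4 h5 h6 => hinj i j h1 h2 h3 h4 (neg_injective h5) h6
  have hinjd : ∀ i j, i ≠ a → i ≠ b → j ≠ a → j ≠ b → c i = c j → -d i = -d j → i = j :=
    fun i j h1 h2 h3 h4 h5 h6 => hinj i j h1 h2 h3 h4 h5 (neg_injective h6)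
  have hinjcd : ∀ i j, i ≠ a → i ≠ b → j ≠ a → j ≠ b → -c i = -c j → -d i = -d j → i = j :=
    fun i j h1 h2 h3 h4 h5 h6 => hinj i j h1 h2 h3 h4 (neg_injective h5) (neg_injective h6)
  obtain ⟨i1, h1a, h1b, h1⟩ := exists_corner hab h hne hinj
  obtain ⟨i2, h2a, h2b, h2⟩ := exists_corner hab (nf_flip_c h) hne hinjc
  obtain ⟨i3, h3a, h3b, h3⟩ := exists_corner hab (nf_flip_d h) hne hinjd
  obtain ⟨i4, h4a, h4b, h4⟩ := exists_corner hab (nf_flip_d (nf_flip_c h)) hne hinjcd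
  have c1 : ∀ j, j ≠ a → j ≠ b → c i1 ≤ c j := fun j ha hb => (h1 j ha hb).1
  have c2 : ∀ j, j ≠ a → j ≠ b → c j ≤ c i2 := fun j ha hb => by linarith [(h2 j ha hb).1]
  have c3 : ∀ j, j ≠ a → j ≠ b → c i3 ≤ c j := fun j ha hb => (h3 j ha hb).1
  have c4 : ∀ j, j ≠ a → j ≠ b → c j ≤ c i4 := fun j ha hb => by linarith [(h4 j ha hb).1]
  have d1 : ∀ j, j ≠ a → j ≠ b → d i1 ≤ d j := fun j ha hb => (h1 j ha hb).2
  have d2 : ∀ j, j ≠ a → j ≠ b → d i2 ≤ d j := fun j ha hb => (h2 j ha hb).2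
  have d3 : ∀ j, j ≠ a → j ≠ b → d j ≤ d i3 := fun j ha hb => by linarith [(h3 j ha hb).2]
  have d4 : ∀ j, j ≠ a → j ≠ b → d j ≤ d i4 := fun j ha hb => by linarith [(h4 j ha hb).2]
  have ec13 : c i1 = c i3 := le_antisymm (c1 _ h3a h3b) (c3 _ h1a h1b)
  have ec24 : c i2 = c i4 := le_antisymm (c4 _ h2a h2b) (c2 _ h4a h4b)
  have ed12 : d i1 = d i2 := le_antisymm (d1 _ h2a h2b) (d2 _ h1a h1b)
  have ed34 : d i3 = d i4 := le_antisymm (d4 _ h3a h3b) (d3 _ h4a h4b)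
  have hc12 : c i1 < c i2 := by
    by_contra hcon
    push Not at hcon
    have hall : ∀ j, j ≠ a → j ≠ b → c j = c i1 := fun j ha hb =>
      le_antisymm ((c2 j ha hb).trans hcon) (c1 j ha hb)
    exact hc j1 j2 j3 j1a j1b j2a j2b j3a j3b j12 j13 j23
      (by rw [hall j1 j1a j1b, hall j2 j2a j2b]) (by rw [hall j1 j1a j1b, hall j3 j3a j3b])
      (Or.inl fun m ha hb => by rw [hall j1 j1a j1b]; exact c1 m ha hb)
  have hd13 : d i1 < d i3 := by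
    by_contra hcon
    push Not at hcon
    have hall : ∀ j, j ≠ a → j ≠ b → d j = d i1 := fun j ha hb =>
      le_antisymm ((d3 j ha hb).trans hcon) (d1 j ha hb)
    exact hd j1 j2 j3 j1a j1b j2a j2b j3a j3b j12 j13 j23
      (by rw [hall j1 j1a j1b, hall j2 j2a j2b]) (by rw [hall j1 j1a j1b, hall j3 j3a j3b])
      (Or.inl fun m ha hb => by rw [hall j1 j1a j1b]; exact d1 m ha hb)
  have n12 : i1 ≠ i2 := by
    rintro rfl
    exact lt_irrefl _ hc12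
  have n13 : i1 ≠ i3 := by
    rintro rfl
    exact lt_irrefl _ hd13
  have n24 : i2 ≠ i4 := by
    rintro rfl
    linarith
  have n34 : i3 ≠ i4 := by
    rintro rfl
    linarith
  have n14 : i1 ≠ i4 := by
    rintro rfl
    linarith
  have n23 : i2 ≠ i3 := by
    rintro rfl
    linarith
  -- strict inequalities
  have sc1 : ∀ l, l ≠ a → l ≠ b → l ≠ i1 → l ≠ i3 → c i1 < c l := fun l ha hb k1 k3 =>
    lt_of_le_of_ne (c1 l ha hb) fun h0 =>
      hc i1 i3 l h1a h1b h3a h3b ha hb n13 k1.symm k3.symm ec13 h0 (Or.inl c1)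
  have sc2 : ∀ l, l ≠ a → l ≠ b → l ≠ i2 → l ≠ i4 → c l < c i2 := fun l ha hb k1 k3 =>
    lt_of_le_of_ne (c2 l ha hb) fun h0 =>
      hc i2 i4 l h2a h2b h4a h4b ha hb n24 k1.symm k3.symm ec24 h0.symm (Or.inr c2)
  have sd1 : ∀ l, l ≠ a → l ≠ b → l ≠ i1 → l ≠ i2 → d i1 < d l := fun l ha hb k1 k3 =>
    lt_of_le_of_ne (d1 l ha hb) fun h0 =>
      hd i1 i2 l h1a h1b h2a h2b ha hb n12 k1.symm k3.symm ed12 h0 (Or.inl d1)
  have sd3 : ∀ l, l ≠ a → l ≠ b → l ≠ i3 → l ≠ i4 → d l < d i3 := fun l ha hb k1 k3 =>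
    lt_of_le_of_ne (d3 l ha hb) fun h0 =>
      hd i3 i4 l h3a h3b h4a h4b ha hb n34 k1.symm k3.symm ed34 h0.symm (Or.inr d3)
  have E1 := corner_cut hab h hinj h1a h1b h3a h3b h2a h2b ec13.symm hd13 ed12.symm hc12
    (fun l ha hb k1 k3 => sc1 l ha hb k1 k3) (fun l ha hb k1 k2 => sd1 l ha hb k1 k2)
  have E2 := corner_cut hab (nf_flip_c h) hinjc h2a h2b h4a h4b h1a h1b
    (show -c i4 = -c i2 by rw [ec24]) (show d i2 < d i4 by linarith) ed12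
    (show -c i2 < -c i1 by linarith)
    (fun l ha hb k1 k3 => show -c i2 < -c l by linarith [sc2 l ha hb k1 k3])
    (fun l ha hb k2 k1 => show d i2 < d l by linarith [sd1 l ha hb k1 k2])
  have E3 := corner_cut hab (nf_flip_d h) hinjd h3a h3b h1a h1b h4a h4b
    (show c i1 = c i3 from ec13) (show -d i3 < -d i1 by linarith) (show -d i4 = -d i3 by rw [ed34])
    (show c i3 < c i4 by linarith)
    (fun l ha hb k1 k3 => show c i3 < c l by linarith [sc1 l ha hb k3 k1])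
    (fun l ha hb k3 k4 => show -d i3 < -d l by linarith [sd3 l ha hb k3 k4])
  have E4 := corner_cut hab (nf_flip_d (nf_flip_c h)) hinjcd h4a h4b h2a h2b h3a h3b
    (show -c i2 = -c i4 by rw [ec24]) (show -d i4 < -d i2 by linarith)
    (show -d i3 = -d i4 by rw [ed34]) (show -c i4 < -c i3 by linarith)
    (fun l ha hb k1 k3 => show -c i4 < -c l by linarith [sc2 l ha hb k3 k1])
    (fun l ha hb k4 k3 => show -d i4 < -d l by linarith [sd3 l ha hb k3 k4])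
  refine ⟨i1, i2, i3, i4, ⟨h1a, h1b⟩, ⟨h2a, h2b⟩, ⟨h3a, h3b⟩, ⟨h4a, h4b⟩, ec13, ec24, hc12, ed12,
    ed34, hd13, fun l ha hb k1 k2 k3 k4 => ?_⟩
  have e1 := E1 l ha hb k1
  have e2 : 1 ≤ (-c l - -c i2) / (-c i1 - -c i2) + (d l - d i2) / (d i4 - d i2) :=
    E2 l ha hb k2
  have e3 : 1 ≤ (c l - c i3) / (c i4 - c i3) + (-d l - -d i3) / (-d i1 - -d i3) :=
    E3 l ha hb k3
  have e4 : 1 ≤ (-c l - -c i4) / (-c i3 - -c i4) + (-d l - -d i4) / (-d i2 - -d i4) :=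
    E4 l ha hb k4
  rw [← ec24, ← ec13, ← ed12] at *
  rw [← ed34] at *
  have hC : 0 < c i2 - c i1 := by linarith
  have hD : 0 < d i3 - d i1 := by linarith
  set u := (c l - c i1) / (c i2 - c i1) with hu
  set w := (d l - d i1) / (d i3 - d i1) with hw
  have hu' : (-c l - -c i2) / (-c i1 - -c i2) = 1 - u := by
    rw [hu]
    have : -c i1 - -c i2 = c i2 - c i1 := by ring
    rw [this]
    field_simp
    ring
  have hw' : (-d l - -d i3) / (-d i1 - -d i3) = 1 - w := by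
    rw [hw]
    have : -d i1 - -d i3 = d i3 - d i1 := by ring
    rw [this]
    field_simp
    ring
  rw [hu'] at e2 e4
  rw [hw'] at e3 e4
  have hu2 : u = 1 / 2 := by linarith
  have hw2 : w = 1 / 2 := by linarith
  constructor
  · rw [hu, div_eq_div_iff hC.ne' two_ne_zero] at hu2
    linarith
  · rw [hw, div_eq_div_iff hD.ne' two_ne_zero] at hw2
    linarith

end

end Pool.Agent.H.MP_02294b_ag.Cov
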