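import Pool.Agent.H.MP_02294b_ag.Cov.Lin
import Pool.Agent.H.MP_02294b_ag.Cov.Fan2

/-! The projection of the Hirzebruch-Kummer covering to the Fermat surface of four of its lines. -/

set_option autoImplicit false

open Metric Set Filter Topology Complex
open scoped LinearAlgebra.Projectivization

namespace Pool.Agent.H.MP_02294b_ag.Cov

section

variable {ι : Type} [Fintype ι] (L : ι → Fin 3 → ℂ)

theorem lin_zero (i : ι) : lin L i 0 = 0 := by
  have := lin_smul L i 0 0
  simpa using this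

/-- two distinct lines meet in one point -/
theorem common_zero {i j : ι} (hij : LinearIndependent ℂ ![L i, L j]) {x y : Fin 3 → ℂ}
    (hx : x ≠ 0) (hxi : lin L i x = 0) (hxj : lin L j x = 0) (hyi : lin L i y = 0)
    (hyj : lin L j y = 0) : ∃ c : ℂ, y = c • x := by
  set M : Matrix (Fin 2) (Fin 3) ℂ := Matrix.of ![L i, L j] with hM
  have hrank : M.rank = 2 := by
    have : LinearIndependent ℂ M.row := hij
    rw [this.rank_matrix]
    simp
  have hker : Module.finrank ℂ (LinearMap.ker M.mulVecLin) = 1 := by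
    have h1 := LinearMap.finrank_range_add_finrank_ker M.mulVecLin
    have h2 : Module.finrank ℂ (LinearMap.range M.mulVecLin) = 2 := hrank
    rw [h2] at h1
    simp at h1
    omega
  have hmem : ∀ z : Fin 3 → ℂ, lin L i z = 0 → lin L j z = 0 → z ∈ LinearMap.ker M.mulVecLin := by
    intro z h1 h2
    rw [LinearMap.mem_ker]
    funext a
    fin_cases a
    · exact h1
    · exact h2
  have hx' : (⟨x, hmem x hxi hxj⟩ : LinearMap.ker M.mulVecLin) ≠ 0 := by
    intro h
    exact hx (congrArg Subtype.val h)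
  obtain ⟨c, hc⟩ := (finrank_eq_one_iff_of_nonzero' _ hx').1 hker ⟨y, hmem y hyi hyj⟩
  exact ⟨c, (congrArg Subtype.val hc).symm⟩

/-- The projection to the Fermat surface of four lines, followed by the map to the sphere. -/
theorem exists_proj (n : ℕ) (hn1 : 1 ≤ n) {η : ℂ} (hη : η ^ n = -1)
    (P : Fin 3 → Fin 3 → ℂ) (e : Fin 3 → ι)
    (hside : ∀ a b, lin L (e a) (P b) = 0 ↔ a ≠ b) (j : ι) (d : ℂ) (μ : Fin 3 → ℂ) (ν : ℂ)
    (hμ0 : ∀ a, μ a ≠ 0) (hμ : ∀ a, μ a ^ n * lin L (e a) (P a) = d * lin L j (P a))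
    (hν : ν ^ n = d) :
    ∃ g : C(HK L n, S2), ∀ (q : HK L n) (u : ι → ℂ) (hu : u ≠ 0), u ∈ Pow L n →
      q.1.1 = Projectivization.mk ℂ u hu →
      ∀ h : ![μ 1 * u (e 1), μ 2 * u (e 2), μ 0 * u (e 0), ν * u j] ∈ Cone n,
        g q = pr n η hn1 hη ⟨_, h⟩ := by
  classical
  have hn : n ≠ 0 := by omega
  let Yv : (ι → ℂ) → Fin 4 → ℂ := fun u => ![μ 1 * u (e 1), μ 2 * u (e 2), μ 0 * u (e 0), ν * u j]
  have hYc : Continuous Yv := by
    refine continuous_pi fun i => ?_
    fin_cases i
    · exact continuous_const.mul (continuous_apply _)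
    · exact continuous_const.mul (continuous_apply _)
    · exact continuous_const.mul (continuous_apply _)
    · exact continuous_const.mul (continuous_apply _)
  have hYcone : ∀ u : ι → ℂ, u ∈ Pow L n → u ≠ 0 → Yv u ∈ Cone n := by
    rintro u ⟨x, hx⟩ hu
    constructor
    · intro h
      apply hu
      have h1 : u (e 1) = 0 := by
        have := congrFun h 0
        simp only [Yv, Matrix.cons_val, Pi.zero_apply] at this
        exact (mul_eq_zero.1 this).resolve_left (hμ0 1)
      have h2' : u (e 2) = 0 := by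
        have := congrFun h 1
        simp only [Yv, Matrix.cons_val, Pi.zero_apply] at this
        exact (mul_eq_zero.1 this).resolve_left (hμ0 2)
      have h0 : u (e 0) = 0 := by
        have := congrFun h 2
        simp only [Yv, Matrix.cons_val, Pi.zero_apply] at this
        exact (mul_eq_zero.1 this).resolve_left (hμ0 0)
      have hx0 : x = 0 := by
        refine eq_zero_of_sides L P e hside x fun a => ?_
        rw [← hx (e a)]
        fin_cases a
        · show u (e 0) ^ n = 0
          rw [h0, zero_pow hn]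
        · show u (e 1) ^ n = 0
          rw [h1, zero_pow hn]
        · show u (e 2) ^ n = 0
          rw [h2', zero_pow hn]
      funext i
      have h3 := hx i
      rw [hx0, lin_zero] at h3
      exact eq_zero_of_pow_eq_zero h3
    · obtain ⟨c, hc⟩ := basis_of_side L P e hside x
      have hce : ∀ a, lin L (e a) x = c a * lin L (e a) (P a) := by
        intro a
        rw [hc, lin_sum, Finset.sum_eq_single a]
        · intro b _ hb
          rw [(hside a b).2 (Ne.symm hb), mul_zero]
        · simp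
      have hcj : lin L j x = ∑ a, c a * lin L j (P a) := by
        rw [hc, lin_sum]
      have hterm : ∀ a, (μ a * u (e a)) ^ n = d * lin L j (P a) * c a := by
        intro a
        rw [mul_pow, hx, hce, ← hμ a]
        ring
      show (μ 1 * u (e 1)) ^ n + (μ 2 * u (e 2)) ^ n + (μ 0 * u (e 0)) ^ n = (ν * u j) ^ n
      rw [hterm, hterm, hterm, mul_pow, hν, hx, hcj, Fin.sum_univ_three]
      ring
  let g0 : XP L n → S2 := fun y =>
    pr n η hn1 hη ⟨Yv y.1.rep, hYcone _ y.2 y.1.rep_nonzero⟩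
  have hg0 : ∀ (u : ι → ℂ) (hu : u ≠ 0) (hP : u ∈ Pow L n)
      (h : Projectivization.mk ℂ u hu ∈ XP L n),
      g0 ⟨Projectivization.mk ℂ u hu, h⟩ = pr n η hn1 hη ⟨Yv u, hYcone u hP hu⟩ := by
    intro u hu hP h
    obtain ⟨a, ha⟩ := Projectivization.exists_smul_eq_mk_rep ℂ u hu
    refine pr_smul n η hn1 hη _ _ (a : ℂ) a.ne_zero ?_
    show Yv (Projectivization.mk ℂ u hu).rep = (a : ℂ) • Yv u
    rw [← ha]
    funext i
    fin_cases i
    · show μ 1 * ((a : ℂ) * u (e 1)) = (a : ℂ) * (μ 1 * u (e 1))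
      ring
    · show μ 2 * ((a : ℂ) * u (e 2)) = (a : ℂ) * (μ 2 * u (e 2))
      ring
    · show μ 0 * ((a : ℂ) * u (e 0)) = (a : ℂ) * (μ 0 * u (e 0))
      ring
    · show ν * ((a : ℂ) * u j) = (a : ℂ) * (ν * u j)
      ring
  have hg0c : Continuous g0 := by
    have hq := ((isOpenQuotientMap_mk' (V := ι → ℂ)).restrictPreimage (XP L n)).isQuotientMap
    rw [hq.continuous_iff]
    have hP : ∀ u : (Projectivization.mk' ℂ : {v : ι → ℂ // v ≠ 0} → ℙ ℂ (ι → ℂ)) ⁻¹' (XP L n),
        u.1.1 ∈ Pow L n := fun u => (mk_mem_XP L u.1.2).1 u.2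
    have h1 : g0 ∘ (XP L n).restrictPreimage
        (Projectivization.mk' ℂ : {v : ι → ℂ // v ≠ 0} → ℙ ℂ (ι → ℂ))
        = fun u => pr n η hn1 hη ⟨Yv u.1.1, hYcone u.1.1 (hP u) u.1.2⟩ := by
      funext u
      exact hg0 u.1.1 u.1.2 (hP u) u.2
    rw [h1]
    refine (continuous_pr n η hn1 hη).comp (Continuous.subtype_mk ?_ _)
    exact hYc.comp (continuous_subtype_val.comp continuous_subtype_val)
  refine ⟨⟨fun q => g0 ⟨q.1.1, HK_subset L n q.2⟩,
    hg0c.comp (Continuous.subtype_mk (continuous_fst.comp continuous_subtype_val) _)⟩, ?_⟩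
  intro q u hu hP hq h
  have hmem : Projectivization.mk ℂ u hu ∈ XP L n := (mk_mem_XP L hu).2 hP
  show g0 ⟨q.1.1, HK_subset L n q.2⟩ = _
  have h2 : (⟨q.1.1, HK_subset L n q.2⟩ : XP L n) = ⟨Projectivization.mk ℂ u hu, hmem⟩ :=
    Subtype.ext hq
  rw [h2, hg0 u hu hP hmem]

/-- generic points of the sphere -/
theorem dense_inner (a : R3) (ha : a ≠ 0) : Dense {X : S2 | inner ℝ a (X : R3) ≠ 0} := by
  intro x
  by_cases hx : inner ℝ a (x : R3) = 0
  · have hin : ∀ t : ℝ, inner ℝ a ((x : R3) + t • a) = t * ‖a‖ ^ 2 := by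
      intro t
      rw [inner_add_right, hx, inner_smul_right, real_inner_self_eq_norm_sq, zero_add]
    have hapos : 0 < ‖a‖ ^ 2 := by
      have := norm_pos_iff.2 ha
      positivity
    have hne : ∀ t : ℝ, (x : R3) + t • a ≠ 0 := by
      intro t h
      have h1 := hin t
      rw [h, inner_zero_right] at h1
      have ht : t = 0 := by
        rcases mul_eq_zero.1 h1.symm with h2 | h2
        · exact h2
        · exact absurd h2 hapos.ne'
      rw [ht, zero_smul, add_zero] at h
      exact s2_ne x h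
    have hf : Continuous fun t : ℝ => Pool.Agent.H.MP_5f9601_gt.nrm ((x : R3) + t • a) (hne t) := by
      have hc : Continuous fun t : ℝ => (x : R3) + t • a := by fun_prop
      exact Continuous.subtype_mk ((hc.norm.inv₀ fun t => norm_ne_zero_iff.2 (hne t)).smul hc) _
    have h0 : Pool.Agent.H.MP_5f9601_gt.nrm ((x : R3) + (0 : ℝ) • a) (hne 0) = x := by
      apply Subtype.ext
      rw [Pool.Agent.H.MP_5f9601_gt.coe_nrm, zero_smul, add_zero,
        Pool.Agent.H.MP_5f9601_gt.norm_coe, inv_one, one_smul]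
    have ht : Tendsto (fun t : ℝ => Pool.Agent.H.MP_5f9601_gt.nrm ((x : R3) + t • a) (hne t))
        (𝓝[≠] 0) (𝓝 x) := by
      have := (hf.tendsto 0).mono_left (nhdsWithin_le_nhds (s := {(0 : ℝ)}ᶜ))
      rwa [h0] at this
    refine mem_closure_of_tendsto ht ?_
    filter_upwards [self_mem_nhdsWithin] with t ht
    show inner ℝ a ((Pool.Agent.H.MP_5f9601_gt.nrm ((x : R3) + t • a) (hne t) : S2) : R3) ≠ 0
    rw [Pool.Agent.H.MP_5f9601_gt.coe_nrm, inner_smul_right, hin]
    exact mul_ne_zero (inv_ne_zero (norm_ne_zero_iff.2 (hne t))) (mul_ne_zero ht hapos.ne')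
  · exact subset_closure hx

theorem dense_generic (Z : Set ℂ) (hZ : Z.Finite) : Dense {X : S2 | (X : R3) 2 ≠ 0 ∧ vv X ∉ Z} := by
  set f : ℂ → R3 := fun z => !₂[-z.im, z.re, 0] with hf
  set S : Set R3 := insert (!₂[0, 0, 1] : R3) (insert (!₂[1, 0, 0] : R3) (f '' (Z \ {0}))) with hS
  have hSfin : S.Finite := ((hZ.subset sdiff_subset).image f).insert _ |>.insert _
  have hin : ∀ (p q r : ℝ) (X : R3), inner ℝ (!₂[p, q, r] : R3) X = p * X 0 + q * X 1 + r * X 2 := by
    intro p q r X
    rw [PiLp.inner_apply, Fin.sum_univ_three]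
    simp
    ring
  have hS0 : ∀ a ∈ S, a ≠ 0 := by
    intro a ha
    rw [hS, mem_insert_iff, mem_insert_iff] at ha
    rcases ha with rfl | rfl | ⟨z, ⟨-, hz0⟩, rfl⟩
    · intro h
      have := congrArg (fun v : R3 => v 2) h
      simp at this
    · intro h
      have := congrArg (fun v : R3 => v 0) h
      simp at this
    · intro h
      apply hz0
      have h0 := congrArg (fun v : R3 => v 0) h
      have h1 := congrArg (fun v : R3 => v 1) h
      simp [hf] at h0 h1
      exact Complex.ext h1 h0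
  have hdense : Dense (⋂ a ∈ S, {X : S2 | inner ℝ a (X : R3) ≠ 0}) := by
    refine dense_biInter_of_isOpen (fun a _ => ?_) hSfin.countable fun a ha => dense_inner a (hS0 a ha)
    have : Continuous fun X : S2 => inner ℝ a (X : R3) :=
      continuous_const.inner continuous_subtype_val
    exact isOpen_ne.preimage this
  refine hdense.mono ?_
  intro X hX
  rw [mem_iInter₂] at hX
  have h2 := hX _ (mem_insert _ _)
  have h0 := hX _ (mem_insert_of_mem _ (mem_insert _ _))
  rw [mem_ofPred_eq, hin] at h2 h0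
  refine ⟨by simpa using h2, fun hv => ?_⟩
  have hX0 : (X : R3) 0 ≠ 0 := by simpa using h0
  have hxi : xi X ≠ 0 := by
    intro h
    apply hX0
    have := congrArg Complex.re h
    simpa [xi] using this
  have hmax : ((max ‖xi X‖ (1 / 2) : ℝ) : ℂ) ≠ 0 := by
    rw [Ne, ofReal_eq_zero]
    exact (max_pos' X).ne'
  have hvv0 : vv X ≠ 0 := div_ne_zero hxi hmax
  have h3 := hX (f (vv X)) (mem_insert_of_mem _ (mem_insert_of_mem _ ⟨vv X, ⟨hv, hvv0⟩, rfl⟩))
  apply h3
  show inner ℝ (f (vv X)) (X : R3) = 0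
  rw [hf, hin]
  have hre : (X : R3) 0 = max ‖xi X‖ (1 / 2) * (vv X).re := by
    have h4 : xi X = ((max ‖xi X‖ (1 / 2) : ℝ) : ℂ) * vv X := by
      rw [vv]
      field_simp
    have h5 := congrArg Complex.re h4
    rw [re_ofReal_mul] at h5
    rw [← h5]
    simp [xi]
  have him : (X : R3) 1 = max ‖xi X‖ (1 / 2) * (vv X).im := by
    have h4 : xi X = ((max ‖xi X‖ (1 / 2) : ℝ) : ℂ) * vv X := by
      rw [vv]
      field_simp
    have h5 := congrArg Complex.im h4
    rw [im_ofReal_mul] at h5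
    rw [← h5]
    simp [xi]
  rw [hre, him]
  ring

end

end Pool.Agent.H.MP_02294b_ag.Cov
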