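import Pool.Agent.H.MP_02294b_ag.Cov.CutThm

/-! Real configurations: non-adjacent walls of a chamber. -/

set_option autoImplicit false

open Set Filter Topology
open scoped LinearAlgebra.Projectivization

namespace Pool.Agent.H.MP_02294b_ag.Cov

section

variable {ι : Type} [Fintype ι]

theorem lin_cx (A : ι → Fin 3 → ℝ) (i : ι) (x : Fin 3 → ℝ) :
    lin (cx A) i (fun j => (x j : ℂ)) = ((rlin A i x : ℝ) : ℂ) := by
  simp only [lin, cx, rlin, Complex.ofReal_sum, Complex.ofReal_mul]

theorem rlin_add (A : ι → Fin 3 → ℝ) (i : ι) (x y : Fin 3 → ℝ) :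
    rlin A i (x + y) = rlin A i x + rlin A i y := by
  simp only [rlin, Pi.add_apply, mul_add, Finset.sum_add_distrib]

theorem rlin_smul (A : ι → Fin 3 → ℝ) (i : ι) (c : ℝ) (x : Fin 3 → ℝ) :
    rlin A i (c • x) = c * rlin A i x := by
  simp only [rlin, Pi.smul_apply, smul_eq_mul, Finset.mul_sum]
  exact Finset.sum_congr rfl fun j _ => by ring

theorem cast_add (x y : Fin 3 → ℝ) :
    (fun j => ((x + y) j : ℂ)) = (fun j => (x j : ℂ)) + fun j => (y j : ℂ) := by
  funext j
  simp

theorem cast_smul (c : ℝ) (x : Fin 3 → ℝ) :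
    (fun j => ((c • x) j : ℂ)) = (c : ℂ) • fun j => (x j : ℂ) := by
  funext j
  simp

/-- Two walls of a chamber whose intersection point is not a vertex of the chamber give a cut. -/
theorem hasCut_of_walls (A : ι → Fin 3 → ℝ) {x : Fin 3 → ℝ} {f g : ι} (hfg : f ≠ g)
    (hf : IsWall A x f) (hg : IsWall A x g) {p : Fin 3 → ℝ} (hpf : rlin A f p = 0)
    (hpg : rlin A g p = 0) (h3 : {i | rlin A i p = 0}.ncard ≤ 3) {h j : ι}
    (hh : rlin A h x * rlin A h p < 0) (hj : 0 < rlin A j x * rlin A j p) :
    HasCut (cx A) := by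
  classical
  obtain ⟨yf, hyf, hyf'⟩ := hf
  obtain ⟨yg, hyg, hyg'⟩ := hg
  -- the scaling factor
  obtain ⟨c, hc, hc3⟩ : ∃ c : ℝ, 0 < c ∧ ∀ i, i ≠ f → i ≠ g → rlin A i p = 0 →
      rlin A i (c • yg) = rlin A i yf := by
    by_cases hex : ∃ i, i ≠ f ∧ i ≠ g ∧ rlin A i p = 0
    · obtain ⟨i, hif, hig, hi⟩ := hex
      have h1 := hyf' i hif
      have h2 := hyg' i hig
      have h4 : 0 < (rlin A i x * rlin A i yf) * (rlin A i x * rlin A i yg) := mul_pos h1 h2
      have h5 : 0 < rlin A i yf * rlin A i yg := by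
        have h6 : (rlin A i x * rlin A i yf) * (rlin A i x * rlin A i yg)
            = (rlin A i x) ^ 2 * (rlin A i yf * rlin A i yg) := by ring
        rw [h6] at h4
        by_contra hcon
        push Not at hcon
        have := mul_nonpos_of_nonneg_of_nonpos (sq_nonneg (rlin A i x)) hcon
        linarith
      have hg0 : rlin A i yg ≠ 0 := by
        intro h0
        rw [h0, mul_zero] at h5
        exact lt_irrefl _ h5
      refine ⟨rlin A i yf / rlin A i yg, ?_, ?_⟩
      · have h7 : rlin A i yf / rlin A i yg = (rlin A i yf * rlin A i yg) / (rlin A i yg) ^ 2 := by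
          field_simp
        rw [h7]
        positivity
      · intro i' h1' h2' h3'
        have : i' = i := by
          by_contra hne
          have hsub : ({f, g, i, i'} : Finset ι) ⊆ {i | rlin A i p = 0}.toFinset := by
            intro a ha
            simp only [Finset.mem_insert, Finset.mem_singleton] at ha
            rw [mem_toFinset]
            rcases ha with rfl | rfl | rfl | rfl
            · exact hpf
            · exact hpg
            · exact hi
            · exact h3'
          have hcard : ({f, g, i, i'} : Finset ι).card = 4 := by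
            rw [Finset.card_insert_of_notMem, Finset.card_insert_of_notMem,
              Finset.card_insert_of_notMem, Finset.card_singleton]
            · simpa using fun h => hne h.symm
            · simp only [Finset.mem_insert, Finset.mem_singleton, not_or]
              exact ⟨fun h => hig h.symm, fun h => h2' h.symm⟩
            · simp only [Finset.mem_insert, Finset.mem_singleton, not_or]
              exact ⟨hfg, fun h => hif h.symm, fun h => h1' h.symm⟩
          have h8 := Finset.card_le_card hsub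
          rw [hcard, ← ncard_eq_toFinset_card'] at h8
          omega
        subst this
        rw [rlin_smul]
        field_simp
    · push Not at hex
      exact ⟨1, one_pos, fun i h1 h2 h3 => absurd h3 (hex i h1 h2)⟩
  -- the triangle
  have hP0 : ∀ i, lin (cx A) i ((![fun b => (p b : ℂ), fun b => ((c • yg) b : ℂ),
      fun b => (yf b : ℂ)] : Fin 3 → Fin 3 → ℂ) 0) = ((rlin A i p : ℝ) : ℂ) := fun i => lin_cx A i p
  have hP1 : ∀ i, lin (cx A) i ((![fun b => (p b : ℂ), fun b => ((c • yg) b : ℂ),
      fun b => (yf b : ℂ)] : Fin 3 → Fin 3 → ℂ) 1) = ((c * rlin A i yg : ℝ) : ℂ) := by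
    intro i
    rw [← rlin_smul]
    exact lin_cx A i (c • yg)
  have hP2 : ∀ i, lin (cx A) i ((![fun b => (p b : ℂ), fun b => ((c • yg) b : ℂ),
      fun b => (yf b : ℂ)] : Fin 3 → Fin 3 → ℂ) 2) = ((rlin A i yf : ℝ) : ℂ) := fun i =>
    lin_cx A i yf
  set P : Fin 3 → Fin 3 → ℂ := ![fun b => (p b : ℂ), fun b => ((c • yg) b : ℂ),
    fun b => (yf b : ℂ)] with hP
  have hfne : rlin A f yg ≠ 0 := by
    intro h0
    have := hyg' f hfg
    rw [h0, mul_zero] at this
    exact lt_irrefl _ this
  have hgne : rlin A g yf ≠ 0 := by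
    intro h0
    have := hyf' g (Ne.symm hfg)
    rw [h0, mul_zero] at this
    exact lt_irrefl _ this
  -- the lines which do not pass through the vertex
  have hpos : ∀ i, rlin A i p ≠ 0 → 0 < rlin A i x * rlin A i yf ∧ 0 < rlin A i x * rlin A i yg := by
    intro i hi
    exact ⟨hyf' i fun h0 => hi (by rw [h0]; exact hpf),
      hyg' i fun h0 => hi (by rw [h0]; exact hpg)⟩
  have havoid : ∀ i, 0 < rlin A i x * rlin A i p → Avoids (cx A) P i := by
    intro i hi s hs hs0 h0
    have hip : rlin A i p ≠ 0 := by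
      intro h0
      rw [h0, mul_zero] at hi
      exact lt_irrefl _ hi
    obtain ⟨q1, q2⟩ := hpos i hip
    rw [lin_sum, Fin.sum_univ_three, hP0, hP1, hP2] at h0
    have h1 : s 0 * rlin A i p + s 1 * (c * rlin A i yg) + s 2 * rlin A i yf = 0 := by
      exact_mod_cast h0
    have h2 : s 0 * (rlin A i x * rlin A i p) + s 1 * (c * (rlin A i x * rlin A i yg))
        + s 2 * (rlin A i x * rlin A i yf) = 0 := by
      linear_combination (rlin A i x) * h1
    have k0 := mul_nonneg (hs 0) hi.le
    have k1 := mul_nonneg (hs 1) (mul_pos hc q2).le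
    have k2 := mul_nonneg (hs 2) q1.le
    have m0 : s 0 * (rlin A i x * rlin A i p) = 0 := by linarith
    have m1 : s 1 * (c * (rlin A i x * rlin A i yg)) = 0 := by linarith
    have m2 : s 2 * (rlin A i x * rlin A i yf) = 0 := by linarith
    apply hs0
    funext a
    fin_cases a
    · exact (mul_eq_zero.1 m0).resolve_right hi.ne'
    · exact (mul_eq_zero.1 m1).resolve_right (mul_pos hc q2).ne'
    · exact (mul_eq_zero.1 m2).resolve_right q1.ne'
  have hcross : ∀ i, rlin A i x * rlin A i p < 0 → Crosses (cx A) P i := by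
    intro i hi
    have hip : rlin A i p ≠ 0 := by
      intro h0
      rw [h0, mul_zero] at hi
      exact lt_irrefl _ hi
    obtain ⟨q1, q2⟩ := hpos i hip
    have hneg : ∀ y, 0 < rlin A i x * rlin A i y → 0 < -(rlin A i y / rlin A i p) := by
      intro y hy
      have h5 : 0 < (rlin A i x * rlin A i y) * -(rlin A i x * rlin A i p) :=
        mul_pos hy (by linarith)
      have h6 : (rlin A i x * rlin A i y) * -(rlin A i x * rlin A i p)
          = (rlin A i x) ^ 2 * (rlin A i p) ^ 2 * -(rlin A i y / rlin A i p) := by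
        field_simp
      rw [h6] at h5
      by_contra hcon
      push Not at hcon
      have := mul_nonpos_of_nonneg_of_nonpos
        (mul_nonneg (sq_nonneg (rlin A i x)) (sq_nonneg (rlin A i p))) hcon
      linarith
    have hipC : ((rlin A i p : ℝ) : ℂ) ≠ 0 := Complex.ofReal_ne_zero.2 hip
    refine ⟨?_, c * -(rlin A i yg / rlin A i p), -(rlin A i yf / rlin A i p),
      mul_pos hc (hneg _ q2), hneg _ q1, ?_, ?_⟩
    · rw [hP0]
      exact hipC
    · rw [hP1, hP0]
      push_cast
      field_simp
    · rw [hP2, hP0]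
      push_cast
      field_simp
  refine ⟨P, f, g, ⟨?_, ?_, ?_⟩, ⟨?_, ?_, ?_⟩, ⟨h, hcross h hh⟩, ⟨j, havoid j hj⟩, fun i => ?_⟩
  · rw [hP0, hpf, Complex.ofReal_zero]
  · rw [hP1]
    exact Complex.ofReal_ne_zero.2 (mul_ne_zero hc.ne' hfne)
  · rw [hP2, hyf, Complex.ofReal_zero]
  · rw [hP0, hpg, Complex.ofReal_zero]
  · rw [hP1, hyg, mul_zero, Complex.ofReal_zero]
  · rw [hP2]
    exact Complex.ofReal_ne_zero.2 hgne
  · by_cases hi : rlin A i p = 0
    · left
      refine ⟨by rw [hP0, hi, Complex.ofReal_zero], ?_⟩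
      by_cases hif : i = f
      · left
        refine ⟨1, zero_le_one, le_refl _, ?_⟩
        rw [lin_add, lin_smul, lin_smul, hP2, hif, hyf]
        simp
      · by_cases hig : i = g
        · left
          refine ⟨0, le_refl _, zero_le_one, ?_⟩
          rw [lin_add, lin_smul, lin_smul, hP1, hig, hyg]
          simp
        · right
          have := hc3 i hif hig hi
          rw [rlin_smul] at this
          rw [hP1, hP2, this]
    · right
      have hix : rlin A i x ≠ 0 := by
        intro h0
        have := (hpos i hi).1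
        rw [h0, zero_mul] at this
        exact lt_irrefl _ this
      rcases lt_or_gt_of_ne (mul_ne_zero hix hi) with h1 | h1
      · left
        exact hcross i h1
      · right
        exact havoid i h1

/-- three vectors with a linear relation on which some functional is positive: one of them is a
nonnegative combination of the two others -/
theorem exists_comb {V : Type*} [AddCommGroup V] [Module ℝ V] (u : Fin 3 → V) (c : Fin 3 → ℝ)
    (hc : c ≠ 0) (hrel : c 0 • u 0 + c 1 • u 1 + c 2 • u 2 = 0) (φ : V →ₗ[ℝ] ℝ)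
    (hφ : ∀ i, 0 < φ (u i)) :
    ∃ i j k : Fin 3, i ≠ j ∧ i ≠ k ∧ j ≠ k ∧ ∃ α β : ℝ, 0 ≤ α ∧ 0 ≤ β ∧
      u i = α • u j + β • u k := by
  -- one coefficient has a sign opposite to the two others
  have key : ∀ i j k : Fin 3, i ≠ j → i ≠ k → j ≠ k → c i • u i + c j • u j + c k • u k = 0 →
      c i ≠ 0 → 0 ≤ -(c j / c i) → 0 ≤ -(c k / c i) →
      ∃ i j k : Fin 3, i ≠ j ∧ i ≠ k ∧ j ≠ k ∧ ∃ α β : ℝ, 0 ≤ α ∧ 0 ≤ β ∧
      u i = α • u j + β • u k := by
    intro i j k h1 h2 h3 hr hi hj hk
    refine ⟨i, j, k, h1, h2, h3, -(c j / c i), -(c k / c i), hj, hk, ?_⟩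
    have h4 : c i • u i = -(c j • u j + c k • u k) := by
      rw [add_assoc] at hr
      exact eq_neg_of_add_eq_zero_left hr
    have h5 : u i = (c i)⁻¹ • (c i • u i) := by rw [smul_smul, inv_mul_cancel₀ hi, one_smul]
    rw [h5, h4, smul_neg, smul_add, smul_smul, smul_smul, neg_add, ← neg_smul, ← neg_smul]
    congr 2 <;> field_simp
  have hr1 : c 1 • u 1 + c 0 • u 0 + c 2 • u 2 = 0 := by rw [← hrel]; abel
  have hr2 : c 2 • u 2 + c 0 • u 0 + c 1 • u 1 = 0 := by rw [← hrel]; abel
  have hval : c 0 * φ (u 0) + c 1 * φ (u 1) + c 2 * φ (u 2) = 0 := by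
    have := congrArg φ hrel
    simpa using this
  have k0 := hφ 0
  have k1 := hφ 1
  have k2 := hφ 2
  have hdiv : ∀ a b : ℝ, b ≠ 0 → a * b ≤ 0 → 0 ≤ -(a / b) := by
    intro a b hb hab
    have : -(a / b) = -(a * b) / b ^ 2 := by field_simp
    rw [this]
    have h1 : 0 ≤ -(a * b) := by linarith
    positivity
  have hcne : ¬ (c 0 = 0 ∧ c 1 = 0 ∧ c 2 = 0) := by
    rintro ⟨h0, h1, h2⟩
    apply hc
    funext a
    fin_cases a
    · exact h0
    · exact h1
    · exact h2
  rcases lt_trichotomy (c 0) 0 with h0 | h0 | h0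
  · rcases lt_trichotomy (c 1) 0 with h1 | h1 | h1
    · -- c 2 is positive
      have h2 : 0 < c 2 := by
        by_contra hcon
        push Not at hcon
        have := mul_neg_of_neg_of_pos h0 k0
        have := mul_neg_of_neg_of_pos h1 k1
        have := mul_nonpos_of_nonpos_of_nonneg hcon k2.le
        linarith
      exact key 2 0 1 (by decide) (by decide) (by decide) hr2 h2.ne'
        (hdiv _ _ h2.ne' (mul_nonpos_of_nonpos_of_nonneg h0.le h2.le))
        (hdiv _ _ h2.ne' (mul_nonpos_of_nonpos_of_nonneg h1.le h2.le))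
    · have h2 : 0 < c 2 := by
        by_contra hcon
        push Not at hcon
        have := mul_neg_of_neg_of_pos h0 k0
        have := mul_nonpos_of_nonpos_of_nonneg hcon k2.le
        rw [h1] at hval
        linarith
      exact key 2 0 1 (by decide) (by decide) (by decide) hr2 h2.ne'
        (hdiv _ _ h2.ne' (mul_nonpos_of_nonpos_of_nonneg h0.le h2.le))
        (hdiv _ _ h2.ne' (by rw [h1, zero_mul]))
    · rcases le_or_gt (c 2) 0 with h2 | h2
      · exact key 1 0 2 (by decide) (by decide) (by decide) hr1 h1.ne'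
          (hdiv _ _ h1.ne' (mul_nonpos_of_nonpos_of_nonneg h0.le h1.le))
          (hdiv _ _ h1.ne' (mul_nonpos_of_nonpos_of_nonneg h2 h1.le))
      · exact key 0 1 2 (by decide) (by decide) (by decide) hrel h0.ne
          (hdiv _ _ h0.ne (mul_nonpos_of_nonneg_of_nonpos h1.le h0.le))
          (hdiv _ _ h0.ne (mul_nonpos_of_nonneg_of_nonpos h2.le h0.le))
  · rcases lt_trichotomy (c 1) 0 with h1 | h1 | h1
    · have h2 : 0 < c 2 := by
        by_contra hcon
        push Not at hcon
        have := mul_neg_of_neg_of_pos h1 k1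
        have := mul_nonpos_of_nonpos_of_nonneg hcon k2.le
        rw [h0] at hval
        linarith
      exact key 2 0 1 (by decide) (by decide) (by decide) hr2 h2.ne'
        (hdiv _ _ h2.ne' (by rw [h0, zero_mul]))
        (hdiv _ _ h2.ne' (mul_nonpos_of_nonpos_of_nonneg h1.le h2.le))
    · exfalso
      rw [h0, h1] at hval
      have : c 2 * φ (u 2) = 0 := by linarith
      rcases mul_eq_zero.1 this with h2 | h2
      · exact hcne ⟨h0, h1, h2⟩
      · linarith
    · have h2 : c 2 < 0 := by
        by_contra hcon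
        push Not at hcon
        have := mul_pos h1 k1
        have := mul_nonneg hcon k2.le
        rw [h0] at hval
        linarith
      exact key 2 0 1 (by decide) (by decide) (by decide) hr2 h2.ne
        (hdiv _ _ h2.ne (by rw [h0, zero_mul]))
        (hdiv _ _ h2.ne (mul_nonpos_of_nonneg_of_nonpos h1.le h2.le))
  · rcases lt_trichotomy (c 1) 0 with h1 | h1 | h1
    · rcases le_or_gt (c 2) 0 with h2 | h2
      · exact key 0 1 2 (by decide) (by decide) (by decide) hrel h0.ne'
          (hdiv _ _ h0.ne' (mul_nonpos_of_nonpos_of_nonneg h1.le h0.le))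
          (hdiv _ _ h0.ne' (mul_nonpos_of_nonpos_of_nonneg h2 h0.le))
      · exact key 1 0 2 (by decide) (by decide) (by decide) hr1 h1.ne
          (hdiv _ _ h1.ne (mul_nonpos_of_nonneg_of_nonpos h0.le h1.le))
          (hdiv _ _ h1.ne (mul_nonpos_of_nonneg_of_nonpos h2.le h1.le))
    · have h2 : c 2 < 0 := by
        by_contra hcon
        push Not at hcon
        have := mul_pos h0 k0
        have := mul_nonneg hcon k2.le
        rw [h1] at hval
        linarith
      exact key 2 0 1 (by decide) (by decide) (by decide) hr2 h2.ne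
        (hdiv _ _ h2.ne (mul_nonpos_of_nonneg_of_nonpos h0.le h2.le))
        (hdiv _ _ h2.ne (by rw [h1, zero_mul]))
    · have h2 : c 2 < 0 := by
        by_contra hcon
        push Not at hcon
        have := mul_pos h0 k0
        have := mul_pos h1 k1
        have := mul_nonneg hcon k2.le
        linarith
      exact key 2 0 1 (by decide) (by decide) (by decide) hr2 h2.ne
        (hdiv _ _ h2.ne (mul_nonpos_of_nonneg_of_nonpos h0.le h2.le))
        (hdiv _ _ h2.ne (mul_nonpos_of_nonneg_of_nonpos h1.le h2.le))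

end

end Pool.Agent.H.MP_02294b_ag.Cov
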