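import Pool.Agent.H.MP_02294b_ag.Cov.Real

/-! Real configurations: the chambers are triangles. -/

set_option autoImplicit false

open Set Filter Topology
open scoped LinearAlgebra.Projectivization

namespace Pool.Agent.H.MP_02294b_ag.Cov

section

variable {ι : Type} [Fintype ι]

/-- three vectors of the three-space orthogonal to a nonzero vector are dependent -/
theorem exists_rel (u : Fin 3 → Fin 3 → ℝ) {p : Fin 3 → ℝ} (hp : p ≠ 0)
    (h : ∀ a, ∑ j, u a j * p j = 0) :
    ∃ c : Fin 3 → ℝ, c ≠ 0 ∧ c 0 • u 0 + c 1 • u 1 + c 2 • u 2 = 0 := by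
  have hdet : (Matrix.of u).det = 0 := by
    rw [← Matrix.exists_mulVec_eq_zero_iff]
    refine ⟨p, hp, ?_⟩
    funext a
    exact h a
  obtain ⟨c, hc, hc0⟩ := Matrix.exists_vecMul_eq_zero_iff.2 hdet
  refine ⟨c, hc, ?_⟩
  funext j
  have := congrFun hc0 j
  simp only [Matrix.vecMul, dotProduct, Matrix.of_apply, Fin.sum_univ_three] at this
  simpa using this

theorem exists_common_real (A : ι → Fin 3 → ℝ) (i j : ι) :
    ∃ x : Fin 3 → ℝ, x ≠ 0 ∧ rlin A i x = 0 ∧ rlin A j x = 0 := by
  set M : Matrix (Fin 2) (Fin 3) ℝ := Matrix.of ![A i, A j] with hM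
  have h1 : LinearMap.ker M.mulVecLin ≠ ⊥ := by
    apply LinearMap.ker_ne_bot_of_finrank_lt
    simp
  obtain ⟨x, hx, hx0⟩ := (Submodule.ne_bot_iff _).1 h1
  rw [LinearMap.mem_ker] at hx
  exact ⟨x, hx0, congrFun hx 0, congrFun hx 1⟩

theorem walls_adjacent (A : ι → Fin 3 → ℝ) (hcut : ¬ HasCut (cx A)) {x : Fin 3 → ℝ} {f g : ι}
    (hfg : f ≠ g) (hf : IsWall A x f) (hg : IsWall A x g)
    (h3 : ∀ p : Fin 3 → ℝ, p ≠ 0 → rlin A f p = 0 → rlin A g p = 0 →
      {i | rlin A i p = 0}.ncard ≤ 3) :
    ∃ p, p ≠ 0 ∧ rlin A f p = 0 ∧ rlin A g p = 0 ∧ ∀ i, 0 ≤ rlin A i x * rlin A i p := by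
  obtain ⟨p, hp, hpf, hpg⟩ := exists_common_real A f g
  by_cases hpos : ∀ i, 0 ≤ rlin A i x * rlin A i p
  · exact ⟨p, hp, hpf, hpg, hpos⟩
  · push Not at hpos
    obtain ⟨h, hh⟩ := hpos
    refine ⟨(-1 : ℝ) • p, ?_, ?_, ?_, fun i => ?_⟩
    · intro h0
      apply hp
      rcases smul_eq_zero.1 h0 with h1 | h1
      · norm_num at h1
      · exact h1
    · rw [rlin_smul, hpf, mul_zero]
    · rw [rlin_smul, hpg, mul_zero]
    · rw [rlin_smul]
      by_contra hcon
      push Not at hcon
      exact hcut (hasCut_of_walls A hfg hf hg hpf hpg (h3 p hp hpf hpg) hh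
        (show 0 < rlin A i x * rlin A i p by linarith))

theorem walls_not_concurrent (A : ι → Fin 3 → ℝ) {x : Fin 3 → ℝ} (hx : ∀ i, rlin A i x ≠ 0)
    {w : Fin 3 → ι} (hw : Function.Injective w) (hwall : ∀ a, IsWall A x (w a))
    {p : Fin 3 → ℝ} (hp : p ≠ 0) (h : ∀ a, rlin A (w a) p = 0) : False := by
  let u : Fin 3 → Fin 3 → ℝ := fun a => rlin A (w a) x • A (w a)
  have hu : ∀ a y, ∑ j, u a j * y j = rlin A (w a) x * rlin A (w a) y := by
    intro a y
    simp only [u, rlin, Pi.smul_apply, smul_eq_mul, Finset.mul_sum, mul_assoc]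
  obtain ⟨c, hc, hrel⟩ := exists_rel u hp (fun a => by rw [hu, h a, mul_zero])
  let φ : (Fin 3 → ℝ) →ₗ[ℝ] ℝ :=
    { toFun := fun v => ∑ j, v j * x j
      map_add' := fun v v' => by simp only [Pi.add_apply, add_mul, Finset.sum_add_distrib]
      map_smul' := fun r v => by
        simp only [Pi.smul_apply, smul_eq_mul, RingHom.id_apply, Finset.mul_sum, mul_assoc] }
  have hφ : ∀ a, 0 < φ (u a) := by
    intro a
    show 0 < ∑ j, u a j * x j
    rw [hu]
    exact mul_self_pos.2 (hx _)
  obtain ⟨i, j, k, hij, hik, -, α, β, hα, hβ, hcomb⟩ := exists_comb u c hc hrel φ hφ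
  obtain ⟨y, hy, hy'⟩ := hwall i
  have hj := hy' (w j) fun h0 => hij (hw h0).symm
  have hk := hy' (w k) fun h0 => hik (hw h0).symm
  have h1 : ∑ b, u i b * y b = α * ∑ b, u j b * y b + β * ∑ b, u k b * y b := by
    rw [hcomb, Finset.mul_sum, Finset.mul_sum, ← Finset.sum_add_distrib]
    refine Finset.sum_congr rfl fun b _ => ?_
    simp only [Pi.add_apply, Pi.smul_apply, smul_eq_mul]
    ring
  rw [hu, hu, hu, hy, mul_zero] at h1
  have m1 := mul_nonneg hα hj.le
  have m2 := mul_nonneg hβ hk.le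
  have e1 : α * (rlin A (w j) x * rlin A (w j) y) = 0 := by linarith
  have e2 : β * (rlin A (w k) x * rlin A (w k) y) = 0 := by linarith
  have hα0 : α = 0 := (mul_eq_zero.1 e1).resolve_right hj.ne'
  have hβ0 : β = 0 := (mul_eq_zero.1 e2).resolve_right hk.ne'
  have := hφ i
  rw [hcomb, hα0, hβ0] at this
  simp at this

/-- In a real configuration without a cut, in which no point lies on more than three lines, every
chamber has at most three walls. -/
theorem walls_le_three (A : ι → Fin 3 → ℝ) (hA : IsConfig (cx A)) (hcut : ¬ HasCut (cx A))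
    (h3 : ∀ p : Fin 3 → ℝ, p ≠ 0 → {i | rlin A i p = 0}.ncard ≤ 3) {x : Fin 3 → ℝ}
    (hx : ∀ i, rlin A i x ≠ 0) : {i | IsWall A x i}.ncard ≤ 3 := by
  classical
  by_contra hcon
  push Not at hcon
  obtain ⟨s, hs, hs4⟩ := Set.exists_subset_card_eq (show 4 ≤ {i | IsWall A x i}.ncard by omega)
  have hsfin : s.Finite := toFinite s
  have hcard : Fintype.card s = 4 := by
    rw [← hs4, ← Nat.card_eq_fintype_card]
    rfl
  obtain ⟨e⟩ : Nonempty (Fin 4 ≃ s) := ⟨(Fintype.equivFinOfCardEq hcard).symm⟩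
  let w : Fin 4 → ι := fun a => (e a).1
  have hw : Function.Injective w := fun a b h => e.injective (Subtype.ext h)
  have hwall : ∀ a, IsWall A x (w a) := fun a => hs (e a).2
  have hnoc : ∀ y : Fin 3 → ℝ, (∀ i, rlin A i y = 0) → y = 0 := by
    intro y hy
    have h1 := hA.noCommon (fun j => (y j : ℂ)) fun i => by rw [lin_cx, hy i, Complex.ofReal_zero]
    funext j
    have h2 : ((y j : ℝ) : ℂ) = 0 := congrFun h1 j
    show y j = 0
    exact_mod_cast h2
  have hP : ∀ b : Fin 3, ∃ p, p ≠ 0 ∧ rlin A (w 3) p = 0 ∧ rlin A (w b.castSucc) p = 0 ∧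
      ∀ i, 0 ≤ rlin A i x * rlin A i p := fun b =>
    walls_adjacent A hcut (fun h0 => by
      have h1 := hw h0
      have h2 := congrArg Fin.val h1
      simp at h2
      omega) (hwall _) (hwall _) fun p hp _ _ => h3 p hp
  choose P hP0 hP3 hPb hPpos using hP
  have hA3 : A (w 3) ≠ 0 := by
    intro h0
    apply hx (w 3)
    simp [rlin, h0]
  obtain ⟨c, hc, hrel⟩ := exists_rel P hA3 (fun a => by
    have := hP3 a
    rw [rlin] at this
    rw [← this]
    exact Finset.sum_congr rfl fun j _ => mul_comm _ _)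
  let φ : (Fin 3 → ℝ) →ₗ[ℝ] ℝ :=
    { toFun := fun v => ∑ i, rlin A i x * rlin A i v
      map_add' := fun v v' => by
        simp only [rlin_add, mul_add, Finset.sum_add_distrib]
      map_smul' := fun r v => by
        simp only [rlin_smul, RingHom.id_apply, smul_eq_mul, Finset.mul_sum]
        exact Finset.sum_congr rfl fun j _ => by ring }
  have hφ : ∀ a, 0 < φ (P a) := by
    intro a
    obtain ⟨i, hi⟩ : ∃ i, rlin A i (P a) ≠ 0 := by
      by_contra hcon
      push Not at hcon
      exact hP0 a (hnoc _ hcon)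
    exact Finset.sum_pos' (fun i _ => hPpos a i)
      ⟨i, Finset.mem_univ _, lt_of_le_of_ne (hPpos a i) (Ne.symm (mul_ne_zero (hx i) hi))⟩
  obtain ⟨i, j, k, hij, hik, -, α, β, hα, hβ, hcomb⟩ := exists_comb P c hc hrel φ hφ
  have hval : α * rlin A (w i.castSucc) (P j) + β * rlin A (w i.castSucc) (P k) = 0 := by
    rw [← rlin_smul, ← rlin_smul, ← rlin_add, ← hcomb]
    exact hPb i
  have hval' : α * (rlin A (w i.castSucc) x * rlin A (w i.castSucc) (P j))
      + β * (rlin A (w i.castSucc) x * rlin A (w i.castSucc) (P k)) = 0 := by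
    linear_combination (rlin A (w i.castSucc) x) * hval
  have m1 := mul_nonneg hα (hPpos j (w i.castSucc))
  have m2 := mul_nonneg hβ (hPpos k (w i.castSucc))
  have e1 : α * (rlin A (w i.castSucc) x * rlin A (w i.castSucc) (P j)) = 0 := by linarith
  have e2 : β * (rlin A (w i.castSucc) x * rlin A (w i.castSucc) (P k)) = 0 := by linarith
  -- three concurrent walls
  have hfin : ∀ l : Fin 3, i ≠ l → rlin A (w i.castSucc) (P l) = 0 → False := by
    intro l hil hl
    refine walls_not_concurrent A hx (w := ![w 3, w l.castSucc, w i.castSucc]) ?_ ?_ (hP0 l) ?_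
    · have n1 : w 3 ≠ w l.castSucc := by
        intro h0
        have h2 := congrArg Fin.val (hw h0)
        simp at h2
        omega
      have n2 : w 3 ≠ w i.castSucc := by
        intro h0
        have h2 := congrArg Fin.val (hw h0)
        simp at h2
        omega
      have n3 : w l.castSucc ≠ w i.castSucc := by
        intro h0
        exact hil (Fin.castSucc_injective _ (hw h0)).symm
      intro a b hab
      fin_cases a <;> fin_cases b
      · rfl
      · exact absurd hab n1
      · exact absurd hab n2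
      · exact absurd hab.symm n1
      · rfl
      · exact absurd hab n3
      · exact absurd hab.symm n2
      · exact absurd hab.symm n3
      · rfl
    · intro a
      fin_cases a
      · exact hwall _
      · exact hwall _
      · exact hwall _
    · intro a
      fin_cases a
      · exact hP3 l
      · exact hPb l
      · exact hl
  rcases mul_eq_zero.1 e1 with h1 | h1
  · rcases mul_eq_zero.1 e2 with h2 | h2
    · apply hP0 i
      rw [hcomb, h1, h2]
      simp
    · exact hfin k hik ((mul_eq_zero.1 h2).resolve_left (hx _))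
  · exact hfin j hij ((mul_eq_zero.1 h1).resolve_left (hx _))

end

end Pool.Agent.H.MP_02294b_ag.Cov
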