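import Pool.Agent.H.MP_02294b_ag.Cov.Proj

/-! Rigid configurations and their extensions. -/

set_option autoImplicit false

open Set Filter Topology
open scoped LinearAlgebra.Projectivization

namespace Pool.Agent.H.MP_02294b_ag.Cov

section

variable {ι : Type} [Fintype ι]

theorem form_eq_zero {u : Fin 3 → ℂ} (h : ∀ x : Fin 3 → ℂ, ∑ j, u j * x j = 0) : u = 0 := by
  funext b
  have := h (Pi.single b 1)
  simpa [Pi.single_apply] using this

theorem good_step {L L' : ι → Fin 3 → ℂ} (hL : IsConfig L) (hL' : IsConfig L')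
    (hT : SameType L L') (g : (Fin 3 → ℂ) ≃ₗ[ℂ] (Fin 3 → ℂ)) {i j k j' k' : ι}
    (hj : ∃ c : ℂ, c ≠ 0 ∧ ∀ x, lin L' j (g x) = c * lin L j x)
    (hk : ∃ c : ℂ, c ≠ 0 ∧ ∀ x, lin L' k (g x) = c * lin L k x)
    (hj' : ∃ c : ℂ, c ≠ 0 ∧ ∀ x, lin L' j' (g x) = c * lin L j' x)
    (hk' : ∃ c : ℂ, c ≠ 0 ∧ ∀ x, lin L' k' (g x) = c * lin L k' x)
    (hjk : j ≠ k) (hjk' : j' ≠ k') {p p' : Fin 3 → ℂ} (hpp : LinearIndependent ℂ ![p, p'])
    (h1 : lin L i p = 0) (h2 : lin L j p = 0) (h3 : lin L k p = 0)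
    (h1' : lin L i p' = 0) (h2' : lin L j' p' = 0) (h3' : lin L k' p' = 0) :
    ∃ c : ℂ, c ≠ 0 ∧ ∀ x, lin L' i (g x) = c * lin L i x := by
  have key : ∀ (j k : ι) (p : Fin 3 → ℂ),
      (∃ c : ℂ, c ≠ 0 ∧ ∀ x, lin L' j (g x) = c * lin L j x) →
      (∃ c : ℂ, c ≠ 0 ∧ ∀ x, lin L' k (g x) = c * lin L k x) → j ≠ k → p ≠ 0 →
      lin L i p = 0 → lin L j p = 0 → lin L k p = 0 → lin L' i (g p) = 0 := by
    intro j k p ⟨cj, hcj, hj⟩ ⟨ck, hck, hk⟩ hjk hp h1 h2 h3
    obtain ⟨x', hx', hx⟩ := (hT {i, j, k}).1 ⟨p, hp, by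
      rintro l (rfl | rfl | rfl)
      · exact h1
      · exact h2
      · exact h3⟩
    have hxi := hx i (by simp)
    have hxj := hx j (by simp)
    have hxk := hx k (by simp)
    set y := g.symm x' with hy
    have hgy : g y = x' := g.apply_symm_apply x'
    have hy0 : y ≠ 0 := by
      intro h
      apply hx'
      rw [← hgy, h, map_zero]
    have hyj : lin L j y = 0 := by
      have := hj y
      rw [hgy, hxj] at this
      exact (mul_eq_zero.1 this.symm).resolve_left hcj
    have hyk : lin L k y = 0 := by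
      have := hk y
      rw [hgy, hxk] at this
      exact (mul_eq_zero.1 this.symm).resolve_left hck
    obtain ⟨c, hc⟩ := common_zero L (hL.indep j k hjk) hy0 hyj hyk h2 h3
    rw [hc, map_smul, lin_smul, hgy, hxi, mul_zero]
  have hp0 : p ≠ 0 := hpp.ne_zero 0
  have hp0' : p' ≠ 0 := hpp.ne_zero 1
  have hz := key j k p hj hk hjk hp0 h1 h2 h3
  have hz' := key j' k' p' hj' hk' hjk' hp0' h1' h2' h3'
  -- the coefficient vector
  set w : Fin 3 → ℂ := fun b => lin L' i (g (Pi.single b 1)) with hw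
  have hF : ∀ x, lin L' i (g x) = ∑ b, w b * x b := by
    intro x
    have hx : x = ∑ b, x b • (Pi.single b (1 : ℂ) : Fin 3 → ℂ) := by
      funext b
      rw [Finset.sum_apply, Finset.sum_eq_single b]
      · simp
      · intro c _ hc
        simp [Pi.single_eq_of_ne (Ne.symm hc)]
      · simp
    conv_lhs => rw [hx]
    rw [map_sum]
    simp only [map_smul]
    rw [lin_sum]
    exact Finset.sum_congr rfl fun b _ => by rw [hw]; ring
  have hLi : L i ≠ 0 := by
    rcases eq_or_ne i j with h | h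
    · rw [h]
      exact (hL.indep j k hjk).ne_zero 0
    · exact (hL.indep i j h).ne_zero 0
  have hLi' : L' i ≠ 0 := by
    rcases eq_or_ne i j with h | h
    · rw [h]
      exact (hL'.indep j k hjk).ne_zero 0
    · exact (hL'.indep i j h).ne_zero 0
  have hcomm : ∀ u v : Fin 3 → ℂ, ∑ b, u b * v b = ∑ b, v b * u b := fun u v =>
    Finset.sum_congr rfl fun b _ => mul_comm _ _
  obtain ⟨c, hc⟩ := common_zero (![p, p'] : Fin 2 → Fin 3 → ℂ) (i := 0) (j := 1)
    (x := L i) (y := w) (by simpa using hpp) hLi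
    (by
      show ∑ b, p b * L i b = 0
      rw [hcomm]
      exact h1)
    (by
      show ∑ b, p' b * L i b = 0
      rw [hcomm]
      exact h1')
    (by
      show ∑ b, p b * w b = 0
      rw [hcomm, ← hF]
      exact hz)
    (by
      show ∑ b, p' b * w b = 0
      rw [hcomm, ← hF]
      exact hz')
  refine ⟨c, ?_, fun x => ?_⟩
  · rintro rfl
    rw [zero_smul] at hc
    apply hLi'
    refine form_eq_zero fun x => ?_
    have := hF (g.symm x)
    rw [g.apply_symm_apply, hc] at this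
    simpa [lin] using this
  · rw [hF, hc]
    simp only [Pi.smul_apply, smul_eq_mul, lin, Finset.mul_sum, mul_assoc]

/-- adding finitely many lines to a configuration -/
theorem exists_extension {L : ι → Fin 3 → ℂ} (hL : IsConfig L) {N : Type} [Finite N]
    (F : N → Fin 3 → ℂ) (hF : ∀ n, F n ≠ 0) :
    ∃ (κ : Type) (_ : Fintype κ) (M : ι ⊕ κ → Fin 3 → ℂ), (∀ i, M (Sum.inl i) = L i) ∧
      IsConfig M ∧ (∀ n, ∃ k, ∃ c : ℂ, c ≠ 0 ∧ M k = c • F n) ∧
      ∀ k, ∃ n, ∃ c : ℂ, c ≠ 0 ∧ M (Sum.inr k) = c • F n := by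
  classical
  have hL0 : ∀ i, L i ≠ 0 := by
    intro i
    obtain ⟨j, hj⟩ : ∃ j, j ≠ i := by
      have : Nontrivial ι := Fintype.one_lt_card_iff_nontrivial.1 (by have := hL.three; omega)
      exact exists_ne i
    exact (hL.indep i j (Ne.symm hj)).ne_zero 0
  set c : N → ℙ ℂ (Fin 3 → ℂ) := fun n => Projectivization.mk ℂ (F n) (hF n) with hc
  set l : ι → ℙ ℂ (Fin 3 → ℂ) := fun i => Projectivization.mk ℂ (L i) (hL0 i) with hl
  have hfin : (range c \ range l).Finite := (finite_range c).subset sdiff_subset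
  have hne : ∀ u w : Fin 3 → ℂ, ∀ (hu : u ≠ 0) (hw : w ≠ 0),
      Projectivization.mk ℂ u hu ≠ Projectivization.mk ℂ w hw → LinearIndependent ℂ ![u, w] := by
    intro u w hu hw h
    rw [LinearIndependent.pair_iff]
    intro s t hst
    have hs : s = 0 := by
      by_contra hs
      apply h
      rw [Projectivization.mk_eq_mk_iff']
      refine ⟨-(t / s), ?_⟩
      have h1 : s • u = -(t • w) := eq_neg_of_add_eq_zero_left hst
      have h2 : u = s⁻¹ • (s • u) := by rw [smul_smul, inv_mul_cancel₀ hs, one_smul]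
      rw [h2, h1, smul_neg, smul_smul, neg_smul]
      congr 2
      field_simp
    refine ⟨hs, ?_⟩
    rw [hs, zero_smul, zero_add] at hst
    exact (smul_eq_zero.1 hst).resolve_right hw
  refine ⟨↥(range c \ range l), hfin.fintype, Sum.elim L fun q => q.1.rep, fun i => rfl, ?_, ?_, ?_⟩
  · let _ := hfin.fintype
    constructor
    · have := hL.three
      rw [Fintype.card_sum]
      omega
    · rintro (i | q) (j | q') hij
      · exact hL.indep i j fun h => hij (by rw [h])
      · refine hne _ _ (hL0 i) q'.1.rep_nonzero ?_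
        show Projectivization.mk ℂ (L i) (hL0 i)
          ≠ Projectivization.mk ℂ q'.1.rep q'.1.rep_nonzero
        rw [Projectivization.mk_rep]
        intro h
        exact q'.2.2 ⟨i, h⟩
      · refine hne _ _ q.1.rep_nonzero (hL0 j) ?_
        show Projectivization.mk ℂ q.1.rep q.1.rep_nonzero
          ≠ Projectivization.mk ℂ (L j) (hL0 j)
        rw [Projectivization.mk_rep]
        intro h
        exact q.2.2 ⟨j, h.symm⟩
      · refine hne _ _ q.1.rep_nonzero q'.1.rep_nonzero ?_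
        show Projectivization.mk ℂ q.1.rep q.1.rep_nonzero
          ≠ Projectivization.mk ℂ q'.1.rep q'.1.rep_nonzero
        rw [Projectivization.mk_rep, Projectivization.mk_rep]
        intro h
        exact hij (by rw [Subtype.ext h])
    · intro x hx
      exact hL.noCommon x fun i => hx (Sum.inl i)
  · intro n
    by_cases h : c n ∈ range l
    · obtain ⟨i, hi⟩ := h
      obtain ⟨a, ha⟩ := (Projectivization.mk_eq_mk_iff ℂ _ _ (hL0 i) (hF n)).1 hi
      exact ⟨Sum.inl i, a, a.ne_zero, ha.symm⟩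
    · refine ⟨Sum.inr ⟨c n, ⟨n, rfl⟩, h⟩, ?_⟩
      obtain ⟨a, ha⟩ := Projectivization.exists_smul_eq_mk_rep ℂ (F n) (hF n)
      exact ⟨a, a.ne_zero, ha.symm⟩
  · rintro ⟨q, ⟨n, rfl⟩, hq⟩
    refine ⟨n, ?_⟩
    obtain ⟨a, ha⟩ := Projectivization.exists_smul_eq_mk_rep ℂ (F n) (hF n)
    exact ⟨a, a.ne_zero, ha.symm⟩

end

end Pool.Agent.H.MP_02294b_ag.Cov
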