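import Pool.Agent.H.MP_02294b_ag.Cov.Real2
import Pool.Agent.H.MP_02294b_ag.Cov.Plane2

/-! Real configurations with double and triple points: at most seven lines. -/

set_option autoImplicit false
set_option linter.unusedSectionVars false

open Set Filter Topology Matrix
open scoped LinearAlgebra.Projectivization

namespace Pool.Agent.H.MP_02294b_ag.Cov

section

variable {ι : Type} [Fintype ι]

/-- the intersection point of two lines -/
def cr (A : ι → Fin 3 → ℝ) (i j : ι) : Fin 3 → ℝ := crossProduct (A i) (A j)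

theorem rlin_dot (A : ι → Fin 3 → ℝ) (i : ι) (x : Fin 3 → ℝ) : rlin A i x = A i ⬝ᵥ x := rfl

theorem rlin_cr_left (A : ι → Fin 3 → ℝ) (i j : ι) : rlin A i (cr A i j) = 0 :=
  dot_self_cross _ _

theorem rlin_cr_right (A : ι → Fin 3 → ℝ) (i j : ι) : rlin A j (cr A i j) = 0 :=
  dot_cross_self _ _

theorem rlin_cr_swap (A : ι → Fin 3 → ℝ) (l i j : ι) :
    rlin A l (cr A i j) = -rlin A i (cr A l j) := by
  simp only [rlin, cr, cross_apply, Fin.sum_univ_three, Matrix.cons_val_zero, Matrix.cons_val_one,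
    Matrix.cons_val]
  ring

theorem cr_ne_zero {A : ι → Fin 3 → ℝ} (hA : IsConfig (cx A)) {i j : ι} (hij : i ≠ j) :
    cr A i j ≠ 0 := by
  rw [cr, crossProduct_ne_zero_iff_linearIndependent, LinearIndependent.pair_iff]
  intro s t hst
  have h1 := LinearIndependent.pair_iff.1 (hA.indep i j hij) (s : ℂ) (t : ℂ) (by
    funext b
    have := congrFun hst b
    simp only [Pi.add_apply, Pi.smul_apply, smul_eq_mul, Pi.zero_apply] at this ⊢
    simp only [cx]
    exact_mod_cast this)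
  exact ⟨by exact_mod_cast h1.1, by exact_mod_cast h1.2⟩

theorem eq_smul_cr {A : ι → Fin 3 → ℝ} (hA : IsConfig (cx A)) {i j : ι} (hij : i ≠ j)
    {x : Fin 3 → ℝ} (hi : rlin A i x = 0) (hj : rlin A j x = 0) : ∃ r : ℝ, x = r • cr A i j := by
  have hc := cr_ne_zero hA hij
  have hcc : cr A i j ⬝ᵥ cr A i j ≠ 0 := fun h0 => hc (dotProduct_self_eq_zero.1 h0)
  refine ⟨(cr A i j ⬝ᵥ x) / (cr A i j ⬝ᵥ cr A i j), ?_⟩
  rw [← sub_eq_zero]
  refine Matrix.eq_zero_of_mulVec_eq_zero (M := Matrix.of ![cr A i j, A i, A j]) ?_ ?_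
  · have h1 := triple_product_eq_det (cr A i j) (A i) (A j)
    have h2 : (Matrix.of ![cr A i j, A i, A j]).det = cr A i j ⬝ᵥ cr A i j := h1.symm
    rw [h2]
    exact hcc
  · funext a
    fin_cases a
    · show cr A i j ⬝ᵥ _ = 0
      rw [dotProduct_sub, dotProduct_smul, smul_eq_mul, div_mul_cancel₀ _ hcc, sub_self]
    · show A i ⬝ᵥ _ = 0
      rw [dotProduct_sub, dotProduct_smul, ← rlin_dot A i x, ← rlin_dot A i (cr A i j), hi,
        rlin_cr_left, smul_zero, sub_zero]
    · show A j ⬝ᵥ _ = 0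
      rw [dotProduct_sub, dotProduct_smul, ← rlin_dot A j x, ← rlin_dot A j (cr A i j), hj,
        rlin_cr_right, smul_zero, sub_zero]

theorem exists_not_through {A : ι → Fin 3 → ℝ} (hA : IsConfig (cx A)) {x : Fin 3 → ℝ}
    (hx : x ≠ 0) : ∃ i, rlin A i x ≠ 0 := by
  by_contra hcon
  push Not at hcon
  apply hx
  have h1 := hA.noCommon (fun j => (x j : ℂ)) fun i => by
    rw [lin_cx, hcon i, Complex.ofReal_zero]
  funext j
  have h2 : ((x j : ℝ) : ℂ) = 0 := congrFun h1 j
  show x j = 0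
  exact_mod_cast h2

/-- Two different lines do not pass both through a point off the line `l` and through a point of
the line `l`. -/
theorem not_two {A : ι → Fin 3 → ℝ} (hA : IsConfig (cx A)) {l i j : ι} (hij : i ≠ j)
    {v u : Fin 3 → ℝ} (hv : rlin A l v ≠ 0) (hu : rlin A l u = 0) (hu0 : u ≠ 0)
    (h1 : rlin A i v = 0) (h2 : rlin A j v = 0) (h3 : rlin A i u = 0) (h4 : rlin A j u = 0) :
    False := by
  obtain ⟨r, hr⟩ := eq_smul_cr hA hij h1 h2
  obtain ⟨s, hs⟩ := eq_smul_cr hA hij h3 h4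
  rw [hr, rlin_smul] at hv
  rw [hs, rlin_smul] at hu
  rcases mul_eq_zero.1 hu with h | h
  · exact hu0 (by rw [hs, h, zero_smul])
  · exact hv (by rw [h, mul_zero])

/-- If no point of the line `l` lies on exactly two lines, the highest vertex in the direction of a
generic linear form is a double point, and the outer sector at this vertex is empty. -/
theorem max_vertex (A : ι → Fin 3 → ℝ) (hA : IsConfig (cx A)) (l : ι)
    (hd : ∀ j, l ≠ j → ∃ i, i ≠ l ∧ i ≠ j ∧ rlin A i (cr A l j) = 0)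
    (φ : Module.Dual ℝ (Fin 3 → ℝ)) (hφ : ∀ j, l ≠ j → φ (cr A l j) ≠ 0) :
    ∃ (i j : ι) (v ui uj : Fin 3 → ℝ), i ≠ j ∧ rlin A l v = 1 ∧ rlin A i v = 0 ∧ rlin A j v = 0 ∧
      (∀ m, m ≠ i → m ≠ j → rlin A m v ≠ 0) ∧ rlin A l ui = 0 ∧ rlin A l uj = 0 ∧
      rlin A i ui = 0 ∧ rlin A j uj = 0 ∧ φ ui = 1 ∧ φ uj = 1 ∧
      (∀ m, 0 ≤ rlin A m v * rlin A m ui) ∧ ∀ m, 0 ≤ rlin A m v * rlin A m uj := by
  classical
  have hcard := hA.three
  set S : Finset (ι × ι) := Finset.univ.filter fun q => rlin A l (cr A q.1 q.2) ≠ 0 with hS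
  have hSmem : ∀ q, q ∈ S ↔ rlin A l (cr A q.1 q.2) ≠ 0 := fun q => by simp [hS]
  have hSne : S.Nonempty := by
    obtain ⟨j, hj⟩ := Fintype.exists_ne_of_one_lt_card (show 1 < Fintype.card ι by omega) l
    obtain ⟨i, hi⟩ := exists_not_through hA (cr_ne_zero hA hj.symm)
    refine ⟨(i, j), (hSmem _).2 ?_⟩
    rw [rlin_cr_swap]
    exact neg_ne_zero.2 hi
  obtain ⟨⟨i, j⟩, hij, hmax⟩ := S.exists_max_image
    (fun q => φ (cr A q.1 q.2) / rlin A l (cr A q.1 q.2)) hSne
  have hc : rlin A l (cr A i j) ≠ 0 := (hSmem _).1 hij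
  obtain ⟨v, hv⟩ : ∃ v : Fin 3 → ℝ, v = (rlin A l (cr A i j))⁻¹ • cr A i j := ⟨_, rfl⟩
  have hvl : rlin A l v = 1 := by rw [hv, rlin_smul, inv_mul_cancel₀ hc]
  have hvi : rlin A i v = 0 := by rw [hv, rlin_smul, rlin_cr_left, mul_zero]
  have hvj : rlin A j v = 0 := by rw [hv, rlin_smul, rlin_cr_right, mul_zero]
  have hφv : φ v = φ (cr A i j) / rlin A l (cr A i j) := by
    rw [hv, map_smul, smul_eq_mul, div_eq_inv_mul]
  have hmax' : ∀ (e f : ι) (w : Fin 3 → ℝ), e ≠ f → rlin A e w = 0 → rlin A f w = 0 →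
      rlin A l w = 1 → φ w ≤ φ v := by
    intro e f w hef he hf hw
    obtain ⟨r, hr⟩ := eq_smul_cr hA hef he hf
    have h1 : r * rlin A l (cr A e f) = 1 := by rw [← rlin_smul, ← hr, hw]
    have h2 : rlin A l (cr A e f) ≠ 0 := by
      intro h0
      rw [h0, mul_zero] at h1
      exact zero_ne_one h1
    have h3 := hmax (e, f) ((hSmem _).2 h2)
    rw [hφv]
    refine le_trans (le_of_eq ?_) h3
    rw [hr, map_smul, smul_eq_mul, eq_div_iff h2]
    linear_combination (φ (cr A e f)) * h1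
  have hne : i ≠ j := by
    rintro rfl
    apply hc
    simp [cr, rlin]
  have hil : l ≠ i := by
    rintro rfl
    rw [hvi] at hvl
    exact zero_ne_one hvl
  have hjl : l ≠ j := by
    rintro rfl
    rw [hvj] at hvl
    exact zero_ne_one hvl
  -- no line meets the rays which start at the highest vertex
  have hup : ∀ (e : ι) (u : Fin 3 → ℝ), rlin A e v = 0 → rlin A l u = 0 → rlin A e u = 0 →
      φ u = 1 → ∀ m, 0 ≤ rlin A m v * rlin A m u := by
    intro e u hev hlu heu hφu m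
    by_contra hneg
    push Not at hneg
    have h1 : rlin A m u ≠ 0 := by
      intro h0
      rw [h0, mul_zero] at hneg
      exact lt_irrefl _ hneg
    obtain ⟨t, ht⟩ : ∃ t : ℝ, t = -(rlin A m v / rlin A m u) := ⟨_, rfl⟩
    have ht' : t * rlin A m u = -rlin A m v := by
      rw [ht]
      field_simp
    have htpos : 0 < t := by
      have h2 : t = -(rlin A m v * rlin A m u) / (rlin A m u) ^ 2 := by
        rw [ht]
        field_simp
      rw [h2]
      have h3 : 0 < -(rlin A m v * rlin A m u) := by linarith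
      positivity
    have h4 : m ≠ e := by
      rintro rfl
      exact h1 heu
    have h5 := hmax' m e (v + t • u) h4
      (by rw [rlin_add, rlin_smul, ht']; ring)
      (by rw [rlin_add, rlin_smul, hev, heu, mul_zero, add_zero])
      (by rw [rlin_add, rlin_smul, hvl, hlu, mul_zero, add_zero])
    rw [map_add, map_smul, hφu, smul_eq_mul, mul_one] at h5
    linarith
  have hui : ∀ e, l ≠ e → rlin A e v = 0 → φ ((φ (cr A l e))⁻¹ • cr A l e) = 1 ∧
      rlin A l ((φ (cr A l e))⁻¹ • cr A l e) = 0 ∧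
      rlin A e ((φ (cr A l e))⁻¹ • cr A l e) = 0 ∧
      ∀ m, 0 ≤ rlin A m v * rlin A m ((φ (cr A l e))⁻¹ • cr A l e) := by
    intro e hle hev
    have h1 : φ ((φ (cr A l e))⁻¹ • cr A l e) = 1 := by
      rw [map_smul, smul_eq_mul]
      exact inv_mul_cancel₀ (hφ e hle)
    have h2 : rlin A l ((φ (cr A l e))⁻¹ • cr A l e) = 0 := by
      rw [rlin_smul, rlin_cr_left, mul_zero]
    have h3 : rlin A e ((φ (cr A l e))⁻¹ • cr A l e) = 0 := by
      rw [rlin_smul, rlin_cr_right, mul_zero]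
    exact ⟨h1, h2, h3, hup e _ hev h2 h3 h1⟩
  obtain ⟨i1, i2, i3, i4⟩ := hui i hil hvi
  obtain ⟨j1, j2, j3, j4⟩ := hui j hjl hvj
  refine ⟨i, j, v, _, _, hne, hvl, hvi, hvj, fun h hhi hhj hh => ?_, i2, j2, i3, j3, i1, j1,
    i4, j4⟩
  let L : Fin 3 → ι := ![i, j, h]
  have hLv : ∀ a, rlin A (L a) v = 0 := by
    intro a
    fin_cases a
    · exact hvi
    · exact hvj
    · exact hh
  have hLinj : Function.Injective L := by
    intro a b hab
    fin_cases a <;> fin_cases b
    · rfl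
    · exact absurd hab hne
    · exact absurd hab hhi.symm
    · exact absurd hab.symm hne
    · rfl
    · exact absurd hab hhj.symm
    · exact absurd hab hhi
    · exact absurd hab hhj
    · rfl
  have hLl : ∀ a, l ≠ L a := by
    intro a h0
    have := hLv a
    rw [← h0, hvl] at this
    exact one_ne_zero this
  have hφL : ∀ a, φ (cr A l (L a)) ≠ 0 := fun a => hφ (L a) (hLl a)
  obtain ⟨u, hu⟩ : ∃ u : Fin 3 → Fin 3 → ℝ,
      ∀ a, u a = (φ (cr A l (L a)))⁻¹ • cr A l (L a) := ⟨_, fun _ => rfl⟩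
  have hφu : ∀ a, φ (u a) = 1 := fun a => by
    rw [hu, map_smul, smul_eq_mul]
    exact inv_mul_cancel₀ (hφL a)
  have hul : ∀ a, rlin A l (u a) = 0 := fun a => by
    rw [hu, rlin_smul, rlin_cr_left, mul_zero]
  have huL : ∀ a, rlin A (L a) (u a) = 0 := fun a => by
    rw [hu, rlin_smul, rlin_cr_right, mul_zero]
  have hu0 : ∀ a, u a ≠ 0 := fun a h0 => by
    have := hφu a
    rw [h0, map_zero] at this
    exact zero_ne_one this
  have hvl' : rlin A l v ≠ 0 := by
    rw [hvl]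
    exact one_ne_zero
  have F1 : ∀ a b, a ≠ b → u a ≠ u b := by
    intro a b hab h0
    refine not_two hA (l := l) (fun h1 => hab (hLinj h1)) hvl' (hul a) (hu0 a) (hLv a) (hLv b)
      (huL a) ?_
    rw [h0]
    exact huL b
  have hAl : A l ≠ 0 := by
    intro h0
    apply hvl'
    simp [rlin, h0]
  obtain ⟨c, hc0, hrel⟩ := exists_rel u hAl (fun a => by
    have := hul a
    rw [rlin] at this
    rw [← this]
    exact Finset.sum_congr rfl fun j _ => mul_comm _ _)
  obtain ⟨a, b, d, hab, had, -, α, β, hα, hβ, hcomb⟩ := exists_comb u c hc0 hrel φ fun a => by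
    rw [hφu]
    exact one_pos
  obtain ⟨μ, hμl, hμa, hμ⟩ := hd (L a) (hLl a)
  have hμu : rlin A μ (u a) = 0 := by
    rw [hu, rlin_smul, hμ, mul_zero]
  have hαβ : α + β = 1 := by
    have := congrArg φ hcomb
    rw [map_add, map_smul, map_smul, hφu a, hφu b, hφu d] at this
    simpa using this.symm
  have F2 : ∀ b, a ≠ b → rlin A μ (u b) ≠ 0 := by
    intro b hab h0
    obtain ⟨r, hr⟩ := eq_smul_cr hA hμl hμu (hul a)
    obtain ⟨s, hs⟩ := eq_smul_cr hA hμl h0 (hul b)
    apply F1 a b hab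
    have h1 := hφu a
    have h2 := hφu b
    rw [hr, map_smul, smul_eq_mul] at h1
    rw [hs, map_smul, smul_eq_mul] at h2
    have h3 : φ (cr A μ l) ≠ 0 := by
      intro h0
      rw [h0, mul_zero] at h1
      exact zero_ne_one h1
    have h4 : r = s := mul_right_cancel₀ h3 (h1.trans h2.symm)
    rw [hr, hs, h4]
  have F3 : rlin A μ v ≠ 0 := by
    intro h0
    exact not_two hA (l := l) hμa hvl' (hul a) (hu0 a) h0 (hLv a) hμu (huL a)
  have hα0 : 0 < α := by
    rcases lt_or_eq_of_le hα with h1 | h1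
    · exact h1
    · exfalso
      apply F1 a d had
      rw [hcomb, ← h1, zero_smul, zero_add]
      have : β = 1 := by rw [← hαβ, ← h1, zero_add]
      rw [this, one_smul]
  have hβ0 : 0 < β := by
    rcases lt_or_eq_of_le hβ with h1 | h1
    · exact h1
    · exfalso
      apply F1 a b hab
      rw [hcomb, ← h1, zero_smul, add_zero]
      have : α = 1 := by rw [← hαβ, ← h1, add_zero]
      rw [this, one_smul]
  have hsum : α * rlin A μ (u b) + β * rlin A μ (u d) = 0 := by
    rw [← rlin_smul, ← rlin_smul, ← rlin_add, ← hcomb]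
    exact hμu
  -- a higher vertex
  have key : ∀ e, a ≠ e → rlin A μ v * rlin A μ (u e) < 0 → False := by
    intro e hae hneg
    have h1 := F2 e hae
    obtain ⟨t, ht⟩ : ∃ t : ℝ, t = -(rlin A μ v / rlin A μ (u e)) := ⟨_, rfl⟩
    have ht' : t * rlin A μ (u e) = -rlin A μ v := by
      rw [ht]
      field_simp
    have htpos : 0 < t := by
      have h2 : t = -(rlin A μ v * rlin A μ (u e)) / (rlin A μ (u e)) ^ 2 := by
        rw [ht]
        field_simp
      rw [h2]
      have h3 : 0 < -(rlin A μ v * rlin A μ (u e)) := by linarith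
      positivity
    have h4 : μ ≠ L e := by
      rintro rfl
      exact h1 (huL e)
    have h5 := hmax' μ (L e) (v + t • u e) h4
      (by rw [rlin_add, rlin_smul, ht']; ring)
      (by rw [rlin_add, rlin_smul, hLv e, huL e, mul_zero, add_zero])
      (by rw [rlin_add, rlin_smul, hvl, hul e, mul_zero, add_zero])
    rw [map_add, map_smul, hφu, smul_eq_mul, mul_one] at h5
    linarith
  rcases lt_or_gt_of_ne (mul_ne_zero F3 (F2 b hab)) with h1 | h1
  · exact key b hab h1
  · apply key d had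
    have h2 : β * (rlin A μ v * rlin A μ (u d)) = -(α * (rlin A μ v * rlin A μ (u b))) := by
      linear_combination (rlin A μ v) * hsum
    have h3 : 0 < α * (rlin A μ v * rlin A μ (u b)) := mul_pos hα0 h1
    by_contra hcon
    push Not at hcon
    have := mul_nonneg hβ0.le hcon
    linarith

/-- The dual form of the theorem of Sylvester and Gallai: some point lies on exactly two lines. -/
theorem exists_double (A : ι → Fin 3 → ℝ) (hA : IsConfig (cx A)) :
    ∃ a b : ι, a ≠ b ∧ ∃ p : Fin 3 → ℝ, p ≠ 0 ∧ rlin A a p = 0 ∧ rlin A b p = 0 ∧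
      ∀ j, j ≠ a → j ≠ b → rlin A j p ≠ 0 := by
  classical
  have hcard := hA.three
  obtain ⟨l⟩ : Nonempty ι := Fintype.card_pos_iff.1 (by omega)
  by_cases hd : ∃ j, l ≠ j ∧ ∀ i, i ≠ l → i ≠ j → rlin A i (cr A l j) ≠ 0
  · obtain ⟨j, hlj, hj⟩ := hd
    exact ⟨l, j, hlj, cr A l j, cr_ne_zero hA hlj, rlin_cr_left A l j, rlin_cr_right A l j, hj⟩
  push Not at hd
  obtain ⟨φ, hφ⟩ := Module.exists_dual_forall_apply_ne_zero (K := ℝ)
    (fun j : {j : ι // l ≠ j} => cr A l j.1) fun j => cr_ne_zero hA j.2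
  obtain ⟨i, j, v, _, _, hij, hvl, hvi, hvj, hv, -⟩ := max_vertex A hA l hd φ
    fun j hj => hφ ⟨j, hj⟩
  refine ⟨i, j, hij, v, ?_, hvi, hvj, hv⟩
  rintro rfl
  simp [rlin] at hvl

end

end Pool.Agent.H.MP_02294b_ag.Cov
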