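import Pool.Agent.H.MP_02294b_ag.Cov.Proj

/-! The points of the side of a triangle. -/

set_option autoImplicit false

open Metric Set Filter Topology Complex
open scoped LinearAlgebra.Projectivization

namespace Pool.Agent.H.MP_02294b_ag.Cov

section

variable {ι : Type} [Fintype ι] (L : ι → Fin 3 → ℂ)

/-- the point of the side over `w` -/
noncomputable def Xh (P : Fin 3 → Fin 3 → ℂ) (w : ℂ) : Fin 3 → ℂ :=
  ((1 + w) ^ 2 / 4) • P 1 + (-((1 - w) ^ 2 / 4)) • P 2

theorem lin_Xh (P : Fin 3 → Fin 3 → ℂ) (i : ι) (w : ℂ) :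
    lin L i (Xh P w) = (1 + w) ^ 2 / 4 * lin L i (P 1) - (1 - w) ^ 2 / 4 * lin L i (P 2) := by
  rw [Xh, lin_add, lin_smul, lin_smul]
  ring

end

end Pool.Agent.H.MP_02294b_ag.Cov
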