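import Mathlib

/-! Planar point sets with few slopes: sequences satisfying a recursion of order two. -/

set_option autoImplicit false

namespace Pool.Agent.H.MP_02294b_ag.Cov

theorem seq_abs {μ : ℝ} (hμ : 2 ≤ |μ|) {D : ℕ → ℝ} (h0 : D 0 = 0) (h1 : D 1 ≠ 0)
    (hD : ∀ i, D (i + 2) = μ * D (i + 1) - D i) (k : ℕ) : |D k| < |D (k + 1)| := by
  induction k with
  | zero =>
    rw [h0, abs_zero]
    exact abs_pos.2 h1
  | succ k ih =>
    have h2 : |μ * D (k + 1)| = |μ| * |D (k + 1)| := abs_mul _ _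
    have h3 : |μ * D (k + 1)| - |D k| ≤ |μ * D (k + 1) - D k| := abs_sub_abs_le_abs_sub _ _
    have h4 : D (k + 1 + 1) = μ * D (k + 1) - D k := hD k
    rw [h4]
    have h5 : 0 ≤ |D (k + 1)| := abs_nonneg _
    nlinarith

theorem trig_seq {θ : ℝ} (hs : Real.sin θ ≠ 0) {U : ℕ → ℝ}
    (hU : ∀ i, U (i + 2) = 2 * Real.cos θ * U (i + 1) - U i) :
    ∀ i : ℕ, U i = Real.cos (i * θ) * U 0
        + Real.sin (i * θ) * ((U 1 - Real.cos θ * U 0) / Real.sin θ) ∧
      U (i + 1) = Real.cos ((i + 1) * θ) * U 0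
        + Real.sin ((i + 1) * θ) * ((U 1 - Real.cos θ * U 0) / Real.sin θ) := by
  intro i
  induction i with
  | zero =>
    constructor
    · simp
    · simp only [Nat.cast_zero, zero_add, one_mul]
      field_simp
      ring
  | succ i ih =>
    obtain ⟨h1, h2⟩ := ih
    refine ⟨by push_cast; exact h2, ?_⟩
    have h3 : U (i + 1 + 1) = 2 * Real.cos θ * U (i + 1) - U i := hU i
    have e1 : ((i + 1 : ℕ) + 1 : ℝ) * θ = ((i : ℝ) + 1) * θ + θ := by
      push_cast
      ring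
    have e2 : (i : ℝ) * θ = ((i : ℝ) + 1) * θ - θ := by ring
    rw [h3, h2, h1, e1, e2, Real.cos_add, Real.sin_add, Real.cos_sub, Real.sin_sub]
    ring

theorem sin_half_identity (a b : ℝ) :
    Real.sin (2 * b) + Real.sin (2 * a) - Real.sin (2 * a + 2 * b)
      = 4 * Real.sin b * Real.sin a * Real.sin (a + b) := by
  have h1 := Real.sin_sq_add_cos_sq a
  have h2 := Real.sin_sq_add_cos_sq b
  rw [Real.sin_add (2 * a), Real.sin_two_mul, Real.sin_two_mul, Real.cos_two_mul, Real.cos_two_mul,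
    Real.sin_add]
  have h3 : Real.cos a ^ 2 = 1 - Real.sin a ^ 2 := by linarith
  have h4 : Real.cos b ^ 2 = 1 - Real.sin b ^ 2 := by linarith
  rw [h3, h4]
  ring

theorem angle_lt_pi {φ : ℝ} (h0 : 0 < φ) (h1 : φ < Real.pi) {n : ℕ}
    (h : ∀ i : ℕ, 2 ≤ i → i < n → 0 < Real.sin (((i : ℝ) - 1) * φ) * Real.sin (i * φ)) :
    ∀ i : ℕ, 1 ≤ i → i < n → (i : ℝ) * φ < Real.pi := by
  intro i hi
  induction i, hi using Nat.le_induction with
  | base =>
    intro _
    simpa using h1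
  | succ i hi ih =>
    intro hlt
    have h2 := ih (by omega)
    have h3 := h (i + 1) (by omega) hlt
    push_cast at h3 ⊢
    rw [add_sub_cancel_right] at h3
    have hi' : (1 : ℝ) ≤ i := by exact_mod_cast hi
    have h4 : 0 < Real.sin ((i : ℝ) * φ) := Real.sin_pos_of_pos_of_lt_pi (by positivity) h2
    have h5 : 0 < Real.sin (((i : ℝ) + 1) * φ) := (mul_pos_iff_of_pos_left h4).1 h3
    by_contra hcon
    push Not at hcon
    have h6 : 0 ≤ Real.sin (((i : ℝ) + 1) * φ - Real.pi) := by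
      apply Real.sin_nonneg_of_nonneg_of_le_pi
      · linarith
      · have : ((i : ℝ) + 1) * φ = i * φ + φ := by ring
        linarith
    rw [Real.sin_sub_pi] at h6
    linarith

theorem angle_eq_pi {φ : ℝ} (h0 : 0 < φ) (h1 : φ < Real.pi) {n : ℕ} (hn : 2 ≤ n)
    (h : ∀ i : ℕ, 2 ≤ i → i < n → 0 < Real.sin (((i : ℝ) - 1) * φ) * Real.sin (i * φ))
    (hper : Real.sin (n * φ) = 0) : (n : ℝ) * φ = Real.pi := by
  have h2 := angle_lt_pi h0 h1 h (n - 1) (by omega) (by omega)
  have h3 : ((n - 1 : ℕ) : ℝ) = (n : ℝ) - 1 := by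
    rw [Nat.cast_sub (by omega)]
    simp
  rw [h3] at h2
  have hn' : (2 : ℝ) ≤ n := by exact_mod_cast hn
  have h4 : (n : ℝ) * φ < 2 * Real.pi := by
    have : ((n : ℝ) - 1) * φ = n * φ - φ := by ring
    linarith
  rcases lt_trichotomy ((n : ℝ) * φ) Real.pi with h5 | h5 | h5
  · exfalso
    have := Real.sin_pos_of_pos_of_lt_pi (by positivity) h5
    linarith
  · exact h5
  · exfalso
    have h6 := Real.sin_pos_of_pos_of_lt_pi (x := (n : ℝ) * φ - Real.pi) (by linarith)
      (by linarith)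
    rw [Real.sin_sub_pi] at h6
    linarith

/-- A closed sequence of points of the plane which satisfies a recursion with constant coefficient
and turns left around its first edge runs through the vertices of an affinely regular polygon. -/
theorem seq_regular {X Y : ℕ → ℝ} {μ : ℝ}
    (hX : ∀ i, X (i + 3) - X (i + 2) = μ * (X (i + 2) - X (i + 1)) - (X (i + 1) - X i))
    (hY : ∀ i, Y (i + 3) - Y (i + 2) = μ * (Y (i + 2) - Y (i + 1)) - (Y (i + 1) - Y i))
    {n : ℕ} (hn : 3 ≤ n) (hpX : ∀ i, X (i + n) = X i) (hpY : ∀ i, Y (i + n) = Y i)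
    (hD : ∀ i, 2 ≤ i → i < n → 0 < (X 1 - X 0) * (Y i - Y 0) - (Y 1 - Y 0) * (X i - X 0)) :
    ∃ c1 c2 p1 p2 q1 q2 : ℝ, p1 * q2 - p2 * q1 ≠ 0 ∧
      ∀ i : ℕ, X i = c1 + Real.cos (i * (2 * Real.pi / n)) * p1
          + Real.sin (i * (2 * Real.pi / n)) * q1 ∧
        Y i = c2 + Real.cos (i * (2 * Real.pi / n)) * p2
          + Real.sin (i * (2 * Real.pi / n)) * q2 := by
  -- the coefficient is small
  have hμ : |μ| < 2 := by
    by_contra hcon
    push Not at hcon
    have h1 := seq_abs hcon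
      (D := fun k => (X 1 - X 0) * (Y (k + 1) - Y k) - (Y 1 - Y 0) * (X (k + 1) - X k))
      (by ring) (by
        have := hD 2 le_rfl (by omega)
        intro h0
        nlinarith) (by
        intro i
        have h2 : Y (i + 2 + 1) - Y (i + 2) = μ * (Y (i + 2) - Y (i + 1)) - (Y (i + 1) - Y i) :=
          hY i
        have h3 : X (i + 2 + 1) - X (i + 2) = μ * (X (i + 2) - X (i + 1)) - (X (i + 1) - X i) :=
          hX i
        rw [h2, h3]
        ring) (n - 1)
    have h2 : n - 1 + 1 = n := by omega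
    have h3 : X (n + 1) = X 1 := by rw [add_comm]; exact hpX 1
    have h4 : X n = X 0 := by
      have := hpX 0
      rwa [zero_add] at this
    have h5 : Y (n + 1) = Y 1 := by rw [add_comm]; exact hpY 1
    have h6 : Y n = Y 0 := by
      have := hpY 0
      rwa [zero_add] at this
    simp only [h2, h3, h4, h5, h6] at h1
    have h7 : (X 1 - X 0) * (Y 1 - Y 0) - (Y 1 - Y 0) * (X 1 - X 0) = 0 := by ring
    rw [h7, abs_zero] at h1
    exact absurd h1 (not_lt.2 (abs_nonneg _))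
  obtain ⟨hμ1, hμ2⟩ := abs_lt.1 hμ
  obtain ⟨θ, hθ⟩ : ∃ θ, θ = Real.arccos (μ / 2) := ⟨_, rfl⟩
  have hcos : Real.cos θ = μ / 2 := by
    rw [hθ]
    exact Real.cos_arccos (by linarith) (by linarith)
  have hθ0 : 0 < θ := by
    rw [hθ]
    exact Real.arccos_pos.2 (by linarith)
  have hθπ : θ < Real.pi := by
    refine lt_of_le_of_ne (by rw [hθ]; exact Real.arccos_le_pi _) ?_
    intro h0
    rw [h0, Real.cos_pi] at hcos
    linarith
  have hsin : 0 < Real.sin θ := Real.sin_pos_of_pos_of_lt_pi hθ0 hθπ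
  have hμc : μ = 2 * Real.cos θ := by
    rw [hcos]
    ring
  have h2μ : (2 - μ) ≠ 0 := by
    intro h0
    linarith
  -- recentring
  have key : ∀ Z : ℕ → ℝ,
      (∀ i, Z (i + 3) - Z (i + 2) = μ * (Z (i + 2) - Z (i + 1)) - (Z (i + 1) - Z i)) →
      ∃ c p q : ℝ, ∀ i : ℕ, Z i = c + Real.cos (i * θ) * p + Real.sin (i * θ) * q := by
    intro Z hZ
    obtain ⟨c, hc⟩ : ∃ c, c = (Z 2 - μ * Z 1 + Z 0) / (2 - μ) := ⟨_, rfl⟩
    have hU : ∀ i, (Z (i + 2) - c) = μ * (Z (i + 1) - c) - (Z i - c) := by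
      intro i
      induction i with
      | zero =>
        have : c * (2 - μ) = Z 2 - μ * Z 1 + Z 0 := by
          rw [hc]
          field_simp
        simp only [zero_add]
        linarith
      | succ i ih =>
        have h3 : Z (i + 3) - Z (i + 2) = μ * (Z (i + 2) - Z (i + 1)) - (Z (i + 1) - Z i) := hZ i
        show Z (i + 3) - c = μ * (Z (i + 2) - c) - (Z (i + 1) - c)
        linarith
    refine ⟨c, Z 0 - c, ((Z 1 - c) - Real.cos θ * (Z 0 - c)) / Real.sin θ, fun i => ?_⟩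
    have := (trig_seq hsin.ne' (U := fun i => Z i - c) (fun i => by
      rw [← hμc]
      exact hU i) i).1
    linarith
  obtain ⟨c1, p1, q1, h1⟩ := key X hX
  obtain ⟨c2, p2, q2, h2⟩ := key Y hY
  have hdet : ∀ i : ℕ, (X 1 - X 0) * (Y i - Y 0) - (Y 1 - Y 0) * (X i - X 0)
      = (p1 * q2 - p2 * q1) *
        (4 * Real.sin (θ / 2) * Real.sin (((i : ℝ) - 1) * (θ / 2)) * Real.sin (i * (θ / 2))) := by
    intro i
    have h3 := sin_half_identity (((i : ℝ) - 1) * (θ / 2)) (θ / 2)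
    have e1 : 2 * (θ / 2) = θ := by ring
    have e2 : 2 * (((i : ℝ) - 1) * (θ / 2)) = i * θ - θ := by ring
    have e3 : ((i : ℝ) - 1) * (θ / 2) + θ / 2 = i * (θ / 2) := by ring
    rw [e1, e2, e3] at h3
    have e4 : (i : ℝ) * θ - θ + θ = i * θ := by ring
    rw [e4, Real.sin_sub] at h3
    rw [← h3, h1 1, h1 0, h2 i, h2 0, h2 1, h1 i]
    simp only [Nat.cast_one, one_mul, Nat.cast_zero, zero_mul, Real.cos_zero, Real.sin_zero]
    ring
  have hφ0 : 0 < θ / 2 := by linarith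
  have hφπ : θ / 2 < Real.pi := by linarith
  have hsφ : 0 < Real.sin (θ / 2) := Real.sin_pos_of_pos_of_lt_pi hφ0 hφπ
  have hpq : 0 < p1 * q2 - p2 * q1 := by
    have h3 := hD 2 le_rfl (by omega)
    rw [hdet] at h3
    push_cast at h3
    have e1 : ((2 : ℝ) - 1) * (θ / 2) = θ / 2 := by ring
    have e2 : (2 : ℝ) * (θ / 2) = θ := by ring
    rw [e1, e2] at h3
    exact (mul_pos_iff_of_pos_right (by positivity)).1 h3
  have hpos : ∀ i : ℕ, 2 ≤ i → i < n →
      0 < Real.sin (((i : ℝ) - 1) * (θ / 2)) * Real.sin (i * (θ / 2)) := by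
    intro i hi hin
    have h3 := hD i hi hin
    rw [hdet] at h3
    have h4 := (mul_pos_iff_of_pos_left hpq).1 h3
    rw [mul_assoc (4 * Real.sin (θ / 2))] at h4
    exact (mul_pos_iff_of_pos_left (by positivity)).1 h4
  have hper : Real.sin (n * (θ / 2)) = 0 := by
    have h3 : X n = X 0 := by
      have := hpX 0
      rwa [zero_add] at this
    have h4 : Y n = Y 0 := by
      have := hpY 0
      rwa [zero_add] at this
    rw [h1 n, h1 0] at h3
    rw [h2 n, h2 0] at h4
    simp only [Nat.cast_zero, zero_mul, Real.cos_zero, Real.sin_zero] at h3 h4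
    have h5 : (p1 * q2 - p2 * q1) * (Real.cos (n * θ) - 1) = 0 := by
      linear_combination q2 * h3 - q1 * h4
    have h6 := (mul_eq_zero.1 h5).resolve_left hpq.ne'
    have h7 : (n : ℝ) * θ = 2 * (n * (θ / 2)) := by ring
    rw [h7, Real.cos_two_mul] at h6
    have h8 := Real.sin_sq_add_cos_sq (n * (θ / 2))
    have h9 : Real.sin (n * (θ / 2)) ^ 2 = 0 := by linarith
    exact pow_eq_zero_iff (two_ne_zero) |>.1 h9
  have hfin := angle_eq_pi hφ0 hφπ (by omega) hpos hper
  have hn0 : (n : ℝ) ≠ 0 := by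
    have : 0 < n := by omega
    positivity
  have hθn : θ = 2 * Real.pi / n := by
    field_simp
    linarith
  refine ⟨c1, c2, p1, p2, q1, q2, hpq.ne', fun i => ?_⟩
  rw [← hθn]
  exact ⟨h1 i, h2 i⟩

end Pool.Agent.H.MP_02294b_ag.Cov
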