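import Pool.Agent.H.MP_02294b_ag.Cov.Slopes1

/-! Planar point sets with few slopes: consecutive points and parallel chords. -/

set_option autoImplicit false

namespace Pool.Agent.H.MP_02294b_ag.Cov

section

variable {κ : Type}

/-- Twice the signed area of the triangle of three of the points. -/
def dt (x y : κ → ℝ) (e f g : κ) : ℝ := (x f - x e) * (y g - y e) - (y f - y e) * (x g - x e)

/-- Points of the plane, no three on a line, with a tangent direction at each point, such that the
slopes of the lines through two of the points are among the slopes seen from each point, the slope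
of the tangent included. -/
structure Slopes (x y t1 t2 : κ → ℝ) : Prop where
  gen : ∀ e f g, e ≠ f → e ≠ g → f ≠ g → dt x y e f g ≠ 0
  tan : ∀ e m, m ≠ e → 0 < t1 e * (y m - y e) - t2 e * (x m - x e)
  slope : ∀ e f g, f ≠ g → (t1 e * (y g - y f) - t2 e * (x g - x f) = 0) ∨
    ∃ j, j ≠ e ∧ (x g - x f) * (y j - y e) - (y g - y f) * (x j - x e) = 0

/-- `f` is the next point after `e`: all the other points are to the left of the line from `e` to
`f`. -/
def Edge (x y : κ → ℝ) (e f : κ) : Prop := e ≠ f ∧ ∀ m, m ≠ e → m ≠ f → 0 < dt x y e f m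

theorem dt_cyc (x y : κ → ℝ) (e f g : κ) : dt x y f g e = dt x y e f g := by
  unfold dt
  ring

theorem dt_swap (x y : κ → ℝ) (e f g : κ) : dt x y e g f = -dt x y e f g := by
  unfold dt
  ring

theorem not_in_triangle {x y t1 t2 : κ → ℝ} (S : Slopes x y t1 t2) {e f g m : κ} (he : e ≠ m)
    (hf : f ≠ m) (hg : g ≠ m) (h1 : 0 < dt x y e f m) (h2 : 0 < dt x y f g m)
    (h3 : 0 < dt x y g e m) : False := by
  have k1 := S.tan m e he
  have k2 := S.tan m f hf
  have k3 := S.tan m g hg
  have key : dt x y f g m * (t1 m * (y e - y m) - t2 m * (x e - x m))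
      + dt x y g e m * (t1 m * (y f - y m) - t2 m * (x f - x m))
      + dt x y e f m * (t1 m * (y g - y m) - t2 m * (x g - x m)) = 0 := by
    unfold dt
    ring
  have l1 := mul_pos h2 k1
  have l2 := mul_pos h3 k2
  have l3 := mul_pos h1 k3
  linarith

theorem free_slope {x y t1 t2 : κ → ℝ} (S : Slopes x y t1 t2) {j l e f g : κ}
    (hE : Edge x y j l) (hej : e ≠ j) (hel : e ≠ l) (hfg : f ≠ g)
    (h1 : 0 < (x j - x e) * (y g - y f) - (y j - y e) * (x g - x f))
    (h2 : 0 < (x g - x f) * (y l - y e) - (y g - y f) * (x l - x e)) : False := by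
  have hj := S.tan e j hej.symm
  have hl := S.tan e l hel.symm
  have hjl : 0 < dt x y e j l := by
    rw [← dt_cyc]
    exact hE.2 e hej hel
  -- Cramer's rule
  have key : dt x y e j l * (t1 e * (y g - y f) - t2 e * (x g - x f))
      = ((x g - x f) * (y l - y e) - (y g - y f) * (x l - x e))
          * (t1 e * (y j - y e) - t2 e * (x j - x e))
        + ((x j - x e) * (y g - y f) - (y j - y e) * (x g - x f))
          * (t1 e * (y l - y e) - t2 e * (x l - x e)) := by
    unfold dt
    ring
  have hd : 0 < t1 e * (y g - y f) - t2 e * (x g - x f) := by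
    have l1 := mul_pos h2 hj
    have l2 := mul_pos h1 hl
    have l3 : 0 < dt x y e j l * (t1 e * (y g - y f) - t2 e * (x g - x f)) := by linarith
    exact (mul_pos_iff_of_pos_left hjl).1 l3
  rcases S.slope e f g hfg with h | ⟨m, hme, h⟩
  · linarith
  · have hm := S.tan e m hme
    have e1 : dt x y e j m * (t1 e * (y g - y f) - t2 e * (x g - x f))
        = ((x j - x e) * (y g - y f) - (y j - y e) * (x g - x f))
          * (t1 e * (y m - y e) - t2 e * (x m - x e)) := by
      unfold dt
      linear_combination (t1 e * (y j - y e) - t2 e * (x j - x e)) * h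
    have e2 : dt x y e m l * (t1 e * (y g - y f) - t2 e * (x g - x f))
        = ((x g - x f) * (y l - y e) - (y g - y f) * (x l - x e))
          * (t1 e * (y m - y e) - t2 e * (x m - x e)) := by
      unfold dt
      linear_combination (t2 e * (x l - x e) - t1 e * (y l - y e)) * h
    have p1 : 0 < dt x y e j m := by
      have := mul_pos h1 hm
      rw [← e1] at this
      exact (mul_pos_iff_of_pos_right hd).1 this
    have p2 : 0 < dt x y e m l := by
      have := mul_pos h2 hm
      rw [← e2] at this
      exact (mul_pos_iff_of_pos_right hd).1 this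
    have hmj : m ≠ j := by
      rintro rfl
      have : dt x y e m m = 0 := by
        unfold dt
        ring
      linarith
    have hml : m ≠ l := by
      rintro rfl
      have : dt x y e m m = 0 := by
        unfold dt
        ring
      linarith
    refine not_in_triangle S (e := e) (f := j) (g := l) (m := m) hme.symm hmj.symm hml.symm p1
      (hE.2 m hmj hml) ?_
    have e3 : dt x y l e m = dt x y e m l := (dt_cyc x y l e m).symm
    rw [e3]
    exact p2

/-- Disjoint edges: the chord of the inner points is parallel to the chord of the outer points. -/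
theorem edge_parallel {x y t1 t2 : κ → ℝ} (S : Slopes x y t1 t2) {a b d f : κ}
    (h1 : Edge x y a b) (h2 : Edge x y d f) (had : a ≠ d) (haf : a ≠ f) (hbd : b ≠ d)
    (hbf : b ≠ f) : (x d - x b) * (y f - y a) - (y d - y b) * (x f - x a) = 0 := by
  have k1 := h1.2 d had.symm hbd.symm
  have k2 := h2.2 b hbd hbf
  have l1 := fun h => free_slope S h2 (e := a) (f := b) (g := d) had haf hbd (by
    have : (x d - x a) * (y d - y b) - (y d - y a) * (x d - x b) = dt x y a b d := by
      unfold dt
      ring
    rw [this]
    exact k1) h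
  have l2 := fun h => free_slope S h1 (e := f) (f := d) (g := b) haf.symm hbf.symm hbd.symm h (by
    have : (x b - x d) * (y b - y f) - (y b - y d) * (x b - x f) = dt x y d f b := by
      unfold dt
      ring
    rw [this]
    exact k2)
  have m1 := not_lt.1 l1
  have m2 := not_lt.1 l2
  apply le_antisymm m1
  have : (x a - x f) * (y b - y d) - (y a - y f) * (x b - x d)
      = -((x d - x b) * (y f - y a) - (y d - y b) * (x f - x a)) := by ring
  rw [this] at m2
  linarith

theorem exists_edge [Finite κ] {x y t1 t2 : κ → ℝ} (S : Slopes x y t1 t2) {e : κ}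
    (hne : ∃ m, m ≠ e) : ∃ f, Edge x y e f := by
  obtain ⟨f, hf, hmax⟩ := Set.exists_max_image {m : κ | m ≠ e}
    (fun m => (t1 e * (x m - x e) + t2 e * (y m - y e)) / (t1 e * (y m - y e) - t2 e * (x m - x e)))
    (Set.toFinite _) hne
  refine ⟨f, Ne.symm hf, fun m hm hmf => ?_⟩
  have h1 := hmax m hm
  have hf' : f ≠ e := hf
  have k1 := S.tan e f hf'
  have k2 := S.tan e m hm
  rw [div_le_div_iff₀ k2 k1] at h1
  have ht : 0 < t1 e ^ 2 + t2 e ^ 2 := by
    by_contra hcon
    have h3 : t1 e = 0 := by nlinarith [sq_nonneg (t1 e), sq_nonneg (t2 e)]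
    have h4 : t2 e = 0 := by nlinarith [sq_nonneg (t1 e), sq_nonneg (t2 e)]
    rw [h3, h4] at k1
    linarith
  have key : (t1 e ^ 2 + t2 e ^ 2) * dt x y e f m
      = (t1 e * (x f - x e) + t2 e * (y f - y e)) * (t1 e * (y m - y e) - t2 e * (x m - x e))
        - (t1 e * (x m - x e) + t2 e * (y m - y e)) * (t1 e * (y f - y e) - t2 e * (x f - x e)) := by
    unfold dt
    ring
  have h5 : 0 ≤ (t1 e ^ 2 + t2 e ^ 2) * dt x y e f m := by
    rw [key]
    linarith
  have h6 : 0 ≤ dt x y e f m := (mul_nonneg_iff_of_pos_left ht).1 h5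
  exact lt_of_le_of_ne h6 (S.gen e f m (Ne.symm hf') (Ne.symm hm) (Ne.symm hmf)).symm

theorem edge_inj {x y : κ → ℝ} {e f g : κ} (h1 : Edge x y e g) (h2 : Edge x y f g) : e = f := by
  by_contra hne
  have k1 := h1.2 f (Ne.symm hne) h2.1
  have k2 := h2.2 e hne h1.1
  have : dt x y f g e = -dt x y e g f := by
    unfold dt
    ring
  linarith

end

end Pool.Agent.H.MP_02294b_ag.Cov
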