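import Pool.Agent.H.MP_6c077c_gt.NoRetract
import Pool.Agent.H.MP_5f9601_gt.Fin.SphereSC

/-! The identity of a Euclidean sphere is not null-homotopic; covering spaces. -/

set_option autoImplicit false

open Metric Set Filter Topology

namespace Pool.Agent.H.MP_02294b_ag.Cov

open Pool.Agent.H.MP_5f9601_gt (nrm coe_nrm norm_coe homotopicRel_of_not_antipodal)

variable {V : Type*} [NormedAddCommGroup V] [InnerProductSpace ℝ V] [FiniteDimensional ℝ V]

/-- The identity of the unit sphere is not null-homotopic. -/
theorem id_not_null (c : sphere (0 : V) 1) :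
    ¬ (ContinuousMap.id (sphere (0 : V) 1)).Homotopic (ContinuousMap.const _ c) := by
  rintro ⟨H⟩
  classical
  let R : V → V := fun x => if h : x = 0 then (c : V) else
    (max ‖x‖ 1) • (H (projIcc (0:ℝ) 1 zero_le_one (2 - 2 * ‖x‖), nrm x h) : V)
  have hR0 : ∀ y : V, ‖y‖ < 1 / 2 → R y = c := by
    intro y hy
    by_cases h : y = 0
    · simp [R, h]
    · have h1 : projIcc (0:ℝ) 1 zero_le_one (2 - 2 * ‖y‖) = 1 :=
        projIcc_of_right_le _ (by linarith)
      have h2 : max ‖y‖ 1 = 1 := max_eq_right (by linarith)
      simp only [R, h, dite_false, h1, h2, one_smul]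
      rw [H.apply_one]
      rfl
  have hR1 : ∀ y : V, 1 ≤ ‖y‖ → R y = y := by
    intro y hy
    have h : y ≠ 0 := by
      rintro rfl
      simp at hy
      linarith
    have h1 : projIcc (0:ℝ) 1 zero_le_one (2 - 2 * ‖y‖) = 0 :=
      projIcc_of_le_left _ (by linarith)
    have h2 : max ‖y‖ 1 = ‖y‖ := max_eq_left hy
    simp only [R, h, dite_false, h1, h2]
    rw [H.apply_zero]
    simp only [ContinuousMap.id_apply, coe_nrm]
    rw [smul_smul, mul_inv_cancel₀ (norm_ne_zero_iff.2 h), one_smul]
  have hcont : Continuous R := by
    rw [continuous_iff_continuousAt]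
    intro x
    by_cases hx : x = 0
    · subst hx
      have : R =ᶠ[𝓝 0] fun _ => (c : V) := by
        have : Metric.ball (0 : V) (1/2) ∈ 𝓝 (0 : V) := Metric.ball_mem_nhds _ (by norm_num)
        filter_upwards [this] with y hy
        exact hR0 y (by simpa using hy)
      exact (continuousAt_const).congr this.symm
    · have hopen : IsOpen {y : V | y ≠ 0} := isOpen_ne
      have hon : ContinuousOn R {y : V | y ≠ 0} := by
        rw [continuousOn_iff_continuous_domRestrict]
        have : ({y : V | y ≠ 0}.domRestrict R) = fun y : {y : V | y ≠ 0} =>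
            (max ‖(y : V)‖ 1) • (H (projIcc (0:ℝ) 1 zero_le_one (2 - 2 * ‖(y : V)‖),
              nrm (y : V) y.2) : V) := by
          funext y
          have : (y : V) ≠ 0 := y.2
          simp only [domRestrict_apply, R, this, dite_false]
        rw [this]
        have hn : Continuous fun y : {y : V | y ≠ 0} => nrm (y : V) y.2 := by
          apply Continuous.subtype_mk
          exact (continuous_subtype_val.norm.inv₀ fun y => norm_ne_zero_iff.2 y.2).smul
            continuous_subtype_val
        have hp : Continuous fun y : {y : V | y ≠ 0} =>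
            projIcc (0:ℝ) 1 zero_le_one (2 - 2 * ‖(y : V)‖) :=
          continuous_projIcc.comp (by fun_prop)
        have hm : Continuous fun y : {y : V | y ≠ 0} => max ‖(y : V)‖ 1 := by fun_prop
        exact hm.smul (continuous_subtype_val.comp (H.continuous.comp (hp.prodMk hn)))
      exact hon.continuousAt (hopen.mem_nhds hx)
  obtain ⟨x, hx⟩ := Pool.Schoen.exists_zero R hcont hR1
  by_cases h : x = 0
  · have := hR0 x (by simp [h])
    rw [hx] at this
    have h3 := norm_coe c
    rw [← this] at h3
    simp at h3
  · have h1 : max ‖x‖ 1 ≠ 0 := by positivity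
    simp only [R, h, dite_false] at hx
    rw [smul_eq_zero] at hx
    rcases hx with hx | hx
    · exact h1 hx
    · have h3 := norm_coe (H (projIcc (0:ℝ) 1 zero_le_one (2 - 2 * ‖x‖), nrm x h))
      rw [hx] at h3
      simp at h3

/-- The Euclidean 2-sphere. -/
abbrev S2 : Type := sphere (0 : EuclideanSpace ℝ (Fin 3)) 1

instance : SimplyConnectedSpace S2 :=
  Pool.Agent.H.MP_5f9601_gt.sphere_simplyConnected (by simp)

instance : LocallyPathConnectedSpace S2 :=
  ChartedSpace.locallyPathConnectedSpace (EuclideanSpace ℝ (Fin 2)) S2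

/-- A map from the two-sphere which becomes essential after composition is essential. -/
theorem not_null_of_retract {X : Type*} [TopologicalSpace X]
    (f : C(S2, X)) (g : C(X, S2)) (hgf : (g.comp f).Homotopic (ContinuousMap.id S2)) :
    ¬ f.Nullhomotopic := by
  rintro h
  obtain ⟨c, hc⟩ := h.comp_right g
  exact id_not_null c (hgf.symm.trans hc)

/-- A space with a map from the two-sphere and a map to the two-sphere whose composition is
homotopic to the identity has no contractible covering space. -/
theorem no_contractible_cover {X E : Type*} [TopologicalSpace X] [TopologicalSpace E]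
    (f : C(S2, X)) (hf : ¬ f.Nullhomotopic)
    (q : E → X) (hq : IsCoveringMap q) (hs : Function.Surjective q) : ¬ ContractibleSpace E := by
  intro hE
  obtain ⟨x0⟩ : Nonempty S2 := PathConnectedSpace.nonempty
  obtain ⟨e0, he0⟩ := hs (f x0)
  obtain ⟨F, ⟨hF0, hF⟩, -⟩ := hq.existsUnique_continuousMap_lifts f x0 e0 he0
  have h1 : ((ContinuousMap.id E).comp F).Nullhomotopic := (id_nullhomotopic E).comp_left F
  have h2 := h1.comp_right (⟨q, hq.continuous⟩ : C(E, X))
  apply hf
  convert h2 using 1
  ext x
  exact (congrFun hF x).symm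

end Pool.Agent.H.MP_02294b_ag.Cov
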